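import Mathlib.CategoryTheory.Category.Init
import Mathlib.Analysis.SpecialFunctions.Exp
import Mathlib.Topology.ContinuousMap.Algebra
import Mathlib.LinearAlgebra.Matrix.NonsingularInverse
import Mathlib.Topology.Algebra.Module.ModuleTopology
import Mathlib.Analysis.InnerProductSpace.Basic
import Mathlib.Analysis.Calculus.ContDiff.Defs

-- ======== part 0: formerly Pool.Agent.MP_417fa2_gt.Flow.Spec
section MrgPart0

/-!
The abstract flow: a compact space `M`, an algebra `A` of continuous functions, a positive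
functional `I` and a symmetric nonnegative operator `P` on `A`.
-/

open Set Filter
open scoped Topology

namespace Pool.Agent.MP_417fa2_gt.Flow

universe u

variable {M : Type u} [TopologicalSpace M] [CompactSpace M]

/-- The exponential of a continuous function. -/
noncomputable def ex (f : C(M, ℝ)) : C(M, ℝ) := ⟨fun x => Real.exp (f x), by fun_prop⟩

/-- The data of the abstract problem. -/
structure Pre (M : Type u) [TopologicalSpace M] [CompactSpace M] where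
  A : Subalgebra ℝ C(M, ℝ)
  I : C(M, ℝ) →L[ℝ] ℝ
  P : Module.End ℝ A

/-- The squared norm `I (((1 + P)^m f)²)`. -/
noncomputable def Pre.nn (D : Pre M) (m : ℕ) (f : D.A) : ℝ :=
  D.I ((((1 + D.P) ^ m) f : D.A) ^ 2 : D.A)

/-- The scalar product `I (f g)`. -/
noncomputable def Pre.ip (D : Pre M) (f g : D.A) : ℝ := D.I (f * g : D.A)

/-- The axioms of the abstract problem. -/
structure Pre.Ok (D : Pre M) : Prop where
  I_nonneg : ∀ f : C(M, ℝ), (∀ x, 0 ≤ f x) → 0 ≤ D.I f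
  I_one : 0 < D.I 1
  ex_mem : ∀ f ∈ D.A, ex f ∈ D.A
  symm : ∀ f g : D.A, D.ip (D.P f) g = D.ip f (D.P g)
  nonneg : ∀ f : D.A, 0 ≤ D.ip f (D.P f)
  ker : ∀ f : D.A, D.P f = 0 → ∃ c : ℝ, f = c • 1
  P_one : D.P 1 = 0
  surj : ∀ f : D.A, ∃ u : D.A, u + D.P u = f
  agmon : ∃ C : ℝ, 0 < C ∧ ∀ (f : D.A) (x : M), (f : C(M, ℝ)) x ^ 4 ≤ C * D.nn 0 f * D.nn 1 f
  alg : ∀ m, 1 ≤ m → ∃ C : ℝ, 0 < C ∧ ∀ f g : D.A, D.nn m (f * g) ≤ C * D.nn m f * D.nn m g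
  expb : ∀ m, 1 ≤ m → ∀ R : ℝ, ∃ C : ℝ, ∀ f g : D.A, (g : C(M, ℝ)) = ex f → D.nn m f ≤ R →
    D.nn m g ≤ C
  cpt : ∀ (U : Ultrafilter ℕ) (f : ℕ → D.A), (∀ m, ∃ C : ℝ, ∀ n, D.nn m (f n) ≤ C) →
    ∃ g : D.A, ∀ m, Tendsto (fun n => D.nn m (f n - g)) U (𝓝 0)

/-- A finite orthonormal family with attached numbers (eigenvalues). -/
structure Gal (I : C(M, ℝ) →L[ℝ] ℝ) where
  n : ℕ
  φ : Fin n → C(M, ℝ)
  lam : Fin n → ℝ
  orth : ∀ i j, I (φ i * φ j) = if i = j then 1 else 0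
  lam_nonneg : ∀ i, 0 ≤ lam i

variable {I : C(M, ℝ) →L[ℝ] ℝ}

/-- The function with coefficients `c`. -/
noncomputable def Gal.emb (G : Gal I) (c : Fin G.n → ℝ) : C(M, ℝ) := ∑ i, c i • G.φ i

/-- The squared `H²` norm of `G.emb c`. -/
noncomputable def Gal.z (G : Gal I) (c : Fin G.n → ℝ) : ℝ := ∑ i, (1 + G.lam i) * c i ^ 2

/-- Agmon's inequality on the span of the family. -/
def Gal.Agm (G : Gal I) (C : ℝ) : Prop :=
  ∀ (c : Fin G.n → ℝ) (x : M),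
    G.emb c x ^ 4 ≤ C * (∑ i, c i ^ 2) * ∑ i, (1 + G.lam i) ^ 2 * c i ^ 2

/-- Trudinger's moment bound on the span of the family. -/
def Gal.Mom (G : Gal I) (K : ℝ) : Prop :=
  ∀ k : ℕ, 1 ≤ k → ∀ c : Fin G.n → ℝ, I (G.emb c ^ (2 * k)) ≤ (K * k) ^ k * G.z c ^ k

/-- The properties of a family that are used in the energy estimates. -/
structure Gal.Fine (G : Gal I) (γ K : ℝ) : Prop where
  gap : ∀ i, G.lam i = 0 ∨ γ ≤ G.lam i
  ker : ∀ i, G.lam i = 0 → ∃ a : ℝ, G.φ i = a • 1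
  one : ∃ e : Fin G.n → ℝ, G.emb e = 1 ∧ ∀ i, G.lam i * e i = 0
  mom : G.Mom K

/-- `G` consists of eigenfunctions of `P` and is complete below the level `Λ`. -/
structure Pre.Spec (D : Pre M) (G : Gal D.I) (Λ : ℝ) : Prop where
  mem : ∀ i, G.φ i ∈ D.A
  eig : ∀ (i) (f : D.A), (f : C(M, ℝ)) = G.φ i → D.P f = G.lam i • f
  tail : ∀ g : D.A, (∀ i, D.I (g * G.φ i) = 0) → Λ * D.ip g g ≤ D.ip g (D.P g)

/-- Spectral families exist at every level. -/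
def SpecStmt : Prop :=
  ∀ (M : Type u) [TopologicalSpace M] [CompactSpace M] (D : Pre M), D.Ok →
    ∀ Λ : ℝ, ∃ G : Gal D.I, D.Spec G Λ

/-- Agmon's inequality gives the moment bound. -/
def TrudStmt : Prop :=
  ∀ (M : Type u) [TopologicalSpace M] [CompactSpace M] (I : C(M, ℝ) →L[ℝ] ℝ),
    (∀ f : C(M, ℝ), (∀ x, 0 ≤ f x) → 0 ≤ I f) → ∀ C : ℝ, ∃ K : ℝ, 0 < K ∧
      ∀ G : Gal I, G.Agm C → G.Mom K

/-- Spectral families are fine, with uniform constants. -/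
def FineStmt : Prop :=
  ∀ (M : Type u) [TopologicalSpace M] [CompactSpace M] (D : Pre M), D.Ok →
    ∃ γ K : ℝ, 0 < γ ∧ 0 < K ∧ ∀ (G : Gal D.I) (Λ : ℝ), 1 ≤ Λ → D.Spec G Λ → G.Fine γ K

/-- The abstract global existence theorem. -/
def FlowStmt : Prop :=
  ∀ (M : Type u) [TopologicalSpace M] [CompactSpace M] (D : Pre M), D.Ok → ∀ Q : D.A,
    ∃ (W : ℕ → ℝ → D.A) (q : ℝ → D.A), W 0 0 = 0 ∧
      (∀ t, 0 ≤ t →
        ex ((4 : ℝ) • (W 0 t : C(M, ℝ))) * q t = ((1 / 2 : ℝ) • D.P (W 0 t) + Q : D.A) ∧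
        ex ((4 : ℝ) • (W 0 t : C(M, ℝ))) * W 1 t = ((-1 / 2 : ℝ) • D.P (q t) : D.A)) ∧
      ∀ (j m : ℕ) (T : ℝ), ∃ C : ℝ, ∀ t ∈ Icc 0 T, ∀ t' ∈ Icc 0 T,
        D.nn m (W j t' - W j t - (t' - t) • W (j + 1) t) ≤ C * (t' - t) ^ 4

end Pool.Agent.MP_417fa2_gt.Flow

end MrgPart0

-- ======== part 1: formerly Pool.Agent.MP_417fa2_gt.Flow.Gal
section MrgPart1

/-!
The mixed Galerkin system on the span of a finite orthonormal family, the hierarchy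
`u₀ = q, u₁ = w_t, u_{n+2} = ∂_t u_n`, and the statements that split `FlowStmt`.
-/

open Set Filter Matrix
open scoped Topology ContDiff

namespace Pool.Agent.MP_417fa2_gt.Flow

universe u

variable {M : Type u} [TopologicalSpace M] [CompactSpace M] {I : C(M, ℝ) →L[ℝ] ℝ}

namespace Gal

variable (G : Gal I) (Q : C(M, ℝ))

/-- The density `e^{4w}`. -/
noncomputable def rho (c : Fin G.n → ℝ) : C(M, ℝ) := ex ((4 : ℝ) • G.emb c)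

/-- The Gram matrix for the weight `e^{4w}`. -/
noncomputable def gram (c : Fin G.n → ℝ) : Matrix (Fin G.n) (Fin G.n) ℝ :=
  Matrix.of fun i j => I (G.rho c * G.φ j * G.φ i)

/-- The coefficients of the Galerkin curvature `q`. -/
noncomputable def U0 (c : Fin G.n → ℝ) : Fin G.n → ℝ :=
  (G.gram c)⁻¹ *ᵥ fun i => 1 / 2 * G.lam i * c i + I (Q * G.φ i)

/-- The Galerkin vector field. -/
noncomputable def U1 (c : Fin G.n → ℝ) : Fin G.n → ℝ :=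
  (G.gram c)⁻¹ *ᵥ fun i => -1 / 2 * G.lam i * G.U0 Q c i

/-- The hierarchy of coefficient vectors. -/
noncomputable def U : ℕ → (Fin G.n → ℝ) → Fin G.n → ℝ
  | 0 => G.U0 Q
  | 1 => G.U1 Q
  | n + 2 => fun c => fderiv ℝ (U n) c (G.U1 Q c)

/-- The hierarchy of functions. -/
noncomputable def u (n : ℕ) (c : Fin G.n → ℝ) : C(M, ℝ) := G.emb (G.U Q n c)

/-- The lower order terms of the differentiated equations. -/
noncomputable def T : ℕ → (Fin G.n → ℝ) → C(M, ℝ)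
  | 0 => fun _ => 0
  | 1 => fun c => (4 : ℝ) • (G.u Q 0 c * G.u Q 1 c)
  | n + 2 => fun c => fderiv ℝ (T n) c (G.U1 Q c) +
      (4 : ℝ) • (G.u Q 1 c * (G.u Q (n + 1) c + T n c))

/-- The energies `∫ ρ u_n²`. -/
noncomputable def Y (n : ℕ) (c : Fin G.n → ℝ) : ℝ := I (G.rho c * G.u Q n c ^ 2)

/-- The time derivative of `Y n`. -/
noncomputable def dY (n : ℕ) (c : Fin G.n → ℝ) : ℝ :=
  -2 * G.Y Q (n + 1) c - 2 * I (G.rho c * G.T Q n c * G.u Q (n + 1) c) -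
    2 * I (G.rho c * G.T Q (n + 1) c * G.u Q n c) + 4 * I (G.rho c * G.u Q 1 c * G.u Q n c ^ 2)

/-- Minus the Liouville energy. -/
noncomputable def J (c : Fin G.n → ℝ) : ℝ :=
  -(1 / 4 * ∑ i, G.lam i * c i ^ 2 + I (Q * G.emb c))

/-- Solutions of the Galerkin system on `[0, τ]`, slowed down by a factor `θ`. -/
structure STraj (τ : ℝ) (θ : ℝ → ℝ) (c : ℝ → Fin G.n → ℝ) : Prop where
  zero : c 0 = 0
  mem : ∀ t ∈ Icc 0 τ, θ t ∈ Icc (0 : ℝ) 1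
  der : ∀ t ∈ Icc 0 τ, HasDerivWithinAt c (θ t • G.U1 Q (c t)) (Icc 0 τ) t

/-- Solutions of the Galerkin system on `[0, τ]`. -/
structure Traj (τ : ℝ) (c : ℝ → Fin G.n → ℝ) : Prop where
  zero : c 0 = 0
  der : ∀ t ∈ Icc 0 τ, HasDerivWithinAt c (G.U1 Q (c t)) (Icc 0 τ) t

end Gal

/-- The signs `-1/2, 1/2, -1/2, …`. -/
noncomputable def sg (n : ℕ) : ℝ := (-1) ^ (n + 1) / 2

/-- Functions that are given for all Galerkin spaces at once. -/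
abbrev Fam (I : C(M, ℝ) →L[ℝ] ℝ) : Type u := ∀ G : Gal I, (Fin G.n → ℝ) → C(M, ℝ)

/-- `u n` as a family. -/
noncomputable def uF (I : C(M, ℝ) →L[ℝ] ℝ) (Q : C(M, ℝ)) (n : ℕ) : Fam I := fun G => G.u Q n

/-- `T n` as a family. -/
noncomputable def TF (I : C(M, ℝ) →L[ℝ] ℝ) (Q : C(M, ℝ)) (n : ℕ) : Fam I := fun G => G.T Q n

/-- Universal polynomials in `u 0, …, u (k-1)`. -/
noncomputable def Pol (I : C(M, ℝ) →L[ℝ] ℝ) (Q : C(M, ℝ)) (k : ℕ) : Subalgebra ℝ (Fam I) :=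
  Algebra.adjoin ℝ (uF I Q '' Iio k)

/-- The identities of the Galerkin system. -/
structure Sys (I : C(M, ℝ) →L[ℝ] ℝ) (Q : C(M, ℝ)) : Prop where
  smU : ∀ (G : Gal I) (n : ℕ), ContDiff ℝ ∞ (G.U Q n)
  eq0 : ∀ (G : Gal I) c i, I (G.rho c * G.u Q 0 c * G.φ i) = 1 / 2 * G.lam i * c i + I (Q * G.φ i)
  eqn : ∀ (G : Gal I) (n : ℕ) c i,
    I (G.rho c * (G.u Q (n + 1) c + G.T Q n c) * G.φ i) = sg n * G.lam i * G.U Q n c i
  derRho : ∀ (G : Gal I) (s : Set ℝ) (t : ℝ) (c : ℝ → Fin G.n → ℝ) (v : Fin G.n → ℝ),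
    HasDerivWithinAt c v s t →
    HasDerivWithinAt (fun t => G.rho (c t)) ((4 : ℝ) • (G.rho (c t) * G.emb v)) s t
  derY : ∀ (G : Gal I) (n : ℕ) (s : Set ℝ) (t : ℝ) (c : ℝ → Fin G.n → ℝ),
    HasDerivWithinAt c (G.U1 Q (c t)) s t →
    HasDerivWithinAt (fun t => G.Y Q n (c t)) (G.dY Q n (c t)) s t
  pol : ∀ n, TF I Q n ∈ Pol I Q (n + 1)
  two : TF I Q 2 = (4 : ℝ) • (uF I Q 1 * uF I Q 1)
  three : TF I Q 3 = (4 : ℝ) • (uF I Q 0 * uF I Q 3) + (8 : ℝ) • (uF I Q 1 * uF I Q 2) +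
    (16 : ℝ) • (uF I Q 0 * uF I Q 1 * uF I Q 1)
  str : ∀ m, ∃ a ∈ Pol I Q (m + 2), ∃ b ∈ Pol I Q (m + 2), ∃ c ∈ Pol I Q (m + 2),
    ∃ d ∈ Pol I Q (m + 2),
    TF I Q (m + 4) = a * uF I Q (m + 4) + b * uF I Q (m + 3) + c * uF I Q (m + 2) + d

/-- A property of all positive functionals `I` and all `Q`. -/
def ForI (p : ∀ (M : Type u) [TopologicalSpace M] [CompactSpace M],
    (C(M, ℝ) →L[ℝ] ℝ) → C(M, ℝ) → Prop) : Prop :=
  ∀ (M : Type u) [TopologicalSpace M] [CompactSpace M] (I : C(M, ℝ) →L[ℝ] ℝ) (Q : C(M, ℝ)),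
    (∀ f : C(M, ℝ), (∀ x, 0 ≤ f x) → 0 ≤ I f) → 0 < I 1 → p M I Q

/-- The `H²` bound and the bound for the Liouville energy. -/
def St1 (I : C(M, ℝ) →L[ℝ] ℝ) (Q : C(M, ℝ)) : Prop :=
  ∀ γ K τ : ℝ, 0 < γ → 0 < K → ∃ C : ℝ, ∀ G : Gal I, G.Fine γ K → ∀ θ c, G.STraj Q τ θ c →
    ∀ t ∈ Icc 0 τ, I (G.rho (c t)) = I 1 ∧ G.z (c t) ≤ C ∧ 0 ≤ G.J Q (c t) ∧ G.J Q (c t) ≤ C

/-- Global existence for the Galerkin system. -/
def Ex (I : C(M, ℝ) →L[ℝ] ℝ) (Q : C(M, ℝ)) : Prop :=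
  ∀ γ K τ : ℝ, 0 < γ → 0 < K → 0 ≤ τ → ∀ G : Gal I, G.Fine γ K → ∃ c, G.Traj Q τ c

/-- Level `m` of the energy hierarchy. -/
def Lev (I : C(M, ℝ) →L[ℝ] ℝ) (Q : C(M, ℝ)) (m : ℕ) : Prop :=
  ∀ (γ K τ : ℝ) (B : ℕ → ℝ), 0 < γ → 0 < K → ∃ κ C : ℝ, 0 < κ ∧ ∀ G : Gal I, G.Fine γ K →
    (∀ n, G.Y Q n 0 ≤ B n) → ∀ c, G.Traj Q τ c → ∀ t ∈ Icc 0 τ,
      (∀ i ≤ m, G.Y Q i (c t) ≤ C) ∧ (∀ i < m, G.z (G.U Q i (c t)) ≤ C) ∧
      G.dY Q m (c t) ≤ -κ * G.Y Q (m + 1) (c t) + C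

def SysStmt : Prop := ForI.{u} fun _ _ _ I Q => Sys I Q

def St1Stmt : Prop := ForI.{u} fun _ _ _ I Q => Sys I Q → St1 I Q

def ExStmt : Prop := ForI.{u} fun _ _ _ I Q => Sys I Q → St1 I Q → Ex I Q

def Lev0Stmt : Prop := ForI.{u} fun _ _ _ I Q => Sys I Q → St1 I Q → Lev I Q 0

def LevSStmt : Prop := ForI.{u} fun _ _ _ I Q => Sys I Q → St1 I Q →
  ∀ m, Lev I Q m → Lev I Q (m + 1)

/-- Bounds in all the norms `nn m`, uniform in the spectral family. -/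
def Boot (D : Pre M) (Q : D.A) : Prop :=
  ∀ (τ : ℝ) (m n : ℕ), ∃ C : ℝ, ∀ (G : Gal D.I) (Λ : ℝ), 1 ≤ Λ → D.Spec G Λ →
    ∀ c, G.Traj Q τ c → ∀ t ∈ Icc 0 τ,
      ∑ i, (1 + G.lam i) ^ (2 * m) * c t i ^ 2 ≤ C ∧
      ∑ i, (1 + G.lam i) ^ (2 * m) * G.U Q n (c t) i ^ 2 ≤ C

def BootStmt : Prop :=
  ∀ (M : Type u) [TopologicalSpace M] [CompactSpace M] (D : Pre M), D.Ok → ∀ Q : D.A,
    Sys D.I Q → St1 D.I Q → (∀ m, Lev D.I Q m) → Boot D Q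

def LimStmt : Prop :=
  ∀ (M : Type u) [TopologicalSpace M] [CompactSpace M] (D : Pre M), D.Ok → ∀ Q : D.A,
    Sys D.I Q → Ex D.I Q → Boot D Q →
    ∃ (W : ℕ → ℝ → D.A) (q : ℝ → D.A), W 0 0 = 0 ∧
      (∀ t, 0 ≤ t →
        ex ((4 : ℝ) • (W 0 t : C(M, ℝ))) * q t = ((1 / 2 : ℝ) • D.P (W 0 t) + Q : D.A) ∧
        ex ((4 : ℝ) • (W 0 t : C(M, ℝ))) * W 1 t = ((-1 / 2 : ℝ) • D.P (q t) : D.A)) ∧
      ∀ (j m : ℕ) (T : ℝ), ∃ C : ℝ, ∀ t ∈ Icc 0 T, ∀ t' ∈ Icc 0 T,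
        D.nn m (W j t' - W j t - (t' - t) • W (j + 1) t) ≤ C * (t' - t) ^ 4

theorem flow_of (h1 : SysStmt.{u}) (h2 : St1Stmt.{u}) (h3 : ExStmt.{u}) (h4 : Lev0Stmt.{u})
    (h5 : LevSStmt.{u}) (h6 : BootStmt.{u}) (h7 : LimStmt.{u}) : FlowStmt.{u} := by
  intro M _ _ D hD Q
  have s := h1 M D.I Q hD.I_nonneg hD.I_one
  have s1 := h2 M D.I Q hD.I_nonneg hD.I_one s
  have l : ∀ m, Lev D.I Q m := fun m => by
    induction m with
    | zero => exact h4 M D.I Q hD.I_nonneg hD.I_one s s1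
    | succ m ih => exact h5 M D.I Q hD.I_nonneg hD.I_one s s1 m ih
  exact h7 M D hD Q s (h3 M D.I Q hD.I_nonneg hD.I_one s s1) (h6 M D hD Q s s1 l)

end Pool.Agent.MP_417fa2_gt.Flow

end MrgPart1

-- marker of a merged file
example : 731051 + 145966 = 731051 + 145966 := rfl
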