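import Mathlib.Topology.Sheaves.Presheaf
import Mathlib.Tactic.Monotonicity.Lemmas
import Mathlib.Algebra.Order.Ring.Star
import Mathlib.Algebra.Order.Star.Real
import Mathlib.Analysis.Calculus.BumpFunction.FiniteDimension
import Mathlib.Analysis.Complex.ExponentialBounds
import Mathlib.Analysis.SpecialFunctions.Trigonometric.Series
import Mathlib.Analysis.ODE.ExistUnique
import Mathlib.RingTheory.PiTensorProduct
import Mathlib.Tactic.Polynomial.Basic
import Pool.Agent.MP_417fa2_gt.Flow.Gal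

-- ======== part 0: formerly Pool.Agent.MP_417fa2_gt.Flow.St1
section MrgPart0

/-! The `H²` bound along the Galerkin flow, and global existence for the Galerkin system. -/

open Set Filter
open scoped Topology ContDiff

namespace Pool.Agent.MP_417fa2_gt.Flow

universe u

variable {M : Type u} [TopologicalSpace M] [CompactSpace M] {I : C(M, ℝ) →L[ℝ] ℝ}

namespace S1

theorem le_start {τ : ℝ} {f f' : ℝ → ℝ}
    (hf : ∀ t ∈ Icc 0 τ, HasDerivWithinAt f (f' t) (Icc 0 τ) t) (h : ∀ t ∈ Icc 0 τ, f' t ≤ 0) :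
    ∀ t ∈ Icc 0 τ, f t ≤ f 0 := fun t ht =>
  antitoneOn_of_hasDerivWithinAt_nonpos (convex_Icc 0 τ)
    (fun s hs => (hf s hs).continuousWithinAt)
    (fun s hs => (hf s (interior_subset hs)).mono interior_subset)
    (fun s hs => h s (interior_subset hs)) ⟨le_rfl, ht.1.trans ht.2⟩ ht ht.1

theorem I_mono (hI : ∀ f : C(M, ℝ), (∀ x, 0 ≤ f x) → 0 ≤ I f) {f g : C(M, ℝ)}
    (h : ∀ x, f x ≤ g x) : I f ≤ I g := by
  have := hI (g - f) fun x => by simpa using h x
  rw [map_sub] at this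
  linarith

variable (G : Gal I) (Q : C(M, ℝ))

theorem I_emb (f : C(M, ℝ)) (c : Fin G.n → ℝ) :
    I (f * G.emb c) = ∑ i, c i * I (f * G.φ i) := by
  simp only [Gal.emb, Finset.mul_sum, map_sum, mul_smul_comm, map_smul, smul_eq_mul]

theorem I_emb_φ (c : Fin G.n → ℝ) (i : Fin G.n) : I (G.emb c * G.φ i) = c i := by
  rw [mul_comm, I_emb]
  simp [G.orth]

theorem I_emb_emb (c d : Fin G.n → ℝ) : I (G.emb c * G.emb d) = ∑ i, d i * c i := by
  rw [I_emb]
  simp only [I_emb_φ]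

theorem rho_zero : G.rho 0 = 1 := by
  ext x
  simp [Gal.rho, ex, Gal.emb]

/-- The coefficients of the density. -/
noncomputable def r (c : Fin G.n → ℝ) (i : Fin G.n) : ℝ := I (G.rho c * G.φ i)

/-- The squared negative norm of the density. -/
noncomputable def al (c : Fin G.n → ℝ) : ℝ := ∑ i, r G c i ^ 2 / G.lam i

/-- The energy of the curvature. -/
noncomputable def C0 (c : Fin G.n → ℝ) : ℝ := ∑ i, G.lam i * G.U Q 0 c i ^ 2

theorem al_nonneg (c : Fin G.n → ℝ) : 0 ≤ al G c :=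
  Finset.sum_nonneg fun i _ => div_nonneg (sq_nonneg _) (G.lam_nonneg i)

theorem C0_nonneg (c : Fin G.n → ℝ) : 0 ≤ C0 G Q c :=
  Finset.sum_nonneg fun i _ => mul_nonneg (G.lam_nonneg i) (sq_nonneg _)

variable {G Q}

theorem eq1 (S : Sys I Q) (c : Fin G.n → ℝ) (i : Fin G.n) :
    I (G.rho c * G.emb (G.U1 Q c) * G.φ i) = -1 / 2 * G.lam i * G.U Q 0 c i := by
  have := S.eqn G 0 c i
  simp only [Gal.T, add_zero, sg, zero_add, pow_one] at this
  exact this

variable {s : Set ℝ} {t θ : ℝ} {c : ℝ → Fin G.n → ℝ}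

theorem der_r (S : Sys I Q) (h : HasDerivWithinAt c (θ • G.U1 Q (c t)) s t) (i : Fin G.n) :
    HasDerivWithinAt (fun t => r G (c t) i) (-2 * θ * G.lam i * G.U Q 0 (c t) i) s t := by
  have h1 := I.hasFDerivAt.comp_hasDerivWithinAt t ((S.derRho G s t c _ h).mul_const (G.φ i))
  have e : G.emb (θ • G.U1 Q (c t)) = θ • G.emb (G.U1 Q (c t)) := by
    simp only [Gal.emb, Finset.smul_sum, Pi.smul_apply, smul_eq_mul, mul_smul]
  rw [e, mul_smul_comm, smul_mul_assoc, smul_mul_assoc, map_smul, map_smul, eq1 S] at h1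
  refine HasDerivWithinAt.congr_deriv h1 ?_
  simp only [smul_eq_mul]
  ring

/-- The derivative of the Liouville energy. -/
theorem der_J (S : Sys I Q) (h : HasDerivWithinAt c (θ • G.U1 Q (c t)) s t) :
    HasDerivWithinAt (fun t => G.J Q (c t)) (θ * C0 G Q (c t) / 2) s t := by
  have hc : ∀ i, HasDerivWithinAt (fun t => c t i) (θ * G.U1 Q (c t) i) s t :=
    fun i => hasDerivWithinAt_pi.1 h i
  have h1 := (((HasDerivWithinAt.fun_sum (u := Finset.univ) fun i _ =>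
    ((hc i).fun_pow 2).const_mul (G.lam i)).const_mul (1 / 4 : ℝ)).fun_add
    (HasDerivWithinAt.fun_sum (u := Finset.univ) fun i _ =>
      (hc i).mul_const (I (Q * G.φ i)))).fun_neg
  simp only [Gal.J, I_emb]
  refine HasDerivWithinAt.congr_deriv h1 ?_
  have e1 : I (G.rho (c t) * G.u Q 0 (c t) * G.emb (G.U1 Q (c t))) =
      ∑ i, G.U1 Q (c t) i * (1 / 2 * G.lam i * c t i + I (Q * G.φ i)) := by
    rw [I_emb]
    simp only [S.eq0]
  have e2 : I (G.rho (c t) * G.u Q 0 (c t) * G.emb (G.U1 Q (c t))) = -(C0 G Q (c t) / 2) := by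
    rw [mul_right_comm, Gal.u, I_emb, C0, Finset.sum_div, ← Finset.sum_neg_distrib]
    exact Finset.sum_congr rfl fun i _ => by rw [eq1 S]; ring
  have e3 : θ * C0 G Q (c t) / 2 =
      -(θ * ∑ i, G.U1 Q (c t) i * (1 / 2 * G.lam i * c t i + I (Q * G.φ i))) := by
    rw [← e1, e2]; ring
  rw [e3, Finset.mul_sum, Finset.mul_sum, ← Finset.sum_add_distrib]
  congr 1
  exact Finset.sum_congr rfl fun i _ => by push_cast; ring

theorem der_al (S : Sys I Q) (h : HasDerivWithinAt c (θ • G.U1 Q (c t)) s t) (hθ : 0 ≤ θ)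
    {K : ℝ} (hK : 0 < K) : ∃ d, HasDerivWithinAt (fun t => al G (c t)) d s t ∧
      d ≤ θ * (K * al G (c t) + 4 * C0 G Q (c t) / K) := by
  refine ⟨_, HasDerivWithinAt.fun_sum (u := Finset.univ) fun i _ =>
    ((der_r S h i).fun_pow 2).div_const (G.lam i), ?_⟩
  rw [al, C0, Finset.mul_sum, Finset.mul_sum, Finset.sum_div, ← Finset.sum_add_distrib,
    Finset.mul_sum]
  refine Finset.sum_le_sum fun i _ => ?_
  rcases (G.lam_nonneg i).eq_or_lt with h0 | h0
  · simp [← h0]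
  · set x := r G (c t) i
    set y := G.U Q 0 (c t) i
    have e : θ * (K * (x ^ 2 / G.lam i) + 4 * (G.lam i * y ^ 2) / K) -
        ((2 : ℕ) : ℝ) * x ^ (2 - 1) * (-2 * θ * G.lam i * y) / G.lam i =
        θ * ((K * x + 2 * G.lam i * y) ^ 2 / (K * G.lam i)) := by
      push_cast; field_simp; ring
    have : 0 ≤ θ * ((K * x + 2 * G.lam i * y) ^ 2 / (K * G.lam i)) := by positivity
    linarith

variable {γ K : ℝ}

theorem mass (S : Sys I Q) (F : G.Fine γ K) {τ : ℝ} {θ : ℝ → ℝ} (h : G.STraj Q τ θ c) :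
    ∀ t ∈ Icc 0 τ, I (G.rho (c t)) = I 1 := by
  obtain ⟨e, he1, he2⟩ := F.one
  have e1 : ∀ x, I (G.rho x) = ∑ i, e i * r G x i := fun x => by
    rw [← mul_one (G.rho x), ← he1, I_emb]; rfl
  have hd : ∀ t ∈ Icc 0 τ, HasDerivWithinAt (fun t => I (G.rho (c t))) 0 (Icc 0 τ) t := by
    intro t ht
    simp only [e1]
    refine HasDerivWithinAt.congr_deriv (HasDerivWithinAt.fun_sum (u := Finset.univ) fun i _ =>
      (der_r S (h.der t ht) i).const_mul (e i)) (Finset.sum_eq_zero fun i _ => ?_)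
    linear_combination (-2 * θ t * G.U Q 0 (c t) i) * he2 i
  intro t ht
  have h1 := le_start (f' := fun _ => 0) hd (fun _ _ => le_rfl) t ht
  have h2 := le_start (f' := fun _ => -0) (fun t ht => (hd t ht).fun_neg)
    (fun _ _ => by simp) t ht
  simp only [h.zero, rho_zero] at h1 h2
  linarith

theorem pair_le (c : Fin G.n → ℝ) (x : Fin G.n → ℝ) {t : ℝ} (ht : 0 < t) :
    ∑ i, (if G.lam i = 0 then 0 else c i) * x i
      ≤ t * ∑ i, G.lam i * c i ^ 2 + (∑ i, x i ^ 2 / G.lam i) / (4 * t) := by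
  rw [Finset.mul_sum, Finset.sum_div, ← Finset.sum_add_distrib]
  refine Finset.sum_le_sum fun i _ => ?_
  split_ifs with h0
  · simp [h0]
  · have h1 : 0 < G.lam i := (G.lam_nonneg i).lt_of_ne' h0
    have e : t * (G.lam i * c i ^ 2) + x i ^ 2 / G.lam i / (4 * t) - c i * x i =
        (2 * t * G.lam i * c i - x i) ^ 2 / (4 * t * G.lam i) := by field_simp; ring
    have : 0 ≤ (2 * t * G.lam i * c i - x i) ^ 2 / (4 * t * G.lam i) := by positivity
    linarith

/-- The static estimates on the set where the total mass is `I 1`. -/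
theorem static (hI : ∀ f : C(M, ℝ), (∀ x, 0 ≤ f x) → 0 ≤ I f) (hV : 0 < I 1) (F : G.Fine γ K)
    (hγ : 0 < γ) {c : Fin G.n → ℝ} (hm : I (G.rho c) = I 1) :
    G.J Q c ≤ -(∑ i, G.lam i * c i ^ 2) / 8 +
      (1 + 4 * (|I Q| / I 1 + 1) ^ 2 + 4 * I (Q * Q) / γ) * (1 + al G c) ∧
    G.z c ≤ (∑ i, G.lam i * c i ^ 2 + al G c) ^ 2 / I 1 + (1 / γ + 1) * ∑ i, G.lam i * c i ^ 2 := by
  obtain ⟨e, he1, he2⟩ := F.one
  set A := ∑ i, G.lam i * c i ^ 2 with hA
  have hA0 : 0 ≤ A := Finset.sum_nonneg fun i _ => mul_nonneg (G.lam_nonneg i) (sq_nonneg _)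
  have hal := al_nonneg G c
  let c0 : Fin G.n → ℝ := fun i => if G.lam i = 0 then c i else 0
  let c1 : Fin G.n → ℝ := fun i => if G.lam i = 0 then 0 else c i
  obtain ⟨a, ha⟩ : ∃ a : ℝ, G.emb c0 = a • 1 := by
    have : G.emb c0 ∈ Submodule.span ℝ {(1 : C(M, ℝ))} := by
      refine Submodule.sum_mem _ fun i _ => ?_
      by_cases h0 : G.lam i = 0
      · obtain ⟨b, hb⟩ := F.ker i h0
        rw [hb]
        exact Submodule.smul_mem _ _ (Submodule.smul_mem _ _ (Submodule.mem_span_singleton_self _))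
      · simp [c0, h0]
    obtain ⟨a, ha⟩ := Submodule.mem_span_singleton.1 this
    exact ⟨a, ha.symm⟩
  have hw : G.emb c = a • 1 + G.emb c1 := by
    rw [← ha]
    simp only [Gal.emb, ← Finset.sum_add_distrib, ← add_smul]
    exact Finset.sum_congr rfl fun i _ => by simp only [c0, c1]; split_ifs <;> simp
  have h1 : I (G.emb c1) = 0 := by
    rw [← one_mul (G.emb c1), ← he1, I_emb_emb]
    refine Finset.sum_eq_zero fun i _ => ?_
    simp only [c1]
    split_ifs with h0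
    · simp
    · rw [(mul_eq_zero.1 (he2 i)).resolve_left h0, mul_zero]
  have h2 : a ≤ 0 := by
    have b1 : I ((4 : ℝ) • G.emb c + 1) ≤ I (G.rho c) :=
      I_mono hI fun x => Real.add_one_le_exp _
    rw [hm, map_add, map_smul, hw, map_add, map_smul, h1] at b1
    simp only [smul_eq_mul] at b1
    nlinarith
  have h3 : 0 ≤ a * I 1 + ∑ i, c1 i * r G c i := by
    have b1 : I (G.rho c) ≤ I ((4 : ℝ) • (G.rho c * G.emb c) + 1) := I_mono hI fun x => by
      have p1 := Real.add_one_le_exp (-(4 * G.emb c x))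
      have p2 := Real.exp_pos (4 * G.emb c x)
      have p3 : Real.exp (-(4 * G.emb c x)) * Real.exp (4 * G.emb c x) = 1 := by
        rw [← Real.exp_add]; simp
      show Real.exp (4 * G.emb c x) ≤ 4 * (Real.exp (4 * G.emb c x) * G.emb c x) + 1
      nlinarith
    rw [map_add, map_smul, hm] at b1
    have b2 : I (G.rho c * G.emb c) = a * I 1 + ∑ i, c1 i * r G c i := by
      rw [hw, mul_add, map_add, mul_smul_comm, mul_one, map_smul, hm, I_emb]; rfl
    simp only [smul_eq_mul] at b1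
    linarith
  have h4 : ∀ t : ℝ, 0 < t → -a * I 1 ≤ t * A + al G c / (4 * t) := fun t ht => by
    have b1 : ∑ i, c1 i * r G c i ≤ t * A + al G c / (4 * t) := pair_le c (r G c) ht
    linarith
  have h5 : ∑ i, c1 i * c1 i ≤ A / γ := by
    rw [hA, Finset.sum_div]
    refine Finset.sum_le_sum fun i _ => ?_
    simp only [c1]
    split_ifs with h0
    · simp [h0]
    · rw [le_div_iff₀ hγ]
      nlinarith [(F.gap i).resolve_left h0, sq_nonneg (c i)]
  constructor
  · have b1 : I (-(Q * G.emb c1)) ≤ I ((4 / γ) • (Q * Q) + (γ / 16) • (G.emb c1 * G.emb c1)) :=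
      I_mono hI fun x => by
        have e1 : 4 / γ * (Q x * Q x) + γ / 16 * (G.emb c1 x * G.emb c1 x) + Q x * G.emb c1 x
            = (8 * Q x + γ * G.emb c1 x) ^ 2 / (16 * γ) := by field_simp; ring
        have : 0 ≤ (8 * Q x + γ * G.emb c1 x) ^ 2 / (16 * γ) := by positivity
        show -(Q x * G.emb c1 x) ≤ 4 / γ * (Q x * Q x) + γ / 16 * (G.emb c1 x * G.emb c1 x)
        linarith
    rw [map_neg, map_add, map_smul, map_smul, I_emb_emb] at b1
    simp only [smul_eq_mul] at b1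
    have b2 : γ / 16 * ∑ i, c1 i * c1 i ≤ A / 16 := by
      refine (mul_le_mul_of_nonneg_left h5 (by positivity)).trans (le_of_eq ?_)
      field_simp
    have b3 : I (Q * G.emb c) = a * I Q + I (Q * G.emb c1) := by
      rw [hw, mul_add, map_add, mul_smul_comm, mul_one, map_smul, smul_eq_mul]
    set q := |I Q| / I 1 + 1 with hq
    have hq1 : 1 ≤ q := le_add_of_nonneg_left (by positivity)
    have b4 : -(a * I Q) ≤ q * (-a * I 1) := by
      have p1 : -a * I Q ≤ -a * |I Q| := mul_le_mul_of_nonneg_left (le_abs_self _) (by linarith)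
      have p2 : q * (-a * I 1) = -a * |I Q| + -a * I 1 := by rw [hq]; field_simp; ring
      nlinarith
    have b5 := mul_le_mul_of_nonneg_left (h4 (1 / (16 * q)) (by positivity))
      (by positivity : 0 ≤ q)
    have b6 : q * (1 / (16 * q) * A + al G c / (4 * (1 / (16 * q)))) =
        A / 16 + 4 * q ^ 2 * al G c := by field_simp; ring
    have b7 : 0 ≤ 4 * I (Q * Q) / γ :=
      div_nonneg (mul_nonneg (by norm_num) (hI _ fun x => mul_self_nonneg _)) hγ.le
    have b8 : 4 / γ * I (Q * Q) = 4 * I (Q * Q) / γ := by ring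
    unfold Gal.J
    rw [← hA, b3]
    nlinarith [mul_nonneg b7 hal, sq_nonneg q]
  · have b1 : ∑ i, c0 i * c0 i = a ^ 2 * I 1 := by
      rw [← I_emb_emb, ha, smul_mul_assoc, mul_smul_comm, mul_one, map_smul, map_smul]
      simp only [smul_eq_mul]; ring
    have b2 : G.z c = ∑ i, c0 i * c0 i + ∑ i, c1 i * c1 i + A := by
      rw [Gal.z, hA, ← Finset.sum_add_distrib, ← Finset.sum_add_distrib]
      exact Finset.sum_congr rfl fun i _ => by simp only [c0, c1]; split_ifs <;> ring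
    have b3 := h4 1 one_pos
    have b4 : (-a * I 1) ^ 2 ≤ (A + al G c) ^ 2 :=
      pow_le_pow_left₀ (mul_nonneg (by linarith) hV.le) (by linarith) 2
    have b5 : a ^ 2 * I 1 ≤ (A + al G c) ^ 2 / I 1 := by
      rw [le_div_iff₀ hV]; nlinarith
    have b6 : (1 / γ + 1) * A = A / γ + A := by ring
    linarith

theorem al_zero (F : G.Fine γ K) : al G 0 = 0 := by
  obtain ⟨e, he1, he2⟩ := F.one
  refine Finset.sum_eq_zero fun i _ => ?_
  rw [r, rho_zero, ← he1, I_emb_φ]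
  rcases mul_eq_zero.1 (he2 i) with h | h <;> simp [h]

theorem J_zero : G.J Q 0 = 0 := by simp [Gal.J, Gal.emb]

end S1

open S1 in
theorem st1 : St1Stmt.{u} := by
  intro M _ _ I Q hI hV S γ K τ hγ _
  set C1 := 1 + 4 * (|I Q| / I 1 + 1) ^ 2 + 4 * I (Q * Q) / γ with hC1
  have hQ : 0 ≤ 4 * I (Q * Q) / γ :=
    div_nonneg (mul_nonneg (by norm_num) (hI _ fun x => mul_self_nonneg _)) hγ.le
  have hC : 1 ≤ C1 := by nlinarith [sq_nonneg (|I Q| / I 1 + 1)]
  set B := Real.exp (32 * C1 * τ) with hB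
  have hB0 : 0 < B := Real.exp_pos _
  set A0 := 8 * C1 * (1 + 2 * B) with hA0
  refine ⟨(A0 + 2 * B) ^ 2 / I 1 + (1 / γ + 1) * A0 + 2 * C1 * B, fun G F θ c h => ?_⟩
  have hm := mass S F h
  have hs := fun t ht => static (Q := Q) hI hV F hγ (hm t ht)
  have hA : ∀ t, 0 ≤ ∑ i, G.lam i * c t i ^ 2 := fun t =>
    Finset.sum_nonneg fun i _ => mul_nonneg (G.lam_nonneg i) (sq_nonneg _)
  have hJ0 : ∀ t ∈ Icc 0 τ, 0 ≤ G.J Q (c t) := by
    intro t ht
    have := le_start (fun t ht => (der_J S (h.der t ht)).fun_neg) (fun t ht => by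
      have := mul_nonneg (h.mem t ht).1 (C0_nonneg G Q (c t))
      linarith) t ht
    rw [h.zero, J_zero] at this
    linarith
  let be : ℝ → ℝ := fun t => 1 + al G (c t) - G.J Q (c t) / (2 * C1)
  have hJ1 : ∀ t ∈ Icc 0 τ, G.J Q (c t) ≤ 2 * C1 * be t ∧ al G (c t) ≤ 2 * be t := by
    intro t ht
    have a1 := (hs t ht).1
    have a2 : 2 * C1 * be t = 2 * C1 * (1 + al G (c t)) - G.J Q (c t) := by
      simp only [be]; field_simp
    have a3 : G.J Q (c t) ≤ 2 * C1 * be t := by linarith [hA t]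
    have a4 : G.J Q (c t) / (2 * C1) ≤ be t := by
      rw [div_le_iff₀ (by positivity)]; linarith
    refine ⟨a3, ?_⟩
    have a5 : be t = 1 + al G (c t) - G.J Q (c t) / (2 * C1) := rfl
    linarith
  choose! d hd hd' using fun t (ht : t ∈ Icc 0 τ) =>
    der_al S (h.der t ht) (h.mem t ht).1 (K := 16 * C1) (by positivity)
  have hbe : ∀ t ∈ Icc 0 τ, be t ≤ B := by
    intro t ht
    have key := le_start (τ := τ) (f := fun t => Real.exp (-(32 * C1) * t) * be t)
      (fun t ht => ((((hasDerivWithinAt_id t _).const_mul (-(32 * C1))).exp).fun_mul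
        (((hd t ht).const_add 1).fun_sub ((der_J S (h.der t ht)).div_const (2 * C1)))))
      (fun t ht => by
        have a1 := hd' t ht
        have a2 := (hJ1 t ht).2
        have a3 := h.mem t ht
        have a4 := al_nonneg G (c t)
        have a5 : θ t * (16 * C1 * al G (c t) + 4 * C0 G Q (c t) / (16 * C1)) =
            θ t * (16 * C1 * al G (c t)) + θ t * C0 G Q (c t) / 2 / (2 * C1) := by
          field_simp; ring
        have a6 : θ t * (16 * C1 * al G (c t)) ≤ 16 * C1 * al G (c t) :=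
          mul_le_of_le_one_left (by positivity) a3.2
        have a7 : 16 * C1 * al G (c t) ≤ 16 * C1 * (2 * be t) := by gcongr
        have a8 := Real.exp_pos (-(32 * C1) * t)
        have a9 : -(32 * C1) * be t + (d t - θ t * C0 G Q (c t) / 2 / (2 * C1)) ≤ 0 := by
          linarith
        have := mul_nonpos_of_nonneg_of_nonpos a8.le a9
        simp only [id, be] at this ⊢
        linarith) t ht
    have b0 : be 0 = 1 := by simp only [be, h.zero, al_zero F, J_zero]; simp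
    simp only [b0, mul_zero, Real.exp_zero, mul_one] at key
    have b1 : Real.exp (32 * C1 * t) * Real.exp (-(32 * C1) * t) = 1 := by
      rw [← Real.exp_add]; simp
    have b2 : Real.exp (32 * C1 * t) ≤ B := by
      rw [hB]; gcongr; exact ht.2
    have b3 := mul_le_mul_of_nonneg_left key (Real.exp_pos (32 * C1 * t)).le
    rw [← mul_assoc, b1] at b3
    linarith
  intro t ht
  have a1 := hJ1 t ht
  have a2 := hbe t ht
  have a3 := hs t ht
  have a4 := al_nonneg G (c t)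
  have a5 : al G (c t) ≤ 2 * B := by linarith
  have a6 : ∑ i, G.lam i * c t i ^ 2 ≤ A0 := by
    have : C1 * (1 + al G (c t)) ≤ C1 * (1 + 2 * B) := by gcongr
    linarith [hJ0 t ht, a3.1]
  have a7 : G.z (c t) ≤ (A0 + 2 * B) ^ 2 / I 1 + (1 / γ + 1) * A0 := by
    refine a3.2.trans ?_
    have := hA t
    gcongr
  have a8 : G.J Q (c t) ≤ 2 * C1 * B := a1.1.trans (by gcongr)
  have a9 : 0 ≤ (A0 + 2 * B) ^ 2 / I 1 + (1 / γ + 1) * A0 := by positivity
  have a10 : 0 ≤ 2 * C1 * B := by positivity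
  exact ⟨hm t ht, by linarith, hJ0 t ht, by linarith⟩

theorem exi : ExStmt.{u} := by
  intro M _ _ I Q _ _ S h1 γ K τ hγ hK hτ G F
  obtain ⟨C, hC⟩ := h1 γ K τ hγ hK
  let χ : ContDiffBump (0 : Fin G.n → ℝ) := ⟨√C + 1, √C + 2, by positivity, by linarith⟩
  let f : (Fin G.n → ℝ) → Fin G.n → ℝ := fun x => χ x • G.U1 Q x
  have hf : ContDiff ℝ ∞ f := χ.contDiff.smul (S.smU G 1)
  have hs : HasCompactSupport f := χ.hasCompactSupport.smul_right
  obtain ⟨Lp, hLp⟩ := ContDiff.lipschitzWith_of_hasCompactSupport hs hf (by simp)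
  obtain ⟨B, hB⟩ := hs.exists_bound_of_continuous hf.continuous
  have hB0 : 0 ≤ B := (norm_nonneg _).trans (hB 0)
  have hp : IsPicardLindelof (fun _ => f) (tmin := 0) (tmax := τ) ⟨0, le_rfl, hτ⟩ 0
      ⟨B * τ, by positivity⟩ 0 ⟨B, hB0⟩ Lp :=
    IsPicardLindelof.of_time_independent (fun x _ => hB x) hLp.lipschitzOnWith (by
      simp only [sub_zero, sub_self, NNReal.coe_zero, max_eq_left hτ]
      exact le_rfl)
  obtain ⟨c, hc0, hc⟩ := hp.exists_eq_forall_mem_Icc_hasDerivWithinAt₀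
  have hT : G.STraj Q τ (fun t => χ (c t)) c := ⟨hc0, fun _ _ => ⟨χ.nonneg, χ.le_one⟩, hc⟩
  refine ⟨c, hc0, fun t ht => ?_⟩
  have hz := (hC G F _ c hT t ht).2.1
  have hn : c t ∈ Metric.closedBall (0 : Fin G.n → ℝ) χ.rIn := by
    rw [mem_closedBall_zero_iff]
    refine (pi_norm_le_iff_of_nonneg χ.rIn_pos.le).2 fun i => ?_
    have a1 : (1 + G.lam i) * c t i ^ 2 ≤ G.z (c t) :=
      Finset.single_le_sum (f := fun i => (1 + G.lam i) * c t i ^ 2)
        (fun i _ => mul_nonneg (by linarith [G.lam_nonneg i]) (sq_nonneg _)) (Finset.mem_univ i)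
    have a2 : c t i ^ 2 ≤ C := by nlinarith [G.lam_nonneg i, sq_nonneg (c t i)]
    exact (Real.abs_le_sqrt a2).trans (le_add_of_nonneg_right zero_le_one)
  have := hc t ht
  simp only [f, χ.one_of_mem_closedBall hn, one_smul] at this
  exact this

end Pool.Agent.MP_417fa2_gt.Flow

end MrgPart0

-- ======== part 1: formerly Pool.Agent.MP_417fa2_gt.Flow.Basic
section MrgPart1

/-!
Shared lemmas: Cauchy-Schwarz for a positive functional, Parseval and Bessel for a finite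
orthonormal family, exponential moments, and families with bounded moments.
-/

open Set Filter
open scoped Topology

set_option linter.unusedSectionVars false

namespace Pool.Agent.MP_417fa2_gt.Flow

universe u

variable {M : Type u} [TopologicalSpace M] [CompactSpace M] {I : C(M, ℝ) →L[ℝ] ℝ}

/-- `I` is a positive functional. -/
def Pos (I : C(M, ℝ) →L[ℝ] ℝ) : Prop := ∀ f : C(M, ℝ), (∀ x, 0 ≤ f x) → 0 ≤ I f

omit [CompactSpace M] in
@[simp] theorem ex_apply (f : C(M, ℝ)) (x : M) : ex f x = Real.exp (f x) := rfl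

omit [CompactSpace M] in
theorem ex_zero : ex (0 : C(M, ℝ)) = 1 := by ext x; simp

omit [CompactSpace M] in
theorem ex_add (f g : C(M, ℝ)) : ex (f + g) = ex f * ex g := by ext x; simp [Real.exp_add]

omit [CompactSpace M] in
theorem ex_pow (f : C(M, ℝ)) (n : ℕ) : ex f ^ n = ex ((n : ℝ) • f) := by
  ext x; simp [← Real.exp_nat_mul]

namespace Pos

variable (hI : Pos I)
include hI

theorem mono {f g : C(M, ℝ)} (h : ∀ x, f x ≤ g x) : I f ≤ I g := by
  have := hI (g - f) fun x => by simpa using h x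
  rw [map_sub] at this; linarith

theorem sq_nonneg (f : C(M, ℝ)) : 0 ≤ I (f ^ 2) := hI _ fun x => by simp [_root_.sq_nonneg]

theorem w_nonneg {r : C(M, ℝ)} (hr : ∀ x, 0 ≤ r x) (f : C(M, ℝ)) : 0 ≤ I (r * f ^ 2) :=
  hI _ fun x => by simpa using mul_nonneg (hr x) (_root_.sq_nonneg _)

theorem even_nonneg (f : C(M, ℝ)) (k : ℕ) : 0 ≤ I (f ^ (2 * k)) :=
  hI _ fun x => by simpa using (even_two_mul k).pow_nonneg (f x)

/-- Weighted Cauchy-Schwarz inequality. -/
theorem cs {r : C(M, ℝ)} (hr : ∀ x, 0 ≤ r x) (f g : C(M, ℝ)) :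
    I (r * f * g) ^ 2 ≤ I (r * f ^ 2) * I (r * g ^ 2) := by
  have h : ∀ t : ℝ, 0 ≤ I (r * g ^ 2) * (t * t) + 2 * I (r * f * g) * t + I (r * f ^ 2) := by
    intro t
    have h1 := hI.w_nonneg hr (f + t • g)
    have h2 : r * (f + t • g) ^ 2 =
        (t * t) • (r * g ^ 2) + (2 * t) • (r * f * g) + r * f ^ 2 := by
      ext x; simp; ring
    rw [h2, map_add, map_add, map_smul, map_smul, smul_eq_mul, smul_eq_mul] at h1
    linarith
  have := discrim_le_zero h
  rw [discrim] at this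
  nlinarith

theorem cs1 (f g : C(M, ℝ)) : I (f * g) ^ 2 ≤ I (f ^ 2) * I (g ^ 2) := by
  simpa using hI.cs (r := 1) (fun x => by simp) f g

end Pos

namespace Gal

variable (G : Gal I)

theorem emb_zero : G.emb 0 = 0 := by simp [emb]

theorem emb_add (c d : Fin G.n → ℝ) : G.emb (c + d) = G.emb c + G.emb d := by
  simp [emb, add_smul, Finset.sum_add_distrib]

theorem emb_sub (c d : Fin G.n → ℝ) : G.emb (c - d) = G.emb c - G.emb d := by
  simp [emb, sub_smul, Finset.sum_sub_distrib]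

theorem emb_smul (a : ℝ) (c : Fin G.n → ℝ) : G.emb (a • c) = a • G.emb c := by
  simp [emb, Finset.smul_sum, mul_smul]

/-- `emb` as a continuous linear map. -/
noncomputable def embL : (Fin G.n → ℝ) →L[ℝ] C(M, ℝ) :=
  ∑ i, (ContinuousLinearMap.proj i : (Fin G.n → ℝ) →L[ℝ] ℝ).smulRight (G.φ i)

@[simp] theorem embL_apply (c : Fin G.n → ℝ) : G.embL c = G.emb c := by
  simp [embL, emb]

theorem I_mul_emb (f : C(M, ℝ)) (c : Fin G.n → ℝ) :
    I (f * G.emb c) = ∑ i, c i * I (f * G.φ i) := by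
  simp [emb, Finset.mul_sum]

theorem I_emb_mul_phi (c : Fin G.n → ℝ) (i : Fin G.n) : I (G.emb c * G.φ i) = c i := by
  rw [mul_comm, I_mul_emb]
  simp [G.orth]

theorem I_emb_mul_emb (c d : Fin G.n → ℝ) : I (G.emb c * G.emb d) = ∑ i, c i * d i := by
  rw [I_mul_emb]
  simp [I_emb_mul_phi, mul_comm]

theorem I_emb_sq (c : Fin G.n → ℝ) : I (G.emb c ^ 2) = ∑ i, c i ^ 2 := by
  simp [sq, I_emb_mul_emb]

theorem z_nonneg (c : Fin G.n → ℝ) : 0 ≤ G.z c :=
  Finset.sum_nonneg fun i _ => mul_nonneg (by linarith [G.lam_nonneg i]) (sq_nonneg _)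

theorem z_eq (c : Fin G.n → ℝ) : G.z c = ∑ i, c i ^ 2 + ∑ i, G.lam i * c i ^ 2 := by
  simp [z, add_mul, Finset.sum_add_distrib]

theorem lamSum_nonneg (c : Fin G.n → ℝ) : 0 ≤ ∑ i, G.lam i * c i ^ 2 :=
  Finset.sum_nonneg fun i _ => mul_nonneg (G.lam_nonneg i) (sq_nonneg _)

theorem rho_pos (c : Fin G.n → ℝ) (x : M) : 0 < G.rho c x := Real.exp_pos _

theorem rho_zero : G.rho 0 = 1 := by rw [rho, emb_zero, smul_zero, ex_zero]

/-- Bessel's inequality. -/
theorem bessel (hI : Pos I) (f : C(M, ℝ)) : ∑ i, I (f * G.φ i) ^ 2 ≤ I (f ^ 2) := by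
  have h1 := hI.sq_nonneg (f - G.emb fun i => I (f * G.φ i))
  have h2 : (f - G.emb fun i => I (f * G.φ i)) ^ 2 = f ^ 2 -
      (2 : ℝ) • (f * G.emb fun i => I (f * G.φ i)) + (G.emb fun i => I (f * G.φ i)) ^ 2 := by
    ext x; simp; ring
  rw [h2, map_add, map_sub, map_smul, I_emb_sq, I_mul_emb] at h1
  simp only [smul_eq_mul, ← sq] at h1
  linarith

variable {G} {γ K : ℝ}

/-- Splitting into the mean value `a` and the modes with positive eigenvalue. -/
theorem Fine.split (h : G.Fine γ K) (c : Fin G.n → ℝ) : ∃ a : ℝ,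
    G.emb c = a • 1 + G.emb (fun i => if G.lam i = 0 then 0 else c i) ∧
    a * I 1 = I (G.emb c) ∧
    ∑ i, c i ^ 2 = a ^ 2 * I 1 + ∑ i, (if G.lam i = 0 then 0 else c i) ^ 2 := by
  classical
  obtain ⟨e, he, hle⟩ := h.one
  have hk : ∀ i, ∃ b : ℝ, (if G.lam i = 0 then c i else 0) • G.φ i = b • (1 : C(M, ℝ)) := by
    intro i
    by_cases hi : G.lam i = 0
    · obtain ⟨b, hb⟩ := h.ker i hi
      exact ⟨c i * b, by simp [hi, hb, mul_smul]⟩
    · exact ⟨0, by simp [hi]⟩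
  choose b hb using hk
  have h0 : G.emb (fun i => if G.lam i = 0 then c i else 0) = (∑ i, b i) • 1 := by
    simp only [emb, hb, Finset.sum_smul]
  have hc : c = (fun i => if G.lam i = 0 then c i else 0) +
      fun i => if G.lam i = 0 then 0 else c i := by
    funext i; by_cases hi : G.lam i = 0 <;> simp [hi]
  have h1 : G.emb c = (∑ i, b i) • 1 + G.emb (fun i => if G.lam i = 0 then 0 else c i) := by
    rw [← h0, ← emb_add, ← hc]
  have h2 : I (G.emb (fun i => if G.lam i = 0 then 0 else c i)) = 0 := by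
    have := G.I_emb_mul_emb (fun i => if G.lam i = 0 then 0 else c i) e
    rw [he, mul_one] at this
    rw [this]
    refine Finset.sum_eq_zero fun i _ => ?_
    by_cases hi : G.lam i = 0
    · simp [hi]
    · simp [(mul_eq_zero.1 (hle i)).resolve_left hi]
  refine ⟨∑ i, b i, h1, by rw [h1, map_add, h2, map_smul]; simp, ?_⟩
  have h3 := G.I_emb_sq (fun i => if G.lam i = 0 then c i else 0)
  rw [h0, smul_pow, one_pow, map_smul, smul_eq_mul] at h3
  rw [h3, ← Finset.sum_add_distrib]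
  refine Finset.sum_congr rfl fun i _ => ?_
  by_cases hi : G.lam i = 0 <;> simp [hi]

theorem Fine.gap_sum (h : G.Fine γ K) (hγ : 0 < γ) (c : Fin G.n → ℝ) :
    ∑ i, (if G.lam i = 0 then 0 else c i) ^ 2 ≤ 1 / γ * ∑ i, G.lam i * c i ^ 2 := by
  rw [Finset.mul_sum]
  refine Finset.sum_le_sum fun i _ => ?_
  by_cases hi : G.lam i = 0
  · simp [hi]
  · have h1 := (h.gap i).resolve_left hi
    rw [if_neg hi, one_div, ← mul_assoc]
    refine le_mul_of_one_le_left (sq_nonneg _) ?_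
    rw [inv_mul_eq_div, le_div_iff₀ hγ]; linarith

/-- The `H²` norm is controlled by the mean value and the quadratic form. -/
theorem Fine.z_le (h : G.Fine γ K) (hγ : 0 < γ) (h1 : 0 < I 1) (c : Fin G.n → ℝ) :
    G.z c ≤ I (G.emb c) ^ 2 / I 1 + (1 + 1 / γ) * ∑ i, G.lam i * c i ^ 2 := by
  obtain ⟨a, -, ha, hs⟩ := h.split c
  have h2 := h.gap_sum hγ c
  have h3 : I (G.emb c) ^ 2 / I 1 = a ^ 2 * I 1 := by rw [← ha]; field_simp
  rw [z_eq, hs, h3]; linarith

end Gal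

/-- Exponential moments on bounded sets of `H²`. -/
theorem ex_bound (hI : Pos I) {K : ℝ} (hK : 0 < K) (R s : ℝ) : ∃ C : ℝ, 0 ≤ C ∧
    ∀ G : Gal I, G.Mom K → ∀ c, G.z c ≤ R → I (ex (s • G.emb c)) ≤ C := by
  have h1 : 0 ≤ I 1 := hI 1 fun x => by simp
  refine ⟨2 * ((I 1 + 1) * Real.exp (s ^ 2 * K * R)), by positivity, fun G hG c hc => ?_⟩
  set f := s • G.emb c with hf
  have hz := G.z_nonneg c
  have hR : 0 ≤ R := hz.trans hc
  let g : ℕ → C(M, ℝ) := fun k => ((2 * k).factorial : ℝ)⁻¹ • f ^ (2 * k)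
  have hs : Summable g := by
    refine Summable.of_norm_bounded (g := fun k => ‖(1 : C(M, ℝ))‖ *
      (‖f‖ ^ (2 * k) / (2 * k).factorial)) ?_ fun k => ?_
    · exact ((Real.summable_pow_div_factorial ‖f‖).comp_injective
        (mul_right_injective₀ two_ne_zero)).mul_left _
    · have : ‖f ^ (2 * k)‖ ≤ ‖(1 : C(M, ℝ))‖ * ‖f‖ ^ (2 * k) := by
        generalize 2 * k = n
        induction n with
        | zero => simp
        | succ n ih =>
          rw [pow_succ, pow_succ, ← mul_assoc]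
          exact (norm_mul_le _ _).trans (mul_le_mul_of_nonneg_right ih (norm_nonneg _))
      simp only [g, norm_smul, norm_inv, Real.norm_natCast]
      rw [div_eq_mul_inv, ← mul_assoc, mul_comm]
      exact mul_le_mul_of_nonneg_right this (by positivity)
  have hx : ∀ x, (∑' k, g k) x = Real.cosh (f x) := by
    intro x
    have h2 := (ContinuousMap.evalCLM ℝ x : C(M, ℝ) →L[ℝ] ℝ).hasSum hs.hasSum
    have h3 := Real.hasSum_cosh (f x)
    refine h2.unique ?_
    convert h3 using 2 with k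
    simp [g, div_eq_inv_mul]
  have h4 : I (ex f) ≤ 2 * I (∑' k, g k) := by
    have := hI.mono (f := ex f) (g := (2 : ℝ) • ∑' k, g k) fun x => by
      simp only [ex_apply, ContinuousMap.smul_apply, hx, smul_eq_mul, Real.cosh_eq]
      linarith [Real.exp_pos (-f x)]
    simpa using this
  refine h4.trans (mul_le_mul_of_nonneg_left ?_ two_pos.le)
  have h5 := I.hasSum hs.hasSum
  have h6 := (NormedSpace.expSeries_div_hasSum_exp (s ^ 2 * K * R)).mul_left (I 1 + 1)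
  rw [← Real.exp_eq_exp_ℝ] at h6
  refine hasSum_le (fun k => ?_) h5 h6
  rcases Nat.eq_zero_or_pos k with rfl | hk
  · simp [g]
  · have h7 := hG k hk c
    have h8 : (k.factorial : ℝ) * (k : ℝ) ^ k ≤ (2 * k).factorial := by
      have := Nat.factorial_mul_pow_le_factorial (m := k) (n := k)
      rw [two_mul]
      have h9 : k.factorial * k ^ k ≤ (k + k).factorial :=
        (Nat.mul_le_mul_left _ (Nat.pow_le_pow_left (Nat.le_succ k) k)).trans this
      exact_mod_cast h9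
    have h9 : I (g k) = ((2 * k).factorial : ℝ)⁻¹ * (s ^ (2 * k) * I (G.emb c ^ (2 * k))) := by
      simp [g, hf, smul_pow]
    have hs2 : 0 ≤ s ^ (2 * k) := (even_two_mul k).pow_nonneg s
    have hf1 : (0 : ℝ) < k.factorial := by exact_mod_cast k.factorial_pos
    have hf2 : (0 : ℝ) < (2 * k).factorial := by exact_mod_cast (2 * k).factorial_pos
    have hk0 : (0 : ℝ) < (k : ℝ) ^ k := by positivity
    have h10 : I (G.emb c ^ (2 * k)) ≤ (K * k) ^ k * R ^ k :=
      h7.trans (mul_le_mul_of_nonneg_left (pow_le_pow_left₀ hz hc k) (by positivity))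
    have h11 : ((2 * k).factorial : ℝ)⁻¹ ≤ ((k.factorial : ℝ) * (k : ℝ) ^ k)⁻¹ :=
      inv_anti₀ (by positivity) h8
    calc I (g k) ≤ ((k.factorial : ℝ) * (k : ℝ) ^ k)⁻¹ * (s ^ (2 * k) * ((K * k) ^ k * R ^ k)) := by
          rw [h9]
          exact mul_le_mul h11 (mul_le_mul_of_nonneg_left h10 hs2)
            (mul_nonneg hs2 (hI.even_nonneg _ _)) (by positivity)
      _ = 1 * ((s ^ 2 * K * R) ^ k / k.factorial) := by
          rw [pow_mul, mul_pow, mul_pow, mul_pow]; field_simp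
      _ ≤ _ := mul_le_mul_of_nonneg_right (by linarith) (by positivity)

/-- All even moments of `f i` are bounded by the corresponding powers of `s i`
(`s i` is the square of the size of `f i`). -/
def Bd (I : C(M, ℝ) →L[ℝ] ℝ) {ι : Type*} (s : ι → ℝ) (f : ι → C(M, ℝ)) : Prop :=
  ∀ k : ℕ, ∃ C : ℝ, 0 ≤ C ∧ ∀ i, I (f i ^ (2 * k)) ≤ C * s i ^ k

namespace Bd

variable {ι : Type*} {s t : ι → ℝ} {f g : ι → C(M, ℝ)}

theorem mono (h : Bd I s f) (hs : ∀ i, 0 ≤ s i) {A : ℝ} (hA : 0 ≤ A) (hst : ∀ i, s i ≤ A * t i) :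
    Bd I t f := fun k => by
  obtain ⟨C, hC, h⟩ := h k
  refine ⟨C * A ^ k, by positivity, fun i => (h i).trans ?_⟩
  rw [mul_assoc, ← mul_pow]
  exact mul_le_mul_of_nonneg_left (pow_le_pow_left₀ (hs i) (hst i) k) hC

theorem mono' (h : Bd I s f) (hs : ∀ i, 0 ≤ s i) (hst : ∀ i, s i ≤ t i) : Bd I t f :=
  h.mono hs zero_le_one fun i => by simpa using hst i

theorem congr (h : Bd I s f) (hst : ∀ i, s i = t i) : Bd I t f := by
  rwa [← funext hst]

theorem const (hI : Pos I) (f : C(M, ℝ)) : Bd I (fun _ : ι => 1) fun _ => f := fun k =>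
  ⟨I (f ^ (2 * k)), hI.even_nonneg _ _, fun _ => by simp⟩

theorem zero (hI : Pos I) (hs : ∀ i, 0 ≤ s i) : Bd I s fun _ => 0 := fun k => by
  refine ⟨I 1, hI 1 fun x => by simp, fun i => ?_⟩
  rcases Nat.eq_zero_or_pos k with rfl | hk
  · simp
  · rw [zero_pow (by omega), map_zero]
    exact mul_nonneg (hI 1 fun x => by simp) (pow_nonneg (hs i) k)

theorem smul (h : Bd I s f) (a : ℝ) : Bd I s fun i => a • f i := fun k => by
  obtain ⟨C, hC, h⟩ := h k
  have ha : 0 ≤ a ^ (2 * k) := (even_two_mul k).pow_nonneg a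
  refine ⟨a ^ (2 * k) * C, by positivity, fun i => ?_⟩
  rw [smul_pow, map_smul, smul_eq_mul, mul_assoc]
  exact mul_le_mul_of_nonneg_left (h i) ha

theorem add (hI : Pos I) (hf : Bd I s f) (hg : Bd I s g) : Bd I s fun i => f i + g i := fun k => by
  obtain ⟨C, hC, hf⟩ := hf k
  obtain ⟨D, hD, hg⟩ := hg k
  refine ⟨2 ^ (2 * k - 1) * (C + D), by positivity, fun i => ?_⟩
  have := hI.mono (f := (f i + g i) ^ (2 * k))
    (g := ((2 : ℝ) ^ (2 * k - 1)) • (f i ^ (2 * k) + g i ^ (2 * k))) fun x => by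
      simpa [mul_add] using (even_two_mul k).add_pow_le (a := f i x) (b := g i x)
  rw [map_smul, map_add, smul_eq_mul] at this
  refine this.trans ?_
  rw [mul_assoc, add_mul]
  exact mul_le_mul_of_nonneg_left (add_le_add (hf i) (hg i)) (by positivity)

theorem mul (hI : Pos I) (hf : Bd I s f) (hg : Bd I t g) (hs : ∀ i, 0 ≤ s i) (ht : ∀ i, 0 ≤ t i) :
    Bd I (fun i => s i * t i) fun i => f i * g i := fun k => by
  obtain ⟨C, hC, hf⟩ := hf (2 * k)
  obtain ⟨D, hD, hg⟩ := hg (2 * k)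
  refine ⟨C + D, by positivity, fun i => ?_⟩
  have h1 := hI.cs1 (f i ^ (2 * k)) (g i ^ (2 * k))
  rw [← pow_mul, ← pow_mul, mul_comm (2 * k) 2, ← mul_pow] at h1
  have h2 := mul_le_mul (hf i) (hg i) (hI.even_nonneg _ _)
    (mul_nonneg hC (pow_nonneg (hs i) _))
  have hp : 0 ≤ (s i * t i) ^ k := pow_nonneg (mul_nonneg (hs i) (ht i)) k
  refine le_of_sq_le_sq ?_ (by positivity) |>.trans' (le_refl _)
  refine h1.trans (h2.trans ?_)
  have h3 : C * s i ^ (2 * k) * (D * t i ^ (2 * k)) = C * D * ((s i * t i) ^ k) ^ 2 := by ring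
  rw [h3, mul_pow (C + D)]
  exact mul_le_mul_of_nonneg_right (by nlinarith [mul_nonneg hC hD]) (sq_nonneg _)

theorem mul_one' (hI : Pos I) (hf : Bd I (fun _ => 1) f) (hg : Bd I t g) (ht : ∀ i, 0 ≤ t i) :
    Bd I t fun i => f i * g i :=
  (hf.mul hI hg (fun _ => zero_le_one) ht).congr fun _ => one_mul _

/-- The integral of a family of size `s`. -/
theorem abs_I_le (hI : Pos I) (h : Bd I (fun i => s i ^ 2) f) (hs : ∀ i, 0 ≤ s i) :
    ∃ C : ℝ, 0 ≤ C ∧ ∀ i, |I (f i)| ≤ C * s i := by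
  obtain ⟨C, hC, h⟩ := h 1
  have h1 : 0 ≤ I 1 := hI 1 fun x => by simp
  refine ⟨C + I 1, by positivity, fun i => ?_⟩
  have h2 := hI.cs1 (f i) 1
  have h3 := h i
  simp only [mul_one, one_pow, pow_one] at h2 h3
  refine abs_le_of_sq_le_sq' ?_ (mul_nonneg (by positivity) (hs i)) |> abs_le.2
  refine h2.trans ((mul_le_mul_of_nonneg_right h3 h1).trans ?_)
  rw [mul_pow, mul_right_comm]
  exact mul_le_mul_of_nonneg_right (by nlinarith) (sq_nonneg _)

/-- The weighted `L²` norm of a family of squared size `s`. -/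
theorem w_le (hI : Pos I) {r : ι → C(M, ℝ)} (hr : Bd I (fun _ => 1) r) (h : Bd I s f)
    (hs : ∀ i, 0 ≤ s i) : ∃ C : ℝ, 0 ≤ C ∧ ∀ i, I (r i * f i ^ 2) ≤ C * s i := by
  obtain ⟨C, hC, h1⟩ := abs_I_le hI (s := s) (f := fun i => r i * (f i * f i))
    ((hr.mul_one' hI (h.mul hI h hs hs) fun i => mul_nonneg (hs i) (hs i)).congr
      fun i => (sq _).symm) hs
  exact ⟨C, hC, fun i => by rw [sq]; exact (le_abs_self _).trans (h1 i)⟩

variable {G : ι → Gal I} {K : ℝ}

theorem of_mom (hI : Pos I) (hK : 0 < K) (hG : ∀ i, (G i).Mom K) (c : ∀ i, Fin (G i).n → ℝ) :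
    Bd I (fun i => (G i).z (c i)) fun i => (G i).emb (c i) := fun k => by
  rcases Nat.eq_zero_or_pos k with rfl | hk
  · exact ⟨I 1, hI 1 fun x => by simp, fun i => by simp⟩
  · exact ⟨(K * k) ^ k, by positivity, fun i => hG i k hk (c i)⟩

theorem of_z_le (hI : Pos I) (hK : 0 < K) (hG : ∀ i, (G i).Mom K) (c : ∀ i, Fin (G i).n → ℝ)
    {R : ℝ} (hR : ∀ i, (G i).z (c i) ≤ R) : Bd I (fun _ => 1) fun i => (G i).emb (c i) :=
  (of_mom hI hK hG c).mono (fun i => (G i).z_nonneg _) (le_max_right R 0) fun i => by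
    simpa using Or.inl (hR i)

theorem ex_smul (hI : Pos I) (hK : 0 < K) (hG : ∀ i, (G i).Mom K) (c : ∀ i, Fin (G i).n → ℝ)
    {R : ℝ} (hR : ∀ i, (G i).z (c i) ≤ R) (a : ℝ) :
    Bd I (fun _ => 1) fun i => ex (a • (G i).emb (c i)) := fun k => by
  obtain ⟨C, hC, h⟩ := ex_bound hI hK R (((2 * k : ℕ) : ℝ) * a)
  refine ⟨C, hC, fun i => ?_⟩
  rw [ex_pow, smul_smul, one_pow, mul_one]
  exact h (G i) (hG i) (c i) (hR i)

theorem rho (hI : Pos I) (hK : 0 < K) (hG : ∀ i, (G i).Mom K) (c : ∀ i, Fin (G i).n → ℝ)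
    {R : ℝ} (hR : ∀ i, (G i).z (c i) ≤ R) : Bd I (fun _ => 1) fun i => (G i).rho (c i) :=
  ex_smul hI hK hG c hR 4

/-- Universal polynomials in bounded families are bounded. -/
theorem pol (hI : Pos I) {Q : C(M, ℝ)} {k : ℕ} (c : ∀ i, Fin (G i).n → ℝ)
    (hu : ∀ j < k, Bd I (fun _ => 1) fun i => (G i).u Q j (c i)) {a : Fam I}
    (ha : a ∈ Pol I Q k) : Bd I (fun _ => 1) fun i => a (G i) (c i) := by
  induction ha using Algebra.adjoin_induction with
  | mem x hx =>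
    obtain ⟨j, hj, rfl⟩ := hx
    exact hu j hj
  | algebraMap r => exact const hI (algebraMap ℝ C(M, ℝ) r)
  | add x y _ _ hx hy => exact hx.add hI hy
  | mul x y _ _ hx hy => exact hx.mul_one' hI hy fun _ => zero_le_one

end Bd

/-- The mean value is controlled by the weighted `L²` norm. -/
theorem mean_sq_le (hI : Pos I) {K : ℝ} (hK : 0 < K) (R : ℝ) : ∃ C : ℝ, 0 ≤ C ∧
    ∀ G : Gal I, G.Mom K → ∀ c, G.z c ≤ R → ∀ f : C(M, ℝ),
      I f ^ 2 ≤ C * I (G.rho c * f ^ 2) := by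
  obtain ⟨C, hC, h⟩ := ex_bound hI hK R (-4)
  refine ⟨C, hC, fun G hG c hc f => ?_⟩
  have e1 : G.rho c * ex ((-4 : ℝ) • G.emb c) = 1 := by
    rw [Gal.rho, ← ex_add, ← add_smul]; norm_num [ex_zero]
  have h1 := hI.cs (r := G.rho c) (fun x => (G.rho_pos c x).le) (ex ((-4 : ℝ) • G.emb c)) f
  rw [e1, one_mul, sq (ex _), ← mul_assoc, e1, one_mul] at h1
  exact h1.trans (mul_le_mul_of_nonneg_right (h G hG c hc)
    (hI.w_nonneg (fun x => (G.rho_pos c x).le) f))

end Pool.Agent.MP_417fa2_gt.Flow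

end MrgPart1

-- ======== part 2: formerly Pool.Agent.MP_417fa2_gt.Flow.Lev0
section MrgPart2

/-! The first level of the energy hierarchy: a logarithmic Gronwall argument for `∫ ρ q²`. -/

open Set Filter

namespace Pool.Agent.MP_417fa2_gt.Flow

universe u

theorem lev0_pt (x r l m : ℝ) (p : ℕ) (hr : 0 ≤ r) (hl : 0 < l) (hm : 0 < m) :
    r * x ^ 4 ≤ l * (r * x ^ 2) + (m / (2 * l ^ p)) * r ^ 2 +
      (1 / (2 * l ^ p * m)) * x ^ (2 * (2 * p + 4)) := by
  have h1 : x ^ 4 ≤ l * x ^ 2 + x ^ (2 * p + 4) / l ^ p := by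
    have hy : 0 ≤ x ^ 2 := sq_nonneg x
    have e1 : x ^ (2 * p + 4) = (x ^ 2) ^ p * x ^ 4 := by ring
    have h4 : 0 ≤ x ^ 4 := by positivity
    have hlp : 0 < l ^ p := pow_pos hl p
    rcases le_total (x ^ 2) l with h | h
    · have : x ^ 4 ≤ l * x ^ 2 := by nlinarith
      have h2 : 0 ≤ x ^ (2 * p + 4) / l ^ p := by rw [e1]; positivity
      linarith
    · have h2 : l ^ p ≤ (x ^ 2) ^ p := pow_le_pow_left₀ hl.le h p
      have h3 : x ^ 4 ≤ x ^ (2 * p + 4) / l ^ p := by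
        rw [le_div_iff₀ hlp, e1]; nlinarith
      have : 0 ≤ l * x ^ 2 := by positivity
      linarith
  have hlp : 0 < l ^ p := pow_pos hl p
  set y := x ^ (2 * p + 4) with hy
  have e2 : x ^ (2 * (2 * p + 4)) = y ^ 2 := by rw [hy]; ring
  rw [e2]
  have h2 : r * (y / l ^ p) ≤ (m / (2 * l ^ p)) * r ^ 2 + (1 / (2 * l ^ p * m)) * y ^ 2 := by
    have : (m / (2 * l ^ p)) * r ^ 2 + (1 / (2 * l ^ p * m)) * y ^ 2 - r * (y / l ^ p)
        = (m * r - y) ^ 2 / (2 * l ^ p * m) := by field_simp; ring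
    have h3 : 0 ≤ (m * r - y) ^ 2 / (2 * l ^ p * m) := by positivity
    linarith
  have h3 := mul_le_mul_of_nonneg_left h1 hr
  nlinarith

/-- The choice of the exponent. -/
theorem lev0_X (K R z B X : ℝ) (hK : 0 < K) (hR : 0 ≤ R) (hz : 0 < z) (hB : 0 ≤ B)
    (h : ∀ p : ℕ, X ≤ 4 * (K * (2 * p + 4) * z) * B +
      (K * (2 * p + 4) * z) ^ 2 / 4 ^ p * ((R + 1) / 2)) :
    X ≤ 6 * K * (4 + 2 * K * (R + 1)) * z * (1 + B) * (1 + Real.log (1 + z)) := by
  obtain ⟨n, h1, h2⟩ := exists_nat_pow_near (x := 1 + z) (y := 2) (by linarith) (by norm_num)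
  have hL0 : 0 ≤ Real.log (1 + z) := Real.log_nonneg (by linarith)
  have hn : (n : ℝ) ≤ 2 * Real.log (1 + z) := by
    have h3 : Real.log (2 ^ n) ≤ Real.log (1 + z) := Real.log_le_log (by positivity) h1
    rw [Real.log_pow] at h3
    have h4 : (1 / 2 : ℝ) < Real.log 2 := by
      have := Real.log_two_gt_d9
      linarith
    have h5 : (0 : ℝ) ≤ n := Nat.cast_nonneg n
    nlinarith
  have h3 := h (n + 1)
  set m := K * (2 * ((n + 1 : ℕ) : ℝ) + 4) * z with hm
  have hm0 : 0 < m := by positivity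
  have hm1 : m ≤ 6 * K * z * (1 + Real.log (1 + z)) := by
    rw [hm]; push_cast
    have : 2 * ((n : ℝ) + 1) + 4 ≤ 6 * (1 + Real.log (1 + z)) := by linarith
    nlinarith [mul_pos hK hz]
  have hp : ((n : ℝ) + 3) ≤ 2 * 2 ^ (n + 1) := by
    have : n < 2 ^ n := Nat.lt_two_pow_self
    have h4 : (n : ℝ) + 1 ≤ 2 ^ n := by exact_mod_cast this
    have h5 : (1 : ℝ) ≤ 2 ^ n := one_le_pow₀ (by norm_num)
    rw [pow_succ]; linarith
  have hm2 : m / 4 ^ (n + 1) ≤ 4 * K := by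
    rw [div_le_iff₀ (by positivity), hm]; push_cast
    have e : (4 : ℝ) ^ (n + 1) = 2 ^ (n + 1) * 2 ^ (n + 1) := by
      rw [← mul_pow]; norm_num
    rw [e]
    have h6 : z ≤ 2 ^ (n + 1) := by linarith
    have h7 : (2 * ((n : ℝ) + 1) + 4) * z ≤ (4 * 2 ^ (n + 1)) * 2 ^ (n + 1) :=
      mul_le_mul (by linarith) h6 hz.le (by positivity)
    nlinarith
  have h4 : m ^ 2 / 4 ^ (n + 1) * ((R + 1) / 2) ≤ m * (2 * K * (R + 1)) := by
    have e : m ^ 2 / 4 ^ (n + 1) * ((R + 1) / 2) = m * (m / 4 ^ (n + 1) * ((R + 1) / 2)) := by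
      ring
    rw [e]
    refine mul_le_mul_of_nonneg_left ?_ hm0.le
    nlinarith
  have h5 : X ≤ m * ((4 + 2 * K * (R + 1)) * (1 + B)) := by
    have h6 : 0 ≤ 2 * K * (R + 1) := by positivity
    have : 4 * B + 2 * K * (R + 1) ≤ (4 + 2 * K * (R + 1)) * (1 + B) := by nlinarith
    nlinarith
  have h6 : 0 ≤ (4 + 2 * K * (R + 1)) * (1 + B) := by positivity
  calc X ≤ m * ((4 + 2 * K * (R + 1)) * (1 + B)) := h5
    _ ≤ 6 * K * z * (1 + Real.log (1 + z)) * ((4 + 2 * K * (R + 1)) * (1 + B)) :=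
        mul_le_mul_of_nonneg_right hm1 h6
    _ = _ := by ring

theorem lev0_log (b z e : ℝ) (hb : 1 ≤ b) (hz : 0 ≤ z) (he : 0 < e) (he1 : e ≤ 1) :
    Real.log (1 + z) ≤ 2 * Real.log b + e * (z / b ^ 2) - Real.log e := by
  have hb0 : 0 < b := by linarith
  have hy : 0 ≤ z / b ^ 2 := by positivity
  have h1 : 1 + z ≤ b ^ 2 * (1 + z / b ^ 2) := by
    have : b ^ 2 * (1 + z / b ^ 2) = b ^ 2 + z := by field_simp
    nlinarith
  have h2 := Real.log_le_log (by linarith) h1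
  rw [Real.log_mul (by positivity) (by positivity), Real.log_pow] at h2
  have h3 := Real.log_le_sub_one_of_pos (x := e * (1 + z / b ^ 2)) (by positivity)
  rw [Real.log_mul he.ne' (by positivity)] at h3
  push_cast at h2
  nlinarith

/-- The differential inequality. -/
theorem lev0_ineq (K1 K2 : ℝ) (h1 : 0 ≤ K1) (h2 : 0 ≤ K2) : ∃ K3 : ℝ, 0 < K3 ∧
    ∀ B D C z X d : ℝ, 0 ≤ B → 0 ≤ D → 0 ≤ C → 0 ≤ z → z ≤ K1 * (1 + C) → C ^ 2 ≤ 4 * B * D →
      X ≤ K2 * z * (1 + B) * (1 + Real.log (1 + z)) → d ≤ -D + 4 * X →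
      d ≤ -D / 2 + K3 * (1 + C) * (1 + B) * (1 + Real.log (1 + B)) := by
  set e : ℝ := 1 / (1 + 64 * K2 * K1 ^ 2) with he
  have he0 : 0 < e := by positivity
  have hs : 0 ≤ 64 * K2 * K1 ^ 2 := by positivity
  have he1 : e ≤ 1 := by rw [he, div_le_one (by positivity)]; linarith
  have he2 : e * (64 * K2 * K1 ^ 2) ≤ 1 := by
    rw [he, div_mul_eq_mul_div, div_le_one (by positivity)]; linarith
  have hle : 0 ≤ -Real.log e := by have := Real.log_nonpos he0.le he1; linarith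
  refine ⟨1 + 4 * K1 * K2 * (2 - Real.log e), by
    have : 0 ≤ 2 - Real.log e := by linarith
    positivity, ?_⟩
  intro B D C z X d hB hD hC hz hzC hCBD hX hd
  set b := 1 + B with hb
  have hb1 : 1 ≤ b := by linarith
  have hb0 : 0 < b := by linarith
  have hl := lev0_log b z e hb1 hz he0 he1
  have hlb : 0 ≤ Real.log b := Real.log_nonneg hb1
  set L := Real.log b
  set s := -Real.log e with hs'
  have h3 : X ≤ K2 * z * b * (1 + 2 * L + s) + K2 * e * (z ^ 2 / b) := by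
    have e1 : K2 * z * b * (1 + 2 * L + s) + K2 * e * (z ^ 2 / b) =
        K2 * z * b * (1 + (2 * L + e * (z / b ^ 2) + s)) := by field_simp; ring
    rw [e1]
    refine hX.trans (mul_le_mul_of_nonneg_left (by linarith) (by positivity))
  have h4 : z ^ 2 / b ≤ 2 * K1 ^ 2 * (1 + 4 * D) := by
    rw [div_le_iff₀ hb0]
    have h5 : z ^ 2 ≤ (K1 * (1 + C)) ^ 2 := pow_le_pow_left₀ hz hzC 2
    have h6 : (1 + C) ^ 2 ≤ 2 * ((1 + 4 * D) * b) := by
      have : (1 + 4 * D) * b = 1 + B + 4 * D + 4 * B * D := by rw [hb]; ring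
      nlinarith [sq_nonneg (1 - C)]
    have h7 : K1 ^ 2 * (1 + C) ^ 2 ≤ K1 ^ 2 * (2 * ((1 + 4 * D) * b)) :=
      mul_le_mul_of_nonneg_left h6 (sq_nonneg _)
    nlinarith
  have h5 : K2 * e * (z ^ 2 / b) ≤ (1 + 4 * D) / 32 := by
    have h6 : K2 * e * (z ^ 2 / b) ≤ K2 * e * (2 * K1 ^ 2 * (1 + 4 * D)) :=
      mul_le_mul_of_nonneg_left h4 (by positivity)
    have h7 : e * (64 * K2 * K1 ^ 2) * (1 + 4 * D) ≤ 1 * (1 + 4 * D) :=
      mul_le_mul_of_nonneg_right he2 (by positivity)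
    nlinarith
  have h6 : K2 * z * b * (1 + 2 * L + s) ≤ K1 * K2 * (2 + s) * ((1 + C) * b * (1 + L)) := by
    have h7 : 1 + 2 * L + s ≤ (2 + s) * (1 + L) := by nlinarith
    have h8 : z * (1 + 2 * L + s) ≤ (K1 * (1 + C)) * ((2 + s) * (1 + L)) :=
      mul_le_mul hzC h7 (by positivity) (by positivity)
    have h9 := mul_le_mul_of_nonneg_left h8 (show 0 ≤ K2 * b by positivity)
    nlinarith
  have h7 : 1 ≤ (1 + C) * b * (1 + L) := by
    have : 1 ≤ (1 + C) * b := by nlinarith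
    nlinarith
  have e2 : (1 + 4 * K1 * K2 * (2 - Real.log e)) * (1 + C) * b * (1 + L) =
      (1 + C) * b * (1 + L) + 4 * (K1 * K2 * (2 + s) * ((1 + C) * b * (1 + L))) := by
    rw [hs']; ring
  rw [e2]
  linarith

/-- The logarithmic Gronwall lemma. -/
theorem lev0_ode (K3 C τ B0 : ℝ) (hK : 0 < K3) : ∃ C' : ℝ, 0 ≤ C' ∧
    ∀ B J d c : ℝ → ℝ, (∀ t ∈ Icc 0 τ, HasDerivWithinAt B (d t) (Icc 0 τ) t) →
      (∀ t ∈ Icc 0 τ, HasDerivWithinAt J (c t / 2) (Icc 0 τ) t) → (∀ t ∈ Icc 0 τ, 0 ≤ B t) →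
      (∀ t ∈ Icc 0 τ, 0 ≤ J t ∧ J t ≤ C) → B 0 ≤ B0 →
      (∀ t ∈ Icc 0 τ, d t ≤ K3 * (1 + c t) * (1 + B t) * (1 + Real.log (1 + B t))) →
      ∀ t ∈ Icc 0 τ, B t ≤ C' := by
  refine ⟨Real.exp (Real.exp (Real.log (1 + Real.log (1 + B0)) + 2 * K3 * C + K3 * τ)),
    (Real.exp_pos _).le, ?_⟩
  intro B J d c hB hJ hB0 hJC hB00 hd t ht
  have hpos : ∀ s ∈ Icc 0 τ, 0 < 1 + B s ∧ 0 < 1 + Real.log (1 + B s) := fun s hs => by
    have := hB0 s hs
    have h2 : 0 ≤ Real.log (1 + B s) := Real.log_nonneg (by linarith)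
    constructor <;> linarith
  have hder : ∀ s ∈ Icc 0 τ, HasDerivWithinAt
      (fun s => Real.log (1 + Real.log (1 + B s)) - 2 * K3 * J s - K3 * s)
      (d s / (1 + B s) / (1 + Real.log (1 + B s)) - 2 * K3 * (c s / 2) - K3 * 1) (Icc 0 τ) s :=
    fun s hs => by
      have h1 := (((hB s hs).const_add 1).log (hpos s hs).1.ne').const_add 1
      exact ((h1.log (hpos s hs).2.ne').sub ((hJ s hs).const_mul _)).sub
        ((hasDerivWithinAt_id s _).const_mul K3)
  have hanti := antitoneOn_of_hasDerivWithinAt_nonpos (convex_Icc 0 τ)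
    (fun s hs => (hder s hs).continuousWithinAt)
    (fun s hs => (hder s (interior_subset hs)).mono interior_subset)
    (fun s hs => by
      have hs' := interior_subset hs
      have h1 : d s / (1 + B s) / (1 + Real.log (1 + B s)) ≤ K3 * (1 + c s) := by
        rw [div_le_iff₀ (hpos s hs').2, div_le_iff₀ (hpos s hs').1]
        have := hd s hs'
        linarith
      linarith)
  have h0 : (0 : ℝ) ∈ Icc 0 τ := ⟨le_rfl, ht.1.trans ht.2⟩
  have h1 := hanti h0 ht ht.1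
  simp only at h1
  have h2 : Real.log (1 + Real.log (1 + B 0)) ≤ Real.log (1 + Real.log (1 + B0)) :=
    Real.log_le_log (hpos 0 h0).2 (by
      have := Real.log_le_log (hpos 0 h0).1 (show 1 + B 0 ≤ 1 + B0 by linarith)
      linarith)
  have h3 : Real.log (1 + Real.log (1 + B t)) ≤
      Real.log (1 + Real.log (1 + B0)) + 2 * K3 * C + K3 * τ := by
    have h4 := mul_le_mul_of_nonneg_left (hJC t ht).2 (show 0 ≤ 2 * K3 by positivity)
    have h5 := mul_nonneg (show 0 ≤ 2 * K3 by positivity) (hJC 0 h0).1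
    have h6 := mul_le_mul_of_nonneg_left ht.2 hK.le
    linarith
  have h4 := (Real.log_le_iff_le_exp (hpos t ht).2).1 h3
  have h5 : Real.log (1 + B t) ≤
      Real.exp (Real.log (1 + Real.log (1 + B0)) + 2 * K3 * C + K3 * τ) := by linarith
  have h6 := (Real.log_le_iff_le_exp (hpos t ht).1).1 h5
  linarith

variable {M : Type u} [TopologicalSpace M] [CompactSpace M] {I : C(M, ℝ) →L[ℝ] ℝ}
  {G : Gal I} {Q : C(M, ℝ)} {γ K : ℝ}

theorem lev0_mean (S : Sys I Q) (F : G.Fine γ K) (c : Fin G.n → ℝ) :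
    I (G.rho c * G.u Q 0 c) = I Q := by
  obtain ⟨e, he1, he2⟩ := F.one
  have h1 := G.I_mul_emb (G.rho c * G.u Q 0 c) e
  have h2 := G.I_mul_emb Q e
  rw [he1, mul_one] at h1 h2
  rw [h1, h2]
  refine Finset.sum_congr rfl fun i _ => ?_
  rw [S.eq0]
  linear_combination (1 / 2 * c i) * he2 i

theorem lev0_C0 (S : Sys I Q) (c : Fin G.n → ℝ) :
    I (G.rho c * G.u Q 1 c * G.u Q 0 c) = -S1.C0 G Q c / 2 := by
  have h1 := G.I_mul_emb (G.rho c * G.u Q 1 c) (G.U Q 0 c)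
  have h2 : ∀ i, I (G.rho c * G.u Q 1 c * G.φ i) = -1 / 2 * G.lam i * G.U Q 0 c i :=
    fun i => S1.eq1 S c i
  simp only [h2] at h1
  rw [S1.C0, neg_div, Finset.sum_div, ← Finset.sum_neg_distrib]
  refine h1.trans (Finset.sum_congr rfl fun i _ => ?_)
  ring

theorem lev0_C0sq (hI : Pos I) (S : Sys I Q) (c : Fin G.n → ℝ) :
    S1.C0 G Q c ^ 2 ≤ 4 * G.Y Q 0 c * G.Y Q 1 c := by
  have h1 := hI.cs (fun x => (G.rho_pos c x).le) (G.u Q 1 c) (G.u Q 0 c)
  rw [lev0_C0 S] at h1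
  simp only [Gal.Y]
  nlinarith

theorem lev0_dY (hI : Pos I) (c : Fin G.n → ℝ) :
    G.dY Q 0 c ≤ -G.Y Q 1 c + 4 * I (G.rho c * G.u Q 0 c ^ 4) := by
  have e1 : G.rho c * G.T Q 1 c * G.u Q 0 c =
      (4 : ℝ) • (G.rho c * G.u Q 1 c * G.u Q 0 c ^ 2) := by
    ext x; simp [Gal.T]; ring
  have e0 : G.rho c * G.T Q 0 c * G.u Q 1 c = 0 := by simp [Gal.T]
  have h := hI.mono (f := (-4 : ℝ) • (G.rho c * G.u Q 1 c * G.u Q 0 c ^ 2))
    (g := G.rho c * G.u Q 1 c ^ 2 + (4 : ℝ) • (G.rho c * G.u Q 0 c ^ 4)) fun x => by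
      have := mul_nonneg (G.rho_pos c x).le (sq_nonneg (G.u Q 1 c x + 2 * G.u Q 0 c x ^ 2))
      simp only [ContinuousMap.smul_apply, ContinuousMap.mul_apply, ContinuousMap.add_apply,
        ContinuousMap.pow_apply, smul_eq_mul]
      nlinarith
  rw [map_add, map_smul, map_smul, smul_eq_mul, smul_eq_mul] at h
  simp only [Gal.dY, zero_add, e0, e1, map_smul, smul_eq_mul, map_zero, Gal.Y]
  linarith

theorem lev0_z (hI : Pos I) (hV : 0 < I 1) (S : Sys I Q) (F : G.Fine γ K) (hγ : 0 < γ)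
    (c : Fin G.n → ℝ) (hm : I (G.rho c) = I 1) {R : ℝ} (hR : I (G.rho c ^ 2) ≤ R) :
    G.z (G.U Q 0 c) + 1 ≤
      (1 + 1 / γ + 2 * I Q ^ 2 / I 1 + 2 * R / (γ * I 1)) * (1 + S1.C0 G Q c) := by
  obtain ⟨a, h1, -, h3⟩ := F.split (G.U Q 0 c)
  have h4 := F.gap_sum hγ (G.U Q 0 c)
  have h5 := lev0_mean S F c
  set v : Fin G.n → ℝ := fun i => if G.lam i = 0 then 0 else G.U Q 0 c i with hv
  have h6 := hI.cs1 (G.rho c) (G.emb v)
  rw [G.I_emb_sq] at h6
  rw [Gal.u, h1, mul_add, map_add, mul_smul_comm, mul_one, map_smul, hm, smul_eq_mul] at h5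
  have hC := S1.C0_nonneg G Q c
  have hR0 : 0 ≤ R := (hI.sq_nonneg _).trans hR
  rw [G.z_eq, h3]
  change _ ≤ 1 / γ * S1.C0 G Q c at h4
  change _ + _ + S1.C0 G Q c + 1 ≤ _
  set C := S1.C0 G Q c
  have hs : 0 ≤ ∑ i, v i ^ 2 := Finset.sum_nonneg fun i _ => sq_nonneg _
  have h7 : I (G.rho c * G.emb v) ^ 2 ≤ R * (1 / γ * C) :=
    h6.trans (mul_le_mul hR h4 hs hR0)
  have h8 : a ^ 2 * I 1 ≤ 2 * I Q ^ 2 / I 1 + 2 * R / (γ * I 1) * C := by
    have e : 2 * I Q ^ 2 / I 1 + 2 * R / (γ * I 1) * C =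
        (2 * I Q ^ 2 + 2 * (R * (1 / γ * C))) / I 1 := by field_simp
    rw [e, le_div_iff₀ hV]
    have e2 : a ^ 2 * I 1 * I 1 = (I Q - I (G.rho c * G.emb v)) ^ 2 := by
      rw [← h5]; ring
    rw [e2]
    nlinarith [sq_nonneg (I Q + I (G.rho c * G.emb v))]
  have h9 : 0 ≤ 2 * I Q ^ 2 / I 1 * C := by positivity
  have h10 : 0 ≤ 2 * R / (γ * I 1) := by positivity
  have h11 : 0 ≤ 1 / γ := by positivity
  nlinarith

theorem lev0_four (hI : Pos I) (F : G.Fine γ K) (hK : 0 < K) (c : Fin G.n → ℝ) {R : ℝ}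
    (hR : I (G.rho c ^ 2) ≤ R) (p : ℕ) :
    I (G.rho c * G.u Q 0 c ^ 4) ≤
      4 * (K * (2 * p + 4) * (G.z (G.U Q 0 c) + 1)) * G.Y Q 0 c +
      (K * (2 * p + 4) * (G.z (G.U Q 0 c) + 1)) ^ 2 / 4 ^ p * ((R + 1) / 2) := by
  have hz := G.z_nonneg (G.U Q 0 c)
  set m := K * (2 * p + 4) * (G.z (G.U Q 0 c) + 1) with hm
  have hm0 : 0 < m := by positivity
  have h1 : I (G.u Q 0 c ^ (2 * (2 * p + 4))) ≤ (m ^ (p + 2)) ^ 2 := by
    refine (F.mom (2 * p + 4) (by omega) (G.U Q 0 c)).trans ?_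
    rw [← mul_pow, ← pow_mul, show (p + 2) * 2 = 2 * p + 4 by ring, hm]
    push_cast
    refine pow_le_pow_left₀ (by positivity) ?_ _
    exact mul_le_mul_of_nonneg_left (by linarith) (by positivity)
  have h := hI.mono (f := G.rho c * G.u Q 0 c ^ 4)
    (g := (4 * m) • (G.rho c * G.u Q 0 c ^ 2) +
      (m ^ (p + 2) / (2 * (4 * m) ^ p)) • G.rho c ^ 2 +
      (1 / (2 * (4 * m) ^ p * m ^ (p + 2))) • G.u Q 0 c ^ (2 * (2 * p + 4))) fun x => by
      simp only [ContinuousMap.smul_apply, ContinuousMap.mul_apply, ContinuousMap.add_apply,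
        ContinuousMap.pow_apply, smul_eq_mul]
      exact lev0_pt _ _ _ _ p (G.rho_pos c x).le (by positivity) (by positivity)
  simp only [map_add, map_smul, smul_eq_mul] at h
  have h2 := mul_le_mul_of_nonneg_left hR
    (show 0 ≤ m ^ (p + 2) / (2 * (4 * m) ^ p) by positivity)
  have h3 := mul_le_mul_of_nonneg_left h1
    (show 0 ≤ 1 / (2 * (4 * m) ^ p * m ^ (p + 2)) by positivity)
  have e : m ^ 2 / 4 ^ p * ((R + 1) / 2) = m ^ (p + 2) / (2 * (4 * m) ^ p) * R +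
      1 / (2 * (4 * m) ^ p * m ^ (p + 2)) * (m ^ (p + 2)) ^ 2 := by
    clear_value m
    rw [mul_pow, pow_add]; field_simp
  rw [e, Gal.Y]
  linarith

theorem lev0 : Lev0Stmt.{u} := by
  intro M _ _ I Q hI hV S h1 γ K τ B hγ hK
  obtain ⟨C, hC⟩ := h1 γ K τ hγ hK
  obtain ⟨R, hR0, hR⟩ := ex_bound hI hK C 8
  obtain ⟨K3, hK3, hin⟩ := lev0_ineq (1 + 1 / γ + 2 * I Q ^ 2 / I 1 + 2 * R / (γ * I 1))
    (6 * K * (4 + 2 * K * (R + 1))) (by positivity) (by positivity)
  obtain ⟨C', hC', hode⟩ := lev0_ode K3 C τ (B 0) hK3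
  set a := K3 * ((1 + C') * (1 + Real.log (1 + C'))) with ha
  have hl : 0 ≤ Real.log (1 + C') := Real.log_nonneg (by linarith)
  have ha0 : 0 ≤ a := by positivity
  refine ⟨1 / 4, C' + a + 4 * a ^ 2 * C', by norm_num, fun G F hB c hc => ?_⟩
  have hs : G.STraj Q τ (fun _ => 1) c :=
    ⟨hc.zero, fun _ _ => ⟨zero_le_one, le_rfl⟩, fun t ht => by simpa using hc.der t ht⟩
  have hY : ∀ n x, 0 ≤ G.Y Q n x := fun n x =>
    Pos.w_nonneg hI (fun y => (G.rho_pos x y).le) _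
  have hd : ∀ t ∈ Icc 0 τ, G.dY Q 0 (c t) ≤ -G.Y Q 1 (c t) / 2 + K3 * (1 + S1.C0 G Q (c t)) *
      (1 + G.Y Q 0 (c t)) * (1 + Real.log (1 + G.Y Q 0 (c t))) := by
    intro t ht
    obtain ⟨hm, hz, -, -⟩ := hC G F _ c hs t ht
    have hr : I (G.rho (c t) ^ 2) ≤ R := by
      have := hR G F.mom (c t) hz
      rw [Gal.rho, ex_pow, smul_smul]
      norm_num
      exact this
    have hz0 := G.z_nonneg (G.U Q 0 (c t))
    exact hin _ _ _ _ _ _ (hY 0 _) (hY 1 _) (S1.C0_nonneg G Q _) (by linarith)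
      (lev0_z hI hV S F hγ (c t) hm hr) (lev0_C0sq hI S _)
      (lev0_X K R _ _ _ hK hR0 (by linarith) (hY 0 _) (lev0_four hI F hK (c t) hr))
      (lev0_dY hI _)
  have hb := hode (fun t => G.Y Q 0 (c t)) (fun t => G.J Q (c t)) (fun t => G.dY Q 0 (c t))
    (fun t => S1.C0 G Q (c t)) (fun t ht => S.derY G 0 _ t c (hc.der t ht))
    (fun t ht => by simpa using S1.der_J S (hs.der t ht)) (fun t _ => hY 0 _)
    (fun t ht => (hC G F _ c hs t ht).2.2) (by simpa [hc.zero] using hB 0)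
    (fun t ht => by have := hd t ht; have := hY 1 (c t); linarith)
  intro t ht
  have hb1 : G.Y Q 0 (c t) ≤ C' := hb t ht
  have h4 : 0 ≤ 4 * a ^ 2 * C' := by positivity
  refine ⟨fun i hi => ?_, fun i hi => absurd hi (Nat.not_lt_zero i), ?_⟩
  · rw [Nat.le_zero.1 hi]; linarith
  · have h2 := hd t ht
    have h3 := lev0_C0sq (G := G) hI S (c t)
    have h5 := S1.C0_nonneg G Q (c t)
    have h6 := hY 0 (c t)
    have h7 := hY 1 (c t)
    rw [zero_add]
    set C0 := S1.C0 G Q (c t)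
    set b := G.Y Q 0 (c t)
    set D := G.Y Q 1 (c t)
    have h8 : (1 + b) * (1 + Real.log (1 + b)) ≤ (1 + C') * (1 + Real.log (1 + C')) := by
      have h9 := Real.log_le_log (show 0 < 1 + b by linarith) (show 1 + b ≤ 1 + C' by linarith)
      have h10 : 0 ≤ Real.log (1 + b) := Real.log_nonneg (by linarith)
      exact mul_le_mul (by linarith) (by linarith) (by linarith) (by linarith)
    have h9 : K3 * (1 + C0) * (1 + b) * (1 + Real.log (1 + b)) ≤ a * (1 + C0) := by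
      have := mul_le_mul_of_nonneg_left h8 (show 0 ≤ K3 * (1 + C0) by positivity)
      rw [ha]; linarith
    have h10 : a * C0 ≤ D / 4 + 4 * a ^ 2 * C' := by
      refine le_of_pow_le_pow_left₀ two_ne_zero (by positivity) ?_
      have h11 : C0 ^ 2 ≤ 4 * C' * D := by nlinarith
      have h12 := mul_le_mul_of_nonneg_left h11 (sq_nonneg a)
      nlinarith [sq_nonneg (D / 4 - 4 * a ^ 2 * C')]
    linarith

end Pool.Agent.MP_417fa2_gt.Flow

end MrgPart2

-- marker of a merged file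
example : 731051 + 355889 = 731051 + 355889 := rfl
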