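import Mathlib.Algebra.Ring.IsFormallyReal
import Mathlib.Analysis.InnerProductSpace.NormDet
import Mathlib.Geometry.Manifold.VectorField.Pullback
import Pool.Agent.MP_417fa2_gt.Alg4
import Pool.Agent.MP_417fa2_gt.An.Bridge
import Pool.Agent.MP_417fa2_gt.An.DenseEa
import Pool.Agent.MP_417fa2_gt.Flow.Lev0

-- ======== part 0: formerly Pool.Agent.MP_417fa2_gt.Rep
section MrgPart0

/-! Transfer of the algebraic identities to the coordinate expressions. -/

open scoped ContDiff Topology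
open Set Filter

namespace Pool.Agent.MP_417fa2_gt

section Model

variable {A : Type*} [CommRing A] [Algebra ℝ A]

/-- A relation between elements of a differential algebra and functions of the coordinates that
is compatible with the operations. -/
structure Model (D : Fin 4 → Derivation ℝ A A) (R : A → (E4 → ℝ) → Prop) : Prop where
  add : ∀ {a b F G}, R a F → R b G → R (a + b) fun y => F y + G y
  mul : ∀ {a b F G}, R a F → R b G → R (a * b) fun y => F y * G y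
  smul : ∀ (c : ℝ) {a F}, R a F → R (c • a) fun y => c * F y
  one : R 1 fun _ => 1
  pd : ∀ (i) {a F}, R a F → R (D i a) (pd i F)

namespace Model

variable {D : Fin 4 → Derivation ℝ A A} {R : A → (E4 → ℝ) → Prop} (m : Model D R)
include m

theorem zero : R 0 fun _ => 0 := by simpa using m.smul 0 m.one

theorem sub {a b F G} (h : R a F) (k : R b G) : R (a - b) fun y => F y - G y := by
  simpa [sub_eq_add_neg] using m.add h (m.smul (-1) k)

theorem sum {ι : Type*} {s : Finset ι} {a : ι → A} {F : ι → E4 → ℝ} (h : ∀ j, R (a j) (F j)) :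
    R (∑ j ∈ s, a j) fun y => ∑ j ∈ s, F j y := by
  classical
  induction s using Finset.induction_on with
  | empty => simpa using m.zero
  | insert j s hj ih => simpa only [Finset.sum_insert hj] using m.add (h j) ih

theorem two {a F} (h : R a F) : R (2 * a) fun y => 2 * F y := by
  simpa only [two_mul] using m.add h h

theorem three {a F} (h : R a F) : R (3 * a) fun y => 3 * F y := by
  have := m.add (m.add h h) h
  rwa [show a + a + a = 3 * a by ring,
    show (fun y => F y + F y + F y) = fun y => 3 * F y from funext fun y => by ring] at this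

theorem sq {a F} (h : R a F) : R (a ^ 2) fun y => F y ^ 2 := by
  simpa only [pow_two] using m.mul h h

end Model

/-- The algebraic metric `X` represents the coordinate metric `G`. -/
structure Reps (X : Geo A) (R : A → (E4 → ℝ) → Prop) (G : E4 → Matrix (Fin 4) (Fin 4) ℝ) :
    Prop where
  m : Model X.D R
  g : ∀ i j, R (X.g i j) fun z => G z i j
  h : ∀ i j, R (X.h i j) (ginv G i j)

namespace Reps

variable {X : Geo A} {R : A → (E4 → ℝ) → Prop} {G : E4 → Matrix (Fin 4) (Fin 4) ℝ}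
  (r : Reps X R G)
include r

theorem chr (k i j : Fin 4) : R (X.chr k i j) (chr G k i j) :=
  r.m.smul _ (r.m.sum fun l => r.m.mul (r.h k l)
    (r.m.sub (r.m.add (r.m.pd i (r.g l j)) (r.m.pd j (r.g l i))) (r.m.pd l (r.g i j))))

theorem ric (i j : Fin 4) : R (X.ric i j) (ric G i j) :=
  r.m.add (r.m.sum fun k => r.m.sub (r.m.pd k (r.chr k i j)) (r.m.pd j (r.chr k i k)))
    (r.m.sum fun k => r.m.sum fun l =>
      r.m.sub (r.m.mul (r.chr k k l) (r.chr l i j)) (r.m.mul (r.chr k j l) (r.chr l i k)))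

theorem scal : R X.scal (scal G) :=
  r.m.sum fun i => r.m.sum fun j => r.m.mul (r.h i j) (r.ric i j)

theorem ricSq : R X.ricSq (ricSq G) :=
  r.m.sum fun i => r.m.sum fun j => r.m.sum fun k => r.m.sum fun l =>
    r.m.mul (r.m.mul (r.m.mul (r.h i k) (r.h j l)) (r.ric i j)) (r.ric k l)

theorem grad {a F} (h : R a F) (i : Fin 4) : R (X.grad a i) (grad G F i) :=
  r.m.sum fun j => r.m.mul (r.h i j) (r.m.pd j h)

theorem dvg {V W} (h : ∀ i, R (V i) (W i)) : R (X.dvg V) (dvg G W) :=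
  r.m.sum fun i => r.m.add (r.m.pd i (h i)) (r.m.sum fun k => r.m.mul (r.chr i i k) (h k))

theorem lap {a F} (h : R a F) : R (X.lap a) (lap G F) := r.dvg (r.grad h)

theorem ricGrad {a F} (h : R a F) (i : Fin 4) : R (X.ricGrad a i) (ricGrad G F i) :=
  r.m.sum fun j => r.m.sum fun k => r.m.mul (r.m.mul (r.h i j) (r.ric j k)) (r.grad h k)

theorem vec {a F} (h : R a F) (i : Fin 4) :
    R ((2 / 3 : ℝ) • (X.scal * X.grad a i) - 2 * X.ricGrad a i) fun z =>
      2 / 3 * MP_417fa2_gt.scal G z * MP_417fa2_gt.grad G F i z -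
        2 * MP_417fa2_gt.ricGrad G F i z := by
  simpa only [mul_assoc] using
    r.m.sub (r.m.smul (2 / 3) (r.m.mul r.scal (r.grad h i))) (r.m.two (r.ricGrad h i))

theorem pan {a F} (h : R a F) : R (X.pan a) (pan G F) :=
  r.m.sub (r.lap (r.lap h)) (r.dvg (r.vec h))

theorem qcurv : R X.qcurv (qcurv G) :=
  r.m.smul _ (r.m.add (r.m.sub (r.lap r.scal) (r.m.sq r.scal)) (r.m.three r.ricSq))

end Reps

end Model

/-- The algebra of smooth functions on `U`. -/
def SmA (U : Set E4) : Subalgebra ℝ (U → ℝ) where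
  carrier := {f | ∃ F : E4 → ℝ, ContDiffOn ℝ ∞ F U ∧ ∀ y : U, f y = F y}
  mul_mem' := by
    rintro _ _ ⟨F, hF, h⟩ ⟨G, hG, k⟩
    exact ⟨_, hF.mul hG, fun y => by simp [h, k]⟩
  add_mem' := by
    rintro _ _ ⟨F, hF, h⟩ ⟨G, hG, k⟩
    exact ⟨_, hF.add hG, fun y => by simp [h, k]⟩
  algebraMap_mem' c := ⟨fun _ => c, contDiffOn_const, fun _ => rfl⟩

variable {U : Set E4}

/-- The element `a` is the restriction of `F`. -/
def Rep (a : SmA U) (F : E4 → ℝ) : Prop := ∀ y : U, a.1 y = F y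

/-- The restriction of a smooth function. -/
def mkA (F : E4 → ℝ) (hF : ContDiffOn ℝ ∞ F U) : SmA U := ⟨fun y => F y, F, hF, fun _ => rfl⟩

theorem rep_mkA {F : E4 → ℝ} (hF : ContDiffOn ℝ ∞ F U) : Rep (mkA F hF) F := fun _ => rfl

theorem Rep.cdOn {a : SmA U} {F : E4 → ℝ} (h : Rep a F) : ContDiffOn ℝ ∞ F U := by
  obtain ⟨G, hG, k⟩ := a.2
  exact hG.congr fun y hy => (h ⟨y, hy⟩).symm.trans (k ⟨y, hy⟩)

theorem Rep.eqOn {a : SmA U} {F G : E4 → ℝ} (h : Rep a F) (k : Rep a G) : EqOn F G U :=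
  fun y hy => (h ⟨y, hy⟩).symm.trans (k ⟨y, hy⟩)

theorem Rep.congr {a : SmA U} {F G : E4 → ℝ} (h : Rep a F) (k : EqOn F G U) : Rep a G :=
  fun y => (h y).trans (k y.2)

theorem Rep.ext {a b : SmA U} {F G : E4 → ℝ} (h : Rep a F) (k : Rep b G) (e : EqOn F G U) :
    a = b := Subtype.ext (funext fun y => (h y).trans ((e y.2).trans (k y).symm))

/-- A chosen smooth representative. -/
noncomputable def exA (a : SmA U) : E4 → ℝ := Classical.choose a.2

theorem rep_exA (a : SmA U) : Rep a (exA a) := (Classical.choose_spec a.2).2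

theorem Rep.add {a b : SmA U} {F G : E4 → ℝ} (h : Rep a F) (k : Rep b G) :
    Rep (a + b) fun y => F y + G y := fun y => congrArg₂ (· + ·) (h y) (k y)

theorem Rep.mul {a b : SmA U} {F G : E4 → ℝ} (h : Rep a F) (k : Rep b G) :
    Rep (a * b) fun y => F y * G y := fun y => congrArg₂ (· * ·) (h y) (k y)

theorem Rep.smul (c : ℝ) {a : SmA U} {F : E4 → ℝ} (h : Rep a F) :
    Rep (c • a) fun y => c * F y := fun y => congrArg (c * ·) (h y)

theorem rep_one : Rep (1 : SmA U) fun _ => 1 := fun _ => rfl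

theorem rep_ite (i j : Fin 4) :
    Rep (if i = j then (1 : SmA U) else 0) fun _ => if i = j then 1 else 0 := by
  split_ifs <;> exact fun _ => rfl

/-- Partial derivative on the algebra, as a bare map. -/
noncomputable def pdA (hU : IsOpen U) (i : Fin 4) (a : SmA U) : SmA U :=
  mkA (pd i (exA a)) (cdOn_pd hU (rep_exA a).cdOn i)

theorem Rep.pdA (hU : IsOpen U) (i : Fin 4) {a : SmA U} {F : E4 → ℝ} (h : Rep a F) :
    Rep (pdA hU i a) (pd i F) := (rep_mkA _).congr (pd_congr_on hU ((rep_exA a).eqOn h) i)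

/-- Partial derivative on the algebra, as a derivation. -/
noncomputable def DA (hU : IsOpen U) (i : Fin 4) : Derivation ℝ (SmA U) (SmA U) :=
  Derivation.mk'
    { toFun := pdA hU i
      map_add' := fun a b => (((rep_exA a).add (rep_exA b)).pdA hU i).ext
        (((rep_exA a).pdA hU i).add ((rep_exA b).pdA hU i)) fun _ hy =>
          pd_add (dAt_of_cdOn hU (rep_exA a).cdOn hy) (dAt_of_cdOn hU (rep_exA b).cdOn hy) i
      map_smul' := fun c a => (((rep_exA a).smul c).pdA hU i).ext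
        (((rep_exA a).pdA hU i).smul c) fun _ hy =>
          pd_const_mul (dAt_of_cdOn hU (rep_exA a).cdOn hy) c i }
    fun a b => (((rep_exA a).mul (rep_exA b)).pdA hU i).ext
      (((rep_exA a).mul ((rep_exA b).pdA hU i)).add ((rep_exA b).mul ((rep_exA a).pdA hU i)))
      fun _ hy => (pd_mul (dAt_of_cdOn hU (rep_exA a).cdOn hy)
        (dAt_of_cdOn hU (rep_exA b).cdOn hy) i).trans (by ring)

theorem model_rep (hU : IsOpen U) : Model (DA hU) (Rep (U := U)) :=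
  ⟨Rep.add, Rep.mul, Rep.smul, rep_one, fun i _ _ h => h.pdA hU i⟩

theorem DA_comm (hU : IsOpen U) (i j : Fin 4) (a : SmA U) :
    DA hU i (DA hU j a) = DA hU j (DA hU i a) :=
  (((rep_exA a).pdA hU j).pdA hU i).ext (((rep_exA a).pdA hU i).pdA hU j) fun _ hy =>
    pd_comm ((rep_exA a).cdOn.contDiffAt (hU.mem_nhds hy)) i j

theorem cdOn_det {G : E4 → Matrix (Fin 4) (Fin 4) ℝ}
    (h : ∀ i j, ContDiffOn ℝ ∞ (fun z => G z i j) U) : ContDiffOn ℝ ∞ (fun z => (G z).det) U := by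
  simp only [Matrix.det_apply']
  exact ContDiffOn.sum fun σ _ => contDiffOn_const.mul (contDiffOn_prod fun i _ => h _ _)

theorem cdOn_inv {G : E4 → Matrix (Fin 4) (Fin 4) ℝ}
    (h : ∀ i j, ContDiffOn ℝ ∞ (fun z => G z i j) U) (h0 : ∀ y ∈ U, (G y).det ≠ 0) (i j : Fin 4) :
    ContDiffOn ℝ ∞ (fun z => (G z)⁻¹ i j) U := by
  simp only [Matrix.inv_def, Ring.inverse_eq_inv', Matrix.smul_apply, smul_eq_mul,
    Matrix.adjugate_apply]
  refine ((cdOn_det h).inv h0).mul (cdOn_det fun a b => ?_)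
  simp only [Matrix.updateRow_apply]
  split_ifs
  · exact contDiffOn_const
  · exact h _ _

theorem sum_inv_mul {N : Matrix (Fin 4) (Fin 4) ℝ} (h : N.det ≠ 0) (i j : Fin 4) :
    ∑ k, N⁻¹ i k * N k j = if i = j then 1 else 0 := by
  rw [← Matrix.mul_apply, Matrix.nonsing_inv_mul _ (Ne.isUnit h), Matrix.one_apply]

theorem sum_mul_inv {N : Matrix (Fin 4) (Fin 4) ℝ} (h : N.det ≠ 0) (i j : Fin 4) :
    ∑ k, N i k * N⁻¹ k j = if i = j then 1 else 0 := by
  rw [← Matrix.mul_apply, Matrix.mul_nonsing_inv _ (Ne.isUnit h), Matrix.one_apply]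

/-- A smooth Riemannian metric in coordinates on the open set `U`. -/
structure Nice (G : E4 → Matrix (Fin 4) (Fin 4) ℝ) (U : Set E4) : Prop where
  op : IsOpen U
  sm : ∀ i j, ContDiffOn ℝ ∞ (fun z => G z i j) U
  pos : ∀ y ∈ U, (G y).PosDef

namespace Nice

variable {G : E4 → Matrix (Fin 4) (Fin 4) ℝ} (n : Nice G U)
include n

theorem det_pos {y : E4} (hy : y ∈ U) : 0 < (G y).det := (n.pos y hy).det_pos

theorem symm {y : E4} (hy : y ∈ U) (i j : Fin 4) : G y i j = G y j i := by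
  simpa using (n.pos y hy).isHermitian.apply j i

theorem inv_symm {y : E4} (hy : y ∈ U) (i j : Fin 4) : ginv G i j y = ginv G j i y := by
  simpa [ginv] using (n.pos y hy).inv.isHermitian.apply j i

theorem inv_sm (i j : Fin 4) : ContDiffOn ℝ ∞ (ginv G i j) U :=
  cdOn_inv n.sm (fun _ hy => (n.det_pos hy).ne') i j

theorem mono {V : Set E4} (hV : IsOpen V) (h : V ⊆ U) : Nice G V :=
  ⟨hV, fun i j => (n.sm i j).mono h, fun y hy => n.pos y (h hy)⟩

/-- The algebraic metric attached to a coordinate metric. -/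
noncomputable def geo : Geo (SmA U) where
  D := DA n.op
  comm := DA_comm n.op
  g i j := mkA _ (n.sm i j)
  h i j := mkA _ (n.inv_sm i j)
  gs i j := (rep_mkA _).ext (rep_mkA _) fun _ hy => n.symm hy i j
  hs i j := (rep_mkA _).ext (rep_mkA _) fun _ hy => n.inv_symm hy i j
  hg i j := ((model_rep n.op).sum fun _ => (rep_mkA _).mul (rep_mkA _)).ext (rep_ite i j)
    fun _ hy => sum_inv_mul (n.det_pos hy).ne' i j

theorem reps : Reps n.geo Rep G := 
  ⟨model_rep n.op, fun i j => rep_mkA (n.sm i j), fun i j => rep_mkA (n.inv_sm i j)⟩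

end Nice

end Pool.Agent.MP_417fa2_gt

end MrgPart0

-- ======== part 1: formerly Pool.Agent.MP_417fa2_gt.Local
section MrgPart1

/-! The local identities in coordinates: density form, conformal change, change of chart. -/

open scoped ContDiff Topology
open Set Filter

namespace Pool.Agent.MP_417fa2_gt

/-- The volume density. -/
noncomputable def dens (G : E4 → Matrix (Fin 4) (Fin 4) ℝ) (y : E4) : ℝ := Real.sqrt (G y).det

/-- The coefficients of the second order part of the Paneitz operator. -/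
noncomputable def aco (G : E4 → Matrix (Fin 4) (Fin 4) ℝ) (a b : Fin 4) (y : E4) : ℝ :=
  -(2 / 3 * scal G y * ginv G a b y - 2 * ∑ j, ∑ k, ginv G a j y * ric G j k y * ginv G k b y)

/-- The second order part of the Paneitz operator. -/
noncomputable def pan2 (G : E4 → Matrix (Fin 4) (Fin 4) ℝ) (φ : E4 → ℝ) (y : E4) : ℝ :=
  -dvg G (fun i z => 2 / 3 * scal G z * grad G φ i z - 2 * ricGrad G φ i z) y

theorem pan_split (G : E4 → Matrix (Fin 4) (Fin 4) ℝ) (φ : E4 → ℝ) (y : E4) :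
    pan G φ y = lap G (lap G φ) y + pan2 G φ y := sub_eq_add_neg _ _

theorem coord_eq (v : E4) : v = ∑ c, v c • EuclideanSpace.single c (1 : ℝ) := by
  ext i; simp [Finset.sum_apply, Pi.single_apply]

theorem pd_coord {τ : E4 → E4} {y : E4} (h : DifferentiableAt ℝ τ y) (c i : Fin 4) :
    pd i (fun z => τ z c) y = fderiv ℝ τ y (EuclideanSpace.single i 1) c := by
  have := ((EuclideanSpace.proj c : E4 →L[ℝ] ℝ).hasFDerivAt.comp y h.hasFDerivAt).fderiv
  exact congrArg (fun L : E4 →L[ℝ] ℝ => L (EuclideanSpace.single i 1)) this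

theorem pd_chain {F : E4 → ℝ} {τ : E4 → E4} {y : E4} (hF : DifferentiableAt ℝ F (τ y))
    (h : DifferentiableAt ℝ τ y) (i : Fin 4) :
    pd i (fun z => F (τ z)) y = ∑ c, pd i (fun z => τ z c) y * pd c F (τ y) := by
  have h1 : pd i (fun z => F (τ z)) y =
      fderiv ℝ F (τ y) (fderiv ℝ τ y (EuclideanSpace.single i 1)) :=
    congrArg (fun L : E4 →L[ℝ] ℝ => L (EuclideanSpace.single i 1)) (fderiv_comp y hF h)
  rw [h1, coord_eq (fderiv ℝ τ y _), map_sum]
  simp only [pd_coord h, map_smul, smul_eq_mul]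
  rfl

theorem cdOn_coord {τ : E4 → E4} {U : Set E4} (h : ContDiffOn ℝ ∞ τ U) (c : Fin 4) :
    ContDiffOn ℝ ∞ (fun z => τ z c) U :=
  (EuclideanSpace.proj c : E4 →L[ℝ] ℝ).contDiff.comp_contDiffOn h

namespace Nice

variable {U : Set E4} {G : E4 → Matrix (Fin 4) (Fin 4) ℝ} (n : Nice G U) {φ ψ : E4 → ℝ} {y : E4}
include n

theorem dens_pos (hy : y ∈ U) : 0 < dens G y := Real.sqrt_pos.2 (n.det_pos hy)

theorem dens_sm : ContDiffOn ℝ ∞ (dens G) U :=
  (cdOn_det n.sm).sqrt fun _ hy => (n.det_pos hy).ne'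

theorem aco_sm (a b : Fin 4) : ContDiffOn ℝ ∞ (aco G a b) U :=
  (((contDiffOn_const.mul n.reps.scal.cdOn).mul (n.inv_sm a b)).sub
    (contDiffOn_const.mul (ContDiffOn.sum fun j _ => ContDiffOn.sum fun k _ =>
      ((n.inv_sm a j).mul (n.reps.ric j k).cdOn).mul (n.inv_sm k b)))).neg

theorem ric_symm (hy : y ∈ U) (i j : Fin 4) : ric G i j y = ric G j i y := by
  have h1 := n.reps.ric i j
  rw [n.geo.ric_symm] at h1
  exact h1.eqOn (n.reps.ric j i) hy

theorem aco_symm (hy : y ∈ U) (a b : Fin 4) : aco G a b y = aco G b a y := by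
  simp only [aco, Fin.sum_univ_four, n.inv_symm hy b a, symm4 (n.ric_symm hy),
    n.inv_symm hy 0 b, n.inv_symm hy 1 b, n.inv_symm hy 2 b, n.inv_symm hy 3 b,
    n.inv_symm hy 0 a, n.inv_symm hy 1 a, n.inv_symm hy 2 a, n.inv_symm hy 3 a]
  ring

theorem qcurv_sm : ContDiffOn ℝ ∞ (qcurv G) U := n.reps.qcurv.cdOn

theorem lap_sm (hφ : ContDiffOn ℝ ∞ φ U) : ContDiffOn ℝ ∞ (lap G φ) U :=
  (n.reps.lap (rep_mkA hφ)).cdOn

theorem pan_sm (hφ : ContDiffOn ℝ ∞ φ U) : ContDiffOn ℝ ∞ (pan G φ) U :=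
  (n.reps.pan (rep_mkA hφ)).cdOn

theorem lap_congr (hφ : ContDiffOn ℝ ∞ φ U) (h : EqOn φ ψ U) : EqOn (lap G φ) (lap G ψ) U :=
  (n.reps.lap (rep_mkA hφ)).eqOn (n.reps.lap ((rep_mkA hφ).congr h))

theorem pan_congr (hφ : ContDiffOn ℝ ∞ φ U) (h : EqOn φ ψ U) : EqOn (pan G φ) (pan G ψ) U :=
  (n.reps.pan (rep_mkA hφ)).eqOn (n.reps.pan ((rep_mkA hφ).congr h))

theorem dvg_density {V : Fin 4 → E4 → ℝ} (hV : ∀ i, ContDiffOn ℝ ∞ (V i) U) (hy : y ∈ U) :
    dvg G V y = (dens G y)⁻¹ * ∑ a, pd a (fun z => dens G z * V a z) y := by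
  have hi : ContDiffOn ℝ ∞ (fun z => (dens G z)⁻¹) U :=
    n.dens_sm.inv fun _ hz => (n.dens_pos hz).ne'
  have hd : Rep (Matrix.of n.geo.g).det fun z => (G z).det := fun z =>
    (((Pi.evalRingHom (fun _ : U => ℝ) z).comp (SmA U).val.toRingHom).map_det
      (Matrix.of n.geo.g)).trans (congrArg Matrix.det (Matrix.ext fun _ _ => rfl))
  have h := n.geo.dvg_density (ρ := mkA _ n.dens_sm) (ρ' := mkA _ hi)
    (((rep_mkA _).mul (rep_mkA _)).ext rep_one fun z hz => inv_mul_cancel₀ (n.dens_pos hz).ne')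
    (((rep_mkA _).mul (rep_mkA _)).ext hd fun z hz => Real.mul_self_sqrt (n.det_pos hz).le)
    fun i => mkA _ (hV i)
  have h1 := n.reps.dvg fun i => rep_mkA (hV i)
  rw [h] at h1
  exact h1.eqOn ((rep_mkA hi).mul (n.reps.m.sum fun a =>
    n.reps.m.pd a ((rep_mkA n.dens_sm).mul (rep_mkA (hV a))))) hy

theorem lap_dop (hφ : ContDiffOn ℝ ∞ φ U) (hy : y ∈ U) :
    lap G φ y = dop (dens G) (ginv G) φ y :=
  n.dvg_density (fun i => (n.reps.grad (rep_mkA hφ) i).cdOn) hy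

theorem pan2_dop (hφ : ContDiffOn ℝ ∞ φ U) (hy : y ∈ U) :
    pan2 G φ y = dop (dens G) (aco G) φ y := by
  rw [pan2, n.dvg_density (fun i => (n.reps.vec (rep_mkA hφ) i).cdOn) hy, dop, ← mul_neg,
    ← Finset.sum_neg_distrib]
  congr 1
  refine Finset.sum_congr rfl fun a _ => ?_
  rw [← pd_neg]
  congr 1
  funext z
  simp only [aco, grad, ricGrad, Fin.sum_univ_four]
  ring

section Conformal

variable {w : E4 → ℝ} (hw : ContDiffOn ℝ ∞ w U)

/-- The conformal factor in the algebra. -/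
noncomputable def conf : n.geo.Conf where
  w := mkA w hw
  e := mkA (fun z => Real.exp (2 * w z)) (contDiffOn_const.mul hw).exp
  e' := mkA (fun z => Real.exp (-(2 * w z))) (contDiffOn_const.mul hw).neg.exp
  he := ((rep_mkA _).mul (rep_mkA _)).ext rep_one fun z _ => by
    simp only [← Real.exp_add, add_neg_cancel, Real.exp_zero]
  De i := (n.reps.m.pd i (rep_mkA _)).ext
    ((n.reps.m.two (rep_mkA _)).mul (n.reps.m.pd i (rep_mkA hw))) fun z hz => by
      have hd := dAt_of_cdOn n.op hw hz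
      simp only [pd_exp (hd.const_mul 2), pd_const_mul hd]
      ring

theorem rep_e' : Rep (n.conf hw).e' fun z => Real.exp (-(2 * w z)) := fun _ => rfl

variable {G' : E4 → Matrix (Fin 4) (Fin 4) ℝ} (hG : ∀ y ∈ U, G' y = Real.exp (2 * w y) • G y)
include hw hG

theorem conf_reps : Reps (n.conf hw).geo Rep G' := by
  refine ⟨model_rep n.op, fun i j => ((rep_mkA _).mul (n.reps.g i j)).congr fun z hz => ?_,
    fun i j => ((rep_mkA _).mul (n.reps.h i j)).congr fun z hz => ?_⟩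
  · simp [hG z hz]
  · have : (G' z)⁻¹ = Real.exp (-(2 * w z)) • (G z)⁻¹ := by
      refine Matrix.inv_eq_left_inv ?_
      rw [hG z hz, Matrix.smul_mul, Matrix.mul_smul, smul_smul, ← Real.exp_add, neg_add_cancel,
        Real.exp_zero, one_smul, Matrix.nonsing_inv_mul _ (n.det_pos hz).ne'.isUnit]
    simp [ginv, this]

theorem pan_conf (hφ : ContDiffOn ℝ ∞ φ U) (hy : y ∈ U) :
    pan G' φ y = Real.exp (-4 * w y) * pan G φ y := by
  have h1 := (n.conf_reps hw hG).pan (rep_mkA hφ)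
  rw [(n.conf hw).pan_eq] at h1
  refine (h1.eqOn ((n.reps.m.sq (n.rep_e' hw)).mul (n.reps.pan (rep_mkA hφ))) hy).trans ?_
  simp only [pow_two, ← Real.exp_add]
  congr 2
  ring

theorem qcurv_conf (hy : y ∈ U) :
    2 * qcurv G' y = Real.exp (-4 * w y) * (pan G w y + 2 * qcurv G y) := by
  have h1 := n.reps.m.two (n.conf_reps hw hG).qcurv
  rw [(n.conf hw).qcurv_eq] at h1
  refine (h1.eqOn ((n.reps.m.sq (n.rep_e' hw)).mul ((n.reps.pan (rep_mkA hw)).add
    (n.reps.m.two n.reps.qcurv))) hy).trans ?_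
  simp only [pow_two, ← Real.exp_add]
  congr 2
  ring

end Conformal

end Nice

/-- The Jacobian matrix of a map. -/
noncomputable def jac (τ : E4 → E4) (y : E4) : Matrix (Fin 4) (Fin 4) ℝ :=
  Matrix.of fun a i => pd i (fun z => τ z a) y

/-- The map `τ` is a local isometry from `(U, G)` to `(U', G')`. -/
structure Iso (G G' : E4 → Matrix (Fin 4) (Fin 4) ℝ) (U U' : Set E4) (τ : E4 → E4) : Prop where
  n : Nice G U
  n' : Nice G' U'
  sm : ContDiffOn ℝ ∞ τ U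
  maps : MapsTo τ U U'
  eq : ∀ y ∈ U, G y = (jac τ y).transpose * G' (τ y) * jac τ y

namespace Iso

variable {G G' : E4 → Matrix (Fin 4) (Fin 4) ℝ} {U U' : Set E4} {τ : E4 → E4}
  (s : Iso G G' U U' τ) {φ φ' : E4 → ℝ} {y : E4}
include s

theorem det_eq (hy : y ∈ U) : (G y).det = (jac τ y).det ^ 2 * (G' (τ y)).det := by
  rw [s.eq y hy, Matrix.det_mul, Matrix.det_mul, Matrix.det_transpose]; ring

theorem det_ne (hy : y ∈ U) : (jac τ y).det ≠ 0 := fun h =>
  (s.n.det_pos hy).ne' (by rw [s.det_eq hy, h]; ring)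

theorem jac_sm (a i : Fin 4) : ContDiffOn ℝ ∞ (fun y => jac τ y a i) U :=
  cdOn_pd s.n.op (cdOn_coord s.sm a) i

theorem jinv_sm (i a : Fin 4) : ContDiffOn ℝ ∞ (fun y => (jac τ y)⁻¹ i a) U :=
  cdOn_inv s.jac_sm (fun _ hy => s.det_ne hy) i a

/-- The change of coordinates in the algebra. -/
noncomputable def chg : s.n.geo.Chg where
  P a i := mkA _ (s.jac_sm a i)
  Q i a := mkA _ (s.jinv_sm i a)
  g' a b := mkA (fun y => G' (τ y) a b) ((s.n'.sm a b).comp s.sm s.maps)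
  h' a b := mkA (fun y => ginv G' a b (τ y)) ((s.n'.inv_sm a b).comp s.sm s.maps)
  PQ a b := ((model_rep s.n.op).sum fun _ => (rep_mkA _).mul (rep_mkA _)).ext (rep_ite a b)
    fun _ hy => sum_mul_inv (s.det_ne hy) a b
  QP i j := ((model_rep s.n.op).sum fun _ => (rep_mkA _).mul (rep_mkA _)).ext (rep_ite i j)
    fun _ hy => sum_inv_mul (s.det_ne hy) i j
  DP a i j := (s.n.reps.m.pd i (rep_mkA _)).ext (s.n.reps.m.pd j (rep_mkA _)) fun _ hy =>
    pd_comm ((cdOn_coord s.sm a).contDiffAt (s.n.op.mem_nhds hy)) i j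
  gs a b := (rep_mkA _).ext (rep_mkA _) fun _ hy => s.n'.symm (s.maps hy) a b
  hs a b := (rep_mkA _).ext (rep_mkA _) fun _ hy => s.n'.inv_symm (s.maps hy) a b
  hg a b := ((model_rep s.n.op).sum fun _ => (rep_mkA _).mul (rep_mkA _)).ext (rep_ite a b)
    fun _ hy => sum_inv_mul (s.n'.det_pos (s.maps hy)).ne' a b
  gg i j := (s.n.reps.g i j).ext ((model_rep s.n.op).sum fun _ => (model_rep s.n.op).sum fun _ =>
    ((rep_mkA _).mul (rep_mkA _)).mul (rep_mkA _)) fun y hy => by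
      simp only [s.eq y hy, Matrix.mul_apply, Matrix.transpose_apply, Fin.sum_univ_four]
      ring

theorem reps : Reps s.chg.geo
    (fun a F => Rep a (fun y => F (τ y)) ∧ ContDiffOn ℝ ∞ F U') G' := by
  refine ⟨⟨fun h k => ⟨h.1.add k.1, h.2.add k.2⟩, fun h k => ⟨h.1.mul k.1, h.2.mul k.2⟩,
    fun c _ _ h => ⟨h.1.smul c, contDiffOn_const.mul h.2⟩, ⟨rep_one, contDiffOn_const⟩,
    fun b a F h => ⟨?_, cdOn_pd s.n'.op h.2 b⟩⟩,
    fun a b => ⟨rep_mkA ((s.n'.sm a b).comp s.sm s.maps), s.n'.sm a b⟩,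
    fun a b => ⟨rep_mkA ((s.n'.inv_sm a b).comp s.sm s.maps), s.n'.inv_sm a b⟩⟩
  rw [s.chg.geo_D]
  refine (s.n.reps.m.sum fun i => (rep_mkA (s.jinv_sm i b)).mul (s.n.reps.m.pd i h.1)).congr
    fun y hy => ?_
  have hτ : DifferentiableAt ℝ τ y :=
    (s.sm.contDiffAt (s.n.op.mem_nhds hy)).differentiableAt (by simp)
  have h1 : ∀ i, pd i (fun z => F (τ z)) y = ∑ c, jac τ y c i * pd c F (τ y) :=
    pd_chain (dAt_of_cdOn s.n'.op h.2 (s.maps hy)) hτ
  simp only [h1, Finset.mul_sum, ← mul_assoc]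
  rw [Finset.sum_comm]
  simp only [← Finset.sum_mul, fun i c => mul_comm ((jac τ y)⁻¹ i b) (jac τ y c i),
    sum_mul_inv (s.det_ne hy)]
  simp

variable (hφ' : ContDiffOn ℝ ∞ φ' U') (h : ∀ y ∈ U, φ y = φ' (τ y))
include hφ' h

theorem lap_eq (hy : y ∈ U) : lap G φ y = lap G' φ' (τ y) := by
  have r := rep_mkA (hφ'.comp s.sm s.maps)
  have h1 := (s.reps.lap ⟨r, hφ'⟩).1
  rw [← s.chg.lap_eq'] at h1
  exact (s.n.reps.lap (r.congr fun z hz => (h z hz).symm)).eqOn h1 hy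

theorem pan_eq (hy : y ∈ U) : pan G φ y = pan G' φ' (τ y) := by
  have r := rep_mkA (hφ'.comp s.sm s.maps)
  have h1 := (s.reps.pan ⟨r, hφ'⟩).1
  rw [← s.chg.pan_eq'] at h1
  exact (s.n.reps.pan (r.congr fun z hz => (h z hz).symm)).eqOn h1 hy

theorem pan2_eq (hy : y ∈ U) : pan2 G φ y = pan2 G' φ' (τ y) := by
  have r := rep_mkA (hφ'.comp s.sm s.maps)
  have h1 := (s.reps.dvg
    (W := fun i z => 2 / 3 * scal G' z * grad G' φ' i z - 2 * ricGrad G' φ' i z)
    (s.reps.vec ⟨r, hφ'⟩)).1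
  rw [← s.chg.pan2_eq] at h1
  exact congrArg Neg.neg
    ((s.n.reps.dvg (s.n.reps.vec (r.congr fun z hz => (h z hz).symm))).eqOn h1 hy)

omit hφ' h in
theorem qcurv_eq (hy : y ∈ U) : qcurv G y = qcurv G' (τ y) := by
  have h1 := s.reps.qcurv.1
  rw [← s.chg.qcurv_eq'] at h1
  exact s.n.reps.qcurv.eqOn h1 hy

end Iso

end Pool.Agent.MP_417fa2_gt

end MrgPart1

-- ======== part 2: formerly Pool.Agent.MP_417fa2_gt.Metric
section MrgPart2

/-! The coordinate matrices of a Riemannian metric; chart independence of the operators. -/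

open scoped Manifold ContDiff Topology
open Set Filter Bundle

namespace Pool.Agent.MP_417fa2_gt

universe u

variable {M : Type u} [TopologicalSpace M] [ChartedSpace E4 M] [IsManifold (𝓡 4) ∞ M]

/-- The scalar product as a bilinear form on the model space. -/
noncomputable def ginL (g : RMetric M) (x : M) : E4 →L[ℝ] E4 →L[ℝ] ℝ := g.inner x

/-- The differential of the inverse chart as a map of the model space. -/
noncomputable def dpar (x₀ : M) (y : E4) : E4 →L[ℝ] E4 := mfderiv (𝓡 4) (𝓡 4) (param x₀) y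

theorem gmat_apply (g : RMetric M) (x₀ : M) (y : E4) (i j : Fin 4) : gmat g x₀ y i j =
    ginL g (param x₀ y) (dpar x₀ y (EuclideanSpace.single i 1))
      (dpar x₀ y (EuclideanSpace.single j 1)) := rfl

theorem mdiffAt_param {x₀ : M} {y : E4} (hy : y ∈ (chartAt E4 x₀).target) :
    MDifferentiableAt (𝓡 4) (𝓡 4) (param x₀) y :=
  ((contMDiffOn_param x₀).contMDiffAt ((isOpen_tgt x₀).mem_nhds hy)).mdifferentiableAt (by simp)

theorem dpar_injective {x₀ : M} {y : E4} (hy : y ∈ (chartAt E4 x₀).target) :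
    Function.Injective (dpar x₀ y) :=
  (mdifferentiable_chart (I := 𝓡 4) x₀).symm.mfderiv_injective hy

theorem dpar_surjective {x₀ : M} {y : E4} (hy : y ∈ (chartAt E4 x₀).target) :
    Function.Surjective (dpar x₀ y) :=
  (mdifferentiable_chart (I := 𝓡 4) x₀).symm.mfderiv_surjective hy

theorem contMDiffOn_coordVec (x₀ : M) (i : Fin 4) :
    ContMDiffOn (𝓡 4) ((𝓡 4).prod 𝓘(ℝ, E4)) ∞
      (fun y => (TotalSpace.mk' E4 (param x₀ y) (coordVec x₀ y i) : TangentBundle (𝓡 4) M))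
      (chartAt E4 x₀).target := by
  have h1 := (contMDiffOn_param x₀).contMDiffOn_tangentMapWithin (m := ∞) (by simp)
    (isOpen_tgt x₀).uniqueMDiffOn
  have h2 : ContMDiff (𝓡 4) ((𝓡 4).prod 𝓘(ℝ, E4)) ∞ fun y : E4 =>
      (TotalSpace.mk' E4 y (EuclideanSpace.single i 1 : E4) : TangentBundle (𝓡 4) E4) :=
    contMDiff_vectorSpace_iff_contDiff.2 contDiff_const
  refine (h1.comp h2.contMDiffOn fun y hy => hy).congr fun y hy => ?_
  simp only [Function.comp, tangentMapWithin, coordVec, dparam,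
    mfderivWithin_of_isOpen (isOpen_tgt x₀) hy]

theorem gmat_nice (g : RMetric M) (x₀ : M) : Nice (gmat g x₀) (chartAt E4 x₀).target := by
  refine ⟨isOpen_tgt x₀, fun i j => contMDiffOn_iff_contDiffOn.1 fun y hy => ?_, fun y hy => ?_⟩
  · have : ContMDiffWithinAt (𝓡 4) ((𝓡 4).prod 𝓘(ℝ)) ∞
        (fun m => TotalSpace.mk' ℝ (E := Bundle.Trivial M ℝ) (param x₀ m)
          (g.inner (param x₀ m) (coordVec x₀ m i) (coordVec x₀ m j)))
        (chartAt E4 x₀).target y := by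
      apply ContMDiffWithinAt.clm_bundle_apply₂ (F₁ := E4) (F₂ := E4)
      · exact ContMDiffAt.comp_contMDiffWithinAt y g.contMDiff.contMDiffAt
          (contMDiffOn_param x₀ y hy)
      · exact contMDiffOn_coordVec x₀ i y hy
      · exact contMDiffOn_coordVec x₀ j y hy
    simp only [contMDiffWithinAt_totalSpace] at this
    exact this.2
  · refine Matrix.PosDef.of_dotProduct_mulVec_pos (Matrix.IsHermitian.ext fun i j => ?_)
      fun ξ hξ => ?_
    · exact g.symm _ _ _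
    · have h0 : dpar x₀ y (WithLp.toLp 2 ξ) ≠ 0 := fun h =>
        hξ (by simpa using dpar_injective hy (h.trans (map_zero _).symm))
      have h1 : 0 < ginL g (param x₀ y) (dpar x₀ y (WithLp.toLp 2 ξ))
        (dpar x₀ y (WithLp.toLp 2 ξ)) := g.pos _ _ h0
      rw [coord_eq (WithLp.toLp 2 ξ)] at h1
      simp only [map_sum, map_smul, sum_apply, smul_apply,
        smul_eq_mul, ← gmat_apply] at h1
      simp only [dotProduct, Matrix.mulVec, star_trivial, Fin.sum_univ_four] at h1 ⊢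
      linarith

theorem dpar_comp {x₀ x₁ : M} {y : E4}
    (hy : y ∈ (chartAt E4 x₀).target ∩ param x₀ ⁻¹' (chartAt E4 x₁).source) (v : E4) :
    dpar x₀ y v = dpar x₁ (chartAt E4 x₁ (param x₀ y))
      (fderiv ℝ (fun z => chartAt E4 x₁ (param x₀ z)) y v) := by
  have hτ : DifferentiableAt ℝ (fun z => chartAt E4 x₁ (param x₀ z)) y :=
    ((cdOn_transition x₀ x₁).contDiffAt ((isOpen_overlap x₀ x₁).mem_nhds hy)).differentiableAt
      (by simp)
  have h1 : param x₀ =ᶠ[𝓝 y] param x₁ ∘ fun z => chartAt E4 x₁ (param x₀ z) :=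
    mem_of_superset ((isOpen_overlap x₀ x₁).mem_nhds hy) fun z hz => (param_chart hz.2).symm
  have h2 := mfderiv_comp (I := 𝓡 4) (I' := 𝓡 4) (I'' := 𝓡 4) y
    (f := fun z => chartAt E4 x₁ (param x₀ z)) (mdiffAt_param (chart_mem (x := param x₀ y) hy.2))
    hτ.mdifferentiableAt
  rw [mfderiv_eq_fderiv] at h2
  exact congrArg (fun L : E4 →L[ℝ] E4 => L v) ((h1.mfderiv_eq (I := 𝓡 4) (I' := 𝓡 4)).trans h2)

theorem gmat_iso (g : RMetric M) (x₀ x₁ : M) : Iso (gmat g x₀) (gmat g x₁)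
    ((chartAt E4 x₀).target ∩ param x₀ ⁻¹' (chartAt E4 x₁).source) (chartAt E4 x₁).target
    fun z => chartAt E4 x₁ (param x₀ z) := by
  refine ⟨(gmat_nice g x₀).mono (isOpen_overlap x₀ x₁) inter_subset_left, gmat_nice g x₁,
    cdOn_transition x₀ x₁, fun y hy => chart_mem hy.2, fun y hy => Matrix.ext fun i j => ?_⟩
  have hτ : DifferentiableAt ℝ (fun z => chartAt E4 x₁ (param x₀ z)) y :=
    ((cdOn_transition x₀ x₁).contDiffAt ((isOpen_overlap x₀ x₁).mem_nhds hy)).differentiableAt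
      (by simp)
  rw [gmat_apply, dpar_comp hy, dpar_comp hy, coord_eq (fderiv ℝ _ y (EuclideanSpace.single i 1)),
    coord_eq (fderiv ℝ _ y (EuclideanSpace.single j 1))]
  simp only [map_add, map_smul, add_apply, smul_apply,
    smul_eq_mul, ← pd_coord hτ, Matrix.mul_apply, Matrix.transpose_apply, jac, Matrix.of_apply,
    gmat_apply, param_chart hy.2, Fin.sum_univ_four]
  ring

omit [IsManifold (𝓡 4) ∞ M] in
theorem mem_overlap_self {x₀ : M} {y : E4} (hy : y ∈ (chartAt E4 x₀).target) :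
    y ∈ (chartAt E4 x₀).target ∩ param x₀ ⁻¹' (chartAt E4 (param x₀ y)).source :=
  ⟨hy, mem_chart_source E4 _⟩

variable (g : RMetric M) {φ : M → ℝ} {x₀ : M} {y : E4}

/-- The Laplacian of `g`. -/
noncomputable def lapM (φ : M → ℝ) (x : M) : ℝ := lap (gmat g x) (φ ∘ param x) (chartAt E4 x x)

/-- The second order part of the Paneitz operator of `g`. -/
noncomputable def pan2M (φ : M → ℝ) (x : M) : ℝ := pan2 (gmat g x) (φ ∘ param x) (chartAt E4 x x)

theorem lapM_chart (hφ : Smooth φ) (hy : y ∈ (chartAt E4 x₀).target) :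
    lapM g φ (param x₀ y) = lap (gmat g x₀) (φ ∘ param x₀) y :=
  ((gmat_iso g x₀ _).lap_eq (hφ.cdOn _) (fun _ hz => congrArg φ (param_chart hz.2).symm)
    (mem_overlap_self hy)).symm

theorem pan2M_chart (hφ : Smooth φ) (hy : y ∈ (chartAt E4 x₀).target) :
    pan2M g φ (param x₀ y) = pan2 (gmat g x₀) (φ ∘ param x₀) y :=
  ((gmat_iso g x₀ _).pan2_eq (hφ.cdOn _) (fun _ hz => congrArg φ (param_chart hz.2).symm)
    (mem_overlap_self hy)).symm

theorem paneitz_chart (hφ : Smooth φ) (hy : y ∈ (chartAt E4 x₀).target) :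
    paneitz g φ (param x₀ y) = pan (gmat g x₀) (φ ∘ param x₀) y :=
  ((gmat_iso g x₀ _).pan_eq (hφ.cdOn _) (fun _ hz => congrArg φ (param_chart hz.2).symm)
    (mem_overlap_self hy)).symm

theorem qCurv_chart (hy : y ∈ (chartAt E4 x₀).target) :
    qCurv g (param x₀ y) = qcurv (gmat g x₀) y :=
  ((gmat_iso g x₀ _).qcurv_eq (mem_overlap_self hy)).symm

theorem qCurv_smooth : Smooth (qCurv g) :=
  smooth_of_cdOn fun x₀ => (gmat_nice g x₀).qcurv_sm.congr fun _ hy => qCurv_chart g hy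

theorem paneitz_smooth (hφ : Smooth φ) : Smooth (paneitz g φ) :=
  smooth_of_cdOn fun x₀ => ((gmat_nice g x₀).pan_sm (hφ.cdOn x₀)).congr fun _ hy =>
    paneitz_chart g hφ hy

theorem paneitz_split (hφ : Smooth φ) (x : M) :
    paneitz g φ x = lapM g (lapM g φ) x + pan2M g φ x := by
  rw [paneitz, pan_split, lapM, pan2M, (gmat_nice g x).lap_congr
    ((gmat_nice g x).lap_sm (hφ.cdOn x)) (fun _ hy => (lapM_chart g hφ hy).symm)
    (mem_chart_target E4 x)]
  rfl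

section Conformal

variable {w : M → ℝ}

/-- The conformal metric `e^{2w} g`. -/
noncomputable def confM (w : M → ℝ) (hw : Smooth w) : RMetric M where
  inner x := Real.exp (2 * w x) • g.inner x
  symm x v v' := congrArg (Real.exp (2 * w x) * ·) (g.symm x v v')
  pos x v hv := mul_pos (Real.exp_pos _) (g.pos x v hv)
  isVonNBounded x := by
    refine ((g.isVonNBounded x).image (Real.exp (-w x) • ContinuousLinearMap.id ℝ _)).subset
      fun v hv => (mem_image _ _ _).2 ⟨Real.exp (w x) • v, ?_, ?_⟩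
    · have : Real.exp (2 * w x) * g.inner x v v < 1 := hv
      simp only [mem_ofPred_eq, map_smul, smul_apply, smul_eq_mul,
        ← mul_assoc, ← Real.exp_add, ← two_mul]
      exact this
    · simp [smul_smul, ← Real.exp_add]
  contMDiff := ContMDiff.smul_section (hw.const_mul 2).exp g.contMDiff

theorem gin_confM (hw : Smooth w) (x : M) (v v' : TangentSpace (𝓡 4) x) :
    gin (confM g w hw) x v v' = Real.exp (2 * w x) * gin g x v v' := rfl

theorem rmetric_ext {g g' : RMetric M} (h : ∀ x v v', gin g x v v' = gin g' x v v') : g = g' := by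
  obtain ⟨a, _, _, _, _⟩ := g
  obtain ⟨b, _, _, _, _⟩ := g'
  obtain rfl : a = b := funext fun x => ContinuousLinearMap.ext fun v =>
    ContinuousLinearMap.ext fun v' => h x v v'
  rfl

variable {g} {g' : RMetric M} (hw : Smooth w)
  (h : ∀ x v v', gin g' x v v' = Real.exp (2 * w x) * gin g x v v')
include h

theorem gmat_conf (x₀ : M) (y : E4) :
    gmat g' x₀ y = Real.exp (2 * (w ∘ param x₀) y) • gmat g x₀ y :=
  Matrix.ext fun _ _ => h _ _ _

include hw

theorem paneitz_conf (hφ : Smooth φ) (x : M) :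
    paneitz g' φ x = Real.exp (-4 * w x) * paneitz g φ x := by
  rw [paneitz, (gmat_nice g x).pan_conf (hw.cdOn x) (fun y _ => gmat_conf h x y) (hφ.cdOn x)
    (mem_chart_target E4 x), Function.comp, param_chart_self, paneitz]

theorem qCurv_conf (x : M) :
    2 * qCurv g' x = Real.exp (-4 * w x) * (paneitz g w x + 2 * qCurv g x) := by
  rw [qCurv, (gmat_nice g x).qcurv_conf (hw.cdOn x) (fun y _ => gmat_conf h x y)
    (mem_chart_target E4 x), Function.comp, param_chart_self, paneitz, qCurv]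

end Conformal

end Pool.Agent.MP_417fa2_gt

end MrgPart2

-- ======== part 3: formerly Pool.Agent.MP_417fa2_gt.Vol
section MrgPart3

/-! Existence of the Riemannian volume measure, and the analytic data of a metric. -/

open scoped Manifold ContDiff Topology
open Set Filter MeasureTheory

namespace Pool.Agent.MP_417fa2_gt

universe u

theorem det_fderiv_eq {τ : E4 → E4} {y : E4} (h : DifferentiableAt ℝ τ y) :
    (fderiv ℝ τ y).det = (jac τ y).det := by
  rw [ContinuousLinearMap.det, ← LinearMap.det_toMatrix (EuclideanSpace.basisFun (Fin 4) ℝ).toBasis]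
  congr 1
  ext a i
  simp [LinearMap.toMatrix_apply, jac, pd_coord h]

variable {M : Type u} [TopologicalSpace M] [ChartedSpace E4 M]

theorem chart_image_eq {x₀ : M} {s : Set M} (h : s ⊆ (chartAt E4 x₀).source) :
    chartAt E4 x₀ '' s = param x₀ ⁻¹' s ∩ (chartAt E4 x₀).target := by
  ext y
  constructor
  · rintro ⟨x, hx, rfl⟩
    exact ⟨by simpa [param_chart (h hx)] using hx, chart_mem (h hx)⟩
  · exact fun hy => ⟨param x₀ y, hy.1, chart_param hy.2⟩

variable [MeasurableSpace M] [BorelSpace M]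

theorem measurableSet_chart_image {x₀ : M} {s : Set M} (hs : MeasurableSet s)
    (h : s ⊆ (chartAt E4 x₀).source) : MeasurableSet (chartAt E4 x₀ '' s) := by
  have h1 := (isOpen_tgt x₀).measurableSet.subtype_image
    ((continuousOn_param x₀).domRestrict.measurable hs)
  rw [chart_image_eq h]
  refine (congrArg MeasurableSet ?_).mp h1
  ext y
  exact ⟨fun ⟨z, hz, e⟩ => e ▸ ⟨hz, z.2⟩, fun hy => ⟨⟨y, hy.2⟩, hy.1, rfl⟩⟩

variable [IsManifold (𝓡 4) ∞ M] (g : RMetric M)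

theorem chart_integral_eq (x₀ x₁ : M) {s : Set M} (hs : MeasurableSet s)
    (h₀ : s ⊆ (chartAt E4 x₀).source) (h₁ : s ⊆ (chartAt E4 x₁).source) :
    ∫⁻ y in chartAt E4 x₁ '' s, ENNReal.ofReal (dens (gmat g x₁) y) =
      ∫⁻ y in chartAt E4 x₀ '' s, ENNReal.ofReal (dens (gmat g x₀) y) := by
  have hsub : chartAt E4 x₀ '' s ⊆ (chartAt E4 x₀).target ∩ param x₀ ⁻¹' (chartAt E4 x₁).source := by
    rw [chart_image_eq h₀]
    exact fun y hy => ⟨hy.2, h₁ hy.1⟩
  have hτ : ∀ y ∈ chartAt E4 x₀ '' s,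
      DifferentiableAt ℝ (fun z => chartAt E4 x₁ (param x₀ z)) y := fun y hy =>
    ((cdOn_transition x₀ x₁).contDiffAt
      ((isOpen_overlap x₀ x₁).mem_nhds (hsub hy))).differentiableAt (by simp)
  have him : chartAt E4 x₁ '' s = (fun z => chartAt E4 x₁ (param x₀ z)) '' (chartAt E4 x₀ '' s) := by
    rw [image_image]
    exact image_congr fun x hx => by rw [param_chart (h₀ hx)]
  rw [him, lintegral_image_eq_lintegral_abs_det_fderiv_mul volume (measurableSet_chart_image hs h₀)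
    (fun y hy => (hτ y hy).hasFDerivAt.hasFDerivWithinAt)]
  · refine setLIntegral_congr_fun (measurableSet_chart_image hs h₀) fun y hy => ?_
    simp only [dens]
    rw [← ENNReal.ofReal_mul (abs_nonneg _), det_fderiv_eq (hτ y hy),
      (gmat_iso g x₀ x₁).det_eq (hsub hy), Real.sqrt_mul (sq_nonneg _), Real.sqrt_sq_eq_abs]
  · intro y hy z hz e
    have := (chartAt E4 x₁).injOn (hsub hy).2 (hsub hz).2 e
    rw [← chart_param (hsub hy).1, this, chart_param (hsub hz).1]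

/-- The volume measure of one chart. -/
noncomputable def chartMeasure (x₀ : M) : Measure M :=
  Measure.map (param x₀) ((volume.restrict (chartAt E4 x₀).target).withDensity
    fun y => ENNReal.ofReal (dens (gmat g x₀) y))

theorem chartMeasure_apply (x₀ : M) {s : Set M} (hs : MeasurableSet s)
    (h : s ⊆ (chartAt E4 x₀).source) :
    chartMeasure g x₀ s = ∫⁻ y in chartAt E4 x₀ '' s, ENNReal.ofReal (dens (gmat g x₀) y) := by
  rw [chartMeasure, Measure.map_apply_of_aemeasurable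
    (((continuousOn_param x₀).aemeasurable (isOpen_tgt x₀).measurableSet).mono_ac
      (withDensity_absolutelyContinuous _ _)) hs, withDensity_apply',
    Measure.restrict_restrict' (isOpen_tgt x₀).measurableSet, chart_image_eq h]

theorem exists_isVolume [CompactSpace M] : ∃ μ : Measure M, IsVolume g μ := by
  rcases isEmpty_or_nonempty M with hM | hM
  · exact ⟨0, fun x => isEmptyElim x⟩
  obtain ⟨t, ht⟩ := isCompact_univ.elim_finite_subcover (fun x : M => (chartAt E4 x).source)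
    isOpen_src fun x _ => mem_iUnion.2 ⟨x, mem_chart_source E4 x⟩
  have hne : (t : Set M).Nonempty := by
    obtain ⟨x⟩ := hM
    obtain ⟨j, hj, -⟩ := mem_iUnion₂.1 (ht (mem_univ x))
    exact ⟨j, hj⟩
  obtain ⟨f, hf⟩ := t.countable_toSet.exists_eq_range hne
  set V : ℕ → Set M := disjointed fun n => (chartAt E4 (f n)).source with hV
  have hVm : ∀ n, MeasurableSet (V n) :=
    MeasurableSet.disjointed fun n => (isOpen_src (f n)).measurableSet
  have hVs : ∀ n, V n ⊆ (chartAt E4 (f n)).source := disjointed_subset _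
  have hVu : ⋃ n, V n = univ := by
    rw [hV, iUnion_disjointed]
    refine eq_univ_of_forall fun x => ?_
    obtain ⟨j, hj, hx⟩ := mem_iUnion₂.1 (ht (mem_univ x))
    obtain ⟨n, rfl⟩ : j ∈ range f := hf ▸ hj
    exact mem_iUnion.2 ⟨n, hx⟩
  refine ⟨Measure.sum fun n => (chartMeasure g (f n)).restrict (V n), fun x₀ s hs h => ?_⟩
  have h1 : ∀ n, (chartMeasure g (f n)).restrict (V n) s = chartMeasure g x₀ (s ∩ V n) := fun n => by
    rw [Measure.restrict_apply hs,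
      chartMeasure_apply g _ (hs.inter (hVm n)) (inter_subset_right.trans (hVs n)),
      chartMeasure_apply g _ (hs.inter (hVm n)) (inter_subset_left.trans h)]
    exact chart_integral_eq g _ _ (hs.inter (hVm n)) (inter_subset_left.trans h)
      (inter_subset_right.trans (hVs n))
  rw [Measure.sum_apply _ hs]
  simp only [h1]
  rw [← measure_iUnion (fun m n hmn => ((disjoint_disjointed _ hmn).mono inter_subset_right
    inter_subset_right)) fun n => hs.inter (hVm n), ← inter_iUnion, hVu, inter_univ]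
  exact chartMeasure_apply g x₀ hs h

theorem isVolume_vol [CompactSpace M] : IsVolume g (vol g) :=
  Classical.epsilon_spec (exists_isVolume g)

/-- The analytic data of a metric. -/
noncomputable def setupOf [CompactSpace M] : Setup M where
  μ := vol g
  L := lapM g
  B := pan2M g
  q x := 2 * qCurv g x
  ρ x₀ := dens (gmat g x₀)
  G x₀ := ginv (gmat g x₀)
  A x₀ := aco (gmat g x₀)
  ρ_sm x₀ := (gmat_nice g x₀).dens_sm
  G_sm x₀ := (gmat_nice g x₀).inv_sm
  A_sm x₀ := (gmat_nice g x₀).aco_sm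
  ρ_pos x₀ _ hy := (gmat_nice g x₀).dens_pos hy
  G_symm x₀ a b _ hy := (gmat_nice g x₀).inv_symm hy a b
  A_symm x₀ a b _ hy := (gmat_nice g x₀).aco_symm hy a b
  G_pos x₀ y hy ξ hξ := by
    have := ((gmat_nice g x₀).pos y hy).inv.dotProduct_mulVec_pos hξ
    simp only [dotProduct, Matrix.mulVec, star_trivial, ginv, Fin.sum_univ_four] at this ⊢
    linarith
  μ_loc := isVolume_vol g
  L_loc _ hφ x₀ _ hy := (lapM_chart g hφ hy).trans ((gmat_nice g x₀).lap_dop (hφ.cdOn x₀) hy)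
  B_loc _ hφ x₀ _ hy := (pan2M_chart g hφ hy).trans ((gmat_nice g x₀).pan2_dop (hφ.cdOn x₀) hy)
  q_sm := (qCurv_smooth g).const_mul 2

theorem setupOf_P [CompactSpace M] {φ : M → ℝ} (hφ : Smooth φ) : (setupOf g).P φ = paneitz g φ :=
  funext fun x => (paneitz_split g hφ x).symm

end Pool.Agent.MP_417fa2_gt

end MrgPart3

-- ======== part 4: formerly Pool.Agent.MP_417fa2_gt.GeoMain
section MrgPart4

/-! Reduction of the geometric theorem to the analytic theorem. -/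

open scoped Manifold ContDiff Topology
open Set Filter MeasureTheory

namespace Pool.Agent.MP_417fa2_gt

universe u

variable {M : Type u} [TopologicalSpace M] [ChartedSpace E4 M] [IsManifold (𝓡 4) ∞ M]

/-- A solution of the flow stays in the conformal class. -/
theorem IsFlow.ratio {T : ℝ} {γ : ℝ → RMetric M} (h : IsFlow (Ico 0 T) γ) {t : ℝ} (ht : t ∈ Ico 0 T)
    (x : M) (v v' e : TangentSpace (𝓡 4) x) (he : e ≠ 0) :
    gin (γ t) x v v' / gin (γ t) x e e = gin (γ 0) x v v' / gin (γ 0) x e e := by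
  have hd : ∀ s ∈ Ico 0 T,
      HasDerivWithinAt (fun s => gin (γ s) x v v' / gin (γ s) x e e) 0 (Ico 0 T) s := by
    intro s hs
    refine ((h.eqn s hs x v v').div (h.eqn s hs x e e) ((γ s).pos x e he).ne').congr_deriv ?_
    ring
  refine constant_of_has_deriv_right_zero (a := 0) (b := t)
    (f := fun s => gin (γ s) x v v' / gin (γ s) x e e)
    (fun s hs => (hd s ⟨hs.1, hs.2.trans_lt ht.2⟩).continuousWithinAt.mono
      fun r hr => ⟨hr.1, hr.2.trans_lt ht.2⟩) (fun s hs => ?_) t ⟨ht.1, le_rfl⟩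
  exact (hd s ⟨hs.1, hs.2.trans ht.2⟩).mono_of_mem_nhdsWithin
    (mem_of_superset (Ico_mem_nhdsGE (hs.2.trans ht.2)) fun r hr => ⟨hs.1.trans hr.1, hr.2⟩)

variable [MeasurableSpace M] [BorelSpace M] [CompactSpace M]

theorem flow_rhs {g g' : RMetric M} {w : M → ℝ} (hw : Smooth w)
    (h : ∀ x v v', gin g' x v v' = Real.exp (2 * w x) * gin g x v v') (x : M) :
    -paneitz g' (qCurv g') x = 2 * (setupOf g).rhs w x := by
  have h1 : qCurv g' = fun z => 1 / 2 * (setupOf g).curv w z := by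
    funext z
    have := qCurv_conf hw h z
    rw [Setup.curv, setupOf_P g hw]
    change _ = 1 / 2 * (_ * (_ + 2 * qCurv g z))
    linarith
  rw [paneitz_conf hw h (qCurv_smooth g'), ← setupOf_P g (qCurv_smooth g'), h1,
    (setupOf g).P_const_mul ((setupOf g).curv_smooth hw), Setup.rhs]
  ring

theorem isFlow_of_sol (g : RMetric M) {w : ℝ → M → ℝ} (hw : (setupOf g).Sol (Ici 0) w) :
    IsFlow (Ici 0) fun t => confM g (w (max t 0)) (hw.smooth.slice (le_max_right t 0)) := by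
  refine ⟨fun x₀ i j => ?_, fun t ht x v v' => ?_⟩
  · refine ((contDiffOn_const (c := (2 : ℝ)).mul (hw.smooth x₀)).exp.mul
      (((gmat_nice g x₀).sm i j).comp contDiffOn_snd fun p hp => hp.2)).congr fun p hp => ?_
    rw [gmat_conf (gin_confM g _), max_eq_left hp.1]
    rfl
  · rw [flow_rhs (hw.smooth.slice (le_max_right t 0)) (gin_confM g _), gin_confM, max_eq_left ht]
    refine ((((hw.eqn t ht x).const_mul 2).exp.mul_const (gin g x v v')).congr
      (fun s hs => ?_) ?_).congr_deriv (by ring)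
    · rw [gin_confM, max_eq_left hs]
    · rw [gin_confM, max_eq_left ht]

theorem sol_of_isFlow (g : RMetric M) {w₀ : M → ℝ} {T : ℝ} {γ : ℝ → RMetric M}
    (h0 : ∀ x v v', gin (γ 0) x v v' = Real.exp (2 * w₀ x) * gin g x v v')
    (h : IsFlow (Ico 0 T) γ) : ∃ w : ℝ → M → ℝ, w 0 = w₀ ∧ (setupOf g).Sol (Ico 0 T) w ∧
      ∀ t ∈ Ico 0 T, ∀ x v v', gin (γ t) x v v' = Real.exp (2 * w t x) * gin g x v v' := by
  obtain ⟨e, he⟩ : ∃ e : ∀ x : M, TangentSpace (𝓡 4) x, ∀ x, e x ≠ 0 :=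
    ⟨fun _ => (EuclideanSpace.single 0 1 : E4), fun _ h => by
      have h' : (EuclideanSpace.single 0 1 : E4) = 0 := h
      simpa using congrArg (fun v : E4 => v 0) h'⟩
  have hp : ∀ (g' : RMetric M) x, 0 < gin g' x (e x) (e x) := fun g' x => g'.pos x _ (he x)
  set w : ℝ → M → ℝ :=
    fun t x => 1 / 2 * Real.log (gin (γ t) x (e x) (e x) / gin g x (e x) (e x)) with hw
  have hc : ∀ t ∈ Ico 0 T, ∀ x v v', gin (γ t) x v v' = Real.exp (2 * w t x) * gin g x v v' := by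
    intro t ht x v v'
    have h1 := h.ratio ht x v v' (e x) (he x)
    rw [h0, h0, mul_div_mul_left _ _ (Real.exp_pos _).ne', div_eq_iff (hp _ x).ne'] at h1
    rw [h1, hw]
    simp only [← mul_assoc, mul_one_div_cancel (two_ne_zero (α := ℝ)), one_mul,
      Real.exp_log (div_pos (hp _ x) (hp _ x))]
    ring
  have hs : SmoothOn (Ico 0 T) w := fun x₀ => by
    have hd : ∀ (g' : RMetric M), ∀ y ∈ (chartAt E4 x₀).target, 0 < gmat g' x₀ y 0 0 :=
      fun g' y hy => ((gmat_nice g' x₀).pos y hy).diag_pos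
    refine (contDiffOn_const (c := (1 / 2 : ℝ)).mul (((h.smooth x₀ 0 0).div
      (((gmat_nice g x₀).sm 0 0).comp contDiffOn_snd fun p hp => hp.2)
      fun p hp => (hd g _ hp.2).ne').log fun p hp =>
        (div_pos (hd _ _ hp.2) (hd g _ hp.2)).ne')).congr fun p hp => ?_
    have h1 : gmat (γ p.1) x₀ p.2 0 0 = Real.exp (2 * w p.1 (param x₀ p.2)) * gmat g x₀ p.2 0 0 :=
      hc p.1 hp.1 _ _ _
    change _ = 1 / 2 * Real.log (gmat (γ p.1) x₀ p.2 0 0 / gmat g x₀ p.2 0 0)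
    rw [h1, mul_div_cancel_right₀ _ (hd g _ hp.2).ne', Real.log_exp]
    ring
  refine ⟨w, funext fun x => ?_, ⟨hs, fun t ht x => ?_⟩, hc⟩
  · simp only [hw, h0, mul_div_cancel_right₀ _ (hp g x).ne', Real.log_exp]
    ring
  · refine ((((h.eqn t ht x (e x) (e x)).div_const (gin g x (e x) (e x))).log
      (div_pos (hp _ x) (hp _ x)).ne').const_mul (1 / 2)).congr_deriv ?_
    rw [flow_rhs (hs.slice ht) (hc t ht)]
    field_simp [(hp g x).ne', (hp (γ t) x).ne']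

theorem main_of (h : AnStmt.{u}) : FinalStmt.{u} := by
  intro M _ _ _ _ _ _ _ g g₀ hpos hker ⟨w₀, hw₀, hg₀⟩
  obtain ⟨w, hw0, hw, huniq⟩ := h M (setupOf g)
    ⟨fun φ hφ => by rw [setupOf_P g hφ]; exact hpos φ hφ,
      fun φ hφ h0 => hker φ hφ (by rwa [setupOf_P g hφ] at h0)⟩ w₀ hw₀
  refine ⟨_, rmetric_ext fun x v v' => ?_, isFlow_of_sol g hw, fun T hT γ' h0 hγ t ht => ?_⟩
  · rw [gin_confM, hg₀, max_self, hw0]
  · obtain ⟨w', h1, h2, h3⟩ := sol_of_isFlow g (w₀ := w₀) (by rw [h0]; exact hg₀) hγ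
    refine rmetric_ext fun x v v' => ?_
    rw [gin_confM, h3 t ht, huniq T hT w' h1 h2 t ht, max_eq_left ht.1]

end Pool.Agent.MP_417fa2_gt

end MrgPart4

-- ======== part 5: formerly Pool.Agent.MP_417fa2_gt.An.Uniq
section MrgPart5

/-!
Uniqueness of smooth solutions, by a Gronwall argument for `∫ e^{4w} (w - w')²`.
-/

open scoped Manifold ContDiff Topology
open MeasureTheory Set Filter

namespace Pool.Agent.MP_417fa2_gt

universe u

theorem uniq_exp_le {x y D : ℝ} (hx : x ≤ D) (hxy : y ≤ x) :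
    Real.exp x - Real.exp y ≤ Real.exp D * (x - y) := by
  have h1 := Real.add_one_le_exp (y - x)
  have h2 : Real.exp y = Real.exp x * Real.exp (y - x) := by rw [← Real.exp_add]; ring_nf
  have h3 := Real.exp_le_exp.2 hx
  have h4 := Real.exp_pos x
  rw [h2]
  nlinarith [mul_le_mul_of_nonneg_left h1 h4.le, mul_le_mul_of_nonneg_right h3 (sub_nonneg.2 hxy)]

theorem uniq_exp_abs {x y D : ℝ} (hx : x ≤ D) (hy : y ≤ D) :
    |Real.exp x - Real.exp y| ≤ Real.exp D * |x - y| := by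
  rcases le_total y x with h | h
  · rw [abs_of_nonneg (sub_nonneg.2 (Real.exp_le_exp.2 h)), abs_of_nonneg (sub_nonneg.2 h)]
    exact uniq_exp_le hx h
  · rw [abs_sub_comm, abs_sub_comm x, abs_of_nonneg (sub_nonneg.2 (Real.exp_le_exp.2 h)),
      abs_of_nonneg (sub_nonneg.2 h)]
    exact uniq_exp_le hy h

theorem uniq_pt {C a b r r' g : ℝ} (y : ℝ) (ha : |a| ≤ C) (hb : |b| ≤ C) (hr : |r| ≤ C)
    (hr' : |r'| ≤ C) (hg : |g| ≤ C) :
    4 * (Real.exp (4 * a) * r * (a - b) ^ 2) -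
      1 / 2 * ((Real.exp (-4 * a) * (y + g) - Real.exp (-4 * b) * g) * y) -
      2 * ((a - b) * (Real.exp (4 * a) - Real.exp (4 * b)) * r') ≤
    (4 * C + 2 * C ^ 2 * Real.exp (4 * C) ^ 2 + 8 * C * Real.exp (4 * C) ^ 2) *
      (Real.exp (4 * a) * (a - b) ^ 2) := by
  have hC : 0 ≤ C := (abs_nonneg a).trans ha
  obtain ⟨ha1, ha2⟩ := abs_le.1 ha
  obtain ⟨hb1, hb2⟩ := abs_le.1 hb
  have h1 := uniq_exp_abs (x := 4 * a) (y := 4 * b) (D := 4 * C) (by linarith) (by linarith)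
  have h2 := uniq_exp_abs (x := -4 * a) (y := -4 * b) (D := 4 * C) (by linarith) (by linarith)
  rw [show 4 * a - 4 * b = 4 * (a - b) by ring, abs_mul, abs_of_pos (by norm_num : (0 : ℝ) < 4)]
    at h1
  rw [show -4 * a - -4 * b = -(4 * (a - b)) by ring, abs_neg, abs_mul,
    abs_of_pos (by norm_num : (0 : ℝ) < 4)] at h2
  have hρ := Real.exp_pos (4 * a)
  have hE := Real.exp_pos (4 * C)
  have hinv : Real.exp (4 * a) * Real.exp (-4 * a) = 1 := by rw [← Real.exp_add]; simp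
  have hlow : 1 ≤ Real.exp (4 * C) * Real.exp (4 * a) := by
    rw [← Real.exp_add]; exact Real.one_le_exp (by linarith)
  set ρ := Real.exp (4 * a)
  set σ := Real.exp (-4 * a)
  set E := Real.exp (4 * C)
  set v := a - b
  set d := σ - Real.exp (-4 * b) with hd
  set e := ρ - Real.exp (4 * b)
  have hv2 : |v| ^ 2 = v ^ 2 := sq_abs v
  have t1 : 4 * (ρ * r * v ^ 2) ≤ 4 * C * (ρ * v ^ 2) := by
    have := mul_le_mul_of_nonneg_right (le_of_abs_le hr) (by positivity : 0 ≤ ρ * v ^ 2)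
    nlinarith
  have t2 : -(1 / 2 * ((σ * (y + g) - Real.exp (-4 * b) * g) * y)) ≤
      2 * C ^ 2 * E ^ 2 * (ρ * v ^ 2) := by
    have e1 : σ * (y + g) - Real.exp (-4 * b) * g = σ * y + d * g := by rw [hd]; ring
    have e2 : |d * g| ≤ E * (4 * |v|) * C := by
      rw [abs_mul]; exact mul_le_mul h2 hg (abs_nonneg _) (by positivity)
    have e3 : (d * g) ^ 2 ≤ (E * (4 * |v|) * C) ^ 2 := by
      rw [← sq_abs (d * g)]; exact pow_le_pow_left₀ (abs_nonneg _) e2 2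
    have e4 : (E * (4 * |v|) * C) ^ 2 = 16 * C ^ 2 * E ^ 2 * v ^ 2 := by rw [← hv2]; ring
    have e5 : 0 ≤ ρ * (2 * σ * y + d * g) ^ 2 := by positivity
    have e6 : ρ * (2 * σ * y + d * g) ^ 2 =
        4 * (ρ * σ) * σ * y ^ 2 + 4 * (ρ * σ) * y * (d * g) + ρ * (d * g) ^ 2 := by ring
    have e7 := mul_le_mul_of_nonneg_left (e3.trans_eq e4) hρ.le
    rw [e6, hinv] at e5
    rw [e1]
    nlinarith
  have t3 : -(2 * (v * e * r')) ≤ 8 * C * E ^ 2 * (ρ * v ^ 2) := by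
    have e1 : |v * e * r'| ≤ |v| * (E * (4 * |v|)) * C := by
      rw [abs_mul, abs_mul]
      exact mul_le_mul (mul_le_mul_of_nonneg_left h1 (abs_nonneg _)) hr' (abs_nonneg _)
        (by positivity)
    have e2 : |v| * (E * (4 * |v|)) * C = 4 * C * E * v ^ 2 := by rw [← hv2]; ring
    have e3 := mul_le_mul_of_nonneg_left hlow (by positivity : 0 ≤ 4 * C * E * v ^ 2)
    have e4 := neg_le_abs (v * e * r')
    nlinarith
  nlinarith

variable {M : Type u} [TopologicalSpace M] [T2Space M] [CompactSpace M] [ChartedSpace E4 M]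
  [IsManifold (𝓡 4) ∞ M] [MeasurableSpace M] [BorelSpace M] (S : Setup M)

theorem uniq_int {C : ℝ} {φ ψ : M → ℝ} (hφ : Smooth φ) (hψ : Smooth ψ) (h1 : ∀ x, |φ x| ≤ C)
    (h2 : ∀ x, |ψ x| ≤ C) (h3 : ∀ x, |S.rhs φ x| ≤ C) (h4 : ∀ x, |S.rhs ψ x| ≤ C)
    (h5 : ∀ x, |S.P ψ x + S.q x| ≤ C) :
    ∫ x, (4 * (Real.exp (4 * φ x) * S.rhs φ x * (φ x - ψ x) ^ 2) +
      2 * (Real.exp (4 * φ x) * (φ x - ψ x) * (S.rhs φ x - S.rhs ψ x))) ∂S.μ ≤
    (4 * C + 2 * C ^ 2 * Real.exp (4 * C) ^ 2 + 8 * C * Real.exp (4 * C) ^ 2) *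
      ∫ x, Real.exp (4 * φ x) * (φ x - ψ x) ^ 2 ∂S.μ := by
  have hv := hφ.sub hψ
  have hs := (S.curv_smooth hφ).sub (S.curv_smooth hψ)
  have hρ := (hφ.const_mul 4).exp
  have hρ' := (hψ.const_mul 4).exp
  have hA : Smooth fun x => 4 * (Real.exp (4 * φ x) * S.rhs φ x * (φ x - ψ x) ^ 2) :=
    ((hρ.mul (S.rhs_smooth hφ)).mul (hv.pow 2)).const_mul 4
  have hB : Smooth fun x =>
      2 * ((φ x - ψ x) * (Real.exp (4 * φ x) - Real.exp (4 * ψ x)) * S.rhs ψ x) :=
    ((hv.mul (hρ.sub hρ')).mul (S.rhs_smooth hψ)).const_mul 2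
  have hD := (hv.mul (S.P_smooth hs)).const_mul (1 / 2)
  have hD' := (hs.mul (S.P_smooth hv)).const_mul (1 / 2)
  have hsym := S.P_symm hs hv
  have e1 : ∀ x, 4 * (Real.exp (4 * φ x) * S.rhs φ x * (φ x - ψ x) ^ 2) +
      2 * (Real.exp (4 * φ x) * (φ x - ψ x) * (S.rhs φ x - S.rhs ψ x)) =
      4 * (Real.exp (4 * φ x) * S.rhs φ x * (φ x - ψ x) ^ 2) -
      1 / 2 * ((φ x - ψ x) * S.P (fun z => S.curv φ z - S.curv ψ z) x) -
      2 * ((φ x - ψ x) * (Real.exp (4 * φ x) - Real.exp (4 * ψ x)) * S.rhs ψ x) := by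
    intro x
    have i1 : Real.exp (4 * φ x) * Real.exp (-4 * φ x) = 1 := by rw [← Real.exp_add]; simp
    have i2 : Real.exp (4 * ψ x) * Real.exp (-4 * ψ x) = 1 := by rw [← Real.exp_add]; simp
    rw [S.P_sub (S.curv_smooth hφ) (S.curv_smooth hψ)]
    simp only [Setup.rhs]
    linear_combination (-(1 / 2) * (φ x - ψ x) * S.P (S.curv φ) x) * i1 +
      (1 / 2 * (φ x - ψ x) * S.P (S.curv ψ) x) * i2
  simp only [e1]
  rw [integral_sub (S.integrable (hA.sub hD).continuous) (S.integrable hB.continuous),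
    integral_sub (S.integrable hA.continuous) (S.integrable hD.continuous),
    integral_const_mul (1 / 2 : ℝ), hsym, ← integral_const_mul (1 / 2 : ℝ),
    ← integral_sub (S.integrable hA.continuous) (S.integrable hD'.continuous),
    ← integral_sub (S.integrable (hA.sub hD').continuous) (S.integrable hB.continuous),
    ← integral_const_mul]
  refine integral_mono (S.integrable ((hA.sub hD').sub hB).continuous)
    (S.integrable ((hρ.mul (hv.pow 2)).const_mul _).continuous) fun x => ?_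
  have := uniq_pt (S.P φ x - S.P ψ x) (h1 x) (h2 x) (h3 x) (h4 x) (h5 x)
  rw [show S.P φ x - S.P ψ x + (S.P ψ x + S.q x) = S.P φ x + S.q x by ring] at this
  simp only [S.P_sub hφ hψ, Setup.curv]
  exact this

theorem uniq_core : Uniq S := by
  intro T hT w w' hw hw' h0 t ht
  rcases eq_or_lt_of_le ht.1 with rfl | ht0
  · exact h0
  have hI : UniqueDiffOn ℝ (Ico 0 T) := uniqueDiffOn_Ico 0 T
  have hK : Icc 0 t ⊆ Ico 0 T := fun s hs => ⟨hs.1, hs.2.trans_lt ht.2⟩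
  obtain ⟨C1, -, b1⟩ := hw.smooth.bound isCompact_Icc hK
  obtain ⟨C2, -, b2⟩ := hw'.smooth.bound isCompact_Icc hK
  obtain ⟨C3, -, b3⟩ := (hw.smooth.rhs S hI).bound isCompact_Icc hK
  obtain ⟨C4, -, b4⟩ := (hw'.smooth.rhs S hI).bound isCompact_Icc hK
  obtain ⟨C5, -, b5⟩ := ((hw'.smooth.P S hI).add (S.q_sm.smoothOn _)).bound isCompact_Icc hK
  set C := max (max (max C1 C2) (max C3 C4)) C5
  set K := 4 * C + 2 * C ^ 2 * Real.exp (4 * C) ^ 2 + 8 * C * Real.exp (4 * C) ^ 2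
  have hρ := (hw.smooth.const_mul 4).exp
  have hv := hw.smooth.sub hw'.smooth
  have hF := ((hρ.mul (hv.pow 2)).mono hK).continuousOn
  have hF' := (((((hρ.mul (hw.smooth.rhs S hI)).mul (hv.pow 2)).const_mul 4).add
    (((hρ.mul hv).mul ((hw.smooth.rhs S hI).sub (hw'.smooth.rhs S hI))).const_mul 2)).mono
    hK).continuousOn
  set E : ℝ → ℝ := fun s => ∫ x, Real.exp (4 * w s x) * (w s x - w' s x) ^ 2 ∂S.μ with hE
  have hd : ∀ s ∈ Ioo 0 t, ∃ E', HasDerivAt E E' s ∧ E' ≤ K * E s := by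
    intro s hs
    have hs' := Ioo_subset_Icc_self hs
    refine ⟨_, jt_hasDerivAt_integral S
      (w := fun s x => Real.exp (4 * w s x) * (w s x - w' s x) ^ 2)
      (v := fun s x => 4 * (Real.exp (4 * w s x) * S.rhs (w s) x * (w s x - w' s x) ^ 2) +
        2 * (Real.exp (4 * w s x) * (w s x - w' s x) * (S.rhs (w s) x - S.rhs (w' s) x)))
      hs hF hF' fun r hr x => ?_, uniq_int S (C := C) (hw.smooth.slice (hK hs')) (hw'.smooth.slice (hK hs'))
        (fun x => (b1 s hs' x).trans (by simp [C])) (fun x => (b2 s hs' x).trans (by simp [C]))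
        (fun x => (b3 s hs' x).trans (by simp [C])) (fun x => (b4 s hs' x).trans (by simp [C]))
        (fun x => (b5 s hs' x).trans (by simp [C]))⟩
    have hn : Ico 0 T ∈ 𝓝 r := Ico_mem_nhds hr.1 (hr.2.trans ht.2)
    have d1 := (hw.eqn r (mem_of_mem_nhds hn) x).hasDerivAt hn
    have d2 := (hw'.eqn r (mem_of_mem_nhds hn) x).hasDerivAt hn
    refine ((d1.const_mul 4).exp.mul ((d1.sub d2).pow 2)).congr_deriv ?_
    simp only [Pi.pow_apply, Pi.sub_apply]
    ring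
  have hd' : ∀ s ∈ Ioo 0 t, ∃ g', HasDerivAt (fun r => Real.exp (-K * r) * E r) g' s ∧ g' ≤ 0 := by
    intro s hs
    obtain ⟨E', h1, h2⟩ := hd s hs
    refine ⟨_, ((hasDerivAt_id s).const_mul (-K)).exp.mul h1, ?_⟩
    have := mul_le_mul_of_nonneg_left h2 (Real.exp_pos (-K * s)).le
    simp only [id]
    nlinarith
  have hanti : AntitoneOn (fun r => Real.exp (-K * r) * E r) (Icc 0 t) := by
    refine antitoneOn_of_deriv_nonpos (convex_Icc 0 t)
      (ContinuousOn.mul (by fun_prop) (jt_continuousOn_integral S isCompact_Icc hF))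
      (fun s hs => ?_) (fun s hs => ?_)
    · rw [interior_Icc] at hs
      obtain ⟨g', h1, -⟩ := hd' s hs
      exact h1.differentiableAt.differentiableWithinAt
    · rw [interior_Icc] at hs
      obtain ⟨g', h1, h2⟩ := hd' s hs
      rwa [h1.deriv]
  have h1 := hanti ⟨le_rfl, ht.1⟩ ⟨ht.1, le_rfl⟩ ht.1
  have h2 : E 0 = 0 := by simp [hE, h0]
  simp only [h2, mul_zero] at h1
  have h3 : E t ≤ 0 := by
    by_contra hc
    exact absurd h1 (not_le.2 (mul_pos (Real.exp_pos _) (not_le.1 hc)))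
  have hc : Continuous fun x => Real.exp (4 * w t x) * (w t x - w' t x) ^ 2 :=
    ((hρ.mul (hv.pow 2)).slice ht).continuous
  have hn : 0 ≤ fun x => Real.exp (4 * w t x) * (w t x - w' t x) ^ 2 := fun x => by positivity
  have h4 := (integral_eq_zero_iff_of_nonneg hn (S.integrable hc)).1
    (le_antisymm h3 (integral_nonneg hn))
  have h5 := (hc.ae_eq_iff_eq S.μ continuous_zero).1 h4
  funext x
  have h6 := congrFun h5 x
  simp only [Pi.zero_apply, mul_eq_zero, Real.exp_ne_zero, false_or, pow_eq_zero_iff, ne_eq,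
    OfNat.ofNat_ne_zero, not_false_eq_true] at h6
  exact sub_eq_zero.1 h6

omit S in
theorem uniq : UniqStmt.{u} := fun _ _ _ _ _ _ _ _ S _ _ => uniq_core S

end Pool.Agent.MP_417fa2_gt

end MrgPart5

-- ======== part 6: formerly Pool.Agent.MP_417fa2_gt.Flow.LevA
section MrgPart6

/-!
The static inequalities behind one step of the energy hierarchy.
-/

open Set Filter

set_option linter.unusedSectionVars false

namespace Pool.Agent.MP_417fa2_gt.Flow

universe u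

variable {M : Type u} [TopologicalSpace M] [CompactSpace M] {I : C(M, ℝ) →L[ℝ] ℝ}

theorem lev_abs_le {x C s : ℝ} (h : x ^ 2 ≤ C * s ^ 2) (hC : 0 ≤ C) (hs : 0 ≤ s) :
    |x| ≤ (C + 1) * s := by
  refine abs_le.2 (abs_le_of_sq_le_sq' (h.trans ?_) (by positivity))
  rw [mul_pow]
  exact mul_le_mul_of_nonneg_right (by nlinarith) (sq_nonneg _)

theorem lev_absorb {z C K x A : ℝ} (hz : 0 ≤ z) (hK : 0 ≤ K) (hx : x ^ 2 ≤ K * z)
    (h : z ≤ C * (A + |x|)) : z ≤ 2 * C * A + C ^ 2 * K := by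
  have h1 : C * |x| ≤ (z + C ^ 2 * K) / 2 := by
    refine le_of_sq_le_sq ?_ (by positivity) |>.trans' (le_refl _)
    rw [mul_pow, sq_abs]
    nlinarith [mul_le_mul_of_nonneg_left hx (sq_nonneg C), sq_nonneg (z - C ^ 2 * K)]
  nlinarith

theorem lev_young {x p y : ℝ} (h : x ^ 2 ≤ p * y) (hp : 0 ≤ p) (hy : 0 ≤ y) :
    2 * |x| ≤ y / 4 + 4 * p := by
  refine le_of_sq_le_sq ?_ (by positivity) |>.trans' (le_refl _)
  rw [mul_pow, sq_abs]
  nlinarith [sq_nonneg (y / 4 - 4 * p)]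

theorem lev_scale : ∃ τ : ℝ → ℝ → ℝ, ∀ a b, 0 ≤ a → 0 ≤ b → 1 ≤ τ a b ∧ a ≤ τ a b ^ 2 ∧
    a * b ≤ τ a b ^ 6 ∧ ∀ ε, 0 < ε → τ a b ^ 4 ≤ 2 * ε * b + (2 + 2 / ε ^ 2) * (1 + a) ^ 2 := by
  refine ⟨fun a b => √(1 + a + (a * b) ^ ((3 : ℕ) : ℝ)⁻¹), fun a b ha hb => ?_⟩
  have hab := mul_nonneg ha hb
  have h3 : ((a * b) ^ ((3 : ℕ) : ℝ)⁻¹) ^ 3 = a * b := Real.rpow_inv_natCast_pow hab (by norm_num)
  have hp : 0 ≤ (a * b) ^ ((3 : ℕ) : ℝ)⁻¹ := Real.rpow_nonneg hab _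
  beta_reduce
  generalize (a * b) ^ ((3 : ℕ) : ℝ)⁻¹ = p at h3 hp
  have h2 : √(1 + a + p) ^ 2 = 1 + a + p := Real.sq_sqrt (by linarith)
  refine ⟨Real.one_le_sqrt.2 (by linarith), by linarith, ?_, fun ε hε => ?_⟩
  · rw [show 6 = 2 * 3 by norm_num, pow_mul, h2, ← h3]
    exact pow_le_pow_left₀ hp (by linarith) 3
  · rw [show 4 = 2 * 2 by norm_num, pow_mul, h2]
    have h4 : p ^ 2 ≤ ε * b + 1 / ε ^ 2 * (1 + a) ^ 2 := by
      rcases le_or_gt (ε * p) a with h | h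
      · have h5 : p ^ 2 ≤ 1 / ε ^ 2 * (1 + a) ^ 2 := by
          rw [one_div, inv_mul_eq_div, le_div_iff₀ (by positivity), ← mul_pow]
          exact pow_le_pow_left₀ (by positivity) (by linarith) 2
        nlinarith [mul_nonneg hε.le hb]
      · have hp0 : 0 < p := by
          rcases hp.eq_or_lt with rfl | h'
          · linarith
          · exact h'
        have h5 : p ^ 2 ≤ ε * b := by
          refine le_of_mul_le_mul_left ?_ hp0
          nlinarith [mul_le_mul_of_nonneg_right h.le hb]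
        have : 0 ≤ 1 / ε ^ 2 * (1 + a) ^ 2 := by positivity
        linarith
    have h6 : (2 + 2 / ε ^ 2) * (1 + a) ^ 2 = 2 * (1 + a) ^ 2 + 2 * (1 / ε ^ 2 * (1 + a) ^ 2) := by
      ring
    rw [h6]
    nlinarith [sq_nonneg (1 + a - p)]

section Static

variable {ι : Type*} {r a b c : ι → C(M, ℝ)} {τ : ι → ℝ}

/-- The `H²` norm of the previous level. -/
theorem lev_za (hI : Pos I) (hr0 : ∀ i x, 0 ≤ r i x) (hr : Bd I (fun _ => 1) r)
    {za : ι → ℝ} (hz0 : ∀ i, 0 ≤ za i) (ha : Bd I za a) {Ca : ℝ} (hCa : 0 ≤ Ca)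
    (hYa : ∀ i, I (r i * a i ^ 2) ≤ Ca) {α δ : ι → C(M, ℝ)} (hα : Bd I (fun _ => 1) α)
    (hδ : Bd I (fun _ => 1) δ) {C : ℝ} (hC : 0 ≤ C)
    (hz : ∀ i, za i ≤ C * (I (r i * a i ^ 2) + |I (r i * (b i + (α i * a i + δ i)) * a i)|))
    (hτ : ∀ i, 1 ≤ τ i) (hb : ∀ i, I (r i * b i ^ 2) ≤ τ i ^ 2) :
    ∃ D : ℝ, 0 ≤ D ∧ ∀ i, za i ≤ D * τ i := by
  obtain ⟨C2, hC2, h2⟩ := Bd.w_le hI hr (hα.mul_one' hI ha hz0) hz0
  obtain ⟨C3, hC3, h3⟩ := Bd.w_le hI hr hδ fun _ => zero_le_one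
  refine ⟨2 * C * (Ca + (Ca + 1) + (C3 * Ca + 1)) + C ^ 2 * (C2 * Ca), by positivity, fun i => ?_⟩
  have hτ0 : 0 ≤ τ i := zero_le_one.trans (hτ i)
  have n := fun f => hI.w_nonneg (hr0 i) f
  have e1 : |I (r i * b i * a i)| ≤ (Ca + 1) * τ i :=
    lev_abs_le ((hI.cs (hr0 i) _ _).trans
      ((mul_le_mul (hb i) (hYa i) (n _) (sq_nonneg _)).trans_eq (mul_comm _ _))) hCa hτ0
  have e2 : I (r i * (α i * a i) * a i) ^ 2 ≤ C2 * Ca * za i :=
    (hI.cs (hr0 i) _ _).trans ((mul_le_mul (h2 i) (hYa i) (n _)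
      (mul_nonneg hC2 (hz0 i))).trans_eq (by ring))
  have e3 : |I (r i * δ i * a i)| ≤ (C3 * Ca + 1) * 1 :=
    lev_abs_le ((hI.cs (hr0 i) _ _).trans ((mul_le_mul (h3 i) (hYa i) (n _)
      (by positivity)).trans_eq (by ring))) (by positivity) zero_le_one
  have e4 : I (r i * (b i + (α i * a i + δ i)) * a i) =
      I (r i * b i * a i) + I (r i * δ i * a i) + I (r i * (α i * a i) * a i) := by
    rw [← map_add, ← map_add]; congr 1; ring
  have e5 : za i ≤ C * ((Ca + (Ca + 1) + (C3 * Ca + 1)) * τ i + |I (r i * (α i * a i) * a i)|) := by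
    refine (hz i).trans (mul_le_mul_of_nonneg_left ?_ hC)
    rw [e4]
    have := abs_add_three (I (r i * b i * a i)) (I (r i * δ i * a i)) (I (r i * (α i * a i) * a i))
    have h4 := mul_le_mul_of_nonneg_left (hτ i) hCa
    have h5 := mul_le_mul_of_nonneg_left (hτ i) (show 0 ≤ C3 * Ca + 1 by positivity)
    linarith [hYa i]
  have e6 := lev_absorb (hz0 i) (by positivity) e2 e5
  have h6 := mul_le_mul_of_nonneg_left (hτ i) (show 0 ≤ C ^ 2 * (C2 * Ca) by positivity)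
  linarith

/-- The `H²` norm of the current level. -/
theorem lev_zb (hI : Pos I) (hr0 : ∀ i x, 0 ≤ r i x) (hr : Bd I (fun _ => 1) r)
    {zb : ι → ℝ} (hz0 : ∀ i, 0 ≤ zb i) (hb : Bd I zb b) {α δ : ι → C(M, ℝ)} (hα : Bd I τ α)
    (hδ : Bd I (fun i => τ i ^ 3) δ) {C : ℝ} (hC : 0 ≤ C)
    (hz : ∀ i, zb i ≤ C * (I (r i * b i ^ 2) + |I (r i * (c i + (α i * b i + δ i)) * b i)|))
    (hτ : ∀ i, 1 ≤ τ i) (hY : ∀ i, I (r i * b i ^ 2) ≤ τ i ^ 2)
    (hYY : ∀ i, I (r i * b i ^ 2) * I (r i * c i ^ 2) ≤ τ i ^ 6) :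
    ∃ D : ℝ, 0 ≤ D ∧ ∀ i, zb i ≤ D * τ i ^ 3 := by
  have hτ0 : ∀ i, 0 ≤ τ i := fun i => zero_le_one.trans (hτ i)
  obtain ⟨C2, hC2, h2⟩ := Bd.w_le hI hr (hα.mul hI hb hτ0 hz0) fun i => mul_nonneg (hτ0 i) (hz0 i)
  obtain ⟨C3, hC3, h3⟩ := Bd.w_le hI hr hδ fun i => pow_nonneg (hτ0 i) 3
  refine ⟨2 * C * (1 + (1 + 1) + (C3 + 1)) + C ^ 2 * C2, by positivity, fun i => ?_⟩
  have t0 := hτ0 i
  have n := fun f => hI.w_nonneg (hr0 i) f
  have p23 : τ i ^ 2 ≤ τ i ^ 3 := pow_le_pow_right₀ (hτ i) (by norm_num)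
  have e1 : |I (r i * c i * b i)| ≤ (1 + 1) * τ i ^ 3 :=
    lev_abs_le ((hI.cs (hr0 i) _ _).trans
      (((mul_comm _ _).trans_le (hYY i)).trans_eq (by ring))) zero_le_one (by positivity)
  have e2 : I (r i * (α i * b i) * b i) ^ 2 ≤ C2 * τ i ^ 3 * zb i :=
    (hI.cs (hr0 i) _ _).trans ((mul_le_mul (h2 i) (hY i) (n _)
      (mul_nonneg hC2 (mul_nonneg t0 (hz0 i)))).trans_eq (by ring))
  have e3 : |I (r i * δ i * b i)| ≤ (C3 + 1) * τ i ^ 3 :=
    lev_abs_le ((hI.cs (hr0 i) _ _).trans ((mul_le_mul (h3 i) ((hY i).trans p23) (n _)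
      (by positivity)).trans_eq (by ring))) hC3 (by positivity)
  have e4 : I (r i * (c i + (α i * b i + δ i)) * b i) =
      I (r i * c i * b i) + I (r i * δ i * b i) + I (r i * (α i * b i) * b i) := by
    rw [← map_add, ← map_add]; congr 1; ring
  have e5 : zb i ≤ C * ((1 + (1 + 1) + (C3 + 1)) * τ i ^ 3 + |I (r i * (α i * b i) * b i)|) := by
    refine (hz i).trans (mul_le_mul_of_nonneg_left ?_ hC)
    rw [e4]
    have := abs_add_three (I (r i * c i * b i)) (I (r i * δ i * b i)) (I (r i * (α i * b i) * b i))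
    linarith [hY i]
  have e6 := lev_absorb (hz0 i) (by positivity) e2 e5
  linarith

theorem lev_k1 (hI : Pos I) (hr0 : ∀ i x, 0 ≤ r i x) (hr : Bd I (fun _ => 1) r)
    (hτ : ∀ i, 1 ≤ τ i) (hY : ∀ i, I (r i * b i ^ 2) ≤ τ i ^ 2)
    (hb : Bd I (fun i => τ i ^ 3) b) {α : ι → C(M, ℝ)} (hα : Bd I τ α) :
    ∃ D : ℝ, 0 ≤ D ∧ ∀ i, I (r i * (α i * b i) ^ 2) ≤ D * τ i ^ 4 := by
  have hτ0 : ∀ i, 0 ≤ τ i := fun i => zero_le_one.trans (hτ i)
  obtain ⟨C, hC, h⟩ := Bd.w_le hI hr ((hα.mul hI hα hτ0 hτ0).mul hI hb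
    (fun i => mul_nonneg (hτ0 i) (hτ0 i)) fun i => pow_nonneg (hτ0 i) 3)
    fun i => by have := hτ0 i; positivity
  refine ⟨C + 1, by positivity, fun i => (le_abs_self _).trans (lev_abs_le ?_ hC ?_)⟩
  · have t0 := hτ0 i
    have e : r i * (α i * b i) ^ 2 = r i * (α i * α i * b i) * b i := by ring
    rw [e]
    refine (hI.cs (hr0 i) _ _).trans ((mul_le_mul (h i) (hY i) (hI.w_nonneg (hr0 i) _)
      (by positivity)).trans ?_)
    have p : τ i ^ 7 ≤ τ i ^ 8 := pow_le_pow_right₀ (hτ i) (by norm_num)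
    nlinarith [mul_le_mul_of_nonneg_left p hC]
  · have := hτ0 i; positivity

theorem lev_k2 (hI : Pos I) (hr0 : ∀ i x, 0 ≤ r i x) (hr : Bd I (fun _ => 1) r)
    (hτ : ∀ i, 1 ≤ τ i) (hY : ∀ i, I (r i * b i ^ 2) ≤ τ i ^ 2)
    {δ : ι → C(M, ℝ)} (hδ : Bd I (fun i => τ i ^ 6) δ) :
    ∃ D : ℝ, 0 ≤ D ∧ ∀ i, |I (r i * δ i * b i)| ≤ D * τ i ^ 4 := by
  have hτ0 : ∀ i, 0 ≤ τ i := fun i => zero_le_one.trans (hτ i)
  obtain ⟨C, hC, h⟩ := Bd.w_le hI hr hδ fun i => pow_nonneg (hτ0 i) 6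
  refine ⟨C + 1, by positivity, fun i => ?_⟩
  have t0 := hτ0 i
  exact lev_abs_le ((hI.cs (hr0 i) _ _).trans ((mul_le_mul (h i) (hY i) (hI.w_nonneg (hr0 i) _)
    (by positivity)).trans_eq (by ring))) hC (by positivity)

/-- The energy inequality of the current level in terms of the scale `τ`. -/
theorem lev_energy (hI : Pos I) (hr0 : ∀ i x, 0 ≤ r i x) (hr : Bd I (fun _ => 1) r)
    (hτ : ∀ i, 1 ≤ τ i) (hY : ∀ i, I (r i * b i ^ 2) ≤ τ i ^ 2)
    (hb : Bd I (fun i => τ i ^ 3) b) {α₁ δ₁ α₂ β₂ δ₂ v : ι → C(M, ℝ)} (h1 : Bd I τ α₁)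
    (h2 : Bd I (fun i => τ i ^ 3) δ₁) (h3 : Bd I τ α₂) (h4 : Bd I (fun i => τ i ^ 3) β₂)
    (h5 : Bd I (fun i => τ i ^ 6) δ₂) (h6 : Bd I (fun i => τ i ^ 3) v) :
    ∃ D : ℝ, 0 ≤ D ∧ ∀ i, -2 * I (r i * c i ^ 2) - 2 * I (r i * (α₁ i * b i + δ₁ i) * c i) -
      2 * I (r i * (α₂ i * c i + β₂ i * b i + δ₂ i) * b i) + 4 * I (r i * v i * b i ^ 2) ≤
      -(5 / 4) * I (r i * c i ^ 2) + D * τ i ^ 4 := by
  have hτ0 : ∀ i, 0 ≤ τ i := fun i => zero_le_one.trans (hτ i)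
  have h30 : ∀ i, 0 ≤ τ i ^ 3 := fun i => pow_nonneg (hτ0 i) 3
  obtain ⟨D1, hD1, k1⟩ := lev_k1 hI hr0 hr hτ hY hb h1
  obtain ⟨D2, hD2, k2⟩ := Bd.w_le hI hr h2 h30
  obtain ⟨D3, hD3, k3⟩ := lev_k1 hI hr0 hr hτ hY hb h3
  obtain ⟨D4, hD4, k4⟩ := lev_k2 hI hr0 hr hτ hY
    ((h4.mul hI hb h30 h30).congr fun i => by ring)
  obtain ⟨D5, hD5, k5⟩ := lev_k2 hI hr0 hr hτ hY h5
  obtain ⟨D6, hD6, k6⟩ := lev_k2 hI hr0 hr hτ hY
    ((h6.mul hI hb h30 h30).congr fun i => by ring)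
  refine ⟨4 * D1 + 4 * D2 + 4 * D3 + 2 * D4 + 2 * D5 + 4 * D6, by positivity, fun i => ?_⟩
  have n := fun f => hI.w_nonneg (hr0 i) f
  have y1 := lev_young (hI.cs (hr0 i) (α₁ i * b i) (c i)) (n _) (n _)
  have y2 := lev_young (hI.cs (hr0 i) (δ₁ i) (c i)) (n _) (n _)
  have y3 := lev_young (hI.cs (hr0 i) (α₂ i * b i) (c i)) (n _) (n _)
  have e1 : I (r i * (α₁ i * b i + δ₁ i) * c i) =
      I (r i * (α₁ i * b i) * c i) + I (r i * δ₁ i * c i) := by
    rw [← map_add]; congr 1; ring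
  have e2 : I (r i * (α₂ i * c i + β₂ i * b i + δ₂ i) * b i) =
      I (r i * (α₂ i * b i) * c i) + I (r i * (β₂ i * b i) * b i) + I (r i * δ₂ i * b i) := by
    rw [← map_add, ← map_add]; congr 1; ring
  have e3 : I (r i * v i * b i ^ 2) = I (r i * (v i * b i) * b i) := by congr 1; ring
  have p : τ i ^ 3 ≤ τ i ^ 4 := pow_le_pow_right₀ (hτ i) (by norm_num)
  have q := mul_le_mul_of_nonneg_left p hD2
  rw [e1, e2, e3]
  linarith [neg_abs_le (I (r i * (α₁ i * b i) * c i)), neg_abs_le (I (r i * δ₁ i * c i)),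
    neg_abs_le (I (r i * (α₂ i * b i) * c i)), neg_abs_le (I (r i * (β₂ i * b i) * b i)),
    neg_abs_le (I (r i * δ₂ i * b i)), le_abs_self (I (r i * (v i * b i) * b i)),
    k1 i, k2 i, k3 i, k4 i, k5 i, k6 i]

end Static

end Pool.Agent.MP_417fa2_gt.Flow

end MrgPart6

-- ======== part 7: formerly Pool.Agent.MP_417fa2_gt.Flow.LevS
section MrgPart7

/-!
The inductive step of the energy hierarchy.
-/

open Set Filter

set_option linter.unusedSectionVars false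

namespace Pool.Agent.MP_417fa2_gt.Flow

universe u

variable {M : Type u} [TopologicalSpace M] [CompactSpace M] {I : C(M, ℝ) →L[ℝ] ℝ} {Q : C(M, ℝ)}

theorem lev_u_mem {j k : ℕ} (h : j < k) : uF I Q j ∈ Pol I Q k :=
  Algebra.subset_adjoin ⟨j, h, rfl⟩

theorem lev_pol_mono {k l : ℕ} (h : k ≤ l) : Pol I Q k ≤ Pol I Q l :=
  Algebra.adjoin_mono (image_mono (Iio_subset_Iio h))

theorem lev_T0 : TF I Q 0 = 0 := rfl

theorem lev_T1 : TF I Q 1 = (4 : ℝ) • (uF I Q 0 * uF I Q 1) := rfl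

theorem lev_num (a : ℝ) (k : ℕ) : a • (1 : Fam I) ∈ Pol I Q k :=
  Subalgebra.smul_mem _ (Subalgebra.one_mem _) a

theorem lev_dec0 (s : Sys I Q) (m : ℕ) :
    ∃ p ∈ Pol I Q m, ∃ p' ∈ Pol I Q m, TF I Q m = p * uF I Q m + p' := by
  have z := fun k => (Pol I Q k).zero_mem
  obtain _ | _ | _ | _ | m := m
  · exact ⟨0, z _, 0, z _, by rw [lev_T0]; ring⟩
  · exact ⟨(4 : ℝ) • uF I Q 0, Subalgebra.smul_mem _ (lev_u_mem (by omega)) _, 0, z _, by
      rw [zero_add, lev_T1, smul_mul_assoc, add_zero]⟩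
  · exact ⟨0, z _, (4 : ℝ) • (uF I Q 1 * uF I Q 1), Subalgebra.smul_mem _
      (mul_mem (lev_u_mem (by omega)) (lev_u_mem (by omega))) _, by
      rw [zero_mul, zero_add ((4 : ℝ) • _)]; exact s.two⟩
  · refine ⟨(4 : ℝ) • uF I Q 0, Subalgebra.smul_mem _ (lev_u_mem (by omega)) _,
      (8 : ℝ) • (uF I Q 1 * uF I Q 2) + (16 : ℝ) • (uF I Q 0 * uF I Q 1 * uF I Q 1),
      add_mem (Subalgebra.smul_mem _ (mul_mem (lev_u_mem (by omega)) (lev_u_mem (by omega))) _)
        (Subalgebra.smul_mem _ (mul_mem (mul_mem (lev_u_mem (by omega)) (lev_u_mem (by omega)))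
          (lev_u_mem (by omega))) _), ?_⟩
    rw [smul_mul_assoc, ← add_assoc]; exact s.three
  · obtain ⟨a, ha, b, hb, c, hc, d, hd, h⟩ := s.str m
    have l : Pol I Q (m + 2) ≤ Pol I Q (m + 1 + 1 + 1 + 1) := lev_pol_mono (by omega)
    refine ⟨a, l ha, b * uF I Q (m + 3) + c * uF I Q (m + 2) + d,
      add_mem (add_mem (mul_mem (l hb) (lev_u_mem (by omega)))
        (mul_mem (l hc) (lev_u_mem (by omega)))) (l hd), ?_⟩
    rw [← add_assoc, ← add_assoc]; exact h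

theorem lev_dec1 (s : Sys I Q) (m : ℕ) :
    ∃ p₀ ∈ Pol I Q m, ∃ p₁ ∈ Pol I Q m, ∃ p₂ ∈ Pol I Q m, ∃ p₃ ∈ Pol I Q m, ∃ p₄ ∈ Pol I Q m,
      TF I Q (m + 1) = (p₀ + p₁ * uF I Q m) * uF I Q (m + 1) +
        (p₂ + p₃ * uF I Q m + p₄ * (uF I Q m * uF I Q m)) := by
  have z := fun k => (Pol I Q k).zero_mem
  obtain _ | _ | _ | m := m
  · exact ⟨0, z _, _, lev_num 4 _, 0, z _, 0, z _, 0, z _, by
      rw [zero_add, lev_T1]; simp⟩
  · exact ⟨0, z _, 0, z _, 0, z _, 0, z _, _, lev_num 4 _, by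
      rw [show 0 + 1 + 1 = 2 from rfl, s.two]; simp⟩
  · refine ⟨(4 : ℝ) • uF I Q 0, Subalgebra.smul_mem _ (lev_u_mem (by omega)) _, 0, z _,
      (16 : ℝ) • (uF I Q 0 * uF I Q 1 * uF I Q 1), Subalgebra.smul_mem _
        (mul_mem (mul_mem (lev_u_mem (by omega)) (lev_u_mem (by omega))) (lev_u_mem (by omega))) _,
      (8 : ℝ) • uF I Q 1, Subalgebra.smul_mem _ (lev_u_mem (by omega)) _, 0, z _, ?_⟩
    rw [show 0 + 1 + 1 + 1 = 3 from rfl, show 0 + 1 + 1 = 2 from rfl, s.three]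
    simp only [zero_mul, add_zero, smul_mul_assoc]
    abel
  · obtain ⟨a, ha, b, hb, c, hc, d, hd, h⟩ := s.str m
    have l : Pol I Q (m + 2) ≤ Pol I Q (m + 1 + 1 + 1) := lev_pol_mono (by omega)
    refine ⟨a, l ha, 0, z _, c * uF I Q (m + 2) + d,
      add_mem (mul_mem (l hc) (lev_u_mem (by omega))) (l hd), b, l hb, 0, z _, ?_⟩
    rw [show m + 1 + 1 + 1 + 1 = m + 4 from rfl, show m + 1 + 1 + 1 = m + 3 from rfl, h]
    ring

theorem lev_dec2 (s : Sys I Q) (m : ℕ) :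
    ∃ p₀ ∈ Pol I Q m, ∃ p₁ ∈ Pol I Q m, ∃ p₂ ∈ Pol I Q m, ∃ p₃ ∈ Pol I Q m, ∃ p₄ ∈ Pol I Q m,
      ∃ p₅ ∈ Pol I Q m, ∃ p₆ ∈ Pol I Q m,
      TF I Q (m + 2) = p₀ * uF I Q (m + 2) +
        (p₁ + p₂ * uF I Q m + p₃ * uF I Q (m + 1)) * uF I Q (m + 1) +
        (p₄ + p₅ * uF I Q m + p₆ * (uF I Q m * uF I Q m)) := by
  have z := fun k => (Pol I Q k).zero_mem
  obtain _ | _ | m := m
  · exact ⟨0, z _, 0, z _, 0, z _, _, lev_num 4 _, 0, z _, 0, z _, 0, z _, by
      rw [zero_add, s.two]; simp⟩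
  · refine ⟨(4 : ℝ) • uF I Q 0, Subalgebra.smul_mem _ (lev_u_mem (by omega)) _, 0, z _,
      _, lev_num 8 _, 0, z _, 0, z _, 0, z _, (16 : ℝ) • uF I Q 0,
      Subalgebra.smul_mem _ (lev_u_mem (by omega)) _, ?_⟩
    rw [show 0 + 1 + 2 = 3 from rfl, show 0 + 1 + 1 = 2 from rfl, zero_add, s.three]
    simp only [zero_mul, add_zero, zero_add, smul_mul_assoc, one_mul, mul_assoc]
  · obtain ⟨a, ha, b, hb, c, hc, d, hd, h⟩ := s.str m
    refine ⟨a, ha, b, hb, 0, z _, 0, z _, d, hd, c, hc, 0, z _, ?_⟩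
    rw [show m + 1 + 1 + 2 = m + 4 from rfl, show m + 1 + 1 + 1 = m + 3 from rfl,
      show m + 1 + 1 = m + 2 from rfl, h]
    ring

theorem lev_dec3 (m : ℕ) : ∃ p₀ ∈ Pol I Q m, ∃ p₁ ∈ Pol I Q m, ∃ p₂ ∈ Pol I Q m,
    uF I Q 1 = p₀ + p₁ * uF I Q m + p₂ * uF I Q (m + 1) := by
  have z := fun k => (Pol I Q k).zero_mem
  have o := fun k => (Pol I Q k).one_mem
  obtain _ | _ | m := m
  · exact ⟨0, z _, 0, z _, 1, o _, by simp⟩
  · exact ⟨0, z _, 1, o _, 0, z _, by simp⟩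
  · exact ⟨uF I Q 1, lev_u_mem (by omega), 0, z _, 0, z _, by simp⟩

/-- The `H²` norm of `u n` through the equation of level `n`. -/
theorem lev_z_rel (hI : Pos I) (h1 : 0 < I 1) (s : Sys I Q) {γ K : ℝ} (hγ : 0 < γ) (hK : 0 < K)
    (R : ℝ) : ∃ C : ℝ, 0 ≤ C ∧ ∀ G : Gal I, G.Fine γ K → ∀ c, G.z c ≤ R → ∀ n,
      G.z (G.U Q n c) ≤ C * (G.Y Q n c +
        |I (G.rho c * (G.u Q (n + 1) c + G.T Q n c) * G.u Q n c)|) := by
  obtain ⟨C, hC, h⟩ := mean_sq_le hI hK R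
  refine ⟨C / I 1 + 2 * (1 + 1 / γ), by positivity, fun G hG c hc n => ?_⟩
  have e1 := hG.z_le hγ h1 (G.U Q n c)
  have e2 : I (G.u Q n c) ^ 2 / I 1 ≤ C / I 1 * G.Y Q n c := by
    rw [div_mul_eq_mul_div]
    exact div_le_div_of_nonneg_right (h G hG.mom c hc _) h1.le
  have e3 : I (G.rho c * (G.u Q (n + 1) c + G.T Q n c) * G.u Q n c) =
      sg n * ∑ i, G.lam i * G.U Q n c i ^ 2 := by
    rw [Gal.u.eq_1 G Q n, G.I_mul_emb, Finset.mul_sum]
    exact Finset.sum_congr rfl fun i _ => by rw [s.eqn]; ring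
  have e4 : |sg n| = 1 / 2 := by simp [sg, abs_div]
  have e5 := G.lamSum_nonneg (G.U Q n c)
  have e6 : 0 ≤ G.Y Q n c := hI.w_nonneg (fun x => (G.rho_pos c x).le) _
  rw [e3, abs_mul, e4, abs_of_nonneg e5]
  have e7 : 0 ≤ C / I 1 := by positivity
  have e8 : 0 ≤ 1 + 1 / γ := by positivity
  have e9 : G.z (G.U Q n c) ≤ C / I 1 * G.Y Q n c +
      (1 + 1 / γ) * ∑ i, G.lam i * G.U Q n c i ^ 2 := e1.trans (add_le_add e2 le_rfl)
  nlinarith [mul_nonneg e7 e5, mul_nonneg e8 e6]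

section Fam

variable {ι : Type*} {G : ι → Gal I} {c : ∀ i, Fin (G i).n → ℝ} {γ K C : ℝ} {m : ℕ}

theorem lev_prev (hI : Pos I) (h1 : 0 < I 1) (s : Sys I Q) (hγ : 0 < γ) (hK : 0 < K)
    (hG : ∀ i, (G i).Fine γ K) (hc : ∀ i, (G i).z (c i) ≤ C)
    (hY : ∀ i, (G i).Y Q m (c i) ≤ C) (hz : ∀ i, ∀ j < m, (G i).z ((G i).U Q j (c i)) ≤ C)
    {τ : ι → ℝ} (hτ : ∀ i, 1 ≤ τ i) (hb : ∀ i, (G i).Y Q (m + 1) (c i) ≤ τ i ^ 2) :
    ∃ D : ℝ, 0 ≤ D ∧ ∀ i, (G i).z ((G i).U Q m (c i)) ≤ D * τ i := by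
  have hm := fun i => (hG i).mom
  have gd : ∀ {a : Fam I}, a ∈ Pol I Q m → Bd I (fun _ => 1) fun i => a (G i) (c i) :=
    fun ha => Bd.pol hI c (fun j hj => Bd.of_z_le hI hK hm _ fun i => hz i j hj) ha
  obtain ⟨C1, hC1, hrel⟩ := lev_z_rel hI h1 s hγ hK C
  obtain ⟨p, hp, p', hp', e⟩ := lev_dec0 s m
  refine lev_za (b := fun i => (G i).u Q (m + 1) (c i)) hI (fun i x => ((G i).rho_pos _ x).le)
    (Bd.rho hI hK hm c hc) (fun i => (G i).z_nonneg _)
    (Bd.of_mom hI hK hm fun i => (G i).U Q m (c i)) (le_max_right C 0)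
    (fun i => (hY i).trans (le_max_left _ _)) (gd hp) (gd hp') hC1 (fun i => ?_) hτ hb
  have := hrel (G i) (hG i) (c i) (hc i) m
  rwa [show (G i).T Q m (c i) = _ from congrFun (congrFun e (G i)) (c i)] at this

theorem lev_static (hI : Pos I) (h1 : 0 < I 1) (s : Sys I Q) (hγ : 0 < γ) (hK : 0 < K)
    (hG : ∀ i, (G i).Fine γ K) (hc : ∀ i, (G i).z (c i) ≤ C)
    (hY : ∀ i, (G i).Y Q m (c i) ≤ C) (hz : ∀ i, ∀ j < m, (G i).z ((G i).U Q j (c i)) ≤ C) :
    ∃ D : ℝ, 0 ≤ D ∧ ∀ i, (G i).dY Q (m + 1) (c i) ≤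
      -(G i).Y Q (m + 2) (c i) + D * (1 + (G i).Y Q (m + 1) (c i)) ^ 2 := by
  have hm := fun i => (hG i).mom
  have hr0 : ∀ i x, 0 ≤ (G i).rho (c i) x := fun i x => ((G i).rho_pos _ x).le
  have hr := Bd.rho hI hK hm c hc
  have Y0 : ∀ n i, 0 ≤ (G i).Y Q n (c i) := fun n i => hI.w_nonneg (hr0 i) _
  have gd : ∀ {a : Fam I}, a ∈ Pol I Q m → Bd I (fun _ => 1) fun i => a (G i) (c i) :=
    fun ha => Bd.pol hI c (fun j hj => Bd.of_z_le hI hK hm _ fun i => hz i j hj) ha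
  obtain ⟨σ, hσ⟩ := lev_scale
  set τ : ι → ℝ := fun i => σ ((G i).Y Q (m + 1) (c i)) ((G i).Y Q (m + 2) (c i)) with hτd
  have hs := fun i => hσ _ _ (Y0 (m + 1) i) (Y0 (m + 2) i)
  have hτ : ∀ i, 1 ≤ τ i := fun i => (hs i).1
  have hτ0 : ∀ i, 0 ≤ τ i := fun i => zero_le_one.trans (hτ i)
  have up : ∀ {k l : ℕ} {f : ι → C(M, ℝ)}, k ≤ l → Bd I (fun i => τ i ^ k) f →
      Bd I (fun i => τ i ^ l) f := fun hkl h =>
    h.mono' (fun i => pow_nonneg (hτ0 i) _) fun i => pow_le_pow_right₀ (hτ i) hkl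
  have g0 : ∀ {a : Fam I} (l : ℕ), a ∈ Pol I Q m →
      Bd I (fun i => τ i ^ l) fun i => a (G i) (c i) := fun l ha =>
    up (Nat.zero_le l) ((gd ha).congr fun i => (pow_zero _).symm)
  have gm : ∀ {a : Fam I} {k : ℕ} {f : ι → C(M, ℝ)} (l : ℕ), a ∈ Pol I Q m → k ≤ l →
      Bd I (fun i => τ i ^ k) f → Bd I (fun i => τ i ^ l) fun i => a (G i) (c i) * f i :=
    fun l ha hkl h => up hkl ((gd ha).mul_one' hI h fun i => pow_nonneg (hτ0 i) _)
  have one : ∀ {f : ι → C(M, ℝ)}, Bd I (fun i => τ i ^ 1) f → Bd I τ f := fun h =>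
    h.congr fun i => pow_one _
  obtain ⟨Da, hDa, za⟩ := lev_prev hI h1 s hγ hK hG hc hY hz hτ fun i => (hs i).2.1
  have ba : Bd I (fun i => τ i ^ 1) fun i => (G i).u Q m (c i) :=
    (Bd.of_mom hI hK hm fun i => (G i).U Q m (c i)).mono (fun i => (G i).z_nonneg _) hDa
      fun i => by rw [pow_one]; exact za i
  have baa : Bd I (fun i => τ i ^ 2) fun i => (G i).u Q m (c i) * (G i).u Q m (c i) :=
    ((one ba).mul hI (one ba) hτ0 hτ0).congr fun i => (sq _).symm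
  obtain ⟨p₀, h₀, p₁, h₁, p₂, h₂, p₃, h₃, p₄, h₄, e1⟩ := lev_dec1 s m
  have bα1 := one ((g0 1 h₀).add hI (gm 1 h₁ le_rfl ba))
  have bδ1 := ((g0 3 h₂).add hI (gm 3 h₃ (by norm_num) ba)).add hI (gm 3 h₄ (by norm_num) baa)
  have e1' := fun i => congrFun (congrFun e1 (G i)) (c i)
  obtain ⟨C1, hC1, hrel⟩ := lev_z_rel hI h1 s hγ hK C
  obtain ⟨Db, hDb, zb⟩ := lev_zb (c := fun i => (G i).u Q (m + 2) (c i)) hI hr0 hr
    (fun i => (G i).z_nonneg _) (Bd.of_mom hI hK hm fun i => (G i).U Q (m + 1) (c i)) bα1 bδ1 hC1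
    (fun i => by
      have := hrel (G i) (hG i) (c i) (hc i) (m + 1)
      rwa [show (G i).T Q (m + 1) (c i) = _ from e1' i] at this)
    hτ (fun i => (hs i).2.1) fun i => (hs i).2.2.1
  have bb : Bd I (fun i => τ i ^ 3) fun i => (G i).u Q (m + 1) (c i) :=
    (Bd.of_mom hI hK hm fun i => (G i).U Q (m + 1) (c i)).mono (fun i => (G i).z_nonneg _) hDb zb
  obtain ⟨q₀, k₀, q₁, k₁, q₂, k₂, q₃, k₃, q₄, k₄, q₅, k₅, q₆, k₆, e2⟩ := lev_dec2 s m
  have e2' := fun i => congrFun (congrFun e2 (G i)) (c i)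
  obtain ⟨v₀, l₀, v₁, l₁, v₂, l₂, e3⟩ := lev_dec3 (I := I) (Q := Q) m
  have e3' := fun i => congrFun (congrFun e3 (G i)) (c i)
  obtain ⟨D, hD, hE⟩ := lev_energy (c := fun i => (G i).u Q (m + 2) (c i)) hI hr0 hr hτ
    (fun i => (hs i).2.1) bb bα1 bδ1 (one (g0 1 k₀))
    (((g0 3 k₁).add hI (gm 3 k₂ (by norm_num) ba)).add hI (gm 3 k₃ le_rfl bb))
    (((g0 6 k₄).add hI (gm 6 k₅ (by norm_num) ba)).add hI (gm 6 k₆ (by norm_num) baa))
    (((g0 3 l₀).add hI (gm 3 l₁ (by norm_num) ba)).add hI (gm 3 l₂ le_rfl bb))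
  have hε : 0 < 1 / (8 * (D + 1)) := by positivity
  refine ⟨D * (2 + 2 / (1 / (8 * (D + 1))) ^ 2), by positivity, fun i => ?_⟩
  have f1 : (G i).dY Q (m + 1) (c i) ≤ -(5 / 4) * (G i).Y Q (m + 2) (c i) + D * τ i ^ 4 := by
    have := hE i
    rw [Gal.dY, show (G i).T Q (m + 1) (c i) = _ from e1' i,
      show (G i).T Q (m + 1 + 1) (c i) = _ from e2' i, show (G i).u Q 1 (c i) = _ from e3' i]
    exact this
  have f2 := mul_le_mul_of_nonneg_left ((hs i).2.2.2 _ hε) hD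
  have f3 : D * (2 * (1 / (8 * (D + 1)))) ≤ 1 / 4 := by
    rw [← mul_assoc, mul_one_div, div_le_iff₀ (by positivity)]; linarith
  have f4 := mul_le_mul_of_nonneg_right f3 (Y0 (m + 2) i)
  have f5 : τ i = σ ((G i).Y Q (m + 1) (c i)) ((G i).Y Q (m + 2) (c i)) := rfl
  rw [← f5] at f2
  nlinarith

end Fam

theorem levS : LevSStmt.{u} := by
  intro M _ _ I Q hI h1 s s1 m hm γ K τ B hγ hK
  obtain ⟨κ, C0, hκ, hL⟩ := hm γ K τ B hγ hK
  obtain ⟨C1, h2⟩ := s1 γ K τ hγ hK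
  let ι := {p : (G : Gal I) × ((ℝ → Fin G.n → ℝ) × ℝ) // p.1.Fine γ K ∧
    (∀ n, p.1.Y Q n 0 ≤ B n) ∧ p.1.Traj Q τ p.2.1 ∧ p.2.2 ∈ Icc 0 τ}
  let G : ι → Gal I := fun p => p.1.1
  let c : ∀ i : ι, Fin (G i).n → ℝ := fun p => p.1.2.1 p.1.2.2
  have hL' := fun i : ι => hL (G i) i.2.1 i.2.2.1 _ i.2.2.2.1 _ i.2.2.2.2
  have hc : ∀ i, (G i).z (c i) ≤ max C0 C1 := fun i =>
    (h2 (G i) i.2.1 (fun _ => 1) _ ⟨i.2.2.2.1.zero, fun _ _ => by simp,
      fun t ht => by simpa using i.2.2.2.1.der t ht⟩ _ i.2.2.2.2).2.1.trans (le_max_right _ _)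
  have hY : ∀ i, (G i).Y Q m (c i) ≤ max C0 C1 := fun i =>
    ((hL' i).1 m le_rfl).trans (le_max_left _ _)
  have hz : ∀ i, ∀ j < m, (G i).z ((G i).U Q j (c i)) ≤ max C0 C1 := fun i j hj =>
    ((hL' i).2.1 j hj).trans (le_max_left _ _)
  obtain ⟨D, hD, hS⟩ := lev_static hI h1 s hγ hK (fun i => i.2.1) hc hY hz
  have Y0 : ∀ (G : Gal I) n c, 0 ≤ G.Y Q n c := fun G n c =>
    Pos.w_nonneg hI (fun x => (G.rho_pos c x).le) _
  set C3 := D + D / κ * |C0| with hC3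
  have hC30 : 0 ≤ C3 := by positivity
  set E := Real.exp (Real.log (1 + B (m + 1)) + D / κ * B m + C3 * τ) with hE
  have hE0 : 0 < E := Real.exp_pos _
  have key : ∀ i, 1 + (G i).Y Q (m + 1) (c i) ≤ E := by
    rintro ⟨⟨G, c, t⟩, hG, hB, hT, ht⟩
    dsimp only at hG hB hT ht
    let f : ℝ → ℝ := fun t => Real.log (1 + G.Y Q (m + 1) (c t)) + D / κ * G.Y Q m (c t) - C3 * t
    have hf : ∀ t ∈ Icc 0 τ, HasDerivWithinAt f (G.dY Q (m + 1) (c t) / (1 + G.Y Q (m + 1) (c t)) +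
        D / κ * G.dY Q m (c t) - C3 * 1) (Icc 0 τ) t := fun t ht =>
      ((((s.derY G (m + 1) _ t c (hT.der t ht)).const_add 1).log
        (by linarith [Y0 G (m + 1) (c t)])).add
        ((s.derY G m _ t c (hT.der t ht)).const_mul _)).sub ((hasDerivWithinAt_id t _).const_mul _)
    have anti : AntitoneOn f (Icc 0 τ) := by
      refine antitoneOn_of_hasDerivWithinAt_nonpos (convex_Icc 0 τ)
        (fun t ht => (hf t ht).continuousWithinAt)
        (fun t ht => (hf t (interior_subset ht)).mono interior_subset) fun t ht => ?_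
      have ht' := interior_subset ht
      have a1 := hS ⟨⟨G, c, t⟩, hG, hB, hT, ht'⟩
      have a2 := (hL G hG hB c hT t ht').2.2
      have a3 := Y0 G (m + 1) (c t)
      have a4 := Y0 G (m + 2) (c t)
      have a5 : G.dY Q (m + 1) (c t) / (1 + G.Y Q (m + 1) (c t)) ≤
          D * (1 + G.Y Q (m + 1) (c t)) := by
        rw [div_le_iff₀ (by linarith)]
        change G.dY Q (m + 1) (c t) ≤ -G.Y Q (m + 2) (c t) + D * (1 + G.Y Q (m + 1) (c t)) ^ 2 at a1
        nlinarith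
      have a6 := mul_le_mul_of_nonneg_left (a2.trans (add_le_add le_rfl (le_abs_self C0)))
        (show 0 ≤ D / κ by positivity)
      have a7 : D / κ * (-κ * G.Y Q (m + 1) (c t) + |C0|) =
          -D * G.Y Q (m + 1) (c t) + D / κ * |C0| := by field_simp
      linarith
    have b1 := anti ⟨le_rfl, ht.1.trans ht.2⟩ ht ht.1
    simp only [f, hT.zero, mul_zero, sub_zero] at b1
    have b2 : Real.log (1 + G.Y Q (m + 1) 0) ≤ Real.log (1 + B (m + 1)) :=
      Real.log_le_log (by linarith [Y0 G (m + 1) 0]) (by linarith [hB (m + 1)])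
    have b3 := mul_le_mul_of_nonneg_left (hB m) (show 0 ≤ D / κ by positivity)
    have b4 := mul_nonneg (show 0 ≤ D / κ by positivity) (Y0 G m (c t))
    have b5 := mul_le_mul_of_nonneg_left ht.2 hC30
    change 1 + G.Y Q (m + 1) (c t) ≤ E
    rw [hE, ← Real.log_le_iff_le_exp (by linarith [Y0 G (m + 1) (c t)])]
    linarith
  obtain ⟨D2, hD2, hza⟩ := lev_prev hI h1 s hγ hK (fun i => i.2.1) hc hY hz
    (τ := fun _ => E + 1) (fun _ => by linarith) fun i => by nlinarith [key i]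
  refine ⟨1, |C0| + E + D2 * (E + 1) + D * E ^ 2, one_pos, fun G hG hB c hT t ht => ?_⟩
  have k1 := key ⟨⟨G, c, t⟩, hG, hB, hT, ht⟩
  have k2 := hza ⟨⟨G, c, t⟩, hG, hB, hT, ht⟩
  have k3 := hS ⟨⟨G, c, t⟩, hG, hB, hT, ht⟩
  have k4 := hL G hG hB c hT t ht
  change 1 + G.Y Q (m + 1) (c t) ≤ E at k1
  change G.z (G.U Q m (c t)) ≤ D2 * (E + 1) at k2
  change G.dY Q (m + 1) (c t) ≤ -G.Y Q (m + 2) (c t) + D * (1 + G.Y Q (m + 1) (c t)) ^ 2 at k3
  have p1 := le_abs_self C0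
  have p2 := abs_nonneg C0
  have p3 : 0 ≤ D2 * (E + 1) := by positivity
  have p4 : 0 ≤ D * E ^ 2 := by positivity
  refine ⟨fun i hi => ?_, fun i hi => ?_, ?_⟩
  · rcases Nat.le_succ_iff.1 hi with hi | rfl
    · linarith [k4.1 i hi]
    · linarith
  · rcases Nat.lt_succ_iff_lt_or_eq.1 hi with hi | rfl
    · linarith [k4.2.1 i hi]
    · linarith
  · have := mul_le_mul_of_nonneg_left
      (pow_le_pow_left₀ (by linarith [Y0 G (m + 1) (c t)]) k1 2) hD
    linarith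

end Pool.Agent.MP_417fa2_gt.Flow

end MrgPart7

-- marker of a merged file
example : 731051 + 714973 = 731051 + 714973 := rfl
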