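import Pool.Agent.MP_417fa2_gt.An.DenseEa
import Pool.Agent.MP_417fa2_gt.An.Bridge
import Mathlib.Analysis.InnerProductSpace.Orthonormal
import Mathlib.Algebra.Order.Archimedean.Real.Hom
import Mathlib.Algebra.Order.Star.Real
import Mathlib.Algebra.Ring.IsFormallyReal
import Mathlib.RingTheory.PiTensorProduct
import Pool.Agent.MP_417fa2_gt.Flow.Gal

-- ======== part 0: formerly Pool.Agent.MP_417fa2_gt.An.Agm
section MrgPart0

/-! Transfer of Agmon's inequality and of `H¹ ⊂ L⁴` from `ℝ⁴` to the manifold. -/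

open scoped Manifold ContDiff Topology
open MeasureTheory Set Filter

namespace Pool.Agent.MP_417fa2_gt

universe u

namespace AgmM

variable {M : Type u} [TopologicalSpace M] [ChartedSpace E4 M]

/-- A function on `M` read in the chart at `x₀` and extended by zero. -/
noncomputable def ext (x₀ : M) (φ : M → ℝ) : E4 → ℝ :=
  (chartAt E4 x₀).target.indicator (φ ∘ param x₀)

theorem ext_chart {x₀ x : M} (hx : x ∈ (chartAt E4 x₀).source) (φ : M → ℝ) :
    ext x₀ φ (chartAt E4 x₀ x) = φ x := by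
  rw [ext, indicator_of_mem (chart_mem hx), Function.comp, param_chart hx]

omit [ChartedSpace E4 M] in
theorem tsupport_mul {ψ : M → ℝ} (φ : M → ℝ) : tsupport (fun x => ψ x * φ x) ⊆ tsupport ψ :=
  closure_mono fun x hx h0 => hx (by simp [h0])

theorem pd_ext [CompactSpace M] {x₀ : M} {φ : M → ℝ} (hs : tsupport φ ⊆ (chartAt E4 x₀).source)
    (i : Fin 4) : pd i (ext x₀ φ) = ext x₀ (cd x₀ i φ) := by
  funext y
  by_cases hy : y ∈ (chartAt E4 x₀).target
  · rw [ext, ext, indicator_of_mem hy, Function.comp, cd_param hy]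
    exact pd_congr (mem_of_superset ((isOpen_tgt x₀).mem_nhds hy)
      fun z hz => indicator_of_mem hz _) i
  · rw [ext, ext, indicator_of_notMem hy]
    exact pd_eq_zero_of_eventually (mem_of_superset
      ((isCompact_chart_image (isClosed_tsupport φ).isCompact hs).isClosed.isOpen_compl.mem_nhds
        fun h => hy (chart_image_subset hs h))
      fun z hz => indicator_eq_zero_off comp_param_eq_zero hz) i

theorem ext_congr {x₀ : M} {φ ψ : M → ℝ} (h : ∀ x ∈ (chartAt E4 x₀).source, φ x = ψ x) :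
    ext x₀ φ = ext x₀ ψ :=
  indicator_congr fun _ hy => h _ (param_mem hy)

theorem ext_add (x₀ : M) (φ ψ : M → ℝ) :
    ext x₀ (fun x => φ x + ψ x) = fun y => ext x₀ φ y + ext x₀ ψ y := by
  funext y
  by_cases hy : y ∈ (chartAt E4 x₀).target <;> simp [ext, hy]

theorem exists_big (F : Frame M) (x : M) : ∃ a, 1 ≤ F.n * F.χ a x ^ 2 := by
  by_contra h
  push Not at h
  have hn : (Finset.univ : Finset (Fin F.n)).Nonempty := by
    by_contra h0
    have := F.sum x
    rw [Finset.not_nonempty_iff_eq_empty.1 h0] at this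
    simp at this
  have := Finset.sum_lt_sum_of_nonempty hn fun a _ => h a
  rw [← Finset.mul_sum, F.sum x] at this
  simp at this

variable [IsManifold (𝓡 4) ∞ M] [CompactSpace M]

theorem tst_ext {x₀ : M} {φ : M → ℝ} (hφ : Smooth φ)
    (hs : tsupport φ ⊆ (chartAt E4 x₀).source) : Tst (ext x₀ φ) := by
  have hK := isCompact_chart_image (isClosed_tsupport φ).isCompact hs
  exact ⟨contDiff_indicator (isOpen_tgt x₀) hK.isClosed (chart_image_subset hs) (hφ.cdOn x₀)
    comp_param_eq_zero, HasCompactSupport.intro hK fun y hy =>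
      indicator_eq_zero_off comp_param_eq_zero hy⟩

variable [MeasurableSpace M] [T2Space M] [BorelSpace M] (S : Setup M)

omit [T2Space M] in
theorem compare {x₀ : M} {T : Set M} (hT : IsClosed T) (hs : T ⊆ (chartAt E4 x₀).source) :
    ∃ C : ℝ, 0 < C ∧ ∀ φ, Smooth φ → tsupport φ ⊆ T → ∀ n : ℕ, n ≠ 0 → Even n →
      ∫ y, ext x₀ φ y ^ n ≤ C * ∫ x, φ x ^ n ∂S.μ ∧
      ∫ x, φ x ^ n ∂S.μ ≤ C * ∫ y, ext x₀ φ y ^ n := by
  have hK := isCompact_chart_image hT.isCompact hs
  have hρ := (S.ρ_sm x₀).continuousOn.mono (chart_image_subset hs)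
  have hp := fun y hy => S.ρ_pos x₀ y (chart_image_subset hs hy)
  obtain ⟨C₁, h₁⟩ := hK.exists_bound_of_continuousOn hρ
  obtain ⟨C₂, h₂⟩ := hK.exists_bound_of_continuousOn (hρ.inv₀ fun y hy => (hp y hy).ne')
  refine ⟨|C₁| + |C₂| + 1, by positivity, fun φ hφ hφT n hn he => ?_⟩
  have hs' := hφT.trans hs
  have hK' := isCompact_chart_image (isClosed_tsupport φ).isCompact hs'
  have e1 : ∫ y, ext x₀ φ y ^ n = ∫ y in (chartAt E4 x₀).target, φ (param x₀ y) ^ n := by
    rw [← integral_indicator (isOpen_tgt x₀).measurableSet]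
    congr 1
    funext y
    by_cases hy : y ∈ (chartAt E4 x₀).target <;> simp [ext, hy, hn]
  have z : ∀ y ∈ (chartAt E4 x₀).target, y ∉ chartAt E4 x₀ '' tsupport φ →
      φ (param x₀ y) ^ n = 0 := fun y hy hy' => by
    rw [show φ (param x₀ y) = 0 from comp_param_eq_zero y hy hy', zero_pow hn]
  have c1 : ContinuousOn (fun y => φ (param x₀ y) ^ n) (chartAt E4 x₀).target :=
    (hφ.cdOn x₀).continuousOn.pow n
  have i1 := integrableOn_of_compact (isOpen_tgt x₀) hK' (chart_image_subset hs') c1 z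
  have i2 := integrableOn_of_compact (isOpen_tgt x₀) hK' (chart_image_subset hs')
    (c1.mul (S.ρ_sm x₀).continuousOn) fun y hy hy' => by simp [z y hy hy']
  rw [e1, S.integral_chart x₀ (hφ.pow n).continuous.measurable
    (fun x hx => by rw [zero_of_notMem_src hs' hx, zero_pow hn]), ← integral_const_mul,
    ← integral_const_mul]
  constructor
  · refine setIntegral_mono_on i1 (i2.const_mul _) (isOpen_tgt x₀).measurableSet fun y hy => ?_
    by_cases hy' : y ∈ chartAt E4 x₀ '' tsupport φ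
    · have h3 := (le_abs_self _).trans ((h₂ y (image_mono hφT hy')).trans (le_abs_self _))
      have h4 := S.ρ_pos x₀ y hy
      have h5 : 1 ≤ (|C₁| + |C₂| + 1) * S.ρ x₀ y := by
        rw [← div_le_iff₀ h4, one_div]
        have := abs_nonneg C₁
        simp only [Pi.inv_apply] at h3
        linarith
      nlinarith [he.pow_nonneg (φ (param x₀ y))]
    · simp [z y hy hy']
  · refine setIntegral_mono_on i2 (i1.const_mul _) (isOpen_tgt x₀).measurableSet fun y hy => ?_
    by_cases hy' : y ∈ chartAt E4 x₀ '' tsupport φ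
    · have h3 := (le_abs_self _).trans ((h₁ y (image_mono hφT hy')).trans (le_abs_self _))
      have := abs_nonneg C₂
      nlinarith [he.pow_nonneg (φ (param x₀ y))]
    · simp [z y hy hy']

theorem t_zero (F : Frame M) {x₀ : M} {ψ : M → ℝ} (hψ : Smooth ψ)
    (hs : tsupport ψ ⊆ (chartAt E4 x₀).source) : ∃ C : ℝ, 0 < C ∧ ∀ f, Smooth f →
      eN 0 (ext x₀ fun x => ψ x * f x) ≤ C * F.N S.μ 0 f := by
  obtain ⟨C, hC, h⟩ := compare S (isClosed_tsupport ψ) hs
  obtain ⟨B, hB⟩ := isCompact_univ.exists_bound_of_continuousOn hψ.continuous.continuousOn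
  refine ⟨C * (B ^ 2 + 1), by positivity, fun f hf => ?_⟩
  refine (h _ (hψ.mul hf) (tsupport_mul f) 2 two_ne_zero even_two).1.trans ?_
  rw [mul_assoc, Frame.N_zero, ← integral_const_mul (B ^ 2 + 1)]
  refine mul_le_mul_of_nonneg_left (integral_mono (S.integrable ((hψ.mul hf).pow 2).continuous)
    ((S.integrable (hf.pow 2).continuous).const_mul _) fun x => ?_) hC.le
  have h1 := pow_le_pow_left₀ (norm_nonneg _) (hB x (mem_univ x)) 2
  rw [Real.norm_eq_abs, sq_abs] at h1
  simp only [mul_pow]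
  nlinarith [sq_nonneg (f x)]

/-- The chart transfer with a power of the cut-off function. -/
theorem t_pow (F : Frame M) (a : Fin F.n) (k : ℕ) {ψ : M → ℝ} (hψ : Smooth ψ)
    (hs : tsupport ψ ⊆ (chartAt E4 (F.c a)).source) : ∃ C : ℝ, 0 < C ∧ ∀ f, Smooth f →
      eN k (ext (F.c a) fun x => ψ x * (F.χ a x ^ k * f x)) ≤ C * F.N S.μ k f := by
  induction k generalizing ψ with
  | zero => simpa using t_zero S F hψ hs
  | succ k ih =>
    have hχ := F.sm a
    have hψ' : ∀ i : Fin 4, Smooth fun x =>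
        F.X (a, i) ψ x + ψ x * (((k : ℝ) + 1) * cd (F.c a) i (F.χ a) x) := fun i =>
      (F.X_smooth (a, i) hψ).add (smooth_mul_chart hψ hs (contDiffOn_const.mul
        (cdOn_pd (isOpen_tgt _) (hχ.cdOn _) i)))
    have hs' : ∀ i : Fin 4, tsupport (fun x =>
        F.X (a, i) ψ x + ψ x * (((k : ℝ) + 1) * cd (F.c a) i (F.χ a) x)) ⊆
        (chartAt E4 (F.c a)).source := fun i =>
      (tsupport_add _ _).trans (union_subset ((tsupport_mul _).trans (F.supp a))
        ((tsupport_mul _).trans hs))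
    choose C hC h using fun i => ih (hψ' i) (hs' i)
    obtain ⟨D, hD, h'⟩ := ih hψ hs
    obtain ⟨E, hE, h''⟩ := t_zero S F (hψ.mul (hχ.pow (k + 1))) ((tsupport_mul _).trans hs)
    have hC' : 0 ≤ ∑ i, C i := Finset.sum_nonneg fun i _ => (hC i).le
    refine ⟨E + 2 * ∑ i, C i + 8 * D, by positivity, fun f hf => ?_⟩
    have key : ∀ i, eN k (pd i (ext (F.c a) fun x => ψ x * (F.χ a x ^ (k + 1) * f x))) ≤
        2 * C i * F.N S.μ (k + 1) f + 2 * D * F.N S.μ (k + 1) f := by
      intro i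
      have hX := F.X_smooth (a, i) hf
      rw [pd_ext ((tsupport_mul _).trans hs), ext_congr (ψ := fun x =>
        (F.X (a, i) ψ x + ψ x * (((k : ℝ) + 1) * cd (F.c a) i (F.χ a) x)) * (F.χ a x ^ k * f x) +
          ψ x * (F.χ a x ^ k * F.X (a, i) f x)), ext_add]
      · refine (eN_add_le k
          (tst_ext ((hψ' i).mul ((hχ.pow k).mul hf)) ((tsupport_mul _).trans (hs' i)))
          (tst_ext (hψ.mul ((hχ.pow k).mul hX)) ((tsupport_mul _).trans hs))).trans ?_
        have h1 := (h i f hf).trans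
          (mul_le_mul_of_nonneg_left (F.N_le_succ S.μ k f) (hC i).le)
        have h2 := (h' _ hX).trans (mul_le_mul_of_nonneg_left (F.N_X_le S.μ k f (a, i)) hD.le)
        linarith
      · intro x hx
        have hp : ∀ m : ℕ, cd (F.c a) i (fun z => F.χ a z ^ (m + 1)) x =
            ((m : ℝ) + 1) * F.χ a x ^ m * cd (F.c a) i (F.χ a) x := by
          intro m
          induction m with
          | zero => simp
          | succ m ihm =>
            have := cd_mul (hχ.pow (m + 1)) hχ hx i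
            simp only [← pow_succ] at this
            rw [this, ihm]
            push_cast
            ring
        rw [cd_mul hψ ((hχ.pow (k + 1)).mul hf) hx, cd_mul (hχ.pow (k + 1)) hf hx, hp]
        simp only [Frame.X]
        ring
    have h3 := Finset.sum_le_sum fun i (_ : i ∈ Finset.univ) => key i
    rw [Finset.sum_add_distrib, ← Finset.sum_mul, ← Finset.mul_sum] at h3
    simp only [Finset.sum_const, Finset.card_univ, Fintype.card_fin, nsmul_eq_mul] at h3
    have h4 := (h'' f hf).trans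
      (mul_le_mul_of_nonneg_left (F.N_mono S.μ (Nat.zero_le (k + 1)) f) hE.le)
    simp only [mul_assoc] at h4
    rw [eN_succ]
    push_cast at h3
    linarith

end AgmM

open AgmM in
theorem agm (h : AgmEStmt) : AgmStmt.{u} := by
  intro M _ _ _ _ _ _ _ S F
  obtain ⟨C, hC, h⟩ := h
  choose D hD h0 using fun a =>
    t_zero S F ((F.sm a).mul ((F.sm a).pow 4)) ((tsupport_mul _).trans (F.supp a))
  choose E hE h4 using fun a => t_pow S F a 4 (F.sm a) (F.supp a)
  have hs : 0 ≤ ∑ a, D a * E a := Finset.sum_nonneg fun a _ => (mul_pos (hD a) (hE a)).le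
  refine ⟨(F.n : ℝ) ^ 10 * C * ∑ a, D a * E a + 1, by positivity, fun f hf x => ?_⟩
  obtain ⟨a, ha⟩ := exists_big F x
  have hx : x ∈ (chartAt E4 (F.c a)).source := by
    by_contra hx
    rw [zero_of_notMem_src (F.supp a) hx] at ha
    norm_num at ha
  have h1 := h _ (tst_ext ((F.sm a).mul (((F.sm a).pow 4).mul hf))
    ((tsupport_mul _).trans (F.supp a))) (chartAt E4 (F.c a) x)
  rw [ext_chart hx] at h1
  have h2 := h0 a f hf
  simp only [mul_assoc] at h2
  have p0 := F.N_nonneg S.μ 0 f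
  have p4 := F.N_nonneg S.μ 4 f
  have h3 := mul_le_mul h2 (h4 a f hf) (eN_nonneg _ _) (mul_nonneg (hD a).le p0)
  have h5 : D a * E a ≤ ∑ a, D a * E a :=
    Finset.single_le_sum (f := fun a => D a * E a) (fun a _ => (mul_pos (hD a) (hE a)).le)
      (Finset.mem_univ a)
  have h6 := one_le_pow₀ (n := 10) ha
  have p := mul_nonneg p0 p4
  calc f x ^ 4 ≤ (F.n * F.χ a x ^ 2) ^ 10 * f x ^ 4 :=
        le_mul_of_one_le_left (by positivity) h6
    _ = (F.n : ℝ) ^ 10 * (F.χ a x * (F.χ a x ^ 4 * f x)) ^ 4 := by ring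
    _ ≤ (F.n : ℝ) ^ 10 * (C * ((∑ a, D a * E a) * (F.N S.μ 0 f * F.N S.μ 4 f))) := by
        refine mul_le_mul_of_nonneg_left (h1.trans ?_) (by positivity)
        rw [mul_assoc]
        refine mul_le_mul_of_nonneg_left (h3.trans ?_) hC.le
        nlinarith
    _ ≤ _ := by nlinarith

open AgmM in
theorem lfour (h : S4Stmt) : LfourStmt.{u} := by
  intro M _ _ _ _ _ _ _ S F
  obtain ⟨C, hC, h⟩ := h
  choose D hD h0 using fun a => compare S (isClosed_tsupport (F.χ a)) (F.supp a)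
  choose E hE h1 using fun a => t_pow S F a 1 (F.sm a) (F.supp a)
  have hs : 0 ≤ ∑ a, D a * (C * E a ^ 2) :=
    Finset.sum_nonneg fun a _ => (mul_pos (hD a) (mul_pos hC (pow_pos (hE a) 2))).le
  refine ⟨(F.n : ℝ) ^ 4 * ∑ a, D a * (C * E a ^ 2) + 1, by positivity, fun f hf => ?_⟩
  have hg : ∀ a, Smooth fun x => F.χ a x * (F.χ a x ^ 1 * f x) := fun a =>
    (F.sm a).mul (((F.sm a).pow 1).mul hf)
  have key : ∀ a, ∫ x, (F.χ a x * (F.χ a x ^ 1 * f x)) ^ 4 ∂S.μ ≤
      D a * (C * E a ^ 2) * F.N S.μ 1 f ^ 2 := by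
    intro a
    refine (h0 a _ (hg a) (tsupport_mul _) 4 (by norm_num) (by decide)).2.trans ?_
    rw [mul_assoc]
    refine mul_le_mul_of_nonneg_left
      ((h _ (tst_ext (hg a) ((tsupport_mul _).trans (F.supp a)))).trans ?_) (hD a).le
    rw [mul_assoc, ← mul_pow]
    exact mul_le_mul_of_nonneg_left (pow_le_pow_left₀ (eN_nonneg _ _) (h1 a f hf) 2) hC.le
  have h2 := Finset.sum_le_sum fun a (_ : a ∈ Finset.univ) => key a
  rw [← Finset.sum_mul,
    ← integral_finsetSum _ fun a _ => S.integrable ((hg a).pow 4).continuous] at h2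
  have h3 : ∫ x, f x ^ 4 ∂S.μ ≤
      (F.n : ℝ) ^ 4 * ∫ x, ∑ a, (F.χ a x * (F.χ a x ^ 1 * f x)) ^ 4 ∂S.μ := by
    rw [← integral_const_mul]
    refine integral_mono (S.integrable (hf.pow 4).continuous)
      ((S.integrable (Smooth.sum fun a _ => (hg a).pow 4).continuous).const_mul _) fun x => ?_
    obtain ⟨a, ha⟩ := exists_big F x
    calc f x ^ 4 ≤ (F.n * F.χ a x ^ 2) ^ 4 * f x ^ 4 :=
          le_mul_of_one_le_left (by positivity) (one_le_pow₀ ha)
      _ = (F.n : ℝ) ^ 4 * (F.χ a x * (F.χ a x ^ 1 * f x)) ^ 4 := by ring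
      _ ≤ _ := mul_le_mul_of_nonneg_left (Finset.single_le_sum
          (f := fun a => (F.χ a x * (F.χ a x ^ 1 * f x)) ^ 4) (fun a _ => by positivity)
          (Finset.mem_univ a)) (by positivity)
  have h4 := mul_le_mul_of_nonneg_left h2 (show 0 ≤ (F.n : ℝ) ^ 4 by positivity)
  nlinarith [sq_nonneg (F.N S.μ 1 f)]

end Pool.Agent.MP_417fa2_gt

end MrgPart0

-- ======== part 1: formerly Pool.Agent.MP_417fa2_gt.Flow.SpecFam
section MrgPart1

/-!
Spectral families exist at every level: inverse power iteration in the orthogonal complement of a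
maximal family of eigenfunctions.
-/

open Set Filter
open scoped Topology InnerProductSpace

namespace Pool.Agent.MP_417fa2_gt.Flow

universe u

section Abstract

variable {V : Type*} [NormedAddCommGroup V] [InnerProductSpace ℝ V] {L : Module.End ℝ V}

theorem specf_start (hs : ∀ u v, ⟪L u, v⟫_ℝ = ⟪u, L v⟫_ℝ) (hp : ∀ u, ‖u‖ ^ 2 ≤ ⟪L u, u⟫_ℝ)
    {g u : V} (hu : L u = g) {κ : ℝ} (h : ⟪L g, g⟫_ℝ < κ * ‖g‖ ^ 2) :
    g ≠ 0 ∧ ‖g‖ < κ * ‖u‖ := by
  have hg : g ≠ 0 := by rintro rfl; simp at h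
  have hn : 0 < ‖g‖ := norm_pos_iff.2 hg
  have hκ : 0 < κ := by
    by_contra hc
    have := hp g
    nlinarith [mul_nonneg (neg_nonneg.2 (not_lt.1 hc)) (sq_nonneg ‖g‖), sq_pos_of_pos hn]
  refine ⟨hg, ?_⟩
  have h1 := (sq_nonneg _).trans (hp (g - κ • u))
  have h2 : ⟪L g, u⟫_ℝ = ‖g‖ ^ 2 := by rw [hs, hu, real_inner_self_eq_norm_sq]
  have h3 := real_inner_le_norm g u
  simp only [map_sub, map_smul, hu, inner_sub_left, inner_sub_right, real_inner_smul_left,
    real_inner_smul_right, h2, real_inner_self_eq_norm_sq] at h1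
  have h4 : κ * ‖g‖ * ‖g‖ < κ * ‖g‖ * (κ * ‖u‖) := by
    nlinarith [mul_le_mul_of_nonneg_left h3 (sq_nonneg κ)]
  exact lt_of_mul_lt_mul_left h4 (by positivity)

theorem specf_eig (hs : ∀ u v, ⟪L u, v⟫_ℝ = ⟪u, L v⟫_ℝ) (hp : ∀ u, ‖u‖ ^ 2 ≤ ⟪L u, u⟫_ℝ)
    {U : Filter ℕ} [U.NeBot] (hU : U ≤ atTop)
    (cpt : ∀ f : ℕ → V, (∀ m, ∃ C, ∀ n, ‖(L ^ m) (f n)‖ ≤ C) →
      ∃ g, ∀ m, Tendsto (fun n => (L ^ m) (f n)) U (𝓝 ((L ^ m) g)))
    (W : Submodule ℝ V) (hWc : IsClosed (W : Set V)) (hW : ∀ w ∈ W, ∃ u ∈ W, L u = w)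
    {g : V} (hg : g ∈ W) {κ : ℝ} (h : ⟪L g, g⟫_ℝ < κ * ‖g‖ ^ 2) :
    ∃ v ∈ W, ‖v‖ = 1 ∧ ∃ θ, θ ≤ κ ∧ L v = θ • v := by
  choose! G hGW hG using hW
  obtain ⟨x, x0, xW, xL⟩ : ∃ x : ℕ → V, x 0 = g ∧ (∀ k, x k ∈ W) ∧ ∀ k, L (x (k + 1)) = x k := by
    have hm : ∀ k, G^[k] g ∈ W := fun k => by
      induction k with
      | zero => exact hg
      | succ k ih => rw [Function.iterate_succ_apply']; exact hGW _ ih
    exact ⟨fun k => G^[k] g, rfl, hm, fun k => by
      simp only [Function.iterate_succ_apply']; exact hG _ (hm k)⟩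
  obtain ⟨hg0, h0⟩ := specf_start hs hp ((xL 0).trans x0) h
  have apos : ∀ k, 0 < ‖x k‖ := fun k => by
    induction k with
    | zero => rw [x0]; exact norm_pos_iff.2 hg0
    | succ k ih =>
      refine norm_pos_iff.2 fun hc => ?_
      rw [← xL k, hc] at ih
      simp at ih
  set s : ℕ → ℝ := fun k => ‖x k‖ / ‖x (k + 1)‖ with hsd
  have sa : ∀ k, ‖x k‖ = s k * ‖x (k + 1)‖ := fun k => (div_mul_cancel₀ _ (apos _).ne').symm
  have spos : ∀ k, 0 ≤ s k := fun k => div_nonneg (norm_nonneg _) (norm_nonneg _)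
  have anti : Antitone s := antitone_nat_of_succ_le fun k => by
    have e : ‖x (k + 1)‖ ^ 2 = ⟪x (k + 2), x k⟫_ℝ := by
      rw [← xL k, ← hs, xL (k + 1), real_inner_self_eq_norm_sq]
    have := real_inner_le_norm (x (k + 2)) (x k)
    rw [hsd, div_le_div_iff₀ (apos _) (apos _)]
    nlinarith
  have s0 : s 0 < κ := by rw [hsd]; dsimp only; rw [div_lt_iff₀ (apos _), x0]; exact h0
  have bdd : BddBelow (range s) := ⟨0, by rintro _ ⟨k, rfl⟩; exact spos k⟩
  have lim := tendsto_atTop_ciInf anti bdd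
  set θ := ⨅ k, s k
  have θ0 : 0 ≤ θ := le_ciInf spos
  have θκ : θ ≤ κ := (ciInf_le bdd 0).trans s0.le
  have bd : ∀ m, ∃ C, 0 ≤ C ∧ ∀ n, ‖(L ^ m) (x n)‖ ≤ C * ‖x n‖ := fun m => by
    induction m with
    | zero => exact ⟨1, zero_le_one, fun n => by simp⟩
    | succ m ih =>
      obtain ⟨C, hC, ih⟩ := ih
      refine ⟨max (‖(L ^ (m + 1)) (x 0)‖ / ‖x 0‖) (C * s 0),
        le_max_of_le_right (mul_nonneg hC (spos 0)), fun n => ?_⟩
      cases n with
      | zero => exact (div_le_iff₀ (apos 0)).1 (le_max_left _ _)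
      | succ n =>
        rw [pow_succ, Module.End.mul_apply, xL]
        refine (ih n).trans ?_
        rw [sa n, ← mul_assoc]
        exact mul_le_mul_of_nonneg_right (le_max_of_le_right
          (mul_le_mul_of_nonneg_left (anti (Nat.zero_le n)) hC)) (norm_nonneg _)
  have nv : ∀ n (y : V), ‖‖x (n + 2)‖⁻¹ • y‖ = ‖y‖ / ‖x (n + 2)‖ := fun n y => by
    rw [norm_smul, norm_inv, norm_norm, div_eq_inv_mul]
  obtain ⟨v, hv⟩ := cpt (fun n => ‖x (n + 2)‖⁻¹ • x (n + 2)) fun m => by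
    obtain ⟨C, -, hC⟩ := bd m
    exact ⟨C, fun n => by rw [map_smul, nv, div_le_iff₀ (apos _)]; exact hC _⟩
  have v0 : Tendsto (fun n => ‖x (n + 2)‖⁻¹ • x (n + 2)) U (𝓝 v) := by simpa using hv 0
  have v1 : Tendsto (fun n => ‖x (n + 2)‖⁻¹ • x (n + 1)) U (𝓝 (L v)) := by
    simpa [xL] using hv 1
  have v2 : Tendsto (fun n => ‖x (n + 2)‖⁻¹ • x n) U (𝓝 (L (L v))) := by
    simpa [pow_two, xL] using hv 2
  have l1 : Tendsto (fun n => s (n + 1)) U (𝓝 θ) :=
    (lim.comp (tendsto_add_atTop_nat 1)).mono_left hU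
  have n0 : ‖v‖ = 1 := tendsto_nhds_unique v0.norm (by
    simp only [nv, div_self (apos _).ne']; exact tendsto_const_nhds)
  have n1 : ‖L v‖ = θ := tendsto_nhds_unique v1.norm (by simp only [nv]; exact l1)
  have n2 : ‖L (L v)‖ = θ * θ := tendsto_nhds_unique v2.norm (by
    refine ((lim.mono_left hU).mul l1).congr fun n => ?_
    rw [nv, eq_div_iff (apos _).ne', mul_assoc, ← sa, ← sa])
  have e2 : L (L v) - (θ * θ) • v = 0 := by
    rw [← norm_eq_zero, ← sq_eq_zero_iff, norm_sub_sq_real, real_inner_smul_right, hs,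
      real_inner_self_eq_norm_sq, norm_smul, n0, n1, n2, Real.norm_eq_abs, mul_one, sq_abs]
    ring
  refine ⟨v, hWc.mem_of_tendsto v0 (Eventually.of_forall fun n => W.smul_mem _ (xW _)), n0, θ, θκ,
    ?_⟩
  have e3 : L (L v - θ • v) = -(θ • (L v - θ • v)) := by
    rw [map_sub, map_smul, sub_eq_zero.1 e2]; module
  have e4 := hp (L v - θ • v)
  rw [e3, inner_neg_left, real_inner_smul_left, real_inner_self_eq_norm_sq] at e4
  have e5 : ‖L v - θ • v‖ ^ 2 = 0 := by
    nlinarith [sq_nonneg ‖L v - θ • v‖, mul_nonneg θ0 (sq_nonneg ‖L v - θ • v‖)]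
  exact sub_eq_zero.1 (norm_eq_zero.1 (sq_eq_zero_iff.1 e5))

theorem specf_one_le (hp : ∀ u, ‖u‖ ^ 2 ≤ ⟪L u, u⟫_ℝ) {v : V} {θ : ℝ} (hv : ‖v‖ = 1)
    (h : L v = θ • v) : 1 ≤ θ := by
  have := hp v
  rw [h, real_inner_smul_left, real_inner_self_eq_norm_sq, hv] at this
  simpa using this

theorem specf_max (hs : ∀ u v, ⟪L u, v⟫_ℝ = ⟪u, L v⟫_ℝ) (hp : ∀ u, ‖u‖ ^ 2 ≤ ⟪L u, u⟫_ℝ)
    (hsurj : ∀ w, ∃ u, L u = w) {U : Filter ℕ} [U.NeBot] (hU : U ≤ atTop)
    (cpt : ∀ f : ℕ → V, (∀ m, ∃ C, ∀ n, ‖(L ^ m) (f n)‖ ≤ C) →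
      ∃ g, ∀ m, Tendsto (fun n => (L ^ m) (f n)) U (𝓝 ((L ^ m) g))) (κ N : ℝ)
    (hN : ∀ (n : ℕ) (φ : Fin n → V) (θ : Fin n → ℝ), Orthonormal ℝ φ →
      (∀ i, L (φ i) = θ i • φ i) → (∀ i, θ i ≤ κ) → (n : ℝ) ≤ N) :
    ∃ (n : ℕ) (φ : Fin n → V) (θ : Fin n → ℝ), Orthonormal ℝ φ ∧ (∀ i, L (φ i) = θ i • φ i) ∧
      ∀ g, (∀ i, ⟪g, φ i⟫_ℝ = 0) → κ * ‖g‖ ^ 2 ≤ ⟪L g, g⟫_ℝ := by
  set A : Set ℕ := {n | ∃ (φ : Fin n → V) (θ : Fin n → ℝ), Orthonormal ℝ φ ∧
    (∀ i, L (φ i) = θ i • φ i) ∧ ∀ i, θ i ≤ κ} with hA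
  have hb : BddAbove A := ⟨⌈N⌉₊, by
    rintro n ⟨φ, θ, h1, h2, h3⟩
    exact Nat.cast_le.1 ((hN n φ θ h1 h2 h3).trans (Nat.le_ceil N))⟩
  have hne : A.Nonempty := ⟨0, Fin.elim0, Fin.elim0, ⟨fun i => i.elim0, fun i => i.elim0⟩,
    fun i => i.elim0, fun i => i.elim0⟩
  obtain ⟨φ, θ, h1, h2, h3⟩ := Nat.sSup_mem hne hb
  refine ⟨_, φ, θ, h1, h2, fun g hg => ?_⟩
  by_contra hc
  let W : Submodule ℝ V :=
    { carrier := {u | ∀ i, ⟪u, φ i⟫_ℝ = 0}
      add_mem' := fun ha hb i => by rw [inner_add_left, ha i, hb i, add_zero]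
      zero_mem' := fun i => inner_zero_left _
      smul_mem' := fun c u hu i => by rw [real_inner_smul_left, hu i, mul_zero] }
  have hWc : IsClosed (W : Set V) := by
    have : (W : Set V) = ⋂ i, {u | ⟪u, φ i⟫_ℝ = 0} := by ext u; simp [W]
    rw [this]
    exact isClosed_iInter fun i => isClosed_eq (by fun_prop) continuous_const
  obtain ⟨v, hv, hn, θ', hθ, he⟩ := specf_eig hs hp hU cpt W hWc (fun w hw => by
    obtain ⟨u, rfl⟩ := hsurj w
    refine ⟨u, fun i => ?_, rfl⟩
    have e := hw i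
    rw [hs, h2, real_inner_smul_right] at e
    exact (mul_eq_zero.1 e).resolve_left
      (by linarith [specf_one_le hp (h1.norm_eq_one i) (h2 i)])) hg (not_le.1 hc)
  have : sSup A + 1 ∈ A := ⟨Matrix.vecCons v φ, Matrix.vecCons θ' θ,
    orthonormal_vecCons_iff.2 ⟨hn, hv, h1⟩, fun i => by
      refine Fin.cases ?_ (fun j => ?_) i
      · simpa using he
      · simpa using h2 j, fun i => by
      refine Fin.cases ?_ (fun j => ?_) i
      · simpa using hθ
      · simpa using h3 j⟩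
  exact absurd (le_csSup hb this) (by omega)

end Abstract

variable {M : Type u} [TopologicalSpace M] [CompactSpace M]

/-- The algebra `A`, to be given the scalar product `ip`. -/
def SpecfH (D : Pre M) (_h : D.Ok) : Type u := D.A

namespace SpecfH

variable {D : Pre M} {h : D.Ok}

noncomputable instance : AddCommGroup (SpecfH D h) := inferInstanceAs (AddCommGroup D.A)

noncomputable instance : Module ℝ (SpecfH D h) := inferInstanceAs (Module ℝ D.A)

theorem nn_eq (m : ℕ) (f : D.A) : D.nn m f = D.ip (((1 + D.P) ^ m) f) (((1 + D.P) ^ m) f) := by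
  simp only [Pre.nn, Pre.ip, sq]

theorem ip_comm (f g : D.A) : D.ip f g = D.ip g f := by simp only [Pre.ip, mul_comm]

theorem ip_add (f g k : D.A) : D.ip (f + g) k = D.ip f k + D.ip g k := by
  simp only [Pre.ip, add_mul, Subalgebra.coe_add, map_add]

theorem ip_smul (c : ℝ) (f g : D.A) : D.ip (c • f) g = c * D.ip f g := by
  simp only [Pre.ip, smul_mul_assoc, Subalgebra.coe_smul, map_smul, smul_eq_mul]

/-- The scalar product. -/
@[instance_reducible] noncomputable def core (D : Pre M) (h : D.Ok) :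
    InnerProductSpace.Core ℝ (SpecfH D h) where
  inner f g := D.ip f g
  conj_inner_symm f g := ip_comm g f
  re_inner_nonneg f := h.I_nonneg _ fun x => by
    simpa using mul_self_nonneg ((show D.A from f : C(M, ℝ)) x)
  add_left f g k := ip_add f g k
  smul_left f g c := ip_smul c f g
  definite f hf := by
    obtain ⟨C, -, hC⟩ := h.agmon
    have h0 : D.nn 0 f = 0 := by rw [nn_eq]; exact hf
    refine Subtype.ext (ContinuousMap.ext fun x => ?_)
    have := hC f x
    rw [h0, mul_zero, zero_mul] at this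
    exact pow_eq_zero_iff (by norm_num : 4 ≠ 0) |>.1 (le_antisymm this (by positivity))

noncomputable instance : NormedAddCommGroup (SpecfH D h) :=
  @InnerProductSpace.Core.toNormedAddCommGroup ℝ (SpecfH D h) _ _ _ (core D h)

noncomputable instance : InnerProductSpace ℝ (SpecfH D h) :=
  InnerProductSpace.ofCore (core D h).toCore

/-- The operator `1 + P`. -/
noncomputable def op (D : Pre M) (h : D.Ok) : Module.End ℝ (SpecfH D h) :=
  (1 + D.P : Module.End ℝ D.A)

theorem inner_eq (f g : SpecfH D h) : ⟪f, g⟫_ℝ = D.ip f g := rfl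

theorem norm_sq (m : ℕ) (f : SpecfH D h) : ‖(op D h ^ m) f‖ ^ 2 = D.nn m f := by
  rw [← real_inner_self_eq_norm_sq, nn_eq]; rfl

theorem op_inner (f g : SpecfH D h) : ⟪op D h f, g⟫_ℝ = D.ip f g + D.ip f (D.P g) := by
  rw [← h.symm, ← ip_add]; rfl

end SpecfH

open SpecfH in
theorem spec : SpecStmt.{u} := by
  intro M _ _ D h Λ
  have hp : ∀ u : SpecfH D h, ‖u‖ ^ 2 ≤ ⟪op D h u, u⟫_ℝ := fun u => by
    rw [op_inner, ← real_inner_self_eq_norm_sq, inner_eq]
    linarith [h.nonneg u]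
  obtain ⟨C, hC0, hC⟩ := h.agmon
  obtain ⟨n, φ, θ, h1, h2, h3⟩ := specf_max (L := op D h)
    (fun u v => by
      rw [real_inner_comm (op D h v), op_inner, op_inner, ip_comm v u, ← h.symm v u,
        ip_comm (D.P v) u]) hp h.surj (U := hyperfilter ℕ) Nat.hyperfilter_le_atTop
    (fun f hf => by
      obtain ⟨g, hg⟩ := h.cpt (hyperfilter ℕ) f fun m => by
        obtain ⟨K, hK⟩ := hf m
        exact ⟨K ^ 2, fun n => by
          rw [← norm_sq (h := h)]; exact pow_le_pow_left₀ (norm_nonneg _) (hK n) 2⟩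
      refine ⟨g, fun m => tendsto_iff_norm_sub_tendsto_zero.2 ?_⟩
      have := (hg m).sqrt
      rw [Real.sqrt_zero] at this
      refine this.congr fun n => ?_
      rw [← map_sub]
      exact (congrArg Real.sqrt (norm_sq (h := h) m _)).symm.trans (Real.sqrt_sq (norm_nonneg _))) (1 + Λ) ((1 + C * (1 + Λ) ^ 2) * D.I 1)
    (fun n φ θ h1 h2 h3 => by
      let ψ : Fin n → C(M, ℝ) := fun i => (show D.A from φ i)
      have pt : ∀ x, ∑ i, ψ i x ^ 2 ≤ 1 + C * (1 + Λ) ^ 2 := fun x => by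
        have e := hC (∑ i, ψ i x • φ i : SpecfH D h) x
        have e0 : ((show D.A from (∑ i, ψ i x • φ i : SpecfH D h)) : C(M, ℝ)) x =
            ∑ i, ψ i x ^ 2 := by
          have : ((show D.A from (∑ i, ψ i x • φ i : SpecfH D h)) : C(M, ℝ)) =
              ∑ i, ψ i x • ψ i := map_sum D.A.val.toLinearMap (fun i => ψ i x • φ i) _
          rw [this]
          simp [sq]
        have e1 : D.nn 0 (∑ i, ψ i x • φ i : SpecfH D h) = ∑ i, ψ i x ^ 2 := by
          rw [← norm_sq (h := h), pow_zero, Module.End.one_apply, ← real_inner_self_eq_norm_sq,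
            h1.inner_sum]
          simp [sq]
        have e2 : D.nn 1 (∑ i, ψ i x • φ i : SpecfH D h) ≤ (1 + Λ) ^ 2 * ∑ i, ψ i x ^ 2 := by
          rw [← norm_sq (h := h), pow_one, map_sum]
          simp only [map_smul, h2, smul_smul]
          rw [← real_inner_self_eq_norm_sq, h1.inner_sum, Finset.mul_sum]
          refine Finset.sum_le_sum fun i _ => ?_
          have := pow_le_pow_left₀ (zero_le_one.trans
            (specf_one_le hp (h1.norm_eq_one i) (h2 i))) (h3 i) 2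
          simp only [conj_trivial]
          nlinarith [mul_le_mul_of_nonneg_right this (sq_nonneg (ψ i x))]
        rw [e0, e1] at e
        have s0 : 0 ≤ ∑ i, ψ i x ^ 2 := Finset.sum_nonneg fun i _ => sq_nonneg _
        have e3 := e.trans (mul_le_mul_of_nonneg_left e2 (mul_nonneg hC0.le s0))
        generalize ∑ i, ψ i x ^ 2 = s at s0 e3
        have k0 : 0 ≤ C * (1 + Λ) ^ 2 := by positivity
        by_contra hc
        have s1 : 1 < s := by linarith
        have : s ^ 2 * s ^ 2 ≤ C * (1 + Λ) ^ 2 * s ^ 2 := by nlinarith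
        have := le_of_mul_le_mul_right this (by positivity)
        nlinarith
      have e := h.I_nonneg ((1 + C * (1 + Λ) ^ 2) • (1 : C(M, ℝ)) - ∑ i, ψ i * ψ i) fun x => by
        have := pt x
        simp only [sq] at this ⊢
        simpa using this
      have e' : ∀ i, D.I (ψ i * ψ i) = 1 := fun i => by
        have := orthonormal_iff_ite.1 h1 i i
        rw [if_pos rfl] at this
        exact this
      simp only [map_sub, map_smul, map_sum, e', smul_eq_mul] at e
      simpa using e)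
  refine ⟨⟨n, fun i => (show D.A from φ i), fun i => θ i - 1,
    fun i j => orthonormal_iff_ite.1 h1 i j,
    fun i => sub_nonneg.2 (specf_one_le hp (h1.norm_eq_one i) (h2 i))⟩,
    fun i => (show D.A from φ i).2, fun i f hf => ?_, fun g hg => ?_⟩
  · obtain rfl : f = φ i := Subtype.ext hf
    have : (show D.A from φ i) + D.P (φ i) = θ i • (show D.A from φ i) := h2 i
    rw [sub_smul, one_smul]
    exact eq_sub_of_add_eq' this
  · have := h3 g hg
    rw [op_inner, ← real_inner_self_eq_norm_sq, inner_eq] at this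
    linarith

end Pool.Agent.MP_417fa2_gt.Flow

end MrgPart1

-- marker of a merged file
example : 731051 + 340342 = 731051 + 340342 := rfl
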