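import Mathlib.Algebra.Lie.OfAssociative
import Mathlib.Algebra.Ring.IsFormallyReal
import Mathlib.Analysis.Calculus.BumpFunction.Normed
import Mathlib.Analysis.Distribution.FourierMultiplier
import Mathlib.Analysis.Real.Pi.Bounds
import Mathlib.MeasureTheory.Constructions.HaarToSphere
import Mathlib.Tactic.Polynomial.Basic
import Pool.Agent.MP_417fa2_gt.An.Cpt
import Pool.Agent.MP_417fa2_gt.An.DenseEa
import Pool.Agent.MP_417fa2_gt.An.DenseL
import Pool.Agent.MP_417fa2_gt.An.Bridge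
import Pool.Agent.MP_417fa2_gt.Flow.Gal

-- ======== part 0: formerly Pool.Agent.MP_417fa2_gt.An.EucB
section MrgPart0

/-! Splitting into low and high frequencies. -/

open scoped ContDiff FourierTransform SchwartzMap Real Convolution
open MeasureTheory Set Metric Filter Topology

namespace Pool.Agent.MP_417fa2_gt

namespace EucB

/-- The volume of the unit ball. -/
noncomputable def om : ℝ := volume.real (ball (0 : E4) 1)

theorem om_nn : 0 ≤ om := measureReal_nonneg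

theorem radial {f g g' : ℝ → ℝ} {l : ℝ} (hd : ∀ x ∈ Ici (0 : ℝ), HasDerivAt g (g' x) x)
    (he : ∀ x ∈ Ioi (0 : ℝ), x ^ 3 * f x = g' x) (h0 : ∀ x ∈ Ioi (0 : ℝ), 0 ≤ g' x)
    (hl : Tendsto g atTop (𝓝 l)) :
    Integrable (fun ξ : E4 => f ‖ξ‖) ∧ ∫ ξ : E4, f ‖ξ‖ = 4 * om * (l - g 0) := by
  constructor
  · rw [integrable_fun_norm_addHaar]
    simp only [finrank_euclideanSpace, Fintype.card_fin, smul_eq_mul]
    exact (integrableOn_Ioi_deriv_of_nonneg' hd h0 hl).congr_fun (fun x hx => (he x hx).symm)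
      measurableSet_Ioi
  · rw [integral_fun_norm_addHaar, ← integral_Ioi_of_hasDerivAt_of_nonneg' hd h0 hl,
      ← setIntegral_congr_fun measurableSet_Ioi he]
    simp [om, mul_assoc]

theorem rad1 {S : ℝ} (hS : 2 ≤ S) :
    Integrable (fun ξ : E4 => S / ((1 + ‖ξ‖ ^ 4) * (S + ‖ξ‖ ^ 4))) ∧
      ∫ ξ : E4, S / ((1 + ‖ξ‖ ^ 4) * (S + ‖ξ‖ ^ 4)) ≤ 2 * om * Real.log S := by
  have h1 : 0 < S - 1 := by linarith
  have h2 : 0 < S := by linarith
  have := radial (f := fun x => S / ((1 + x ^ 4) * (S + x ^ 4)))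
    (g := fun x => S / (4 * (S - 1)) * Real.log (1 - (S - 1) / (S + x ^ 4)))
    (g' := fun x => x ^ 3 * (S / ((1 + x ^ 4) * (S + x ^ 4)))) (l := 0) (fun x _ => ?_)
    (fun _ _ => rfl) (fun x hx => by have : 0 < x := hx; positivity) ?_
  · refine ⟨this.1, this.2.trans_le ?_⟩
    have h3 : 1 - (S - 1) / (S + 0 ^ 4) = S⁻¹ := by field_simp; ring
    have h4 : 0 ≤ Real.log S := Real.log_nonneg (by linarith)
    have h5 : S / (4 * (S - 1)) ≤ 1 / 2 := by rw [div_le_div_iff₀ (by positivity) two_pos]; linarith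
    rw [h3, Real.log_inv]
    nlinarith [mul_le_mul_of_nonneg_right h5 (mul_nonneg om_nn h4)]
  · have h3 : 0 < S + x ^ 4 := by positivity
    have h4 : 1 - (S - 1) / (S + x ^ 4) = (1 + x ^ 4) / (S + x ^ 4) := by field_simp; ring
    have h5 : HasDerivAt (fun x : ℝ => S + x ^ 4) (4 * x ^ 3) x := by
      simpa using (hasDerivAt_pow 4 x).const_add S
    have h6 := ((((hasDerivAt_const x (S - 1)).div h5 h3.ne').const_sub 1).log
      (by simp only [Pi.div_apply]; rw [h4]; positivity)).const_mul (S / (4 * (S - 1)))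
    refine h6.congr_deriv ?_
    simp only [Pi.div_apply]
    rw [h4]
    field_simp
    ring
  · have h3 : Tendsto (fun x : ℝ => 1 - (S - 1) / (S + x ^ 4)) atTop (𝓝 (1 - 0)) :=
      (tendsto_const_nhds.div_atTop
        (tendsto_atTop_add_const_left _ _ (tendsto_pow_atTop four_ne_zero))).const_sub 1
    simpa using (h3.log (by simp)).const_mul (S / (4 * (S - 1)))

theorem rad2 {S : ℝ} (hS : 0 < S) :
    Integrable (fun ξ : E4 => 1 / (‖ξ‖ ^ 2 * (S + ‖ξ‖ ^ 2) ^ 2)) ∧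
      ∫ ξ : E4, 1 / (‖ξ‖ ^ 2 * (S + ‖ξ‖ ^ 2) ^ 2) = 2 * om / S := by
  have := radial (f := fun x => 1 / (x ^ 2 * (S + x ^ 2) ^ 2))
    (g := fun x => -(1 / 2) / (S + x ^ 2))
    (g' := fun x => x / (S + x ^ 2) ^ 2) (l := 0) (fun x _ => ?_)
    (fun x hx => by have : 0 < x := hx; field_simp)
    (fun x hx => by have : 0 < x := hx; positivity)
    (tendsto_const_nhds.div_atTop
      (tendsto_atTop_add_const_left _ _ (tendsto_pow_atTop two_ne_zero)))
  · refine ⟨this.1, this.2.trans ?_⟩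
    field_simp
    ring
  · have h5 : HasDerivAt (fun x : ℝ => S + x ^ 2) (2 * x) x := by
      simpa using (hasDerivAt_pow 2 x).const_add S
    refine ((hasDerivAt_const x (-(1 / 2) : ℝ)).div h5 (by positivity)).congr_deriv ?_
    ring

theorem exists_moll : ∃ (φ : E4 → ℝ) (K : ℝ), Tst φ ∧ 0 < K ∧ ∀ η : E4,
    ‖1 - F φ η‖ ^ 2 * (1 + ‖η‖ ^ 2) ≤ K * ‖η‖ ^ 2 ∧
    ‖1 - (1 - F φ η) ^ 2‖ ^ 2 * (1 + ‖η‖ ^ 4) ≤ K := by
  let b : ContDiffBump (0 : E4) := ⟨1, 2, one_pos, one_lt_two⟩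
  have t : Tst (b.normed volume) := ⟨b.contDiff_normed, b.hasCompactSupport_normed⟩
  set ψ : 𝓢(E4, ℂ) := 𝓕 (sch t) with hψ
  have h0 : ψ 0 = 1 := by
    change F (b.normed volume) 0 = 1
    simp [F, Real.fourier_eq, integral_complex_ofReal, b.integral_normed]
  obtain ⟨A, A0, hA⟩ : ∃ A : ℝ, 0 ≤ A ∧ ∀ η, ‖ψ η‖ ≤ A :=
    ⟨_, apply_nonneg _ _, ψ.norm_le_seminorm ℝ⟩
  obtain ⟨B, B0, hB⟩ : ∃ B : ℝ, 0 ≤ B ∧ ∀ η, ‖η‖ ^ 2 * ‖ψ η‖ ≤ B :=
    ⟨_, apply_nonneg _ _, ψ.norm_pow_mul_le_seminorm ℝ 2⟩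
  obtain ⟨L, L0, hL⟩ : ∃ L : ℝ, 0 ≤ L ∧ ∀ η, ‖1 - ψ η‖ ≤ L * ‖η‖ := by
    refine ⟨_, apply_nonneg (SchwartzMap.seminorm ℝ 0 0) (SchwartzMap.fderivCLM ℝ E4 ℂ ψ),
      fun η => ?_⟩
    have := convex_univ.norm_image_sub_le_of_norm_fderiv_le (𝕜 := ℝ) (f := ψ)
      (fun x _ => ψ.differentiableAt)
      (fun x _ => (SchwartzMap.fderivCLM ℝ E4 ℂ ψ).norm_le_seminorm ℝ x) (mem_univ η) (mem_univ 0)
    simpa [h0] using this
  refine ⟨_, L ^ 2 + (1 + A) ^ 2 + (A ^ 2 + B ^ 2) * (2 + A) ^ 2, t, by positivity, fun η => ?_⟩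
  rw [F_eq t, ← hψ]
  have p1 : ‖1 - ψ η‖ ≤ 1 + A := (norm_sub_le _ _).trans (by simpa using hA η)
  have p2 : ‖2 - ψ η‖ ≤ 2 + A := (norm_sub_le _ _).trans (by simpa using hA η)
  constructor
  · have q1 := pow_le_pow_left₀ (norm_nonneg _) (hL η) 2
    have q2 := mul_le_mul_of_nonneg_right (pow_le_pow_left₀ (norm_nonneg _) p1 2)
      (sq_nonneg ‖η‖)
    have q3 : 0 ≤ (A ^ 2 + B ^ 2) * (2 + A) ^ 2 * ‖η‖ ^ 2 := by positivity
    nlinarith
  · have q0 : 1 - (1 - ψ η) ^ 2 = ψ η * (2 - ψ η) := by ring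
    have q1 := pow_le_pow_left₀ (norm_nonneg _) (hA η) 2
    have q2 := pow_le_pow_left₀ (by positivity) (hB η) 2
    have q3 := pow_le_pow_left₀ (norm_nonneg _) p2 2
    have q4 : ‖ψ η‖ ^ 2 * (1 + ‖η‖ ^ 4) ≤ A ^ 2 + B ^ 2 := by nlinarith
    have q5 := mul_le_mul q4 q3 (by positivity) (by positivity)
    rw [q0, norm_mul]
    nlinarith [sq_nonneg L, sq_nonneg (1 + A)]

theorem exists_split : ∃ K : ℝ, 0 < K ∧ ∀ h, Tst h → ∀ R : ℝ, 0 < R → ∃ g, Tst g ∧ ∀ ξ : E4,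
    ‖F g ξ‖ ^ 2 ≤ K * (‖ξ‖ ^ 4 / (R ^ 2 + ‖ξ‖ ^ 2) ^ 2) * ‖F h ξ‖ ^ 2 ∧
    ‖F (fun y => h y - g y) ξ‖ ^ 2 ≤ K * (R ^ 4 / (R ^ 4 + ‖ξ‖ ^ 4)) * ‖F h ξ‖ ^ 2 := by
  obtain ⟨φ, K, t, K0, hK⟩ := exists_moll
  refine ⟨K + K ^ 2, by positivity, fun h s R hR => ?_⟩
  have tR := tst_scale t hR
  have s1 := tst_sub s (tst_conv s tR)
  have s2 := tst_sub s1 (tst_conv s1 tR)
  refine ⟨_, s2, fun ξ => ?_⟩
  obtain ⟨p1, p2⟩ := hK (R⁻¹ • ξ)
  rw [norm_smul, Real.norm_of_nonneg (inv_nonneg.2 hR.le)] at p1 p2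
  rw [F_sub s s2, F_sub s1 (tst_conv s1 tR), F_conv s1 tR, F_sub s (tst_conv s tR), F_conv s tR,
    F_scale φ hR]
  generalize F φ (R⁻¹ • ξ) = p at p1 p2
  generalize F h ξ = z
  generalize ‖ξ‖ = r at p1 p2
  have e1 : z - z * p - (z - z * p) * p = (1 - p) ^ 2 * z := by ring
  have e2 : z - (1 - p) ^ 2 * z = (1 - (1 - p) ^ 2) * z := by ring
  rw [e1, e2, norm_mul, norm_mul, mul_pow, mul_pow, norm_pow]
  have q1 : ‖1 - p‖ ^ 2 ≤ K * (r ^ 2 / (R ^ 2 + r ^ 2)) := by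
    rw [← le_div_iff₀ (by positivity)] at p1
    refine p1.trans (le_of_eq ?_)
    field_simp
  have q2 : ‖1 - (1 - p) ^ 2‖ ^ 2 ≤ K * (R ^ 4 / (R ^ 4 + r ^ 4)) := by
    rw [← le_div_iff₀ (by positivity)] at p2
    refine p2.trans (le_of_eq ?_)
    field_simp
  refine ⟨mul_le_mul_of_nonneg_right ?_ (sq_nonneg _), mul_le_mul_of_nonneg_right
    (q2.trans (mul_le_mul_of_nonneg_right (by nlinarith) (by positivity))) (sq_nonneg _)⟩
  refine (pow_le_pow_left₀ (sq_nonneg _) q1 2).trans ?_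
  rw [mul_pow, div_pow, ← pow_mul]
  exact mul_le_mul_of_nonneg_right (by linarith)
    (div_nonneg (Even.pow_nonneg (by decide) r) (sq_nonneg _))

theorem wt_facts (ξ : E4) : wt 1 ξ * ‖ξ‖ ^ 2 ≤ wt 2 ξ ∧ 1 + ‖ξ‖ ^ 4 ≤ wt 2 ξ ∧
    ‖ξ‖ ^ 6 ≤ wt 3 ξ := by
  have h1 : ‖ξ‖ ^ 2 ≤ 4 * π ^ 2 * ‖ξ‖ ^ 2 :=
    le_mul_of_one_le_left (sq_nonneg _) (by nlinarith [Real.pi_gt_three])
  have h2 := pow_le_pow_left₀ (sq_nonneg _) h1 2
  have h3 := pow_le_pow_left₀ (sq_nonneg _) h1 3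
  have h4 := sq_nonneg ‖ξ‖
  simp only [wt]
  rw [← pow_mul] at h2 h3
  generalize 4 * π ^ 2 * ‖ξ‖ ^ 2 = t at *
  refine ⟨by nlinarith, by nlinarith, ?_⟩
  calc ‖ξ‖ ^ 6 ≤ t ^ 3 := h3
    _ ≤ _ := by nlinarith [sq_nonneg t, h4.trans h1]

end EucB

open EucB in
theorem spl : SplStmt := by
  obtain ⟨K, K0, hK⟩ := exists_split
  have o0 := om_nn
  refine ⟨K * (1 + 8 * om), by positivity, fun h t R hR => ?_⟩
  have R0 : 0 < R := by linarith
  obtain ⟨g, s, hg⟩ := hK h t R R0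
  have hKC : K ≤ K * (1 + 8 * om) := le_mul_of_one_le_right K0.le (by linarith)
  have e2 := eN_nn 2 t
  have e3 := eN_nn 3 t
  refine ⟨_, tst_sub t s, fun y => ?_, ?_⟩
  · obtain ⟨i1, i2⟩ := rad1 (S := R ^ 4) (by nlinarith [pow_le_pow_left₀ zero_le_two hR 4])
    refine (sup_le (k := 2) (tst_sub t s) t (i1.const_mul K) (fun _ => by positivity)
      (fun ξ => (hg ξ).2.trans ?_) y).trans (mul_le_mul_of_nonneg_right ?_ e2)
    · rw [← mul_assoc]
      refine mul_le_mul_of_nonneg_right ?_ (sq_nonneg _)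
      refine le_trans (le_of_eq ?_) (mul_le_mul_of_nonneg_left (wt_facts ξ).2.1 (by positivity))
      field_simp
    · rw [integral_const_mul]
      have l0 : 0 ≤ Real.log R := Real.log_nonneg (by linarith)
      rw [Real.log_pow] at i2
      have := mul_le_mul_of_nonneg_left i2 K0.le
      push_cast at this
      nlinarith [mul_nonneg K0.le l0]
  simp only [sub_sub_cancel]
  have main : ∀ (j : ℕ) (c : ℝ), 0 < c →
      (∀ ξ : E4, wt j ξ * (‖ξ‖ ^ 4 / (R ^ 2 + ‖ξ‖ ^ 2) ^ 2) ≤ wt 2 ξ / c) →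
      eN j g ≤ K * (1 + 8 * om) / c * eN 2 h := by
    intro j c c0 hc
    refine (eN_le (c := K / c) s t fun ξ => ?_).trans
      (mul_le_mul_of_nonneg_right (div_le_div_of_nonneg_right hKC c0.le) e2)
    refine (mul_le_mul_of_nonneg_left (hg ξ).1 (wt_pos j ξ).le).trans ?_
    have := mul_le_mul_of_nonneg_right (hc ξ) (mul_nonneg K0.le (sq_nonneg ‖F h ξ‖))
    calc _ = wt j ξ * (‖ξ‖ ^ 4 / (R ^ 2 + ‖ξ‖ ^ 2) ^ 2) * (K * ‖F h ξ‖ ^ 2) := by ring
      _ ≤ _ := this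
      _ = _ := by ring
  refine ⟨?_, main 1 _ (by positivity) fun ξ => ?_, main 0 _ (by positivity) fun ξ => ?_,
    fun y => ?_⟩
  · have := main 2 1 one_pos fun ξ => by
      rw [div_one]
      refine mul_le_of_le_one_right (wt_pos 2 ξ).le (div_le_one_of_le₀ ?_ (sq_nonneg _))
      nlinarith [sq_nonneg R, sq_nonneg ‖ξ‖, mul_nonneg (sq_nonneg R) (sq_nonneg ‖ξ‖),
        sq_nonneg (R ^ 2)]
    rwa [div_one] at this
  · have a1 : ‖ξ‖ ^ 4 / (R ^ 2 + ‖ξ‖ ^ 2) ^ 2 ≤ ‖ξ‖ ^ 2 / R ^ 2 := by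
      rw [div_le_div_iff₀ (by positivity) (by positivity)]
      have : 0 ≤ ‖ξ‖ ^ 2 * (R ^ 4 + R ^ 2 * ‖ξ‖ ^ 2 + ‖ξ‖ ^ 4) := by positivity
      nlinarith
    refine (mul_le_mul_of_nonneg_left a1 (wt_pos 1 ξ).le).trans ?_
    rw [← mul_div_assoc]
    exact div_le_div_of_nonneg_right (wt_facts ξ).1 (by positivity)
  · rw [wt, one_mul]
    refine div_le_div₀ (wt_pos 2 ξ).le (by linarith [(wt_facts ξ).2.1]) (by positivity) ?_
    nlinarith [sq_nonneg (‖ξ‖ ^ 2), mul_nonneg (sq_nonneg R) (sq_nonneg ‖ξ‖)]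
  · obtain ⟨i1, i2⟩ := rad2 (S := R ^ 2) (by positivity)
    refine (sup_le (k := 3) s t (i1.const_mul K) (fun _ => by positivity)
      (fun ξ => (hg ξ).1.trans ?_) y).trans (mul_le_mul_of_nonneg_right ?_ e3)
    · rw [← mul_assoc]
      refine mul_le_mul_of_nonneg_right ?_ (sq_nonneg _)
      refine le_trans (le_of_eq ?_) (mul_le_mul_of_nonneg_left (wt_facts ξ).2.2 (by positivity))
      rcases eq_or_ne ‖ξ‖ 0 with h0 | h0
      · simp [h0]
      · field_simp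
    · rw [integral_const_mul, i2, ← mul_div_assoc]
      exact div_le_div_of_nonneg_right (by nlinarith [mul_nonneg K0.le o0]) (by positivity)

end Pool.Agent.MP_417fa2_gt

end MrgPart0

-- ======== part 1: formerly Pool.Agent.MP_417fa2_gt.An.DenseE
section MrgPart1

/-! Approximate solvability of `μ u - eL b u = f` in test functions. -/

open scoped ContDiff Topology SchwartzMap
open MeasureTheory Set Filter

namespace Pool.Agent.MP_417fa2_gt

namespace DE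

/-- The partial derivative of a Schwartz function. -/
noncomputable def sd {F : Type*} [NormedAddCommGroup F] [NormedSpace ℝ F] (i : Fin 4)
    (g : 𝓢(E4, F)) : 𝓢(E4, F) := LineDeriv.lineDerivOp (EuclideanSpace.single i (1 : ℝ) : E4) g

theorem pd_coe (i : Fin 4) (g : 𝓢(E4, ℝ)) : pd i g = sd i g := rfl

theorem sd_re (i : Fin 4) (g : 𝓢(E4, ℂ)) :
    sd i (g.postcompCLM Complex.reCLM) = (sd i g).postcompCLM Complex.reCLM := by
  ext y
  have h := (Complex.reCLM.hasFDerivAt.comp y (g.hasFDerivAt y)).fderiv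
  exact congrArg (fun L : E4 →L[ℝ] ℝ => L (EuclideanSpace.single i 1)) h

theorem symbol_growth {μ : ℝ} (hμ : 0 < μ) :
    (fun ξ : E4 => (μ + (2 * Real.pi) ^ 2 * ‖ξ‖ ^ 2)⁻¹).HasTemperateGrowth := by
  have h1 := (Function.hasTemperateGrowth_one_add_norm_sq_rpow E4 (-1)).comp
    (((2 * Real.pi / √μ) • ContinuousLinearMap.id ℝ E4).hasTemperateGrowth)
  have h2 := (Function.HasTemperateGrowth.const (E := E4) μ⁻¹).mul h1
  have e : (fun ξ : E4 => (μ + (2 * Real.pi) ^ 2 * ‖ξ‖ ^ 2)⁻¹) = (fun _ => μ⁻¹) *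
      ((fun x : E4 => (1 + ‖x‖ ^ 2) ^ (-1 : ℝ)) ∘
        ⇑((2 * Real.pi / √μ) • ContinuousLinearMap.id ℝ E4)) := by
    funext ξ
    simp only [Pi.mul_apply, Function.comp, smul_apply,
      ContinuousLinearMap.id_apply, Real.rpow_neg_one, norm_smul, mul_pow, Real.norm_eq_abs, sq_abs,
      div_pow, Real.sq_sqrt hμ.le]
    field_simp
  rw [e]; exact h2

theorem exists_schwartz {μ : ℝ} (hμ : 0 < μ) {f : E4 → ℝ} (F : Tst f) :
    ∃ u : 𝓢(E4, ℝ), ∀ y, μ * u y - lp u y = f y := by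
  let fC : 𝓢(E4, ℂ) := (F.cs.toSchwartzMap F.sm).postcompCLM Complex.ofRealCLM
  let m : E4 → ℝ := fun ξ => (μ + (2 * Real.pi) ^ 2 * ‖ξ‖ ^ 2)⁻¹
  have hm : m.HasTemperateGrowth := symbol_growth hμ
  have hn : (fun ξ : E4 => ‖ξ‖ ^ 2).HasTemperateGrowth := Function.hasTemperateGrowth_norm_sq E4
  let U : 𝓢(E4, ℂ) := SchwartzMap.fourierMultiplierCLM ℂ m fC
  have h1 : μ • U - Laplacian.laplacian U = fC := by
    rw [SchwartzMap.laplacian_eq_fourierMultiplierCLM,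
      SchwartzMap.fourierMultiplierCLM_fourierMultiplierCLM_apply hn hm, neg_smul, sub_neg_eq_add]
    have e1 := SchwartzMap.fourierMultiplierCLM_sum ℂ (s := Finset.univ)
      (g := ![μ • m, (2 * Real.pi) ^ 2 • ((fun ξ : E4 => ‖ξ‖ ^ 2) * m)]) (by
        intro i _
        fin_cases i
        · exact (Function.HasTemperateGrowth.const μ).smul hm
        · exact (Function.HasTemperateGrowth.const _).smul (hn.mul hm))
    simp only [Fin.sum_univ_two, Matrix.cons_val_zero, Matrix.cons_val_one,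
      SchwartzMap.fourierMultiplierCLM_smul hm,
      SchwartzMap.fourierMultiplierCLM_smul (hn.mul hm)] at e1
    have e2 : (fun x : E4 => (μ • m) x +
        ((2 * Real.pi) ^ 2 • ((fun ξ : E4 => ‖ξ‖ ^ 2) * m)) x) = fun _ => (1 : ℝ) := by
      funext ξ
      have : μ + (2 * Real.pi) ^ 2 * ‖ξ‖ ^ 2 ≠ 0 := by positivity
      simp only [m, Pi.smul_apply, Pi.mul_apply, smul_eq_mul]
      field_simp
    rw [e2, SchwartzMap.fourierMultiplierCLM_const] at e1
    have e3 := congrArg (fun L : 𝓢(E4, ℂ) →L[ℝ] 𝓢(E4, ℂ) => L fC) e1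
    simpa using e3.symm
  refine ⟨U.postcompCLM Complex.reCLM, fun y => ?_⟩
  have h2 : (Laplacian.laplacian U : 𝓢(E4, ℂ)) = ∑ i, sd i (sd i U) := by
    rw [SchwartzMap.laplacian_eq_sum (EuclideanSpace.basisFun (Fin 4) ℝ)]
    simp only [EuclideanSpace.basisFun_apply, sd]
  have h3 := congrArg (fun g : 𝓢(E4, ℂ) => (g y).re) h1
  simp only [h2, sub_apply, smul_apply, sum_apply, Complex.sub_re, Complex.re_sum,
    Complex.smul_re, smul_eq_mul] at h3
  simp only [lp, pd_coe, sd_re]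
  exact h3

/-- Rescaling. -/
noncomputable def sc (R : ℝ) (φ : E4 → ℝ) (y : E4) : ℝ := φ (R⁻¹ • y)

theorem tst_sc {R : ℝ} (hR : 0 < R) {φ : E4 → ℝ} (H : Tst φ) : Tst (sc R φ) :=
  ⟨H.sm.comp (contDiff_const_smul _), H.cs.comp_smul (inv_ne_zero hR.ne')⟩

theorem pd_sc (R : ℝ) {φ : E4 → ℝ} (H : Tst φ) (i : Fin 4) (y : E4) :
    pd i (sc R φ) y = R⁻¹ * sc R (pd i φ) y := by
  have h := ((H.dAt (R⁻¹ • y)).hasFDerivAt.comp y ((hasFDerivAt_id y).const_smul R⁻¹)).fderiv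
  have h2 := congrArg (fun L : E4 →L[ℝ] ℝ => L (EuclideanSpace.single i 1)) h
  simp only [ContinuousLinearMap.comp_apply, smul_apply,
    ContinuousLinearMap.id_apply, map_smul, smul_eq_mul] at h2
  exact h2

theorem pd_sc_mul (R : ℝ) (hR : 0 < R) {φ : E4 → ℝ} (H : Tst φ) (g : 𝓢(E4, ℝ)) (i : Fin 4) :
    pd i (fun y => sc R φ y * g y) =
      fun y => R⁻¹ * (sc R (pd i φ) y * g y) + sc R φ y * sd i g y := by
  funext y
  rw [pd_mul ((tst_sc hR H).dAt y) g.differentiableAt, pd_sc R H, pd_coe]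
  ring

theorem tst_sc_mul {R : ℝ} (hR : 0 < R) {φ : E4 → ℝ} (H : Tst φ) (g : 𝓢(E4, ℝ)) :
    Tst fun y => sc R φ y * g y := (tst_sc hR H).mul_right (g.smooth ⊤)

theorem unif0 {φ : E4 → ℝ} (H : Tst φ) (g : 𝓢(E4, ℝ)) :
    ∃ C : ℝ, ∀ R : ℝ, 1 ≤ R → eN 0 (fun y => sc R φ y * g y) ≤ C := by
  obtain ⟨B, hB⟩ := H.cs.exists_bound_of_continuous H.continuous
  have hg : Integrable fun y => g y ^ 2 := (g.memLp 2).integrable_sq
  refine ⟨∫ y, B ^ 2 * g y ^ 2, fun R hR => ?_⟩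
  refine integral_mono (tst_sc_mul (by linarith) H g).integrable_sq (hg.const_mul _) fun y => ?_
  have h1 : sc R φ y ^ 2 ≤ B ^ 2 := by
    rw [← sq_abs (sc R φ y)]; exact pow_le_pow_left₀ (abs_nonneg _) (hB _) 2
  simp only [mul_pow]
  nlinarith [sq_nonneg (g y)]

theorem inv_sq_le {R : ℝ} (hR : 1 ≤ R) : R⁻¹ ^ 2 ≤ 1 :=
  pow_le_one₀ (by positivity) (inv_le_one_of_one_le₀ hR)

theorem unif (k : ℕ) : ∀ φ : E4 → ℝ, Tst φ → ∀ g : 𝓢(E4, ℝ),
    ∃ C : ℝ, ∀ R : ℝ, 1 ≤ R → eN k (fun y => sc R φ y * g y) ≤ C := by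
  induction k with
  | zero => exact fun φ H g => unif0 H g
  | succ k ih =>
    intro φ H g
    obtain ⟨C0, h0⟩ := unif0 H g
    choose C1 h1 using fun i => ih _ (H.pd i) g
    choose C2 h2 using fun i => ih _ H (sd i g)
    refine ⟨C0 + ∑ i, (2 * C1 i + 2 * C2 i), fun R hR => ?_⟩
    have hR0 : 0 < R := by linarith
    rw [eN_succ]
    refine add_le_add (h0 R hR) (Finset.sum_le_sum fun i _ => ?_)
    rw [pd_sc_mul R hR0 H]
    refine (eN_add_le k ((tst_sc_mul hR0 (H.pd i) g).const_mul _)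
      (tst_sc_mul hR0 H _)).trans ?_
    rw [eN_smul k (tst_sc_mul hR0 (H.pd i) g)]
    have a1 := mul_le_of_le_one_left (eN_nonneg k fun y => sc R (pd i φ) y * g y) (inv_sq_le hR)
    linarith [h1 i R hR, h2 i R hR]

theorem start (b : Fin 4 → Fin 4 → E4 → ℝ) {μ : ℝ} (hμ : 0 < μ) (k : ℕ) :
    Cont.Dense Tst (eN k) (T b μ 0) := by
  intro f F ε hε
  obtain ⟨u, hu⟩ := exists_schwartz hμ F
  let η : ContDiffBump (0 : E4) := ⟨1, 2, one_pos, one_lt_two⟩
  have H : Tst η := ⟨η.contDiff, η.hasCompactSupport⟩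
  obtain ⟨R0, hR0⟩ := F.cs.isCompact.isBounded.subset_closedBall 0
  choose C1 h1 using fun a => unif k _ ((H.pd a).pd a) u
  choose C2 h2 using fun a => unif k _ (H.pd a) (sd a u)
  set K := 2 ^ 4 * ∑ a, (2 * C1 a + 2 * (2 ^ 2 * C2 a)) with hK
  obtain ⟨R, hR1, hR2, hR3⟩ : ∃ R : ℝ, 1 ≤ R ∧ R0 ≤ R ∧ K / ε ≤ R :=
    ⟨max 1 (max R0 (K / ε)), le_max_left _ _, (le_max_left _ _).trans (le_max_right _ _),
      (le_max_right _ _).trans (le_max_right _ _)⟩
  have hR : 0 < R := by linarith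
  refine ⟨fun y => sc R η y * u y, tst_sc_mul hR H u, ?_⟩
  have t1 : ∀ a, Tst fun y => sc R (pd a (pd a η)) y * u y := fun a =>
    tst_sc_mul hR ((H.pd a).pd a) u
  have t2 : ∀ a, Tst fun y => sc R (pd a η) y * sd a u y := fun a => tst_sc_mul hR (H.pd a) _
  have t3 : ∀ a, Tst fun y => R⁻¹ * (sc R (pd a (pd a η)) y * u y) +
      2 * (sc R (pd a η) y * sd a u y) := fun a => ((t1 a).const_mul _).add ((t2 a).const_mul _)
  have e : T b μ 0 (fun y => sc R η y * u y) - f = fun y => -R⁻¹ * ∑ a,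
      (R⁻¹ * (sc R (pd a (pd a η)) y * u y) + 2 * (sc R (pd a η) y * sd a u y)) := by
    funext y
    have e1 : sc R η y * f y = f y := by
      by_cases hy : f y = 0
      · rw [hy, mul_zero]
      · have h3 : y ∈ Metric.closedBall (0 : E4) R0 := hR0 (subset_tsupport _ hy)
        have h4 : R⁻¹ • y ∈ Metric.closedBall (0 : E4) η.rIn := by
          rw [mem_closedBall_zero_iff] at h3 ⊢
          rw [norm_smul, Real.norm_of_nonneg (by positivity), inv_mul_le_iff₀ hR]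
          show ‖y‖ ≤ R * 1
          linarith
        rw [sc, η.one_of_mem_closedBall h4, one_mul]
    have e2 : lp (fun y => sc R η y * u y) y = sc R η y * lp u y + R⁻¹ * ∑ a,
        (R⁻¹ * (sc R (pd a (pd a η)) y * u y) + 2 * (sc R (pd a η) y * sd a u y)) := by
      unfold lp
      rw [Finset.mul_sum, Finset.mul_sum, ← Finset.sum_add_distrib]
      refine Finset.sum_congr rfl fun a _ => ?_
      rw [pd_sc_mul R hR H, pd_add (((tst_sc_mul hR (H.pd a) u).const_mul _).dAt y)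
        ((tst_sc_mul hR H _).dAt y), pd_const_mul ((tst_sc_mul hR (H.pd a) u).dAt y),
        pd_sc_mul R hR (H.pd a), pd_sc_mul R hR H]
      simp only [pd_coe]
      ring
    simp only [Pi.sub_apply, T, e2]
    rw [← e1, ← hu y]
    ring
  rw [e, eN_smul k (Tst.sum fun a _ => t3 a)]
  have h3 : eN k (fun y => ∑ a, (R⁻¹ * (sc R (pd a (pd a η)) y * u y) +
      2 * (sc R (pd a η) y * sd a u y))) ≤ K := by
    refine (eN_sum_le k Finset.univ t3).trans ?_
    rw [Finset.card_univ, Fintype.card_fin, hK]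
    refine mul_le_mul_of_nonneg_left (Finset.sum_le_sum fun a _ => ?_) (by positivity)
    refine (eN_add_le k ((t1 a).const_mul _) ((t2 a).const_mul _)).trans ?_
    rw [eN_smul k (t1 a), eN_smul k (t2 a)]
    have a1 := mul_le_of_le_one_left (eN_nonneg k fun y => sc R (pd a (pd a η)) y * u y)
      (inv_sq_le hR1)
    linarith [h1 a R hR1, h2 a R hR1]
  have h4 : (-R⁻¹) ^ 2 ≤ R⁻¹ := by
    have := inv_le_one_of_one_le₀ hR1
    have : 0 < R⁻¹ := by positivity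
    nlinarith
  refine (mul_le_mul h4 h3 (eN_nonneg _ _) (by positivity)).trans ?_
  rw [inv_mul_le_iff₀ hR]
  rwa [div_le_iff₀ hε] at hR3

theorem sqN (k : ℕ) : Cont.Sq Tst (eN k) where
  zero := Tst.zero
  sub := fun _ _ F H => F.sub H
  nonneg := fun f _ => eN_nonneg k f
  neg := fun f F => by
    have := eN_smul k F (-1)
    simp only [neg_mul, one_mul, even_two, Even.neg_pow, one_pow] at this
    exact this
  add_le := fun _ _ F H => eN_add_le k F H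

end DE

open DE in
theorem denseE : DenseEStmt := by
  rintro b hb ⟨c₀, hc, he⟩ k
  have he' : Ellip b (min c₀ 1) := ⟨lt_min hc one_pos, min_le_right _ _, fun y ξ =>
    (mul_le_mul_of_nonneg_right (min_le_left _ _)
      (Finset.sum_nonneg fun _ _ => sq_nonneg _)).trans (he y ξ)⟩
  obtain ⟨C, p, h⟩ := energy hb he' k
  obtain ⟨C', p', h'⟩ := D_bd k hb
  refine ⟨2 * C, by positivity, fun μ hμ f F ε hε => ?_⟩
  have hμ0 : 0 < μ := by linarith
  have hD : Cont.Dense Tst (eN k) (T b μ 1) := by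
    refine Cont.dense_one (sqN k) (T b μ)
      (fun s _ => ⟨fun u U => tst_T hb μ s U, fun u v U V => T_sub hb μ s U V⟩) (C' * C)
      (fun s hs t _ u U => ?_) (start b hμ0 k)
    have e : T b μ t u - T b μ s u = fun y => (s - t) * D b u y := by
      funext y; simp only [Pi.sub_apply, T]; ring
    rw [e, eN_smul k (tst_D hb U)]
    have h1 : eN (k + 2) u ≤ C * eN k (T b μ s u) := by
      linarith [h μ hμ s hs u U, mul_nonneg hμ0.le (eN_nonneg (k + 1) u)]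
    have h2 := (h' u U).trans (mul_le_mul_of_nonneg_left h1 p'.le)
    calc (s - t) ^ 2 * eN k (D b u) ≤ (s - t) ^ 2 * (C' * (C * eN k (T b μ s u))) := by gcongr
      _ = _ := by ring
  obtain ⟨u, U, h1⟩ := hD f F ε hε
  refine ⟨u, U, ?_, ?_⟩
  · refine le_trans (le_of_eq ?_) h1
    congr 1
    funext y
    simp only [Pi.sub_apply, T, eL, DE.lp, D]
    ring
  · have h2 := h μ hμ 1 ⟨zero_le_one, le_rfl⟩ u U
    have h3 := (sqN k).add_le _ _ ((tst_T hb μ 1 U).sub F) F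
    have h4 : eN k (T b μ 1 u) ≤ 2 * ε + 2 * eN k f := by
      have e : (fun y => T b μ 1 u y - f y) + f = T b μ 1 u := by funext y; simp
      rw [e] at h3
      have h5 : eN k (fun y => T b μ 1 u y - f y) ≤ ε := h1
      linarith
    have h5 := mul_le_mul_of_nonneg_left h4 p.le
    linarith [eN_nonneg (k + 2) u]

end Pool.Agent.MP_417fa2_gt

end MrgPart1

-- ======== part 2: formerly Pool.Agent.MP_417fa2_gt.An.Surj
section MrgPart2

/-! SURJ: `h + P` is onto on smooth functions (continuity method from `(μ - L)²`). -/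

open scoped Manifold ContDiff Topology
open MeasureTheory Set Filter

namespace Pool.Agent.MP_417fa2_gt

universe u

theorem surj_dop {ρ φ : E4 → ℝ} {A : Fin 4 → Fin 4 → E4 → ℝ} {U : Set E4} {y : E4}
    (hU : IsOpen U) (hρ : ContDiffOn ℝ ∞ ρ U) (h0 : 0 < ρ y) (hA : ∀ a b, ContDiffOn ℝ ∞ (A a b) U)
    (hφ : ContDiffOn ℝ ∞ φ U) (hy : y ∈ U) :
    dop ρ A (fun z => φ z * φ z) y =
      2 * (φ y * dop ρ A φ y) + 2 * ∑ a, ∑ b, A a b y * pd a φ y * pd b φ y := by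
  have e : ∀ a, pd a (fun z => ρ z * ∑ b, A a b z * pd b (fun z => φ z * φ z) z) y =
      2 * (φ y * pd a (fun z => ρ z * ∑ b, A a b z * pd b φ z) y) +
        ρ y * (2 * ∑ b, A a b y * pd a φ y * pd b φ y) := fun a => by
    have h1 := pd_mul (dAt_of_cdOn hU (hφ.const_smul (2 : ℝ)) hy)
      (dAt_of_cdOn hU (cdOn_flux hU hρ hA hφ a) hy) a
    simp only [smul_eq_mul] at h1
    rw [pd_const_mul (dAt_of_cdOn hU hφ hy)] at h1
    rw [pd_congr_on hU (g := fun z => 2 * φ z * (ρ z * ∑ b, A a b z * pd b φ z))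
      (fun z hz => ?_) a hy, h1]
    · simp only [Finset.mul_sum]
      rw [add_comm]
      congr 1
      · ring
      · exact Finset.sum_congr rfl fun b _ => by ring
    · simp only [pd_mul (dAt_of_cdOn hU hφ hz) (dAt_of_cdOn hU hφ hz), Finset.mul_sum]
      exact Finset.sum_congr rfl fun b _ => by ring
  unfold dop
  simp only [e, Finset.sum_add_distrib, ← Finset.mul_sum]
  field_simp

variable {M : Type u} [TopologicalSpace M] [ChartedSpace E4 M] [MeasurableSpace M]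

/-- `μ - L` -/
noncomputable def surjR (S : Setup M) (μ : ℝ) (u : M → ℝ) (x : M) : ℝ := μ * u x - S.L u x

/-- `(μ - L)² - P` -/
noncomputable def surjD (S : Setup M) (μ : ℝ) (u : M → ℝ) (x : M) : ℝ :=
  μ ^ 2 * u x - (2 * μ * S.L u x + S.B u x)

/-- the path from `(μ - L)²` to `h + P` -/
noncomputable def surjT (S : Setup M) (μ : ℝ) (h : M → ℝ) (s : ℝ) (u : M → ℝ) (x : M) : ℝ :=
  S.P u x + ((1 - s) * surjD S μ u x + s * (h x * u x))

variable [IsManifold (𝓡 4) ∞ M] (S : Setup M) {u v h : M → ℝ} {μ : ℝ}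

theorem surj_R_sm (hu : Smooth u) : Smooth (surjR S μ u) := (hu.const_mul μ).sub (S.opL.smooth hu)

theorem surj_D_sm (hu : Smooth u) : Smooth (surjD S μ u) :=
  (hu.const_mul _).sub (((S.opL.smooth hu).const_mul _).add (S.opB.smooth hu))

theorem surj_T_sm (hh : Smooth h) (s : ℝ) (hu : Smooth u) : Smooth (surjT S μ h s u) :=
  (S.P_smooth hu).add (((surj_D_sm S hu).const_mul _).add ((hh.mul hu).const_mul _))

theorem surj_R_sub (hu : Smooth u) (hv : Smooth v) (x : M) :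
    surjR S μ (fun x => u x - v x) x = surjR S μ u x - surjR S μ v x := by
  simp only [surjR, S.opL.sub hu hv]; ring

theorem surj_T_sub (s : ℝ) (hu : Smooth u) (hv : Smooth v) (x : M) :
    surjT S μ h s (fun x => u x - v x) x = surjT S μ h s u x - surjT S μ h s v x := by
  simp only [surjT, surjD, S.opL.sub hu hv, S.opB.sub hu hv, S.P_sub hu hv]; ring

theorem surj_RR (hu : Smooth u) (x : M) :
    surjR S μ (surjR S μ u) x = S.P u x + surjD S μ u x := by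
  have := congrFun (S.opL.sub (hu.const_mul μ) (S.opL.smooth hu)) x
  rw [S.opL.const_mul hu] at this
  rw [surjR, show surjR S μ u = fun x => μ * u x - S.L u x from rfl, this, surjD, Setup.P]
  ring

variable [T2Space M] [CompactSpace M] [BorelSpace M] (F : Frame M)

theorem surj_neg (hu : Smooth u) : ∫ x, u x * S.L u x ∂S.μ ≤ 0 := by
  have h1 : ∫ x, 2 * (u x * S.L u x) ∂S.μ ≤ ∫ x, S.L (fun x => u x * u x) x ∂S.μ := by
    refine integral_mono (S.integrable ((hu.mul (S.opL.smooth hu)).const_mul 2).continuous)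
      (S.integrable (S.opL.smooth (hu.mul hu)).continuous) fun x => ?_
    have h2 := surj_dop (isOpen_tgt x) (S.ρ_sm x) (S.ρ_pos x _ (mem_chart_target E4 x)) (S.G_sm x)
      (hu.cdOn x) (mem_chart_target E4 x)
    have h3 : 0 ≤ ∑ a, ∑ b, S.G x a b (chartAt E4 x x) * pd a (u ∘ param x) (chartAt E4 x x) *
        pd b (u ∘ param x) (chartAt E4 x x) := by
      by_cases h : (fun a => pd a (u ∘ param x) (chartAt E4 x x)) = 0
      · simp [show ∀ a, pd a (u ∘ param x) (chartAt E4 x x) = 0 from congrFun h]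
      · exact (S.G_pos x _ (mem_chart_target E4 x) _ h).le
    rw [← S.opL.loc_self hu, Function.comp_apply, param_chart_self] at h2
    have h4 := (S.opL.loc_self (hu.mul hu) x).trans h2
    simp only
    linarith
  rw [S.opL.integral_eq_zero (hu.mul hu), integral_const_mul] at h1
  linarith

theorem surj_R_int (hu : Smooth u) (hv : Smooth v) : ∫ x, u x * surjR S μ v x ∂S.μ =
    μ * ∫ x, u x * v x ∂S.μ - ∫ x, u x * S.L v x ∂S.μ := by
  rw [← integral_const_mul, ← integral_sub (S.integrable ((hu.mul hv).const_mul μ).continuous)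
    (S.integrable (hu.mul (S.opL.smooth hv)).continuous)]
  congr 1; funext x; rw [surjR]; ring

theorem surj_low (hμ : 1 ≤ μ) (hu : Smooth u) :
    ∫ x, u x * u x ∂S.μ ≤ ∫ x, u x * surjR S μ (surjR S μ u) x ∂S.μ := by
  have hv := surj_R_sm S (μ := μ) hu
  have h1 := surj_R_int S (μ := μ) hu hu
  have h2 := surj_R_int S (μ := μ) hu hv
  have h3 := surj_R_int S (μ := μ) hv hu
  have h4 := surj_neg S hu
  have h5 : 0 ≤ ∫ x, u x * u x ∂S.μ := integral_nonneg fun x => mul_self_nonneg _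
  have h6 : ∫ x, 2 * (u x * surjR S μ u x) ∂S.μ ≤
      ∫ x, (u x * u x + surjR S μ u x * surjR S μ u x) ∂S.μ :=
    integral_mono (S.integrable ((hu.mul hv).const_mul 2).continuous)
      (S.integrable ((hu.mul hu).add (hv.mul hv)).continuous) fun x => by
        simp only; nlinarith [sq_nonneg (u x - surjR S μ u x)]
  rw [integral_const_mul, integral_add (S.integrable (hu.mul hu).continuous)
    (S.integrable (hv.mul hv).continuous)] at h6
  rw [S.opL.symm_integral hv hu] at h2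
  simp only [mul_comm (surjR S μ u _) (u _)] at h3
  nlinarith

theorem surj_pos (hG : S.Good) (hμ : 1 ≤ μ) (hh : Smooth h) (hp : ∀ x, 0 < h x) :
    ∃ c : ℝ, 0 < c ∧ ∀ s ∈ Icc (0 : ℝ) 1, ∀ u, Smooth u →
      c * F.N S.μ 0 u ≤ ∫ x, u x * surjT S μ h s u x ∂S.μ := by
  obtain ⟨c, pc, hc⟩ : ∃ c : ℝ, 0 < c ∧ ∀ x, c ≤ h x := by
    obtain ⟨c, pc, hc⟩ := isCompact_univ.exists_forall_le' hh.continuous.continuousOn
      (a := 0) fun x _ => hp x
    exact ⟨c, pc, fun x => hc x trivial⟩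
  refine ⟨min c 1, by positivity, fun s hs u hu => ?_⟩
  have hv := surj_R_sm S (μ := μ) (surj_R_sm S (μ := μ) hu)
  have h1 := surj_low S hμ hu
  have h2 := hG.pos u hu
  have h3 : ∫ x, c * (u x * u x) ∂S.μ ≤ ∫ x, u x * (h x * u x) ∂S.μ :=
    integral_mono (S.integrable ((hu.mul hu).const_mul c).continuous)
      (S.integrable (hu.mul (hh.mul hu)).continuous) fun x => by
        simp only; nlinarith [hc x, mul_self_nonneg (u x)]
  have h4 : ∫ x, u x * surjT S μ h s u x ∂S.μ =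
      (1 - s) * ∫ x, u x * surjR S μ (surjR S μ u) x ∂S.μ +
        s * (∫ x, u x * S.P u x ∂S.μ + ∫ x, u x * (h x * u x) ∂S.μ) := by
    rw [← integral_add (S.integrable (hu.mul (S.P_smooth hu)).continuous)
      (S.integrable (hu.mul (hh.mul hu)).continuous), ← integral_const_mul, ← integral_const_mul,
      ← integral_add (S.integrable ((hu.mul hv).const_mul _).continuous)
        (S.integrable (((hu.mul (S.P_smooth hu)).add (hu.mul (hh.mul hu))).const_mul _).continuous)]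
    congr 1; funext x; rw [surj_RR S hu, surjT]; ring
  have h5 : 0 ≤ ∫ x, u x * u x ∂S.μ := integral_nonneg fun x => mul_self_nonneg _
  rw [integral_const_mul] at h3
  rw [h4, Frame.N_zero]
  simp only [pow_two]
  have h6 := mul_le_mul_of_nonneg_right (min_le_left c 1) h5
  have h7 := mul_le_of_le_one_left h5 (min_le_right c 1)
  nlinarith [mul_le_mul_of_nonneg_left (h7.trans h1) (sub_nonneg.2 hs.2),
    mul_le_mul_of_nonneg_left (h6.trans (h3.trans (le_add_of_nonneg_left h2))) hs.1]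

theorem surj_apr (h2 : Ell S F) (h4 : Itp S F) (k : ℕ) {c C1 : ℝ} (pc : 0 < c) (p1 : 0 < C1) :
    ∃ C : ℝ, 0 < C ∧ ∀ u g, Smooth u → Smooth g →
      F.N S.μ k (fun x => g x - S.P u x) ≤ C1 * F.N S.μ (k + 2) u →
      c * F.N S.μ 0 u ≤ ∫ x, u x * g x ∂S.μ → F.N S.μ (k + 4) u ≤ C * F.N S.μ k g := by
  obtain ⟨Ce, pe, he⟩ := h2.ell k
  obtain ⟨Ci, pi, hi⟩ := h4 (k + 3) (1 / (4 * Ce * C1)) (by positivity)
  refine ⟨2 * Ce * (2 + (2 * C1 * Ci + 1) / c ^ 2), by positivity, fun u g hu hg a1 a2 => ?_⟩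
  have e1 := he u hu
  have e2 := F.N_sub_le S k hg (hg.sub (S.P_smooth hu))
  simp only [sub_sub_cancel] at e2
  have e3 := (F.N_le_succ S.μ (k + 2) u).trans (hi u hu)
  have e4 := (le_abs_self _).trans (F.abs_integral_mul_le_add S hu hg (half_pos pc))
  have e5 : F.N S.μ 0 u ≤ F.N S.μ k g / c ^ 2 := by
    have := F.N_mono S.μ (Nat.zero_le k) g
    have b : c / 2 * F.N S.μ 0 u ≤ F.N S.μ 0 g / (4 * (c / 2)) := by linarith
    rw [le_div_iff₀ (by positivity)] at b ⊢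
    nlinarith
  have e6 : Ce * (2 * (C1 * F.N S.μ (k + 2) u)) ≤
      F.N S.μ (k + 4) u / 2 + Ce * (2 * C1 * Ci) * F.N S.μ 0 u := by
    calc _ ≤ Ce * (2 * (C1 * (1 / (4 * Ce * C1) * F.N S.μ (k + 3 + 1) u + Ci * F.N S.μ 0 u))) := by
          gcongr
      _ = _ := by field_simp; ring
  have e7 := mul_le_mul_of_nonneg_left e5 (show 0 ≤ Ce * (2 * C1 * Ci + 1) by positivity)
  have e8 := mul_le_mul_of_nonneg_left (e2.trans (add_le_add le_rfl
    (mul_le_mul_of_nonneg_left a1 zero_le_two))) pe.le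
  have e9 : 2 * Ce * (2 + (2 * C1 * Ci + 1) / c ^ 2) * F.N S.μ k g = 4 * (Ce * F.N S.μ k g) +
    2 * (Ce * (2 * C1 * Ci + 1) * (F.N S.μ k g / c ^ 2)) := by ring
  rw [e9]
  change Ce * F.N S.μ k (S.P u) ≤ _ at e8
  nlinarith

theorem surj_D_le (h2 : Ell S F) (h3 : Mul S F) (k : ℕ) (μ : ℝ) : ∃ C : ℝ, 0 < C ∧
    ∀ u, Smooth u → F.N S.μ k (surjD S μ u) ≤ C * F.N S.μ (k + 2) u := by
  obtain ⟨CL, pL, hL⟩ := h2.upL k
  obtain ⟨CB, pB, hB⟩ := h3.upB k
  refine ⟨2 * (μ ^ 2) ^ 2 + 4 * ((2 * μ) ^ 2 * CL) + 4 * CB, by positivity, fun u hu => ?_⟩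
  have e1 := F.N_sub_le S k (hu.const_mul (μ ^ 2))
    (((S.opL.smooth hu).const_mul (2 * μ)).add (S.opB.smooth hu))
  have e2 := F.N_add_le S k ((S.opL.smooth hu).const_mul (2 * μ)) (S.opB.smooth hu)
  rw [F.N_smul S.μ k hu] at e1
  rw [F.N_smul S.μ k (S.opL.smooth hu)] at e2
  have e3 := mul_le_mul_of_nonneg_left (hL u hu) (sq_nonneg (2 * μ))
  have e4 := mul_le_mul_of_nonneg_left (F.N_mono S.μ (Nat.le_add_right k 2) u) (sq_nonneg (μ ^ 2))
  have e5 := hB u hu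
  change F.N S.μ k (surjD S μ u) ≤ _ at e1
  nlinarith

theorem surj_comb (h2 : Ell S F) (h3 : Mul S F) (hh : Smooth h) (k : ℕ) (μ : ℝ) :
    ∃ C : ℝ, 0 < C ∧ ∀ a b : ℝ, a ^ 2 ≤ 1 → b ^ 2 ≤ 1 → ∀ u, Smooth u →
      F.N S.μ k (fun x => a * surjD S μ u x + b * (h x * u x)) ≤ C * F.N S.μ (k + 2) u := by
  obtain ⟨CD, pD, hD⟩ := surj_D_le S F h2 h3 k μ
  obtain ⟨Ch, ph, hH⟩ := h3.mul k h hh
  refine ⟨2 * CD + 2 * Ch, by positivity, fun a b ha hb u hu => ?_⟩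
  have e1 := F.N_add_le S k ((surj_D_sm S (μ := μ) hu).const_mul a) ((hh.mul hu).const_mul b)
  rw [F.N_smul S.μ k (surj_D_sm S hu), F.N_smul S.μ k (hh.mul hu)] at e1
  have e2 := mul_le_of_le_one_left (F.N_nonneg S.μ k (surjD S μ u)) ha
  have e3 := mul_le_of_le_one_left (F.N_nonneg S.μ k fun x => h x * u x) hb
  have e4 := mul_le_mul_of_nonneg_left (F.N_mono S.μ (Nat.le_add_right k 2) u) ph.le
  have e5 := hD u hu
  have e6 := hH u hu
  linarith

theorem surj_est (hG : S.Good) (h2 : Ell S F) (h3 : Mul S F) (h4 : Itp S F) (hμ : 1 ≤ μ)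
    (hh : Smooth h) (hp : ∀ x, 0 < h x) (k : ℕ) : ∃ C : ℝ, 0 < C ∧ ∀ s ∈ Icc (0 : ℝ) 1,
      ∀ u, Smooth u → F.N S.μ (k + 4) u ≤ C * F.N S.μ k (surjT S μ h s u) := by
  obtain ⟨c, pc, hc⟩ := surj_pos S F hG hμ hh hp
  obtain ⟨C1, p1, h1⟩ := surj_comb S F h2 h3 hh k μ
  obtain ⟨C, pC, hC⟩ := surj_apr S F h2 h4 k pc p1
  refine ⟨C, pC, fun s hs u hu => hC u _ hu (surj_T_sm S hh s hu) ?_ (hc s hs u hu)⟩
  simp only [surjT, add_sub_cancel_left]
  exact h1 _ _ (by nlinarith [hs.1, hs.2]) (by nlinarith [hs.1, hs.2]) u hu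

theorem surj_start (h2 : Ell S F) (h6 : DenseL S F) (k : ℕ) : ∃ μ : ℝ, 1 ≤ μ ∧
    Cont.Dense Smooth (F.N S.μ k) (surjT S μ h 0) := by
  obtain ⟨m1, h1⟩ := h6 k
  obtain ⟨m2, h2'⟩ := h6 (k + 2)
  obtain ⟨CL, pL, hL⟩ := h2.upL k
  obtain ⟨μ, hμ⟩ : ∃ μ, μ = max 1 (max m1 m2) := ⟨_, rfl⟩
  refine ⟨μ, hμ ▸ le_max_left _ _, fun f hf ε hε => ?_⟩
  obtain ⟨u, hu, e1⟩ := h1 μ (hμ ▸ le_max_of_le_right (le_max_left _ _)) f hf (ε / 4) (by positivity)
  obtain ⟨v, hv, e2⟩ := h2' μ (hμ ▸ le_max_of_le_right (le_max_right _ _)) u hu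
    (ε / (8 * (μ ^ 2 + CL))) (by positivity)
  refine ⟨v, hv, ?_⟩
  have hw := (surj_R_sm S (μ := μ) hv).sub hu
  change F.N S.μ (k + 2) (fun x => surjR S μ v x - u x) ≤ _ at e2
  have e3 := F.N_add_le S k (surj_R_sm S (μ := μ) hw) ((surj_R_sm S (μ := μ) hu).sub hf)
  have e4 := F.N_sub_le S k (hw.const_mul μ) (S.opL.smooth hw)
  rw [F.N_smul S.μ k hw] at e4
  have e5 := mul_le_mul_of_nonneg_left (F.N_mono S.μ (Nat.le_add_right k 2)
    fun x => surjR S μ v x - u x) (sq_nonneg μ)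
  have e6 := hL _ hw
  rw [le_div_iff₀ (by positivity)] at e2
  have e7 : surjT S μ h 0 v - f = fun x => surjR S μ (fun x => surjR S μ v x - u x) x +
      (surjR S μ u x - f x) := by
    funext x
    rw [surj_R_sub S (surj_R_sm S hv) hu, surj_RR S hv, Pi.sub_apply, surjT]; ring
  rw [e7]
  change F.N S.μ k (surjR S μ fun x => surjR S μ v x - u x) ≤ _ at e4
  change F.N S.μ k (fun x => surjR S μ u x - f x) ≤ _ at e1
  nlinarith

theorem surj_dense (hG : S.Good) (h2 : Ell S F) (h3 : Mul S F) (h4 : Itp S F) (h6 : DenseL S F)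
    (hh : Smooth h) (hp : ∀ x, 0 < h x) (k : ℕ) :
    Cont.Dense Smooth (F.N S.μ k) (surjT S 1 h 1) := by
  obtain ⟨μ, hμ, h0⟩ := surj_start S F (h := h) h2 h6 k
  obtain ⟨C, pC, hC⟩ := surj_est S F hG h2 h3 h4 hμ hh hp k
  obtain ⟨C1, p1, h1⟩ := surj_comb S F h2 h3 hh k μ
  have e : surjT S 1 h 1 = surjT S μ h 1 := by funext u x; simp [surjT]
  rw [e]
  refine Cont.dense_one ⟨smooth_const 0, fun _ _ a b => a.sub b, fun f _ => F.N_nonneg _ _ _,
    fun f a => F.N_neg _ k a, fun _ _ a b => F.N_add_le S k a b⟩ (surjT S μ h)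
    (fun s _ => ⟨fun u => surj_T_sm S hh s, fun u v a b => funext (surj_T_sub S s a b)⟩) (C1 * C)
    (fun s hs t _ u hu => ?_) h0
  have e1 : surjT S μ h t u - surjT S μ h s u =
      fun x => (t - s) * (-1 * surjD S μ u x + 1 * (h x * u x)) := by
    funext x; simp only [surjT, Pi.sub_apply]; ring
  rw [e1, F.N_smul S.μ k (((surj_D_sm S hu).const_mul _).add ((hh.mul hu).const_mul _)),
    mul_right_comm, mul_comm _ ((t - s) ^ 2), mul_assoc]
  refine mul_le_mul_of_nonneg_left ((h1 _ _ (by norm_num) (by norm_num) u hu).trans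
    (mul_le_mul_of_nonneg_left ?_ p1.le)) (sq_nonneg _)
  exact (F.N_mono S.μ (by omega) u).trans (hC s hs u hu)

theorem surj : SurjStmt.{u} := by
  intro M _ _ _ _ _ _ _ S F hG h2 h3 h4 h5 h6 h7 h hh hp f hf
  choose u hu e using fun k : ℕ => surj_dense S F hG h2 h3 h4 h6 hh hp k f hf (1 / (k + 1))
    Nat.one_div_pos_of_nat
  have hT := fun {w} (hw : Smooth w) => surj_T_sm S (μ := 1) hh 1 hw
  obtain ⟨g, hg, hl⟩ := h7 (hyperfilter ℕ) u hu fun m => by
    obtain ⟨C, pC, hC⟩ := surj_est S F hG h2 h3 h4 le_rfl hh hp m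
    have p0 : 0 ≤ C * (2 + 2 * F.N S.μ m f) := by have := F.N_nonneg S.μ m f; positivity
    have p1 : ∀ j ∈ Finset.range m, 0 ≤ F.N S.μ m (u j) := fun j _ => F.N_nonneg _ _ _
    refine ⟨C * (2 + 2 * F.N S.μ m f) + ∑ j ∈ Finset.range m, F.N S.μ m (u j), fun n => ?_⟩
    rcases lt_or_ge n m with hn | hn
    · exact le_add_of_nonneg_of_le p0 (Finset.single_le_sum p1 (Finset.mem_range.2 hn))
    · refine le_add_of_le_of_nonneg (((F.N_mono S.μ (Nat.le_add_right m 4) _).trans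
        (hC 1 (by simp) _ (hu n))).trans (mul_le_mul_of_nonneg_left ?_ pC.le)) (Finset.sum_nonneg p1)
      have e1 := F.N_add_le S m ((hT (hu n)).sub hf) hf
      simp only [sub_add_cancel] at e1
      have e2 : F.N S.μ m (fun x => surjT S 1 h 1 (u n) x - f x) ≤ 1 :=
        ((F.N_mono S.μ hn _).trans (e n)).trans
          ((div_le_one (by positivity)).2 (le_add_of_nonneg_left n.cast_nonneg))
      exact e1.trans (by linarith)
  obtain ⟨CP, pP, hP⟩ := h2.upP 0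
  obtain ⟨C1, p1, h1⟩ := surj_comb S F h2 h3 hh 0 1
  obtain ⟨CA, pA, hA⟩ := h5
  have hr := (hT hg).sub hf
  have z : F.N S.μ 0 (fun x => surjT S 1 h 1 g x - f x) ≤ 0 := by
    have t1 : Tendsto (fun n : ℕ => 2 * (1 / ((n : ℝ) + 1)) + 4 * (CP + C1) *
        F.N S.μ 4 fun x => u n x - g x) (hyperfilter ℕ) (𝓝 (2 * 0 + 4 * (CP + C1) * 0)) :=
      ((tendsto_one_div_add_atTop_nhds_zero_nat.mono_left Nat.hyperfilter_le_atTop).const_mul 2).add
        ((hl 4).const_mul _)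
    refine (ge_of_tendsto' t1 fun n => ?_).trans (by simp)
    have hw := (hu n).sub hg
    have e1 := F.N_sub_le S 0 ((hT (hu n)).sub hf) (hT hw)
    have e2 := F.N_add_le S 0 (S.P_smooth hw)
      (((surj_D_sm S (μ := 1) hw).const_mul (1 - 1)).add ((hh.mul hw).const_mul 1))
    have e3 := h1 (1 - 1) 1 (by norm_num) (by norm_num) _ hw
    have e4 := mul_le_mul_of_nonneg_left (F.N_mono S.μ (show 0 + 2 ≤ 4 by norm_num)
      fun x => u n x - g x) p1.le
    have e5 := hP _ hw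
    have e6 : F.N S.μ 0 (fun x => surjT S 1 h 1 (u n) x - f x) ≤ 1 / (n + 1) :=
      (F.N_mono S.μ (Nat.zero_le n) _).trans (e n)
    change F.N S.μ 0 (surjT S 1 h 1 fun x => u n x - g x) ≤ _ at e2
    have e7 : (fun x => surjT S 1 h 1 g x - f x) = fun x => surjT S 1 h 1 (u n) x - f x -
        surjT S 1 h 1 (fun x => u n x - g x) x := by
      funext x; rw [surj_T_sub S 1 (hu n) hg]; ring
    rw [e7]
    linarith
  refine ⟨g, hg, fun x => ?_⟩
  have e1 := hA _ hr x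
  rw [le_antisymm z (F.N_nonneg _ _ _), mul_zero, zero_mul] at e1
  have e2 := pow_eq_zero_iff (n := 4) (by norm_num) |>.1 (le_antisymm e1 (by positivity))
  simp only [surjT] at e2
  linarith

end Pool.Agent.MP_417fa2_gt

end MrgPart2

-- ======== part 3: formerly Pool.Agent.MP_417fa2_gt.Flow.Trud
section MrgPart3

/-!
Agmon's inequality on the span of an orthonormal family gives Trudinger's moment bound.
-/

open Finset

namespace Pool.Agent.MP_417fa2_gt.Flow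

universe u

variable {M : Type u} [TopologicalSpace M] {I : C(M, ℝ) →L[ℝ] ℝ}

lemma trud_mean {ι : Type} (S : Finset ι) (θ x : ι → ℝ) (hθ : ∀ j ∈ S, 0 < θ j) (k : ℕ) :
    (∑ j ∈ S, x j) ^ (2 * (k + 1)) ≤
      (∑ j ∈ S, θ j) ^ (2 * k + 1) * ∑ j ∈ S, (θ j ^ (2 * k + 1))⁻¹ * x j ^ (2 * (k + 1)) := by
  rcases S.eq_empty_or_nonempty with h | h
  · simp [h]
  have hT : 0 < ∑ j ∈ S, θ j := sum_pos hθ h
  set T := ∑ j ∈ S, θ j with hTd
  have := Real.pow_arith_mean_le_arith_mean_pow_of_even S (fun j => θ j / T)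
    (fun j => x j * T / θ j) (fun j hj => (div_pos (hθ j hj) hT).le)
    (by rw [← sum_div, div_self hT.ne']) (n := 2 * (k + 1)) (even_two_mul _)
  have e1 : ∑ j ∈ S, θ j / T * (x j * T / θ j) = ∑ j ∈ S, x j :=
    sum_congr rfl fun j hj => by have := hθ j hj; field_simp
  rw [e1] at this
  refine this.trans (le_of_eq ?_)
  rw [mul_sum]
  refine sum_congr rfl fun j hj => ?_
  have := hθ j hj
  rw [div_pow, mul_pow]
  field_simp
  ring

lemma trud_I_sq (G : Gal I) (c : Fin G.n → ℝ) : I (G.emb c ^ 2) = ∑ i, c i ^ 2 := by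
  rw [sq, Gal.emb, sum_mul_sum]
  simp only [map_sum, smul_mul_smul_comm, map_smul, G.orth, smul_eq_mul]
  simp [sq]

lemma trud_mono (hI : ∀ f : C(M, ℝ), (∀ x, 0 ≤ f x) → 0 ≤ I f) {f g : C(M, ℝ)}
    (h : ∀ x, f x ≤ g x) : I f ≤ I g := by
  have := hI (g - f) fun x => by simpa using h x
  rw [map_sub] at this; linarith

/-- The dyadic block of an index. -/
noncomputable def Gal.blk (G : Gal I) (i : Fin G.n) : ℕ := Nat.log 2 ⌊1 + G.lam i⌋₊

lemma Gal.blk_le (G : Gal I) (i : Fin G.n) : (2 : ℝ) ^ G.blk i ≤ 1 + G.lam i := by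
  have h0 := G.lam_nonneg i
  have h1 : ⌊1 + G.lam i⌋₊ ≠ 0 := by
    rw [← Nat.pos_iff_ne_zero, Nat.floor_pos]; linarith
  have h2 : ((2 ^ G.blk i : ℕ) : ℝ) ≤ (⌊1 + G.lam i⌋₊ : ℝ) :=
    Nat.cast_le.2 (Nat.pow_log_le_self 2 h1)
  push_cast at h2
  exact h2.trans (Nat.floor_le (by linarith))

lemma Gal.le_blk (G : Gal I) (i : Fin G.n) : 1 + G.lam i ≤ 2 * (2 : ℝ) ^ G.blk i := by
  have h1 : ⌊1 + G.lam i⌋₊ + 1 ≤ 2 ^ (G.blk i + 1) :=
    Nat.lt_pow_succ_log_self (by norm_num) _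
  have h2 : ((⌊1 + G.lam i⌋₊ + 1 : ℕ) : ℝ) ≤ ((2 ^ (G.blk i + 1) : ℕ) : ℝ) := Nat.cast_le.2 h1
  push_cast at h2
  have := Nat.lt_floor_add_one (1 + G.lam i)
  rw [pow_succ] at h2
  linarith

/-- The coefficients in block `j`. -/
noncomputable def Gal.cut (G : Gal I) (c : Fin G.n → ℝ) (j : ℕ) (i : Fin G.n) : ℝ :=
  if G.blk i = j then c i else 0

lemma Gal.trud_z_nonneg (G : Gal I) (c : Fin G.n → ℝ) : 0 ≤ G.z c :=
  sum_nonneg fun i _ => by have := G.lam_nonneg i; positivity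

lemma Gal.cut_sq_le (G : Gal I) (c : Fin G.n → ℝ) (j : ℕ) :
    (2 : ℝ) ^ j * ∑ i, G.cut c j i ^ 2 ≤ G.z (G.cut c j) := by
  rw [mul_sum, Gal.z]
  refine sum_le_sum fun i _ => ?_
  rw [Gal.cut]
  split_ifs with h
  · rw [← h]; exact mul_le_mul_of_nonneg_right (G.blk_le i) (sq_nonneg _)
  · simp

lemma Gal.cut_hi_le (G : Gal I) (c : Fin G.n → ℝ) (j : ℕ) :
    ∑ i, (1 + G.lam i) ^ 2 * G.cut c j i ^ 2 ≤ 2 * (2 : ℝ) ^ j * G.z (G.cut c j) := by
  rw [Gal.z, mul_sum]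
  refine sum_le_sum fun i _ => ?_
  rw [Gal.cut]
  split_ifs with h
  · have h0 := G.lam_nonneg i
    have := mul_le_mul_of_nonneg_right (G.le_blk i)
      (show 0 ≤ (1 + G.lam i) * c i ^ 2 by positivity)
    rw [← h]; linarith
  · simp

lemma Gal.cut_sup (G : Gal I) {C : ℝ} (hC : G.Agm C) (c : Fin G.n → ℝ) (j : ℕ) (x : M) :
    G.emb (G.cut c j) x ^ 2 ≤ (|C| + 1) * G.z (G.cut c j) := by
  have hz := G.trud_z_nonneg (G.cut c j)
  have h1 := hC (G.cut c j) x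
  have h2 := G.cut_sq_le c j
  have h3 := G.cut_hi_le c j
  set s := ∑ i, G.cut c j i ^ 2
  set t := ∑ i, (1 + G.lam i) ^ 2 * G.cut c j i ^ 2
  set A := G.z (G.cut c j)
  have hs : 0 ≤ s := sum_nonneg fun i _ => sq_nonneg _
  have ht : 0 ≤ t := sum_nonneg fun i _ => by positivity
  have h4 : s * t ≤ 2 * A ^ 2 := by
    have h5 := mul_le_mul_of_nonneg_left h3 hs
    have h6 := mul_le_mul_of_nonneg_left h2 hz
    linarith
  have h5 : C * s * t ≤ |C| * (2 * A ^ 2) := by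
    rw [mul_assoc]
    exact mul_le_mul (le_abs_self C) h4 (by positivity) (abs_nonneg C)
  refine (pow_le_pow_iff_left₀ (sq_nonneg _) (by positivity) two_ne_zero).1 ?_
  have h6 : 0 ≤ (|C| ^ 2 + 1) * A ^ 2 := by positivity
  rw [← pow_mul, show 2 * 2 = 4 from rfl]
  linarith

lemma Gal.sum_cut (G : Gal I) (c : Fin G.n → ℝ) {J : ℕ} (hJ : ∀ i, G.blk i < J) :
    G.emb c = ∑ j ∈ range J, G.emb (G.cut c j) := by
  simp only [Gal.emb]
  rw [sum_comm]
  refine sum_congr rfl fun i _ => ?_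
  rw [← sum_smul]
  simp [Gal.cut, hJ i]

lemma Gal.sum_z_cut (G : Gal I) (c : Fin G.n → ℝ) {J : ℕ} (hJ : ∀ i, G.blk i < J) :
    ∑ j ∈ range J, G.z (G.cut c j) = G.z c := by
  simp only [Gal.z]
  rw [sum_comm]
  refine sum_congr rfl fun i _ => ?_
  rw [← mul_sum]
  simp [Gal.cut, hJ i]

theorem trud : TrudStmt.{u} := by
  intro M _ _ I hI C
  refine ⟨4 * (|C| + 1), by positivity, fun G hC k hk c => ?_⟩
  obtain ⟨k, rfl⟩ := Nat.exists_eq_add_of_le' hk
  obtain ⟨J, hJ⟩ : ∃ J, ∀ i, G.blk i < J :=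
    ⟨univ.sup G.blk + 1, fun i => Nat.lt_succ_of_le (le_sup (mem_univ i))⟩
  set C1 := |C| + 1 with hC1
  have hC10 : 1 ≤ C1 := by have := abs_nonneg C; linarith
  set r : ℝ := 1 - 1 / (4 * ((k : ℝ) + 1)) with hr
  have hk0 : (0 : ℝ) ≤ k := by positivity
  have hq0 : 0 < 1 / (4 * ((k : ℝ) + 1)) := by positivity
  have hq1 : 1 / (4 * ((k : ℝ) + 1)) ≤ 1 / 4 :=
    one_div_le_one_div_of_le (by norm_num) (by linarith)
  have hr0 : 0 < r := by linarith
  have hr1 : r < 1 := by linarith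
  have hr2 : 1 / 2 ≤ r ^ (2 * (k + 1)) := by
    have := one_add_mul_le_pow (a := -(1 / (4 * ((k : ℝ) + 1)))) (by linarith) (2 * (k + 1))
    rw [← sub_eq_add_neg] at this
    refine le_trans (le_of_eq ?_) this
    push_cast; field_simp; ring
  set A : ℕ → ℝ := fun j => G.z (G.cut c j) with hA
  have hA0 : ∀ j, 0 ≤ A j := fun j => G.trud_z_nonneg _
  set S := (range J).filter fun j => A j ≠ 0 with hS
  set θ : ℕ → ℝ := fun j => Real.sqrt (A j) * r ^ j with hθ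
  have hθ0 : ∀ j ∈ S, 0 < θ j := fun j hj =>
    mul_pos (Real.sqrt_pos.2 ((hA0 j).lt_of_ne' (mem_filter.1 hj).2)) (by positivity)
  have hf : G.emb c = ∑ j ∈ S, G.emb (G.cut c j) := by
    rw [G.sum_cut c hJ, hS, sum_filter_of_ne]
    intro j _ hne h0
    apply hne
    ext x
    have := G.cut_sup hC c j x
    rw [show G.z (G.cut c j) = 0 from h0, mul_zero] at this
    simpa using le_antisymm this (sq_nonneg _)
  have hblock : ∀ j, I (G.emb (G.cut c j) ^ (2 * (k + 1))) ≤ C1 ^ k * θ j ^ (2 * (k + 1)) := by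
    intro j
    have h1 : I (G.emb (G.cut c j) ^ (2 * (k + 1))) ≤
        I ((C1 * A j) ^ k • G.emb (G.cut c j) ^ 2) := by
      refine trud_mono hI fun x => ?_
      have h2 := pow_le_pow_left₀ (sq_nonneg _) (G.cut_sup hC c j x) k
      have h3 := mul_le_mul_of_nonneg_right h2 (sq_nonneg (G.emb (G.cut c j) x))
      simp only [ContinuousMap.pow_apply, ContinuousMap.smul_apply, smul_eq_mul]
      rw [pow_mul, pow_succ]
      exact h3
    rw [map_smul, trud_I_sq, smul_eq_mul] at h1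
    refine h1.trans ?_
    have h2 : ∑ i, G.cut c j i ^ 2 ≤ A j * (r ^ (2 * (k + 1))) ^ j := by
      have h3 := G.cut_sq_le c j
      have h4 := mul_le_mul_of_nonneg_left (pow_le_pow_left₀ (by norm_num) hr2 j) (hA0 j)
      refine le_trans ?_ h4
      rw [one_div, inv_pow, ← div_eq_mul_inv, le_div_iff₀ (by positivity), mul_comm]
      exact h3
    have h5 := hA0 j
    refine (mul_le_mul_of_nonneg_left h2 (by positivity)).trans (le_of_eq ?_)
    simp only [hθ]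
    rw [mul_pow, mul_pow, pow_mul (Real.sqrt (A j)), Real.sq_sqrt h5]
    ring_nf
  set T := ∑ j ∈ S, θ j with hT
  have hT0 : 0 ≤ T := sum_nonneg fun j hj => (hθ0 j hj).le
  have h1 : I (G.emb c ^ (2 * (k + 1))) ≤ I (T ^ (2 * k + 1) •
      ∑ j ∈ S, (θ j ^ (2 * k + 1))⁻¹ • G.emb (G.cut c j) ^ (2 * (k + 1))) := by
    refine trud_mono hI fun x => ?_
    have := trud_mean S θ (fun j => G.emb (G.cut c j) x) hθ0 k
    rw [hf]
    simpa using this
  have h2 : ∑ j ∈ S, (θ j ^ (2 * k + 1))⁻¹ * I (G.emb (G.cut c j) ^ (2 * (k + 1))) ≤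
      C1 ^ k * T := by
    rw [hT, mul_sum]
    refine sum_le_sum fun j hj => ?_
    have h3 := hθ0 j hj
    refine (mul_le_mul_of_nonneg_left (hblock j) (by positivity)).trans (le_of_eq ?_)
    field_simp
    ring
  have h3 : T ^ 2 ≤ G.z c * (4 * ((k : ℝ) + 1)) := by
    refine (sum_mul_sq_le_sq_mul_sq S _ _).trans (mul_le_mul ?_ ?_ (by positivity) (G.trud_z_nonneg c))
    · rw [← G.sum_z_cut c hJ]
      calc _ = ∑ j ∈ S, A j := sum_congr rfl fun j _ => Real.sq_sqrt (hA0 j)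
        _ ≤ _ := sum_le_sum_of_subset_of_nonneg (filter_subset _ _) fun j _ _ => hA0 j
    · calc _ ≤ ∑ j ∈ S, r ^ j := sum_le_sum fun j _ =>
            pow_le_of_le_one (by positivity) (pow_le_one₀ hr0.le hr1.le) two_ne_zero
        _ ≤ ∑' j, r ^ j := (summable_geometric_of_lt_one hr0.le hr1).sum_le_tsum _
            fun j _ => by positivity
        _ = _ := by rw [tsum_geometric_of_lt_one hr0.le hr1, hr]; field_simp; ring
  simp only [map_smul, map_sum, smul_eq_mul] at h1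
  have h4 := mul_le_mul_of_nonneg_left h2 (show 0 ≤ T ^ (2 * k + 1) by positivity)
  have h5 := pow_le_pow_left₀ (sq_nonneg T) h3 (k + 1)
  have h6 : C1 ^ k ≤ C1 ^ (k + 1) := pow_le_pow_right₀ hC10 (Nat.le_succ k)
  have h7 := mul_le_mul h6 h5 (by positivity) (by positivity)
  calc _ ≤ C1 ^ k * (T ^ 2) ^ (k + 1) := by
        refine (h1.trans h4).trans (le_of_eq ?_)
        ring
    _ ≤ _ := h7.trans (le_of_eq (by push_cast; rw [← mul_pow, ← mul_pow]; congr 1; ring))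

end Pool.Agent.MP_417fa2_gt.Flow

end MrgPart3

-- ======== part 4: formerly Pool.Agent.MP_417fa2_gt.Flow.Fine
section MrgPart4

/-!
Parseval and Bessel for spectral families; spectral families are fine.
-/

open Set Filter
open scoped Topology

namespace Pool.Agent.MP_417fa2_gt.Flow

universe u

variable {M : Type u} [TopologicalSpace M] [CompactSpace M] {D : Pre M}

/-- The scalar product as a bilinear map. -/
noncomputable def Pre.bil (D : Pre M) : D.A →ₗ[ℝ] D.A →ₗ[ℝ] ℝ :=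
  LinearMap.mk₂ ℝ D.ip (fun a b c => by simp [Pre.ip, add_mul])
    (fun t a b => by simp [Pre.ip]) (fun a b c => by simp [Pre.ip, mul_add])
    (fun t a b => by simp [Pre.ip])

lemma Pre.ip_eq_bil (D : Pre M) (f g : D.A) : D.ip f g = D.bil f g := rfl

lemma Pre.fine_ip_comm (D : Pre M) (f g : D.A) : D.ip f g = D.ip g f := by
  simp only [Pre.ip, mul_comm]

lemma Pre.nn_eq_ip (D : Pre M) (m : ℕ) (f : D.A) :
    D.nn m f = D.ip (((1 + D.P) ^ m) f) (((1 + D.P) ^ m) f) := by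
  simp only [Pre.nn, Pre.ip, sq]

lemma Pre.nn_zero_eq (D : Pre M) (f : D.A) : D.nn 0 f = D.ip f f := by
  rw [D.nn_eq_ip]; simp

lemma Pre.Ok.fine_ip_self_nonneg (h : D.Ok) (f : D.A) : 0 ≤ D.ip f f :=
  h.I_nonneg _ fun x => by simpa using mul_self_nonneg _

lemma Pre.Ok.fine_nn_nonneg (h : D.Ok) (m : ℕ) (f : D.A) : 0 ≤ D.nn m f := by
  rw [D.nn_eq_ip]; exact h.fine_ip_self_nonneg _

lemma Pre.Ok.fine_symm_pow (h : D.Ok) (m : ℕ) (f g : D.A) :
    D.ip (((1 + D.P) ^ m) f) g = D.ip f (((1 + D.P) ^ m) g) := by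
  induction m generalizing f g with
  | zero => simp
  | succ m ih =>
    have e : ∀ a b : D.A, D.ip ((1 + D.P) a) b = D.ip a ((1 + D.P) b) := fun a b => by
      have := h.symm a b
      simp only [Pre.ip_eq_bil] at this ⊢
      simp [this]
    conv_lhs => rw [pow_succ, Module.End.mul_apply]
    rw [ih, e, pow_succ', Module.End.mul_apply]

lemma Pre.Ok.eq_zero_of_ip (h : D.Ok) {g : D.A} (hg : D.ip g g = 0) : g = 0 := by
  obtain ⟨C, -, hC⟩ := h.agmon
  ext x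
  have h1 := hC g x
  rw [D.nn_zero_eq, hg, mul_zero, zero_mul] at h1
  have h2 : (g : C(M, ℝ)) x ^ 4 = 0 := le_antisymm h1 (by positivity)
  simpa using h2

variable {G : Gal D.I} {Λ : ℝ}

/-- The eigenfunctions as elements of `A`. -/
def Pre.Spec.ph (hs : D.Spec G Λ) (i : Fin G.n) : D.A := ⟨G.φ i, hs.mem i⟩

/-- `G.emb c` as an element of `A`. -/
noncomputable def Pre.Spec.em (hs : D.Spec G Λ) (c : Fin G.n → ℝ) : D.A := ∑ i, c i • hs.ph i

lemma Pre.Spec.coe_em (hs : D.Spec G Λ) (c : Fin G.n → ℝ) :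
    (hs.em c : C(M, ℝ)) = G.emb c := by
  simp [Pre.Spec.em, Gal.emb, Pre.Spec.ph]

lemma Pre.Spec.emb_mem (hs : D.Spec G Λ) (c : Fin G.n → ℝ) : G.emb c ∈ D.A := by
  rw [← hs.coe_em]; exact (hs.em c).2

lemma Pre.Spec.ip_ph (hs : D.Spec G Λ) (f : D.A) (i : Fin G.n) :
    D.ip f (hs.ph i) = D.I (f * G.φ i) := rfl

lemma Pre.Spec.ip_ph_ph (hs : D.Spec G Λ) (i j : Fin G.n) :
    D.ip (hs.ph i) (hs.ph j) = if i = j then 1 else 0 := G.orth i j

lemma Pre.Spec.P_ph (hs : D.Spec G Λ) (i : Fin G.n) : D.P (hs.ph i) = G.lam i • hs.ph i :=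
  hs.eig i _ rfl

lemma Pre.Spec.pow_ph (hs : D.Spec G Λ) (m : ℕ) (i : Fin G.n) :
    ((1 + D.P) ^ m) (hs.ph i) = (1 + G.lam i) ^ m • hs.ph i := by
  induction m with
  | zero => simp
  | succ m ih =>
    rw [pow_succ', Module.End.mul_apply, ih, map_smul, LinearMap.add_apply, hs.P_ph,
      Module.End.one_apply, pow_succ, mul_smul, add_smul, one_smul]

lemma Pre.Spec.P_em (hs : D.Spec G Λ) (c : Fin G.n → ℝ) :
    D.P (hs.em c) = hs.em fun i => G.lam i * c i := by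
  simp only [Pre.Spec.em, map_sum, map_smul, hs.P_ph, smul_smul, mul_comm]

lemma Pre.Spec.pow_em (hs : D.Spec G Λ) (m : ℕ) (c : Fin G.n → ℝ) :
    ((1 + D.P) ^ m) (hs.em c) = hs.em fun i => (1 + G.lam i) ^ m * c i := by
  simp only [Pre.Spec.em, map_sum, map_smul, hs.pow_ph, smul_smul, mul_comm]

lemma Pre.Spec.ip_em (hs : D.Spec G Λ) (f : D.A) (c : Fin G.n → ℝ) :
    D.ip f (hs.em c) = ∑ i, c i * D.ip f (hs.ph i) := by
  simp only [Pre.Spec.em, Pre.ip_eq_bil, map_sum, map_smul, smul_eq_mul]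

lemma Pre.Spec.ip_em_ph (hs : D.Spec G Λ) (c : Fin G.n → ℝ) (i : Fin G.n) :
    D.ip (hs.em c) (hs.ph i) = c i := by
  rw [D.fine_ip_comm, hs.ip_em]
  simp [hs.ip_ph_ph]

lemma Pre.Spec.ip_em_em (hs : D.Spec G Λ) (c d : Fin G.n → ℝ) :
    D.ip (hs.em c) (hs.em d) = ∑ i, c i * d i := by
  rw [hs.ip_em]
  simp only [hs.ip_em_ph, mul_comm]

/-- Parseval on the span. -/
lemma Pre.Spec.nn_em (hs : D.Spec G Λ) (m : ℕ) (c : Fin G.n → ℝ) :
    D.nn m (hs.em c) = ∑ i, (1 + G.lam i) ^ (2 * m) * c i ^ 2 := by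
  rw [D.nn_eq_ip, hs.pow_em, hs.ip_em_em]
  exact Finset.sum_congr rfl fun i _ => by ring

/-- The Fourier coefficients. -/
noncomputable def Pre.Spec.co (_hs : D.Spec G Λ) (f : D.A) (i : Fin G.n) : ℝ := D.I (f * G.φ i)

/-- The remainder of the projection. -/
noncomputable def Pre.Spec.rm (hs : D.Spec G Λ) (f : D.A) : D.A := f - hs.em (hs.co f)

lemma Pre.Spec.rm_orth (hs : D.Spec G Λ) (f : D.A) (i : Fin G.n) :
    D.ip (hs.rm f) (hs.ph i) = 0 := by
  have h1 := hs.ip_em_ph (hs.co f) i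
  have h2 : D.ip f (hs.ph i) = hs.co f i := rfl
  simp only [Pre.ip_eq_bil] at h1 h2 ⊢
  rw [Pre.Spec.rm, map_sub, LinearMap.sub_apply, h1, h2, sub_self]

lemma Pre.Spec.pow_orth (h : D.Ok) (hs : D.Spec G Λ) {g : D.A}
    (hg : ∀ i, D.ip g (hs.ph i) = 0) (m : ℕ) (i : Fin G.n) :
    D.ip (((1 + D.P) ^ m) g) (hs.ph i) = 0 := by
  have := hg i
  rw [h.fine_symm_pow, hs.pow_ph]
  simp only [Pre.ip_eq_bil] at this ⊢
  rw [map_smul, this, smul_zero]

/-- Pythagoras. -/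
lemma Pre.Spec.nn_split (h : D.Ok) (hs : D.Spec G Λ) (m : ℕ) (f : D.A) :
    D.nn m f = ∑ i, (1 + G.lam i) ^ (2 * m) * D.I (f * G.φ i) ^ 2 + D.nn m (hs.rm f) := by
  have e : f = hs.em (hs.co f) + hs.rm f := by simp [Pre.Spec.rm]
  have h1 := hs.nn_em m (hs.co f)
  have h2 : D.ip (((1 + D.P) ^ m) (hs.rm f)) (((1 + D.P) ^ m) (hs.em (hs.co f))) = 0 := by
    rw [hs.pow_em, hs.ip_em]
    simp [hs.pow_orth h (hs.rm_orth f)]
  have h3 := h2
  rw [D.fine_ip_comm] at h3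
  change _ = ∑ i, (1 + G.lam i) ^ (2 * m) * hs.co f i ^ 2 + _
  rw [← h1]
  conv_lhs => rw [e]
  simp only [Pre.nn_eq_ip, Pre.ip_eq_bil] at h2 h3 ⊢
  simp only [map_add, LinearMap.add_apply, h2, h3]
  ring

/-- Bessel. -/
lemma Pre.Spec.bessel (h : D.Ok) (hs : D.Spec G Λ) (m : ℕ) (f : D.A) :
    ∑ i, (1 + G.lam i) ^ (2 * m) * D.I (f * G.φ i) ^ 2 ≤ D.nn m f := by
  have := h.fine_nn_nonneg m (hs.rm f)
  rw [hs.nn_split h m f]; linarith

lemma Pre.Spec.nn_rm_le (h : D.Ok) (hs : D.Spec G Λ) (m : ℕ) (f : D.A) :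
    D.nn m (hs.rm f) ≤ D.nn m f := by
  have : 0 ≤ ∑ i, (1 + G.lam i) ^ (2 * m) * D.I (f * G.φ i) ^ 2 :=
    Finset.sum_nonneg fun i _ => by have := G.lam_nonneg i; positivity
  rw [hs.nn_split h m f]; linarith

lemma Pre.Spec.tail_nn (h : D.Ok) (hs : D.Spec G Λ) (hΛ : 0 ≤ Λ) {g : D.A}
    (hg : ∀ i, D.ip g (hs.ph i) = 0) (m : ℕ) : Λ ^ 2 * D.nn m g ≤ D.nn (m + 1) g := by
  set v := ((1 + D.P) ^ m) g with hv
  have h1 := hs.tail v (hs.pow_orth h hg m)
  have h2 := h.fine_ip_self_nonneg ((1 + D.P) v - Λ • v)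
  have h3 := h.fine_ip_self_nonneg v
  have h4 := D.fine_ip_comm (D.P v) v
  rw [D.nn_eq_ip, D.nn_eq_ip, pow_succ' (1 + D.P), Module.End.mul_apply, ← hv]
  simp only [Pre.ip_eq_bil, LinearMap.add_apply, Module.End.one_apply, map_add, map_sub, map_smul,
    LinearMap.sub_apply, LinearMap.smul_apply, smul_eq_mul] at h1 h2 h3 h4 ⊢
  rw [h4] at h2 ⊢
  have h5 := mul_le_mul_of_nonneg_left h1 hΛ
  have h6 := mul_nonneg hΛ h3
  linarith

lemma Pre.Spec.tail_rm (h : D.Ok) (hs : D.Spec G Λ) (hΛ : 0 ≤ Λ) (m : ℕ) (f : D.A) :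
    Λ ^ 2 * D.nn m (hs.rm f) ≤ D.nn (m + 1) (hs.rm f) :=
  hs.tail_nn h hΛ (hs.rm_orth f) m

lemma Pre.Spec.agm (hs : D.Spec G Λ) {C : ℝ}
    (hC : ∀ (f : D.A) (x : M), (f : C(M, ℝ)) x ^ 4 ≤ C * D.nn 0 f * D.nn 1 f) : G.Agm C := by
  intro c x
  have := hC (hs.em c) x
  rw [hs.coe_em, hs.nn_em, hs.nn_em] at this
  simpa using this

theorem fine (h1 : SpecStmt.{u}) (h2 : TrudStmt.{u}) : FineStmt.{u} := by
  intro M _ _ D h
  obtain ⟨G1, hG1⟩ := h1 M D h 1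
  obtain ⟨C, -, hC⟩ := h.agmon
  obtain ⟨K, hK0, hK⟩ := h2 M D.I h.I_nonneg C
  have hS : 0 ≤ ∑ j, (G1.lam j)⁻¹ :=
    Finset.sum_nonneg fun j _ => inv_nonneg.2 (G1.lam_nonneg j)
  refine ⟨(∑ j, (G1.lam j)⁻¹ + 1)⁻¹, K, by positivity, hK0, fun G Λ hΛ hs => ⟨?_, ?_, ?_, ?_⟩⟩
  · intro i
    by_cases hj : ∃ j, G1.lam j = G.lam i
    · obtain ⟨j, hj⟩ := hj
      rcases (G.lam_nonneg i).eq_or_lt with h0 | h0
      · exact Or.inl h0.symm
      · right
        have h3 : (G1.lam j)⁻¹ ≤ ∑ j, (G1.lam j)⁻¹ :=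
          Finset.single_le_sum (f := fun j => (G1.lam j)⁻¹)
            (fun j _ => inv_nonneg.2 (G1.lam_nonneg j)) (Finset.mem_univ j)
        rw [hj] at h3
        exact (inv_le_comm₀ (by positivity) h0).2 (by linarith)
    · right
      push Not at hj
      have h3 := hG1.tail (hs.ph i) fun j => by
        have h4 := h.symm (hs.ph i) (hG1.ph j)
        rw [hs.P_ph, hG1.P_ph] at h4
        simp only [Pre.ip_eq_bil, map_smul, LinearMap.smul_apply, smul_eq_mul] at h4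
        rw [← hG1.ip_ph, Pre.ip_eq_bil]
        exact mul_left_cancel₀ (sub_ne_zero.2 (hj j)) (by linarith)
      have h4 := hs.ip_ph_ph i i
      rw [hs.P_ph] at h3
      simp only [Pre.ip_eq_bil, map_smul, smul_eq_mul, if_true] at h3 h4
      rw [h4] at h3
      have h5 : (∑ j, (G1.lam j)⁻¹ + 1)⁻¹ ≤ 1 := inv_le_one_of_one_le₀ (by linarith)
      linarith
  · intro i hi
    obtain ⟨a, ha⟩ := h.ker (hs.ph i) (by rw [hs.P_ph, hi, zero_smul])
    exact ⟨a, by simpa [Pre.Spec.ph] using congrArg Subtype.val ha⟩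
  · have he : ∀ i, G.lam i * hs.co 1 i = 0 := fun i => by
      have h4 := h.symm 1 (hs.ph i)
      have h5 : D.ip 1 (hs.ph i) = hs.co 1 i := rfl
      rw [hs.P_ph, h.P_one] at h4
      simp only [Pre.ip_eq_bil, map_smul, smul_eq_mul, map_zero, LinearMap.zero_apply] at h4 h5
      rw [← h5, ← h4]
    refine ⟨hs.co 1, ?_, he⟩
    have h3 : D.P (hs.rm 1) = 0 := by
      rw [Pre.Spec.rm, map_sub, h.P_one, hs.P_em]
      simp [he, Pre.Spec.em]
    have h4 := hs.tail (hs.rm 1) (hs.rm_orth 1)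
    have h5 := h.fine_ip_self_nonneg (hs.rm 1)
    rw [h3, D.ip_eq_bil _ 0, map_zero] at h4
    have h6 := h.eq_zero_of_ip (g := hs.rm 1) (by nlinarith)
    rw [Pre.Spec.rm, sub_eq_zero] at h6
    rw [← hs.coe_em, ← h6]; rfl
  · exact hK G (hs.agm hC)

end Pool.Agent.MP_417fa2_gt.Flow

end MrgPart4

-- ======== part 5: formerly Pool.Agent.MP_417fa2_gt.Flow.Sys
section MrgPart5

/-!
The identities of the Galerkin system: smoothness of the field, the differentiated equations and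
the polynomial structure of the lower order terms.
-/

open Set Filter Matrix
open scoped Topology ContDiff

namespace Pool.Agent.MP_417fa2_gt.Flow

universe u

set_option linter.unusedSectionVars false

variable {M : Type u} [TopologicalSpace M] [CompactSpace M] {I : C(M, ℝ) →L[ℝ] ℝ}

theorem sys_ex_eq (f : C(M, ℝ)) : ex f = NormedSpace.exp f := by
  ext x
  have := NormedSpace.map_exp_of_mem_ball (𝕂 := ℝ) (ContinuousMap.evalAlgHom ℝ ℝ x)
    (continuous_eval_const x) f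
    ((NormedSpace.expSeries_radius_eq_top ℝ C(M, ℝ)).symm ▸ edist_lt_top _ _)
  rw [← Real.exp_eq_exp_ℝ] at this
  exact this.symm

theorem sys_det {E : Type*} [NormedAddCommGroup E] [NormedSpace ℝ E] {n : ℕ}
    {A : E → Matrix (Fin n) (Fin n) ℝ} (h : ∀ i j, ContDiff ℝ ∞ fun c => A c i j) :
    ContDiff ℝ ∞ fun c => (A c).det := by
  simp only [det_apply']
  exact ContDiff.sum fun σ _ => contDiff_const.mul (contDiff_prod fun i _ => h _ _)

theorem sys_inv {E : Type*} [NormedAddCommGroup E] [NormedSpace ℝ E] {n : ℕ}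
    {A : E → Matrix (Fin n) (Fin n) ℝ} (h : ∀ i j, ContDiff ℝ ∞ fun c => A c i j)
    (h0 : ∀ c, (A c).det ≠ 0) {b : E → Fin n → ℝ} (hb : ∀ i, ContDiff ℝ ∞ fun c => b c i) :
    ContDiff ℝ ∞ fun c => (A c)⁻¹ *ᵥ b c := by
  refine contDiff_pi.2 fun i => ?_
  simp only [mulVec, dotProduct, inv_def, Ring.inverse_eq_inv', Matrix.smul_apply, smul_eq_mul,
    adjugate_apply]
  refine ContDiff.sum fun j _ => (((sys_det h).inv h0).mul (sys_det fun k l => ?_)).mul (hb j)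
  simp only [updateRow_apply]
  split_ifs
  · exact contDiff_const
  · exact h k l

namespace Gal

variable (G : Gal I) (Q : C(M, ℝ))

/-- The embedding as a continuous linear map. -/
noncomputable def sysL : (Fin G.n → ℝ) →L[ℝ] C(M, ℝ) :=
  ∑ i, (ContinuousLinearMap.proj i : (Fin G.n → ℝ) →L[ℝ] ℝ).smulRight (G.φ i)

theorem sysL_eq : G.emb = G.sysL := by
  funext c
  simp [sysL, emb]

theorem sys_I_emb (f : C(M, ℝ)) (v : Fin G.n → ℝ) :
    I (f * G.emb v) = ∑ i, v i * I (f * G.φ i) := by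
  simp only [emb, Finset.mul_sum, mul_smul_comm, map_sum, map_smul, smul_eq_mul]

theorem sys_gram_mulVec (c v : Fin G.n → ℝ) (i : Fin G.n) :
    (G.gram c *ᵥ v) i = I (G.rho c * G.emb v * G.φ i) := by
  rw [mul_right_comm, sys_I_emb]
  simp only [mulVec, dotProduct, gram, of_apply]
  exact Finset.sum_congr rfl fun j _ => by rw [mul_comm, mul_right_comm]

theorem sys_rho_eq : G.rho = fun c => NormedSpace.exp ((4 : ℝ) • G.sysL c) := by
  funext c
  rw [rho, sys_ex_eq, sysL_eq]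

theorem sys_rho_sm : ContDiff ℝ ∞ G.rho := by
  rw [sys_rho_eq]
  have : ContDiff ℝ ∞ (NormedSpace.exp : C(M, ℝ) → C(M, ℝ)) :=
    contDiff_iff_contDiffAt.2 fun f => (NormedSpace.exp_analytic (𝕂 := ℝ) f).contDiffAt
  exact this.comp (G.sysL.contDiff.const_smul (4 : ℝ))

theorem sys_derRho {s : Set ℝ} {t : ℝ} {c : ℝ → Fin G.n → ℝ} {v : Fin G.n → ℝ}
    (h : HasDerivWithinAt c v s t) :
    HasDerivWithinAt (fun t => G.rho (c t)) ((4 : ℝ) • (G.rho (c t) * G.emb v)) s t := by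
  have h1 := (G.sysL.hasFDerivAt.comp_hasDerivWithinAt t h).const_smul (4 : ℝ)
  have h2 := (hasFDerivAt_exp (𝕂 := ℝ)
    (x := (4 : ℝ) • G.sysL (c t))).comp_hasDerivWithinAt t h1
  rw [sys_rho_eq, sysL_eq]
  refine h2.congr_deriv ?_
  simp

variable (hI : ∀ f : C(M, ℝ), (∀ x, 0 ≤ f x) → 0 ≤ I f)
include hI

theorem sys_gram_det (c : Fin G.n → ℝ) : (G.gram c).det ≠ 0 := by
  intro h
  obtain ⟨v, hv, h0⟩ := exists_mulVec_eq_zero_iff.2 h
  have h1 : I (G.rho c * G.emb v * G.emb v) = 0 := by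
    rw [sys_I_emb]
    simp only [← sys_gram_mulVec, h0, Pi.zero_apply, mul_zero, Finset.sum_const_zero]
  have h2 : I (G.emb v * G.emb v) = ∑ i, v i * v i := by
    rw [sys_I_emb]
    refine Finset.sum_congr rfl fun i _ => ?_
    rw [mul_comm (G.emb v), sys_I_emb]
    simp [G.orth]
  have h3 := hI (‖ex ((-4 : ℝ) • G.emb c)‖ • (G.rho c * G.emb v * G.emb v) - G.emb v * G.emb v)
    fun x => by
      have e1 := (le_abs_self _).trans ((ex ((-4 : ℝ) • G.emb c)).norm_coe_le_norm x)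
      have e2 : ex ((-4 : ℝ) • G.emb c) x * G.rho c x = 1 := by
        simp only [rho, ex, ContinuousMap.coe_mk, ContinuousMap.smul_apply, smul_eq_mul,
          ← Real.exp_add]
        simp
      have e3 : 0 < G.rho c x := Real.exp_pos _
      have e4 := mul_le_mul_of_nonneg_right (mul_le_mul_of_nonneg_right e1 e3.le)
        (mul_self_nonneg (G.emb v x))
      rw [e2] at e4
      simp only [ContinuousMap.sub_apply, ContinuousMap.smul_apply, ContinuousMap.mul_apply,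
        smul_eq_mul]
      linarith
  rw [map_sub, map_smul, h1, h2, smul_zero] at h3
  have h4 := (Finset.sum_eq_zero_iff_of_nonneg fun i _ => mul_self_nonneg (v i)).1
    (le_antisymm (by linarith) (Finset.sum_nonneg fun i _ => mul_self_nonneg (v i)))
  exact hv (funext fun i => mul_self_eq_zero.1 (h4 i (Finset.mem_univ i)))

theorem sys_solve (c b : Fin G.n → ℝ) (i : Fin G.n) :
    I (G.rho c * G.emb ((G.gram c)⁻¹ *ᵥ b) * G.φ i) = b i := by
  rw [← sys_gram_mulVec, mulVec_mulVec,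
    mul_nonsing_inv _ (isUnit_iff_ne_zero.2 (G.sys_gram_det hI c)), one_mulVec]

omit hI in
theorem sys_gram_sm (i j : Fin G.n) : ContDiff ℝ ∞ fun c => G.gram c i j :=
  I.contDiff.comp ((G.sys_rho_sm.mul contDiff_const).mul contDiff_const)

theorem sys_U0_sm : ContDiff ℝ ∞ (G.U0 Q) :=
  sys_inv G.sys_gram_sm (G.sys_gram_det hI) fun i => by fun_prop

theorem sys_U1_sm : ContDiff ℝ ∞ (G.U1 Q) :=
  sys_inv G.sys_gram_sm (G.sys_gram_det hI) fun i =>
    contDiff_const.mul (contDiff_pi.1 (G.sys_U0_sm Q hI) i)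

theorem sys_dir_sm {B : Type*} [NormedAddCommGroup B] [NormedSpace ℝ B]
    {f : (Fin G.n → ℝ) → B} (hf : ContDiff ℝ ∞ f) :
    ContDiff ℝ ∞ fun c => fderiv ℝ f c (G.U1 Q c) :=
  (hf.fderiv_right (by simp)).clm_apply (G.sys_U1_sm Q hI)

theorem sys_U_sm : ∀ n, ContDiff ℝ ∞ (G.U Q n)
  | 0 => G.sys_U0_sm Q hI
  | 1 => G.sys_U1_sm Q hI
  | n + 2 => G.sys_dir_sm Q hI (sys_U_sm n)

theorem sys_u_sm (n : ℕ) : ContDiff ℝ ∞ (G.u Q n) := by
  have : G.u Q n = fun c => G.sysL (G.U Q n c) := funext fun c => by rw [u, sysL_eq]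
  rw [this]
  exact G.sysL.contDiff.comp (G.sys_U_sm Q hI n)

theorem sys_T_sm : ∀ n, ContDiff ℝ ∞ (G.T Q n)
  | 0 => contDiff_const
  | 1 => ((G.sys_u_sm Q hI 0).mul (G.sys_u_sm Q hI 1)).const_smul (4 : ℝ)
  | n + 2 => (G.sys_dir_sm Q hI (sys_T_sm n)).add (((G.sys_u_sm Q hI 1).mul
      ((G.sys_u_sm Q hI (n + 1)).add (sys_T_sm n))).const_smul (4 : ℝ))

omit hI in
theorem sys_curve {B : Type*} [NormedAddCommGroup B] [NormedSpace ℝ B] {f : (Fin G.n → ℝ) → B}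
    (hf : ContDiff ℝ ∞ f) {s : Set ℝ} {t : ℝ} {c : ℝ → Fin G.n → ℝ} {v : Fin G.n → ℝ}
    (h : HasDerivWithinAt c v s t) :
    HasDerivWithinAt (fun t => f (c t)) (fderiv ℝ f (c t) v) s t :=
  (hf.differentiable (by simp) (c t)).hasFDerivAt.comp_hasDerivWithinAt t h

theorem sys_derU (n : ℕ) {s : Set ℝ} {t : ℝ} {c : ℝ → Fin G.n → ℝ}
    (h : HasDerivWithinAt c (G.U1 Q (c t)) s t) :
    HasDerivWithinAt (fun t => G.U Q n (c t)) (G.U Q (n + 2) (c t)) s t :=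
  G.sys_curve (G.sys_U_sm Q hI n) h

theorem sys_deru (n : ℕ) {s : Set ℝ} {t : ℝ} {c : ℝ → Fin G.n → ℝ}
    (h : HasDerivWithinAt c (G.U1 Q (c t)) s t) :
    HasDerivWithinAt (fun t => G.u Q n (c t)) (G.u Q (n + 2) (c t)) s t := by
  simp only [u, sysL_eq]
  exact G.sysL.hasFDerivAt.comp_hasDerivWithinAt t (G.sys_derU Q hI n h)

omit hI in
theorem sys_line (c : Fin G.n → ℝ) : ∃ l : ℝ → Fin G.n → ℝ, l 0 = c ∧
    HasDerivWithinAt l (G.U1 Q (l 0)) univ 0 := by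
  refine ⟨fun t => c + t • G.U1 Q c, by simp, ?_⟩
  simpa using ((hasDerivAt_id (0 : ℝ)).smul_const (G.U1 Q c)).const_add c

omit hI in
theorem sys_uniq {B : Type*} [NormedAddCommGroup B] [NormedSpace ℝ B] {f : ℝ → B} {a b : B}
    (h1 : HasDerivWithinAt f a univ 0) (h2 : HasDerivWithinAt f b univ 0) : a = b :=
  (hasDerivWithinAt_univ.1 h1).unique (hasDerivWithinAt_univ.1 h2)

theorem sys_eq0 (c : Fin G.n → ℝ) (i : Fin G.n) :
    I (G.rho c * G.u Q 0 c * G.φ i) = 1 / 2 * G.lam i * c i + I (Q * G.φ i) :=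
  G.sys_solve hI c _ i

theorem sys_eqn : ∀ (n : ℕ) (c : Fin G.n → ℝ) (i : Fin G.n),
    I (G.rho c * (G.u Q (n + 1) c + G.T Q n c) * G.φ i) = sg n * G.lam i * G.U Q n c i
  | 0, c, i => by
    have := G.sys_solve hI c (fun i => -1 / 2 * G.lam i * G.U0 Q c i) i
    simp only [T, add_zero, sg, zero_add, pow_one]
    exact this
  | 1, c, i => by
    obtain ⟨l, rfl, hl⟩ := G.sys_line Q c
    have h1 := I.hasFDerivAt.comp_hasDerivWithinAt (0 : ℝ)
      (((G.sys_derRho hl).mul (G.sys_deru Q hI 0 hl)).mul_const (G.φ i))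
    have h2 := ((hasDerivWithinAt_pi.1 hl i).const_mul (1 / 2 * G.lam i)).add_const (I (Q * G.φ i))
    have h3 := sys_uniq (h1.congr (fun t _ => (G.sys_eq0 Q hI (l t) i).symm)
      (G.sys_eq0 Q hI (l 0) i).symm) h2
    rw [show sg 1 = 1 / 2 by norm_num [sg]]
    refine Eq.trans (congrArg I ?_) h3
    simp only [T, u, U, smul_mul_assoc]
    ext x
    simp only [ContinuousMap.add_apply, ContinuousMap.mul_apply, ContinuousMap.smul_apply,
      smul_eq_mul]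
    ring
  | n + 2, c, i => by
    obtain ⟨l, rfl, hl⟩ := G.sys_line Q c
    have h1 := I.hasFDerivAt.comp_hasDerivWithinAt (0 : ℝ) (((G.sys_derRho hl).mul
      ((G.sys_deru Q hI (n + 1) hl).add (G.sys_curve (G.sys_T_sm Q hI n) hl))).mul_const (G.φ i))
    have h2 := (hasDerivWithinAt_pi.1 (G.sys_derU Q hI n hl) i).const_mul (sg n * G.lam i)
    have h3 := sys_uniq (h1.congr (fun t _ => (sys_eqn n (l t) i).symm)
      (sys_eqn n (l 0) i).symm) h2
    rw [show sg (n + 2) = sg n by simp only [sg, pow_succ]; ring]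
    refine Eq.trans (congrArg I ?_) h3
    rw [T, show G.emb (G.U1 Q (l 0)) = G.u Q 1 (l 0) from rfl]
    ext x
    simp only [ContinuousMap.add_apply, ContinuousMap.mul_apply, ContinuousMap.smul_apply,
      smul_eq_mul, Pi.add_apply]
    ring

theorem sys_derY (n : ℕ) {s : Set ℝ} {t : ℝ} {c : ℝ → Fin G.n → ℝ}
    (h : HasDerivWithinAt c (G.U1 Q (c t)) s t) :
    HasDerivWithinAt (fun t => G.Y Q n (c t)) (G.dY Q n (c t)) s t := by
  have h1 := I.hasFDerivAt.comp_hasDerivWithinAt t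
    ((G.sys_derRho h).mul ((G.sys_deru Q hI n h).mul (G.sys_deru Q hI n h)))
  simp only [Y, sq]
  refine h1.congr_deriv ?_
  have e1 : I (G.rho (c t) * (G.u Q (n + 2) (c t) + G.T Q (n + 1) (c t)) * G.u Q n (c t)) +
      I (G.rho (c t) * (G.u Q (n + 1) (c t) + G.T Q n (c t)) * G.u Q (n + 1) (c t)) = 0 := by
    have e : ∀ (f : C(M, ℝ)) (k : ℕ), I (f * G.u Q k (c t)) =
        ∑ i, G.U Q k (c t) i * I (f * G.φ i) := fun f k => G.sys_I_emb f _
    rw [e, e, ← Finset.sum_add_distrib]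
    refine Finset.sum_eq_zero fun i _ => ?_
    rw [G.sys_eqn Q hI (n + 1), G.sys_eqn Q hI n]
    simp only [sg, pow_succ]
    ring
  have e2 : ∀ a b : C(M, ℝ), a = b → I a = I b := fun a b h => congrArg I h
  have e3 := e2 ((4 : ℝ) • (G.rho (c t) * G.u Q 1 (c t)) * (G.u Q n (c t) * G.u Q n (c t)) +
      G.rho (c t) * (G.u Q (n + 2) (c t) * G.u Q n (c t) + G.u Q n (c t) * G.u Q (n + 2) (c t)))
    ((2 : ℝ) • (G.rho (c t) * (G.u Q (n + 2) (c t) + G.T Q (n + 1) (c t)) * G.u Q n (c t)) +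
      (2 : ℝ) • (G.rho (c t) * (G.u Q (n + 1) (c t) + G.T Q n (c t)) * G.u Q (n + 1) (c t)) -
      (2 : ℝ) • (G.rho (c t) * G.u Q (n + 1) (c t) ^ 2) -
      (2 : ℝ) • (G.rho (c t) * G.T Q n (c t) * G.u Q (n + 1) (c t)) -
      (2 : ℝ) • (G.rho (c t) * G.T Q (n + 1) (c t) * G.u Q n (c t)) +
      (4 : ℝ) • (G.rho (c t) * G.u Q 1 (c t) * G.u Q n (c t) ^ 2)) (by
      ext x
      simp only [ContinuousMap.add_apply, ContinuousMap.sub_apply, ContinuousMap.mul_apply,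
        ContinuousMap.smul_apply, ContinuousMap.pow_apply, smul_eq_mul]
      ring)
  refine e3.trans ?_
  simp only [map_add, map_sub, map_smul, smul_eq_mul, dY, Y]
  linarith

end Gal

/-- The derivative of a family along the Galerkin field. -/
noncomputable def sysD (Q : C(M, ℝ)) (F : Fam I) : Fam I :=
  fun G c => fderiv ℝ (F G) c (G.U1 Q c)

/-- Smooth families. -/
def SysSm (F : Fam I) : Prop := ∀ G, ContDiff ℝ ∞ (F G)

variable {Q : C(M, ℝ)} {F F' : Fam I}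

theorem SysSm.add (h : SysSm F) (k : SysSm F') : SysSm (F + F') := fun G => (h G).add (k G)

theorem SysSm.mul (h : SysSm F) (k : SysSm F') : SysSm (F * F') := fun G => (h G).mul (k G)

theorem SysSm.smul (h : SysSm F) (a : ℝ) : SysSm (a • F) := fun G => (h G).const_smul a

theorem sysD_add (h : SysSm F) (k : SysSm F') : sysD Q (F + F') = sysD Q F + sysD Q F' := by
  funext G c
  obtain ⟨l, rfl, hl⟩ := G.sys_line Q c
  exact Gal.sys_uniq (G.sys_curve (h.add k G) hl)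
    ((G.sys_curve (h G) hl).add (G.sys_curve (k G) hl))

theorem sysD_mul (h : SysSm F) (k : SysSm F') :
    sysD Q (F * F') = sysD Q F * F' + F * sysD Q F' := by
  funext G c
  obtain ⟨l, rfl, hl⟩ := G.sys_line Q c
  exact Gal.sys_uniq (G.sys_curve (h.mul k G) hl)
    ((G.sys_curve (h G) hl).mul (G.sys_curve (k G) hl))

theorem sysD_smul (h : SysSm F) (a : ℝ) : sysD Q (a • F) = a • sysD Q F := by
  funext G c
  obtain ⟨l, rfl, hl⟩ := G.sys_line Q c
  exact Gal.sys_uniq (G.sys_curve (h.smul a G) hl) ((G.sys_curve (h G) hl).const_smul a)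

theorem sysD_const (a : ℝ) : sysD Q (algebraMap ℝ (Fam I) a) = 0 := by
  funext G c
  have : algebraMap ℝ (Fam I) a G = fun _ => algebraMap ℝ C(M, ℝ) a := rfl
  simp [sysD, this]

theorem sys_mem {n k : ℕ} (h : n < k) : uF I Q n ∈ Pol I Q k :=
  Algebra.subset_adjoin ⟨n, h, rfl⟩

theorem sys_mono {k l : ℕ} (h : k ≤ l) (hF : F ∈ Pol I Q k) : F ∈ Pol I Q l :=
  Algebra.adjoin_mono (image_mono (Iio_subset_Iio h)) hF

theorem sys_T_succ (n : ℕ) : TF I Q (n + 2) =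
    sysD Q (TF I Q n) + (4 : ℝ) • (uF I Q 1 * (uF I Q (n + 1) + TF I Q n)) := rfl

theorem sys_T_zero : TF I Q 0 = 0 := rfl

theorem sys_T_one : TF I Q 1 = (4 : ℝ) • (uF I Q 0 * uF I Q 1) := rfl

theorem sysD_zero : sysD Q (0 : Fam I) = 0 := by simpa using sysD_const (I := I) (Q := Q) 0

variable (hI : ∀ f : C(M, ℝ), (∀ x, 0 ≤ f x) → 0 ≤ I f)
include hI

theorem sys_uF_sm (n : ℕ) : SysSm (uF I Q n) := fun G => G.sys_u_sm Q hI n

theorem sysD_uF (n : ℕ) : sysD Q (uF I Q n) = uF I Q (n + 2) := by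
  funext G c
  obtain ⟨l, rfl, hl⟩ := G.sys_line Q c
  exact Gal.sys_uniq (G.sys_curve (G.sys_u_sm Q hI n) hl) (G.sys_deru Q hI n hl)

theorem sys_pol_der {k : ℕ} (hF : F ∈ Pol I Q k) : SysSm F ∧ sysD Q F ∈ Pol I Q (k + 2) := by
  induction hF using Algebra.adjoin_induction with
  | mem x hx =>
    obtain ⟨n, hn, rfl⟩ := hx
    exact ⟨sys_uF_sm hI n, by rw [sysD_uF hI]; exact sys_mem (Nat.add_lt_add_right hn 2)⟩
  | algebraMap a => exact ⟨fun G => contDiff_const, by rw [sysD_const]; exact zero_mem _⟩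
  | add x y _ _ hx hy =>
    exact ⟨hx.1.add hy.1, by rw [sysD_add hx.1 hy.1]; exact add_mem hx.2 hy.2⟩
  | mul x y mx my hx hy =>
    exact ⟨hx.1.mul hy.1, by
      rw [sysD_mul hx.1 hy.1]
      exact add_mem (mul_mem hx.2 (sys_mono (k := k) (by omega) my))
        (mul_mem (sys_mono (k := k) (by omega) mx) hy.2)⟩

theorem sys_pol : ∀ n, TF I Q n ∈ Pol I Q (n + 1)
  | 0 => zero_mem _
  | 1 => Subalgebra.smul_mem _ (mul_mem (sys_mem (by omega)) (sys_mem (by omega))) _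
  | n + 2 => by
    rw [sys_T_succ]
    exact add_mem (sys_pol_der hI (sys_pol n)).2 (Subalgebra.smul_mem _ (mul_mem
      (sys_mem (by omega)) (add_mem (sys_mem (by omega)) (sys_mono (by omega) (sys_pol n)))) _)

omit hI in
theorem sys_two : TF I Q 2 = (4 : ℝ) • (uF I Q 1 * uF I Q 1) := by
  rw [sys_T_succ, sys_T_zero, sysD_zero, zero_add, add_zero]

theorem sys_three : TF I Q 3 = (4 : ℝ) • (uF I Q 0 * uF I Q 3) +
    (8 : ℝ) • (uF I Q 1 * uF I Q 2) + (16 : ℝ) • (uF I Q 0 * uF I Q 1 * uF I Q 1) := by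
  rw [sys_T_succ, sys_T_one, sysD_smul ((sys_uF_sm hI 0).mul (sys_uF_sm hI 1)),
    sysD_mul (sys_uF_sm hI 0) (sys_uF_sm hI 1), sysD_uF hI, sysD_uF hI]
  simp only [Algebra.smul_def, map_ofNat]
  ring

/-- The structure of the top order terms. -/
def SysStr (I : C(M, ℝ) →L[ℝ] ℝ) (Q : C(M, ℝ)) (m : ℕ) : Prop :=
  ∃ a ∈ Pol I Q (m + 2), ∃ b ∈ Pol I Q (m + 2), ∃ c ∈ Pol I Q (m + 2), ∃ d ∈ Pol I Q (m + 2),
    TF I Q (m + 4) = a * uF I Q (m + 4) + b * uF I Q (m + 3) + c * uF I Q (m + 2) + d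

theorem sys_str : ∀ m, SysStr I Q m
  | 0 => by
    have m1 : uF I Q 1 ∈ Pol I Q 2 := sys_mem (by omega)
    refine ⟨0, zero_mem _, 12 * uF I Q 1, mul_mem (ofNat_mem _ 12) m1, 0, zero_mem _,
      16 * uF I Q 1 ^ 3, mul_mem (ofNat_mem _ 16) (pow_mem m1 3), ?_⟩
    rw [sys_T_succ, sys_two, sysD_smul ((sys_uF_sm hI 1).mul (sys_uF_sm hI 1)),
      sysD_mul (sys_uF_sm hI 1) (sys_uF_sm hI 1), sysD_uF hI]
    simp only [Algebra.smul_def, map_ofNat]
    ring
  | 1 => by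
    have m0 : uF I Q 0 ∈ Pol I Q 3 := sys_mem (by omega)
    have m1 : uF I Q 1 ∈ Pol I Q 3 := sys_mem (by omega)
    have m2 : uF I Q 2 ∈ Pol I Q 3 := sys_mem (by omega)
    have s := fun n => sys_uF_sm (Q := Q) hI n
    refine ⟨4 * uF I Q 0, mul_mem (ofNat_mem _ 4) m0, 12 * uF I Q 1, mul_mem (ofNat_mem _ 12) m1,
      12 * uF I Q 2 + 48 * (uF I Q 0 * uF I Q 1),
      add_mem (mul_mem (ofNat_mem _ 12) m2) (mul_mem (ofNat_mem _ 48) (mul_mem m0 m1)),
      48 * (uF I Q 1 ^ 2 * uF I Q 2) + 64 * (uF I Q 0 * uF I Q 1 ^ 3),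
      add_mem (mul_mem (ofNat_mem _ 48) (mul_mem (pow_mem m1 2) m2))
        (mul_mem (ofNat_mem _ 64) (mul_mem m0 (pow_mem m1 3))), ?_⟩
    rw [sys_T_succ, sys_three hI,
      sysD_add ((((s 0).mul (s 3)).smul _).add (((s 1).mul (s 2)).smul _))
        ((((s 0).mul (s 1)).mul (s 1)).smul _),
      sysD_add (((s 0).mul (s 3)).smul _) (((s 1).mul (s 2)).smul _),
      sysD_smul ((s 0).mul (s 3)), sysD_smul ((s 1).mul (s 2)),
      sysD_smul (((s 0).mul (s 1)).mul (s 1)), sysD_mul ((s 0).mul (s 1)) (s 1),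
      sysD_mul (s 0) (s 3), sysD_mul (s 1) (s 2), sysD_mul (s 0) (s 1)]
    simp only [sysD_uF hI, Algebra.smul_def, map_ofNat]
    ring
  | m + 2 => by
    obtain ⟨a, ha, b, hb, c, hc, d, hd, e⟩ := sys_str m
    have s := fun n => sys_uF_sm (Q := Q) hI n
    obtain ⟨sa, da⟩ := sys_pol_der hI ha
    obtain ⟨sb, db⟩ := sys_pol_der hI hb
    obtain ⟨sc, dc⟩ := sys_pol_der hI hc
    obtain ⟨sd, dd⟩ := sys_pol_der hI hd
    have le : m + 2 ≤ m + 2 + 2 := by omega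
    have m1 : 4 * uF I Q 1 ∈ Pol I Q (m + 2 + 2) := mul_mem (ofNat_mem _ 4) (sys_mem (by omega))
    have m2 : uF I Q (m + 2) ∈ Pol I Q (m + 2 + 2) := sys_mem (by omega)
    have m3 : uF I Q (m + 3) ∈ Pol I Q (m + 2 + 2) := sys_mem (by omega)
    refine ⟨a, sys_mono le ha, b + 4 * uF I Q 1, add_mem (sys_mono le hb) m1,
      sysD Q a + c + 4 * uF I Q 1 * a,
      add_mem (add_mem da (sys_mono le hc)) (mul_mem m1 (sys_mono le ha)),
      sysD Q b * uF I Q (m + 3) + sysD Q c * uF I Q (m + 2) + sysD Q d +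
        4 * uF I Q 1 * (b * uF I Q (m + 3) + c * uF I Q (m + 2) + d),
      add_mem (add_mem (add_mem (mul_mem db m3) (mul_mem dc m2)) dd) (mul_mem m1 (add_mem
        (add_mem (mul_mem (sys_mono le hb) m3) (mul_mem (sys_mono le hc) m2))
        (sys_mono le hd))), ?_⟩
    rw [show m + 2 + 4 = m + 4 + 2 by omega, sys_T_succ, e,
      sysD_add (((sa.mul (s _)).add (sb.mul (s _))).add (sc.mul (s _))) sd,
      sysD_add ((sa.mul (s _)).add (sb.mul (s _))) (sc.mul (s _)),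
      sysD_add (sa.mul (s _)) (sb.mul (s _)), sysD_mul sa (s _), sysD_mul sb (s _),
      sysD_mul sc (s _)]
    simp only [sysD_uF hI, Algebra.smul_def, map_ofNat, add_assoc m, Nat.reduceAdd]
    ring

omit hI in
theorem sys : SysStmt.{u} := fun _ _ _ _ Q hI _ =>
  { smU := fun G n => G.sys_U_sm Q hI n
    eq0 := fun G c i => G.sys_eq0 Q hI c i
    eqn := fun G n c i => G.sys_eqn Q hI n c i
    derRho := fun G _ _ _ _ h => G.sys_derRho h
    derY := fun G n _ _ _ h => G.sys_derY Q hI n h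
    pol := sys_pol hI
    two := sys_two
    three := sys_three hI
    str := sys_str hI }

end Pool.Agent.MP_417fa2_gt.Flow

end MrgPart5

-- ======== part 6: formerly Pool.Agent.MP_417fa2_gt.Flow.Lim
section MrgPart6

/-!
The limit of the Galerkin solutions along an ultrafilter.
-/

open Set Filter
open scoped Topology ContDiff

namespace Pool.Agent.MP_417fa2_gt.Flow

universe u

variable {M : Type u} [TopologicalSpace M] [CompactSpace M] {D : Pre M}

namespace Lim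

lemma nn_smul (m : ℕ) (a : ℝ) (f : D.A) : D.nn m (a • f) = a ^ 2 * D.nn m f := by
  simp only [Pre.nn_eq_ip, Pre.ip_eq_bil, map_smul, LinearMap.smul_apply, smul_eq_mul]
  ring

lemma nn_zero (m : ℕ) : D.nn m 0 = 0 := by
  simpa using nn_smul (D := D) m 0 0

lemma nn_add_le (h : D.Ok) (m : ℕ) (f g : D.A) :
    D.nn m (f + g) ≤ 2 * D.nn m f + 2 * D.nn m g := by
  have h1 := h.fine_nn_nonneg m (f - g)
  simp only [Pre.nn_eq_ip, Pre.ip_eq_bil, map_add, map_sub, LinearMap.add_apply,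
    LinearMap.sub_apply] at h1 ⊢
  linarith

lemma nn_sub_le (h : D.Ok) (m : ℕ) (f g : D.A) :
    D.nn m (f - g) ≤ 2 * D.nn m f + 2 * D.nn m g := by
  have h1 := h.fine_nn_nonneg m (f + g)
  simp only [Pre.nn_eq_ip, Pre.ip_eq_bil, map_add, map_sub, LinearMap.add_apply,
    LinearMap.sub_apply] at h1 ⊢
  linarith

lemma nn_P_le (h : D.Ok) (m : ℕ) (f : D.A) :
    D.nn m (D.P f) ≤ 2 * D.nn (m + 1) f + 2 * D.nn m f := by
  have e : D.P f = (1 + D.P) f - f := by simp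
  have e2 : D.nn m ((1 + D.P) f) = D.nn (m + 1) f := by
    rw [Pre.nn, Pre.nn, pow_succ (1 + D.P), Module.End.mul_apply]
  rw [e, ← e2]
  exact nn_sub_le h m _ _

/-- The ultrafilter along which the limits are taken. -/
noncomputable def UF : Ultrafilter ℕ := hyperfilter ℕ

lemma UF_le : (UF : Filter ℕ) ≤ atTop := by
  rw [← Nat.cofinite_eq_atTop]; exact hyperfilter_le_cofinite

/-- Convergence in all the norms. -/
def Cv (D : Pre M) (f : ℕ → D.A) (g : D.A) : Prop :=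
  ∀ m, Tendsto (fun n => D.nn m (f n - g)) UF (𝓝 0)

lemma exists_cv (h : D.Ok) (f : ℕ → D.A) (hf : ∀ m, ∃ C : ℝ, ∀ᶠ n in atTop, D.nn m (f n) ≤ C) :
    ∃ g, Cv D f g := by
  refine h.cpt UF f fun m => ?_
  obtain ⟨C, hC⟩ := hf m
  obtain ⟨k, hk⟩ := eventually_atTop.1 hC
  have h0 : 0 ≤ ∑ i ∈ Finset.range k, D.nn m (f i) :=
    Finset.sum_nonneg fun i _ => h.fine_nn_nonneg _ _
  refine ⟨|C| + ∑ i ∈ Finset.range k, D.nn m (f i), fun n => ?_⟩
  rcases le_or_gt k n with hn | hn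
  · linarith [hk n hn, le_abs_self C]
  · have := Finset.single_le_sum (f := fun i => D.nn m (f i))
      (fun i _ => h.fine_nn_nonneg m (f i)) (Finset.mem_range.2 hn)
    linarith [abs_nonneg C]

lemma Cv.sub (h : D.Ok) {f f' : ℕ → D.A} {g g' : D.A} (h1 : Cv D f g) (h2 : Cv D f' g') :
    Cv D (fun n => f n - f' n) (g - g') := by
  intro m
  have := ((h1 m).const_mul 2).add ((h2 m).const_mul 2)
  simp only [mul_zero, add_zero] at this
  refine squeeze_zero (fun n => h.fine_nn_nonneg _ _) (fun n => ?_) this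
  rw [show f n - f' n - (g - g') = (f n - g) - (f' n - g') by abel]
  exact nn_sub_le h m _ _

lemma Cv.smul {f : ℕ → D.A} {g : D.A} (h1 : Cv D f g) (a : ℝ) :
    Cv D (fun n => a • f n) (a • g) := by
  intro m
  have := (h1 m).const_mul (a ^ 2)
  simpa only [← smul_sub, nn_smul, mul_zero] using this

lemma Cv.P (h : D.Ok) {f : ℕ → D.A} {g : D.A} (h1 : Cv D f g) :
    Cv D (fun n => D.P (f n)) (D.P g) := by
  intro m
  have := ((h1 (m + 1)).const_mul 2).add ((h1 m).const_mul 2)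
  simp only [mul_zero, add_zero] at this
  refine squeeze_zero (fun n => h.fine_nn_nonneg _ _) (fun n => ?_) this
  rw [← map_sub]
  exact nn_P_le h m _

lemma Cv.le (h : D.Ok) {f : ℕ → D.A} {g : D.A} (h1 : Cv D f g) {m : ℕ} {C : ℝ}
    (hC : ∀ᶠ n in atTop, D.nn m (f n) ≤ C) : D.nn m g ≤ 2 * C := by
  have := ((h1 m).const_mul 2).const_add (2 * C)
  simp only [mul_zero, add_zero] at this
  refine ge_of_tendsto this ((hC.filter_mono UF_le).mono fun n hn => ?_)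
  have h2 := nn_sub_le h m (f n) (f n - g)
  rw [sub_sub_cancel] at h2
  linarith

lemma tendsto_of_pow {a b : ℕ → ℝ} {l : Filter ℕ} (h : ∀ᶠ n in l, a n ^ 4 ≤ b n)
    (hb : Tendsto b l (𝓝 0)) : Tendsto a l (𝓝 0) := by
  have h1 : Tendsto (fun n => √(√(b n))) l (𝓝 0) := by simpa using hb.sqrt.sqrt
  rw [tendsto_zero_iff_abs_tendsto_zero]
  refine squeeze_zero' (Eventually.of_forall fun n => abs_nonneg _) (h.mono fun n hn => ?_) h1
  refine Real.le_sqrt_of_sq_le (Real.le_sqrt_of_sq_le ?_)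
  simp only [Function.comp_apply, sq_abs, ← pow_mul]
  exact hn

lemma Cv.eval (h : D.Ok) {f : ℕ → D.A} {g : D.A} (h1 : Cv D f g) (x : M) :
    Tendsto (fun n => (f n : C(M, ℝ)) x) UF (𝓝 ((g : C(M, ℝ)) x)) := by
  obtain ⟨C, -, hC⟩ := h.agmon
  have h2 := ((h1 0).const_mul C).mul (h1 1)
  simp only [mul_zero] at h2
  have h3 := tendsto_of_pow (Eventually.of_forall fun n => hC (f n - g) x) h2
  rw [← tendsto_sub_nhds_zero_iff]
  simpa using h3

lemma rm_tendsto (h : D.Ok) {G : ℕ → Gal D.I} (hs : ∀ n, D.Spec (G n) ((n : ℝ) + 1))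
    {f : ℕ → D.A} {B : ℝ} (hB : ∀ᶠ n in atTop, D.nn 1 (f n) ≤ B) (x : M) :
    Tendsto (fun n => ((hs n).rm (f n) : C(M, ℝ)) x) atTop (𝓝 0) := by
  obtain ⟨C, hC0, hC⟩ := h.agmon
  have h1 : Tendsto (fun n : ℕ => C * (B * (1 / ((n : ℝ) + 1))) * B) atTop (𝓝 0) := by
    simpa using ((tendsto_one_div_add_atTop_nhds_zero_nat.const_mul B).const_mul C).mul_const B
  refine tendsto_of_pow (hB.mono fun n hn => (hC _ x).trans ?_) h1
  have h2 := ((hs n).nn_rm_le h 1 (f n)).trans hn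
  have hn0 : (0 : ℝ) ≤ n := Nat.cast_nonneg n
  have h3 := (hs n).tail_rm h (by positivity) 0 (f n)
  have h4 := h.fine_nn_nonneg 0 ((hs n).rm (f n))
  have h5 := h.fine_nn_nonneg 1 ((hs n).rm (f n))
  have h6 : D.nn 0 ((hs n).rm (f n)) ≤ B * (1 / ((n : ℝ) + 1)) := by
    rw [mul_one_div, le_div_iff₀ (by positivity)]
    rw [zero_add] at h3
    nlinarith [mul_nonneg h4 (mul_nonneg hn0 (show (0 : ℝ) ≤ n + 1 by positivity))]
  exact mul_le_mul (mul_le_mul_of_nonneg_left h6 hC0.le) h2 h5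
    (mul_nonneg hC0.le (h4.trans h6))

lemma taylor {E : Type} [NormedAddCommGroup E] [NormedSpace ℝ E] {f f1 f2 : ℝ → E} {T B : ℝ}
    (h1 : ∀ s ∈ Icc 0 T, HasDerivWithinAt f (f1 s) (Icc 0 T) s)
    (h2 : ∀ s ∈ Icc 0 T, HasDerivWithinAt f1 (f2 s) (Icc 0 T) s)
    (hB : ∀ s ∈ Icc 0 T, ‖f2 s‖ ≤ B) {t t' : ℝ} (ht : t ∈ Icc 0 T) (ht' : t' ∈ Icc 0 T) :
    ‖f t' - f t - (t' - t) • f1 t‖ ≤ B * (t' - t) ^ 2 := by
  have hB0 : 0 ≤ B := (norm_nonneg _).trans (hB t ht)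
  have hsub : uIcc t t' ⊆ Icc 0 T := uIcc_subset_Icc ht ht'
  have h3 : ∀ s ∈ uIcc t t', ‖f1 s - f1 t‖ ≤ B * |t' - t| := fun s hs =>
    ((convex_Icc 0 T).norm_image_sub_le_of_norm_hasDerivWithin_le h2 hB ht (hsub hs)).trans
      (mul_le_mul_of_nonneg_left (abs_sub_left_of_mem_uIcc hs) hB0)
  have h4 := (convex_uIcc t t').norm_image_sub_le_of_norm_hasDerivWithin_le
    (f := fun s => f s - s • f1 t) (f' := fun s => f1 s - f1 t)
    (fun s hs => by
      have := ((h1 s (hsub hs)).mono hsub).sub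
        ((hasDerivWithinAt_id s (uIcc t t')).smul_const (f1 t))
      rw [one_smul] at this
      exact this) h3 left_mem_uIcc right_mem_uIcc
  rw [Real.norm_eq_abs, mul_assoc, abs_mul_abs_self, ← sq] at h4
  rw [show f t' - f t - (t' - t) • f1 t = f t' - t' • f1 t - (f t - t • f1 t) by
    rw [sub_smul]; abel]
  exact h4

/-- Weighted coordinates. -/
noncomputable def wl {n : ℕ} (w : Fin n → ℝ) : (Fin n → ℝ) →L[ℝ] EuclideanSpace ℝ (Fin n) :=
  (EuclideanSpace.equiv (Fin n) ℝ).symm.toContinuousLinearMap ∘L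
    ContinuousLinearMap.pi fun i => w i • ContinuousLinearMap.proj i

lemma norm_wl {n : ℕ} (w v : Fin n → ℝ) : ‖wl w v‖ ^ 2 = ∑ i, w i ^ 2 * v i ^ 2 := by
  rw [EuclideanSpace.real_norm_sq_eq]
  exact Finset.sum_congr rfl fun i _ => by simp [wl, mul_pow]

lemma taylor_sum {n : ℕ} (w : Fin n → ℝ) {f f1 f2 : ℝ → Fin n → ℝ} {T B : ℝ}
    (h1 : ∀ s ∈ Icc 0 T, HasDerivWithinAt f (f1 s) (Icc 0 T) s)
    (h2 : ∀ s ∈ Icc 0 T, HasDerivWithinAt f1 (f2 s) (Icc 0 T) s)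
    (hB : ∀ s ∈ Icc 0 T, ∑ i, w i ^ 2 * f2 s i ^ 2 ≤ B) {t t' : ℝ} (ht : t ∈ Icc 0 T)
    (ht' : t' ∈ Icc 0 T) :
    ∑ i, w i ^ 2 * (f t' - f t - (t' - t) • f1 t) i ^ 2 ≤ B * (t' - t) ^ 4 := by
  have hB0 : 0 ≤ B := (Finset.sum_nonneg fun i _ => by positivity).trans (hB t ht)
  have h := taylor (f := fun s => wl w (f s)) (f1 := fun s => wl w (f1 s))
    (f2 := fun s => wl w (f2 s)) (B := √B)
    (fun s hs => (wl w).hasFDerivAt.comp_hasDerivWithinAt s (h1 s hs))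
    (fun s hs => (wl w).hasFDerivAt.comp_hasDerivWithinAt s (h2 s hs))
    (fun s hs => Real.le_sqrt_of_sq_le (by rw [norm_wl]; exact hB s hs)) ht ht'
  rw [← map_smul, ← map_sub, ← map_sub] at h
  have h3 := pow_le_pow_left₀ (norm_nonneg _) h 2
  rw [norm_wl, mul_pow, Real.sq_sqrt hB0, ← pow_mul] at h3
  exact h3

variable {I : C(M, ℝ) →L[ℝ] ℝ}

/-- The time derivatives of a Galerkin solution. -/
noncomputable def xx (G : Gal I) (Q : C(M, ℝ)) : ℕ → (Fin G.n → ℝ) → Fin G.n → ℝ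
  | 0 => fun c => c
  | j + 1 => G.U Q (2 * j + 1)

lemma traj_mono {G : Gal I} {Q : C(M, ℝ)} {τ T : ℝ} {c : ℝ → Fin G.n → ℝ} (h : G.Traj Q τ c)
    (hT : T ≤ τ) : G.Traj Q T c :=
  ⟨h.zero, fun t ht => (h.der t (Icc_subset_Icc_right hT ht)).mono (Icc_subset_Icc_right hT)⟩

lemma xx_der {Q : C(M, ℝ)} (hS : Sys I Q) {G : Gal I} {T : ℝ} {c : ℝ → Fin G.n → ℝ}
    (h : G.Traj Q T c) (j : ℕ) : ∀ s ∈ Icc 0 T,
    HasDerivWithinAt (fun s => xx G Q j (c s)) (xx G Q (j + 1) (c s)) (Icc 0 T) s := by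
  intro s hs
  cases j with
  | zero => exact h.der s hs
  | succ j =>
    have h1 := ((hS.smU G (2 * j + 1)).differentiable (by simp) (c s)).hasFDerivAt
    exact h1.comp_hasDerivWithinAt s (h.der s hs)

lemma em_sub {G : Gal D.I} {Λ : ℝ} (hs : D.Spec G Λ) (a b : Fin G.n → ℝ) :
    hs.em (a - b) = hs.em a - hs.em b := by
  simp only [Pre.Spec.em, Pi.sub_apply, sub_smul, Finset.sum_sub_distrib]

lemma em_smul {G : Gal D.I} {Λ : ℝ} (hs : D.Spec G Λ) (r : ℝ) (a : Fin G.n → ℝ) :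
    hs.em (r • a) = r • hs.em a := by
  simp only [Pre.Spec.em, Pi.smul_apply, smul_eq_mul, mul_smul, Finset.smul_sum]

end Lim

open Lim in
theorem lim (h1 : SpecStmt.{u}) (h2 : FineStmt.{u}) : LimStmt.{u} := by
  intro M _ _ D h Q hS hE hB
  obtain ⟨γ, K, hγ, hK, hF⟩ := h2 M D h
  choose G hs using fun n : ℕ => h1 M D h ((n : ℝ) + 1)
  have hΛ : ∀ n : ℕ, (1 : ℝ) ≤ n + 1 := fun n => le_add_of_nonneg_left (Nat.cast_nonneg n)
  choose c hc using fun n : ℕ =>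
    hE γ K n hγ hK (Nat.cast_nonneg n) (G n) (hF (G n) _ (hΛ n) (hs n))
  have ev : ∀ T : ℝ, ∀ᶠ n : ℕ in atTop, (G n).Traj Q T (c n) := fun T =>
    (tendsto_natCast_atTop_atTop.eventually_ge_atTop T).mono fun n hn => traj_mono (hc n) hn
  have bx : ∀ (j m : ℕ) (T : ℝ), ∃ C : ℝ, ∀ n, (G n).Traj Q T (c n) → ∀ t ∈ Icc 0 T,
      ∑ i, (1 + (G n).lam i) ^ (2 * m) * xx (G n) Q j (c n t) i ^ 2 ≤ C := by
    intro j m T
    cases j with
    | zero =>
      obtain ⟨C, hC⟩ := hB T m 0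
      exact ⟨C, fun n hn t ht => (hC (G n) _ (hΛ n) (hs n) _ hn t ht).1⟩
    | succ j =>
      obtain ⟨C, hC⟩ := hB T m (2 * j + 1)
      exact ⟨C, fun n hn t ht => (hC (G n) _ (hΛ n) (hs n) _ hn t ht).2⟩
  have bx' : ∀ (j : ℕ) (t : ℝ), 0 ≤ t → ∀ m : ℕ, ∃ C : ℝ, ∀ᶠ n in atTop,
      D.nn m ((hs n).em (xx (G n) Q j (c n t))) ≤ C := by
    intro j t ht m
    obtain ⟨C, hC⟩ := bx j m t
    exact ⟨C, (ev t).mono fun n hn => by rw [(hs n).nn_em]; exact hC n hn t ⟨ht, le_rfl⟩⟩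
  have bq : ∀ (t : ℝ), 0 ≤ t → ∀ m : ℕ, ∃ C : ℝ, ∀ᶠ n in atTop,
      D.nn m ((hs n).em ((G n).U Q 0 (c n t))) ≤ C := by
    intro t ht m
    obtain ⟨C, hC⟩ := hB t m 0
    exact ⟨C, (ev t).mono fun n hn => by
      rw [(hs n).nn_em]; exact (hC (G n) _ (hΛ n) (hs n) _ hn t ⟨ht, le_rfl⟩).2⟩
  choose! W hW using fun j t ht => exists_cv h _ (bx' j t ht)
  choose! q hq using fun t ht => exists_cv h _ (bq t ht)
  refine ⟨W, q, ?_, fun t ht => ?_, fun j m T => ?_⟩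
  · have := (hW 0 0 le_rfl).le h (m := 0) (C := 0) (Eventually.of_forall fun n => by
      rw [(hs n).nn_em]; simp [xx, (hc n).zero])
    rw [D.nn_zero_eq] at this
    exact h.eq_zero_of_ip (le_antisymm (by linarith) (h.fine_ip_self_nonneg _))
  · obtain ⟨Ca, hCa0, hCa⟩ := h.alg 1 le_rfl
    obtain ⟨C0, hC0⟩ := bx' 0 t ht 1
    obtain ⟨Ce, hCe⟩ := h.expb 1 le_rfl (4 ^ 2 * C0)
    have hm : ∀ n, (G n).rho (c n t) ∈ D.A := fun n =>
      h.ex_mem _ (D.A.smul_mem ((hs n).emb_mem _) _)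
    let r : ℕ → D.A := fun n => ⟨(G n).rho (c n t), hm n⟩
    have hr : ∀ᶠ n in atTop, D.nn 1 (r n) ≤ Ce := hC0.mono fun n hn =>
      hCe ((4 : ℝ) • (hs n).em (c n t)) (r n) (by simp [r, Gal.rho, (hs n).coe_em])
        (by rw [nn_smul]; exact mul_le_mul_of_nonneg_left hn (by norm_num))
    have bd : ∀ (v : ℕ → D.A) (C : ℝ), (∀ᶠ n in atTop, D.nn 1 (v n) ≤ C) →
        ∀ᶠ n in atTop, D.nn 1 (r n * v n) ≤ Ca * Ce * C := fun v C hv =>
      (hr.and hv).mono fun n hn => (hCa _ _).trans (mul_le_mul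
        (mul_le_mul_of_nonneg_left hn.1 hCa0.le) hn.2 (h.fine_nn_nonneg _ _)
        (mul_nonneg hCa0.le ((h.fine_nn_nonneg _ _).trans hn.1)))
    have er : ∀ x, Tendsto (fun n => (r n : C(M, ℝ)) x) UF
        (𝓝 (Real.exp (4 * (W 0 t : C(M, ℝ)) x))) := fun x => by
      have := (((hW 0 t ht).eval h x).const_mul 4).rexp
      simpa [r, Gal.rho, ex, (hs _).coe_em, xx] using this
    constructor
    · obtain ⟨C1, hC1⟩ := bq t ht 1
      ext x
      have a1 := (rm_tendsto h hs (f := fun n => r n * (hs n).em ((G n).U Q 0 (c n t)) - Q)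
        (B := 2 * (Ca * Ce * C1) + 2 * D.nn 1 Q) ((bd _ _ hC1).mono fun n hn =>
          (nn_sub_le h 1 _ _).trans (by linarith)) x).mono_left UF_le
      have a2 := (((er x).mul ((hq t ht).eval h x)).sub_const ((Q : C(M, ℝ)) x)).sub
        ((((hW 0 t ht).P h).smul (1 / 2)).eval h x)
      have e : ∀ n, (hs n).em ((hs n).co (r n * (hs n).em ((G n).U Q 0 (c n t)) - Q)) =
          (1 / 2 : ℝ) • D.P ((hs n).em (xx (G n) Q 0 (c n t))) := fun n => by
        rw [(hs n).P_em, ← em_smul]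
        congr 1
        funext i
        have := hS.eq0 (G n) (c n t) i
        simp only [Pre.Spec.co, AddSubgroupClass.coe_sub, MulMemClass.coe_mul, (hs n).coe_em,
          sub_mul, map_sub, Pi.smul_apply, smul_eq_mul, xx, r]
        rw [Gal.u] at this
        rw [this]; ring
      simp only [Pre.Spec.rm, e] at a1
      have a3 := tendsto_nhds_unique a2 a1
      simp only [ContinuousMap.mul_apply, ex, ContinuousMap.coe_mk, ContinuousMap.smul_apply,
        smul_eq_mul, AddMemClass.coe_add, ContinuousMap.add_apply]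
      linarith
    · obtain ⟨C1, hC1⟩ := bx' 1 t ht 1
      ext x
      have a1 := (rm_tendsto h hs (f := fun n => r n * (hs n).em (xx (G n) Q 1 (c n t)))
        (bd _ _ hC1) x).mono_left UF_le
      have a2 := ((er x).mul ((hW 1 t ht).eval h x)).sub
        ((((hq t ht).P h).smul (-1 / 2)).eval h x)
      have e : ∀ n, (hs n).em ((hs n).co (r n * (hs n).em (xx (G n) Q 1 (c n t)))) =
          (-1 / 2 : ℝ) • D.P ((hs n).em ((G n).U Q 0 (c n t))) := fun n => by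
        rw [(hs n).P_em, ← em_smul]
        congr 1
        funext i
        have := hS.eqn (G n) 0 (c n t) i
        simp only [Pre.Spec.co, MulMemClass.coe_mul, (hs n).coe_em,
          Pi.smul_apply, smul_eq_mul, xx, r]
        simp only [Gal.u, Gal.T, add_zero, sg] at this
        rw [this]; ring
      simp only [Pre.Spec.rm, e] at a1
      have a3 := tendsto_nhds_unique a2 a1
      simp only [ContinuousMap.mul_apply, ex, ContinuousMap.coe_mk, ContinuousMap.smul_apply,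
        smul_eq_mul]
      linarith
  · obtain ⟨C, hC⟩ := bx (j + 1 + 1) m T
    refine ⟨2 * C, fun t ht t' ht' => ?_⟩
    have a1 := ((hW j t' ht'.1).sub h (hW j t ht.1)).sub h ((hW (j + 1) t ht.1).smul (t' - t))
    rw [mul_assoc]
    refine a1.le h ((ev T).mono fun n hn => ?_)
    rw [← em_smul, ← em_sub, ← em_sub, (hs n).nn_em]
    have := taylor_sum (fun i => (1 + (G n).lam i) ^ m) (xx_der hS hn j) (xx_der hS hn (j + 1))
      (B := C) (fun s hs => by simpa only [← pow_mul, mul_comm m 2] using hC n hn s hs) ht ht'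
    simpa only [← pow_mul, mul_comm m 2] using this

end Pool.Agent.MP_417fa2_gt.Flow

end MrgPart6

-- marker of a merged file
example : 731051 + 108017 = 731051 + 108017 := rfl
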